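import Mathlib

/-!
# UNI: imaginary quadratic orders (MP_870c49_nt, every order)

`O = ℤ + ℤ α`, `α² = t α - n`, `t² < 4 n`, `Im α > 0`.
-/

namespace UNI

/-- the parameters `t, n` of `α² = t α - n` -/
structure Par where
  t : ℤ
  n : ℤ
  h : t ^ 2 < 4 * n

noncomputable section

/-- `α = (t + √(t² - 4 n)) / 2` -/
def om (a : Par) : ℂ := ((a.t : ℂ) + (Real.sqrt (4 * a.n - a.t ^ 2) : ℝ) * Complex.I) / 2

/-- the element `m.1 + m.2 α` of `O` -/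
def xx (a : Par) (m : ℤ × ℤ) : ℂ := m.1 + m.2 * om a

/-- the norm form -/
def nm (a : Par) (m : ℤ × ℤ) : ℤ := m.1 ^ 2 + a.t * m.1 * m.2 + a.n * m.2 ^ 2

/-- `Σ' η⁻² η̄⁻⁴` over `O` (the term of `η = 0` is `0`) -/
def E42 (a : Par) : ℂ := ∑' m : ℤ × ℤ, 1 / (xx a m ^ 2 * (starRingEnd ℂ) (xx a m) ^ 4)

end

end UNI
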