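import Mathlib

/-!
# UNI.AExt : an alternating 4-form as a functional on a ring

`R = ℚ ⊗ ExteriorAlgebra ℤ A`, `hat x = 1 ⊗ ι x`, `lam = ` (`ExteriorAlgebra.liftAlternating` of `Φ`
in degree 4, `0` in the other degrees), extended to `ℚ ⊗ _` (`ℂ` is a `ℚ`-vector space).
-/

open scoped TensorProduct

namespace UNI

/-- The family of alternating forms which is `Φ` in degree 4 and `0` elsewhere. -/
private noncomputable def AExtFam {A : Type} [AddCommGroup A] (Φ : A [⋀^Fin 4]→ₗ[ℤ] ℂ) :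
    (i : ℕ) → A [⋀^Fin i]→ₗ[ℤ] ℂ
  | 4 => Φ
  | _ => 0

/-- The functional on the exterior algebra. -/
private noncomputable def AExtL {A : Type} [AddCommGroup A] (Φ : A [⋀^Fin 4]→ₗ[ℤ] ℂ) :
    ExteriorAlgebra ℤ A →ₗ[ℤ] ℂ :=
  ExteriorAlgebra.liftAlternating (AExtFam Φ)

private theorem AExtL_apply {A : Type} [AddCommGroup A] (Φ : A [⋀^Fin 4]→ₗ[ℤ] ℂ) (x y z w : A) :
    AExtL Φ (ExteriorAlgebra.ι ℤ x * ExteriorAlgebra.ι ℤ y * ExteriorAlgebra.ι ℤ z *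
      ExteriorAlgebra.ι ℤ w) = Φ ![x, y, z, w] := by
  have h := ExteriorAlgebra.liftAlternating_apply_ιMulti (R := ℤ) (AExtFam Φ) ![x, y, z, w]
  have h2 : ExteriorAlgebra.ιMulti ℤ 4 ![x, y, z, w] =
      ExteriorAlgebra.ι ℤ x * ExteriorAlgebra.ι ℤ y * ExteriorAlgebra.ι ℤ z *
      ExteriorAlgebra.ι ℤ w := by
    simp [ExteriorAlgebra.ιMulti_apply, mul_assoc]
  rw [h2] at h
  exact h

/-- The bilinear map `(q, v) ↦ q * L v`. -/
private noncomputable def AExtB {M : Type} [AddCommGroup M] [Module ℤ M] (L : M →ₗ[ℤ] ℂ) :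
    ℚ →ₗ[ℤ] M →ₗ[ℤ] ℂ :=
  (LinearMap.lcomp ℤ ℂ L).comp
    ((LinearMap.mul ℤ ℂ).comp (Rat.castHom ℂ).toAddMonoidHom.toIntLinearMap)

theorem ext_ring {A : Type} [AddCommGroup A] (Φ : A [⋀^Fin 4]→ₗ[ℤ] ℂ) :
    ∃ (R : Type) (_ : Ring R) (_ : Algebra ℚ R) (hat : A →+ R) (lam : R →+ ℂ),
      (∀ x, hat x * hat x = 0) ∧
      ∀ x y z w, lam (hat x * hat y * hat z * hat w) = Φ ![x, y, z, w] := by
  refine ⟨ℚ ⊗[ℤ] ExteriorAlgebra ℤ A, inferInstance, inferInstance,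
    ((Algebra.TensorProduct.includeRight (R := ℤ) (A := ℚ)
      (B := ExteriorAlgebra ℤ A)).toLinearMap.comp (ExteriorAlgebra.ι ℤ)).toAddMonoidHom,
    (TensorProduct.lift (AExtB (AExtL Φ))).toAddMonoidHom, ?_, ?_⟩
  · intro x
    simp [Algebra.TensorProduct.tmul_mul_tmul]
  · intro x y z w
    simp only [LinearMap.toAddMonoidHom_coe, LinearMap.comp_apply, AlgHom.toLinearMap_apply,
      Algebra.TensorProduct.includeRight_apply, Algebra.TensorProduct.tmul_mul_tmul, one_mul,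
      TensorProduct.lift.tmul]
    rw [show AExtB (AExtL Φ) 1 (ExteriorAlgebra.ι ℤ x * ExteriorAlgebra.ι ℤ y *
      ExteriorAlgebra.ι ℤ z * ExteriorAlgebra.ι ℤ w) = ((1 : ℚ) : ℂ) * AExtL Φ
      (ExteriorAlgebra.ι ℤ x * ExteriorAlgebra.ι ℤ y *
      ExteriorAlgebra.ι ℤ z * ExteriorAlgebra.ι ℤ w) from rfl, AExtL_apply]
    simp

end UNI
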