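import Pool.Agent.UNI.AF6

/-!
# UNI.AForm : the formal closedness lemma

`Γ` finite abelian group, `R` a `ℚ`-algebra (the exterior algebra), `L` an additive subgroup of
letters (all squares `0`, so any two letters anticommute). Letters `u k, v k, w k, z k, g k`
(`z` belongs to the line `u + v`), `u, v, w, z` have sum `0` over `Γ`.
-/

open Finset

namespace UNI

open AF in
theorem form {Γ R : Type*} [AddCommGroup Γ] [Fintype Γ] [Ring R] [Module ℚ R]
    (L : AddSubgroup R) (hL : ∀ x ∈ L, x * x = 0)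
    (u v w z g : Γ → R) (hu : ∀ k, u k ∈ L) (hv : ∀ k, v k ∈ L) (hw : ∀ k, w k ∈ L)
    (hg : ∀ k, g k ∈ L) (eps : R)
    (su : ∑ k, u k = 0) (sv : ∑ k, v k = 0) (sw : ∑ k, w k = 0)
    (gn : ∀ k, g (-k) = g k)
    (W : Γ → Γ → ℤ) (Wn : ∀ k l, W (-k) l = W k l) (Wa : ∀ k l, W l k = -W k l)
    (Wr : ∀ l, ∑ k, W k l = 0) (Ws : ∀ k l, W k l ≠ 0 → ∃ m, k = m + m)
    (K : ∀ d, ∑ k, (W k d - W k (k + d)) • g k = 0) :
    ∑ s, ∑ t, dl W (sh u s) (sh v t) (sh w (s - t)) (sh z (s + t)) g eps = 0 := by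
  set n : ℤ := (Fintype.card Γ : ℤ) with hn
  have hC : ∀ s t : Γ, fC (sh w (s - t)) g = -((2 * n) • w (t - s)) - (2 : ℤ) • ∑ j, g j := by
    intro s t
    rw [fC, sum_fa _ _ (sum_sh w sw (s - t))]
    have e : sh w (s - t) 0 = w (t - s) := by
      simp only [sh]
      congr 1
      abel
    rw [e]
  set X : Γ → Γ → Γ → R := fun s t h =>
    (fF1 (sh u s) (sh v t) (sh w (s - t)) (sh z (s + t)) g h + eps) * fF (sh u s) (sh v t) h
    with hX
  have hdl : ∀ s t, dl W (sh u s) (sh v t) (sh w (s - t)) (sh z (s + t)) g eps =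
      (16 * n ^ 2) • (∑ h, ∑ k, ∑ l, W k l • (X s t h * u (k - s) * v (l - t)))
      + (∑ k, ∑ l, W k l • ((∑ j, fY1 (sh u s) g k j * fY (sh u s) g k j) *
        (-((2 * n) • w (t - s)) - (2 : ℤ) • ∑ j, g j) * fA (sh v t) l))
      + ∑ k, ∑ l, W k l • ((∑ j, fY1 (sh v t) g l j * fY (sh v t) g l j) *
        (-((2 * n) • w (t - s)) - (2 : ℤ) • ∑ j, g j) * fA (sh u s) k) := by
    intro s t
    rw [dl]
    have h1 : ∀ k l, (4 * (∑ h, (fF1 (sh u s) (sh v t) (sh w (s - t)) (sh z (s + t)) g h + eps) *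
          fF (sh u s) (sh v t) h * fA (sh u s) k * fA (sh v t) l)
        + (∑ j, fY1 (sh u s) g k j * fY (sh u s) g k j * fC (sh w (s - t)) g * fA (sh v t) l)
        + (∑ j, fY1 (sh v t) g l j * fY (sh v t) g l j * fC (sh w (s - t)) g * fA (sh u s) k)) =
        (4 : ℤ) • (∑ h, X s t h * fA (sh u s) k * fA (sh v t) l)
        + ((∑ j, fY1 (sh u s) g k j * fY (sh u s) g k j) *
        (-((2 * n) • w (t - s)) - (2 : ℤ) • ∑ j, g j) * fA (sh v t) l)
        + ((∑ j, fY1 (sh v t) g l j * fY (sh v t) g l j) *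
        (-((2 * n) • w (t - s)) - (2 : ℤ) • ∑ j, g j) * fA (sh u s) k) := by
      intro k l
      rw [hC]
      rw [Finset.sum_mul, Finset.sum_mul, Finset.sum_mul, Finset.sum_mul, zsmul_eq_mul]
      norm_num
      rfl
    simp_rw [h1]
    simp only [smul_add, Finset.sum_add_distrib]
    congr 2
    have hsm : ∀ (c : ℤ) (Φ : Γ → Γ → R), ∑ k, ∑ l, W k l • (c • Φ k l) =
        c • ∑ k, ∑ l, W k l • Φ k l := by
      intro c Φ
      simp only [Finset.smul_sum]
      refine Finset.sum_congr rfl (fun k _ => Finset.sum_congr rfl (fun l _ => ?_))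
      rw [smul_comm]
    rw [hsm]
    have h2 : ∑ k, ∑ l, W k l • ∑ h, X s t h * fA (sh u s) k * fA (sh v t) l =
        ∑ h, ∑ k, ∑ l, W k l • (X s t h * fA (sh u s) k * fA (sh v t) l) := by
      simp_rw [Finset.smul_sum]
      have h3 : ∀ k, ∑ l, ∑ h, W k l • (X s t h * fA (sh u s) k * fA (sh v t) l) =
          ∑ h, ∑ l, W k l • (X s t h * fA (sh u s) k * fA (sh v t) l) :=
        fun k => Finset.sum_comm
      simp_rw [h3]
      rw [Finset.sum_comm]
    rw [h2]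
    have h4 : ∀ h, ∑ k, ∑ l, W k l • (X s t h * fA (sh u s) k * fA (sh v t) l) =
        (4 * n ^ 2) • ∑ k, ∑ l, W k l • (X s t h * u (k - s) * v (l - t)) := by
      intro h
      rw [red2 Wn Wa Wr]
      rfl
    simp_rw [h4]
    rw [← Finset.smul_sum, smul_smul]
    congr 1
    ring
  simp_rw [hdl]
  simp only [Finset.sum_add_distrib, ← Finset.smul_sum]
  have p1 : ∑ s, ∑ t, ∑ h, ∑ k, ∑ l, W k l • (X s t h * u (k - s) * v (l - t)) = T W u v X := by
    rw [T]
    have a1 : ∀ s t h : Γ, ∑ k, ∑ l, W k l • (X s t h * u (k - s) * v (l - t)) =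
        ∑ x : Γ × Γ, W x.1 x.2 • (X s t h * u (x.1 - s) * v (x.2 - t)) := by
      intro s t h
      rw [Fintype.sum_prod_type]
    simp_rw [a1]
    have a2 : ∀ s t : Γ, ∑ h, ∑ x : Γ × Γ, W x.1 x.2 • (X s t h * u (x.1 - s) * v (x.2 - t)) =
        ∑ x : Γ × Γ, ∑ h, W x.1 x.2 • (X s t h * u (x.1 - s) * v (x.2 - t)) :=
      fun s t => Finset.sum_comm
    simp_rw [a2]
    have a3 : ∀ s : Γ, ∑ t, ∑ x : Γ × Γ, ∑ h, W x.1 x.2 • (X s t h * u (x.1 - s) * v (x.2 - t)) =
        ∑ x : Γ × Γ, ∑ t, ∑ h, W x.1 x.2 • (X s t h * u (x.1 - s) * v (x.2 - t)) :=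
      fun s => Finset.sum_comm
    simp_rw [a3]
    rw [Finset.sum_comm, Fintype.sum_prod_type]
    refine Finset.sum_congr rfl (fun k _ => Finset.sum_congr rfl (fun l _ => ?_))
    simp_rw [Finset.smul_sum]
  rw [p1]
  have p2 := partI (W := W) (z := z) (g := g) hL hu hv hw su sv Wn Wa Wr Ws eps
  have p3 := partII (W := W) (w := w) hL hu hg su sv gn Wn Wa Wr K
  have Wn2 : ∀ k l, (fun a b => W b a) (-k) l = (fun a b => W b a) k l := fun k l =>
    Wn' Wn Wa l k
  have Wa2 : ∀ k l, (fun a b => W b a) l k = -(fun a b => W b a) k l := fun k l => Wa l k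
  have Wr2 : ∀ l, ∑ k, (fun a b => W b a) k l = 0 := fun l => Wr' Wa Wr l
  have K2 : ∀ d, ∑ k, ((fun a b => W b a) k d - (fun a b => W b a) k (k + d)) • g k = 0 := by
    intro d
    have h1 : ∀ k, ((fun a b => W b a) k d - (fun a b => W b a) k (k + d)) • g k =
        -((W k d - W k (k + d)) • g k) := by
      intro k
      simp only
      rw [Wa k d, Wa k (k + d), ← neg_smul]
      congr 1
      ring
    simp_rw [h1]
    rw [Finset.sum_neg_distrib, K d, neg_zero]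
  have p4 := partII (W := fun a b => W b a) (u := v) (v := u) (w := fun a => w (-a)) hL hv hg sv su
    gn Wn2 Wa2 Wr2 K2
  have p5 : ∑ s, ∑ t, ∑ k, ∑ l, W k l • ((∑ j, fY1 (sh v t) g l j * fY (sh v t) g l j) *
        (-((2 * n) • w (t - s)) - (2 : ℤ) • ∑ j, g j) * fA (sh u s) k) =
      (16 * n ^ 3) • MA (fun a b => W b a) v u (fun a => w (-a)) := by
    rw [← p4, Finset.sum_comm]
    refine Finset.sum_congr rfl (fun t _ => Finset.sum_congr rfl (fun s _ => ?_))
    rw [Finset.sum_comm]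
    refine Finset.sum_congr rfl (fun l _ => Finset.sum_congr rfl (fun k _ => ?_))
    rw [neg_sub]
  rw [p5]
  have p2' : T W u v X = -(n • MA W u v w) - n • MA (fun a b => W b a) v u (fun a => w (-a)) := p2
  have p3' : ∑ s, ∑ t, ∑ k, ∑ l, W k l • ((∑ j, fY1 (sh u s) g k j * fY (sh u s) g k j) *
      (-((2 * n) • w (t - s)) - (2 : ℤ) • ∑ j, g j) * fA (sh v t) l) = (16 * n ^ 3) • MA W u v w :=
    p3
  rw [p2', p3']
  module

end UNI
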