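import Pool.Agent.UNI.AF1

/-!
# UNI.AKd : the constant `K(d)` vanishes

`Γ` finite abelian group, `A`, `B` endomorphisms with `A + B = 1`, `H` an invariant weight,
`g` with the distribution relations for `A` and `B` on their images (constants `CA`, `CB`, extra
terms `eA`, `eB` at `0`). Then `Σ_k W(k, d) g(k) = Σ_k W(k, k + d) g(k)` for every `d`, where
`W(k,l) = H(Bk, Al) - H(ABk, Al) + H(ABk, Bl) - (k ↔ l)`.
-/

open Finset

namespace UNI

namespace AF

/-- push forward under an endomorphism with a distribution relation -/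
theorem push {Γ R : Type*} [AddCommGroup Γ] [Fintype Γ] [DecidableEq Γ] [AddCommGroup R]
    (A : Γ →+ Γ) {g : Γ → R} {CA eA : R}
    (hA : ∀ l, (∃ k, A k = l) →
      ∑ k ∈ Finset.univ.filter (fun k => A k = l), g k = g l + CA + if l = 0 then eA else 0)
    (Φ : Γ → ℤ) (hΦ : ∀ l, Φ l ≠ 0 → ∃ k, A k = l) :
    ∑ k, Φ (A k) • g k = (∑ l, Φ l • g l) + (∑ l, Φ l) • CA + Φ 0 • eA := by
  have h1 : ∑ k, Φ (A k) • g k =
      ∑ l, ∑ k ∈ Finset.univ.filter (fun k => A k = l), Φ (A k) • g k :=
    (Finset.sum_fiberwise Finset.univ (fun k => A k) (fun k => Φ (A k) • g k)).symm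
  rw [h1]
  have h2 : ∀ l, ∑ k ∈ Finset.univ.filter (fun k => A k = l), Φ (A k) • g k =
      Φ l • g l + Φ l • CA + if l = 0 then Φ 0 • eA else 0 := by
    intro l
    have a1 : ∑ k ∈ Finset.univ.filter (fun k => A k = l), Φ (A k) • g k =
        Φ l • ∑ k ∈ Finset.univ.filter (fun k => A k = l), g k := by
      rw [Finset.smul_sum]
      refine Finset.sum_congr rfl (fun k hk => ?_)
      rw [(Finset.mem_filter.1 hk).2]
    rw [a1]
    by_cases h0 : Φ l = 0
    · rw [h0, zero_smul, zero_smul, zero_smul]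
      by_cases hl : l = 0
      · subst hl
        rw [if_pos rfl, h0, zero_smul]
        simp
      · rw [if_neg hl]
        simp
    · rw [hA l (hΦ l h0), smul_add, smul_add]
      by_cases hl : l = 0
      · subst hl
        rw [if_pos rfl, if_pos rfl]
      · rw [if_neg hl, if_neg hl, smul_zero]
  simp_rw [h2]
  rw [Finset.sum_add_distrib, Finset.sum_add_distrib, ← Finset.sum_smul]
  simp

/-- total mass under push forward -/
theorem push_sum {Γ : Type*} [AddCommGroup Γ] [Fintype Γ] [DecidableEq Γ]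
    (A : Γ →+ Γ) (Φ : Γ → ℤ) (hΦ : ∀ l, Φ l ≠ 0 → ∃ k, A k = l) (h0 : ∑ l, Φ l = 0) :
    ∑ k, Φ (A k) = 0 := by
  set n : ℕ := (Finset.univ.filter (fun k => A k = 0)).card with hn
  have h := push (R := ℤ) A (g := fun _ => 1) (CA := (n : ℤ) - 1) (eA := 0) (fun l hl => ?_) Φ hΦ
  · simp only [smul_eq_mul, mul_one, mul_zero, add_zero, h0, zero_mul] at h
    exact h
  · obtain ⟨k0, hk0⟩ := hl
    rw [Finset.sum_const, nsmul_eq_mul, mul_one]
    have hc : (Finset.univ.filter (fun k => A k = l)).card = n := by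
      rw [hn]
      refine Finset.card_bij (fun k _ => k - k0) ?_ ?_ ?_
      · intro k hk
        rw [Finset.mem_filter] at hk ⊢
        refine ⟨Finset.mem_univ _, ?_⟩
        rw [map_sub, hk.2, hk0, sub_self]
      · intro a _ b _ hab
        exact sub_left_injective hab
      · intro b hb
        rw [Finset.mem_filter] at hb
        refine ⟨b + k0, ?_, ?_⟩
        · rw [Finset.mem_filter]
          refine ⟨Finset.mem_univ _, ?_⟩
          rw [map_add, hb.2, hk0, zero_add]
        · rw [add_sub_cancel_right]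
    rw [hc]
    simp

end AF

open AF in
theorem kd_zero {Γ R : Type*} [AddCommGroup Γ] [Fintype Γ] [DecidableEq Γ] [AddCommGroup R]
    (A B : Γ →+ Γ) (hAB : ∀ k, A k + B k = k) (H : Γ → Γ → ℤ)
    (hs : ∀ k l, H k l = H l k) (hn : ∀ k l, H (-k) l = H k l) (ha : ∀ k l, H k (k + l) = H k l)
    (hr : ∀ k, ∑ l, H k l = 0) (hsupp : ∀ k l, H k l ≠ 0 → ∃ m, A (B m) = k)
    (g : Γ → R) (gn : ∀ k, g (-k) = g k) (CA CB eA eB : R)
    (hA : ∀ l, (∃ k, A k = l) →
      ∑ k ∈ Finset.univ.filter (fun k => A k = l), g k = g l + CA + if l = 0 then eA else 0)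
    (hB : ∀ l, (∃ k, B k = l) →
      ∑ k ∈ Finset.univ.filter (fun k => B k = l), g k = g l + CB + if l = 0 then eB else 0)
    (W : Γ → Γ → ℤ) (hW : ∀ k l, W k l =
      (H (B k) (A l) - H (A (B k)) (A l) + H (A (B k)) (B l)) -
      (H (B l) (A k) - H (A (B l)) (A k) + H (A (B l)) (B k))) (d : Γ) :
    ∑ k, (W k d - W k (k + d)) • g k = 0 := by
  have hB' : ∀ k, B k = k - A k := fun k => eq_sub_iff_add_eq'.2 (hAB k)
  have hcom : ∀ k, B (A k) = A (B k) := by
    intro k
    rw [hB' (A k), hB' k, map_sub]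
  have hn2 : ∀ k l, H k (-l) = H k l := fun k l => by rw [hs, hn, hs]
  have ha2 : ∀ k l, H k (l - k) = H k l := fun k l => by rw [← ha k (l - k), add_sub_cancel]
  have hr2 : ∀ l, ∑ k, H k l = 0 := fun l => by
    rw [← hr l]
    exact Finset.sum_congr rfl (fun k _ => hs k l)
  -- supports
  have sA : ∀ k l, H k l ≠ 0 → ∃ m, A m = k := fun k l h => by
    obtain ⟨m, hm⟩ := hsupp k l h
    exact ⟨B m, hm⟩
  have sB : ∀ k l, H k l ≠ 0 → ∃ m, B m = k := fun k l h => by
    obtain ⟨m, hm⟩ := hsupp k l h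
    exact ⟨A m, by rw [hcom, hm]⟩
  have sAB : ∀ k l, H (A k) l ≠ 0 → ∃ m, B m = k := fun k l h => by
    obtain ⟨m, hm⟩ := hsupp _ l h
    have h0 : A (k - B m) = 0 := by rw [map_sub, hm, sub_self]
    have h1 := hAB (k - B m)
    rw [h0, zero_add] at h1
    refine ⟨k - B m + m, ?_⟩
    rw [map_add, h1, sub_add_cancel]
  -- first sum
  have t1 : ∑ k, H (B k) (A d) • g k = (∑ l, H l (A d) • g l) + H 0 (A d) • eB := by
    rw [push B hB (fun l => H l (A d)) (fun l h => sB _ _ h), hr2, zero_smul, add_zero]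
  have tAB : ∀ x, ∑ k, H (A (B k)) x • g k =
      (∑ l, H l x • g l) + H 0 x • eA + H 0 x • eB := by
    intro x
    rw [push B hB (fun l => H (A l) x) (fun l h => sAB _ _ h)]
    have e1 : ∑ l, H (A l) x = 0 :=
      push_sum A (fun l => H l x) (fun l h => sA _ _ h) (hr2 x)
    rw [push A hA (fun l => H l x) (fun l h => sA _ _ h), hr2, e1, zero_smul, zero_smul, add_zero,
      add_zero, map_zero]
  have t4 : ∀ x, ∑ k, H x (A k) • g k = (∑ l, H l x • g l) + H 0 x • eA := by
    intro x
    have : ∀ k, H x (A k) = (fun l => H l x) (A k) := fun k => hs _ _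
    simp_rw [this]
    rw [push A hA (fun l => H l x) (fun l h => sA _ _ h), hr2, zero_smul, add_zero]
  have t6 : ∀ x, ∑ k, H x (B k) • g k = (∑ l, H l x • g l) + H 0 x • eB := by
    intro x
    have : ∀ k, H x (B k) = (fun l => H l x) (B k) := fun k => hs _ _
    simp_rw [this]
    rw [push B hB (fun l => H l x) (fun l h => sB _ _ h), hr2, zero_smul, add_zero]
  have K1 : ∑ k, W k d • g k =
      -(H 0 (A d) • eA) + H 0 (B d) • eB + H 0 (A (B d)) • eA - H 0 (A (B d)) • eB := by
    have e : ∀ k, W k d • g k = H (B k) (A d) • g k - H (A (B k)) (A d) • g k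
        + H (A (B k)) (B d) • g k - H (B d) (A k) • g k + H (A (B d)) (A k) • g k
        - H (A (B d)) (B k) • g k := by
      intro k
      rw [hW]
      module
    simp_rw [e]
    rw [Finset.sum_sub_distrib, Finset.sum_add_distrib, Finset.sum_sub_distrib,
      Finset.sum_add_distrib, Finset.sum_sub_distrib, t1, tAB, tAB, t4, t4, t6]
    abel
  -- second sum
  have c1 : ∀ k, H (B k) (A (k + d)) = H (B k) (k + A d) := by
    intro k
    rw [← ha (B k) (A (k + d)), map_add, ← add_assoc, add_comm (B k) (A k), hAB]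
  have c4 : ∀ k, H (B (k + d)) (A k) = H (A k) (k + B d) := by
    intro k
    rw [hs, ← ha (A k) (B (k + d)), map_add, ← add_assoc, hAB]
  have p2 := push A hA (fun l => H (B l) (l + A d)) (fun l h => by
    obtain ⟨m, hm⟩ := sA (l + A d) (B l) (by rw [hs]; exact h)
    exact ⟨m - d, by rw [map_sub, hm, add_sub_cancel_right]⟩)
  have p3 := push B hB (fun l => H (A l) (l + B d)) (fun l h => by
    obtain ⟨m, hm⟩ := sB (l + B d) (A l) (by rw [hs]; exact h)
    exact ⟨m - d, by rw [map_sub, hm, add_sub_cancel_right]⟩)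
  have p5 := push A hA (fun l => H (B l + A (B d)) l) (fun l h =>
    sA l (B l + A (B d)) (by rw [hs]; exact h))
  have p6 := push B hB (fun l => H (A l + A (B d)) l) (fun l h =>
    sB l (A l + A (B d)) (by rw [hs]; exact h))
  have q1 : ∀ l, H (A (-l) + A (B d)) (-l) = H (B l + A (B d)) l := by
    intro l
    rw [hn2, hs, map_neg, ← ha l (-A l + A (B d)), hs, hB' l]
    congr 1
    abel
  have s1 : ∑ l, H (A l + A (B d)) l • g l = ∑ l, H (B l + A (B d)) l • g l := by
    rw [← sum_neg (fun l => H (A l + A (B d)) l • g l)]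
    refine Finset.sum_congr rfl (fun l _ => ?_)
    rw [q1, gn]
  have s2 : ∑ l, H (B l) (l + A d) = ∑ l, H (B l + A (B d)) l := by
    rw [← sum_subR (fun l => H (B l) (l + A d)) (A d),
      ← sum_neg (fun l => H (B (l - A d)) (l - A d + A d))]
    refine Finset.sum_congr rfl (fun l _ => ?_)
    rw [sub_add_cancel, hn2, map_sub, map_neg, hcom, ← neg_add', hn]
  have s3 : ∑ l, H (A l) (l + B d) = ∑ l, H (A l + A (B d)) l := by
    rw [← sum_subR (fun l => H (A l) (l + B d)) (B d),
      ← sum_neg (fun l => H (A (l - B d)) (l - B d + B d))]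
    refine Finset.sum_congr rfl (fun l _ => ?_)
    rw [sub_add_cancel, hn2, map_sub, map_neg, ← neg_add', hn]
  have K2 : ∑ k, W k (k + d) • g k =
      -(H 0 (A d) • eA) + H 0 (B d) • eB + H 0 (A (B d)) • eA - H 0 (A (B d)) • eB := by
    have e : ∀ k, W k (k + d) • g k = H (B k) (k + A d) • g k
        - H (B (A k)) (A k + A d) • g k
        + H (A (B k)) (B k + B d) • g k - H (A k) (k + B d) • g k
        + H (B (A k) + A (B d)) (A k) • g k
        - H (A (B k) + A (B d)) (B k) • g k := by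
      intro k
      rw [hW, c1, c4, hcom k]
      simp only [map_add]
      module
    simp_rw [e]
    rw [Finset.sum_sub_distrib, Finset.sum_add_distrib, Finset.sum_sub_distrib,
      Finset.sum_add_distrib, Finset.sum_sub_distrib]
    rw [p2, p3, p5, p6, s1, s2, s3]
    simp only [map_zero, zero_add]
    rw [hs (A (B d)) 0]
    abel
  simp_rw [sub_smul]
  rw [Finset.sum_sub_distrib, K1, K2, sub_self]

end UNI
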