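import Mathlib
import Pool.Agent.UQO.Bas

/-!
# UNI/BDef: definitions of part (B), arbitrary lattice

* `GG b c w = (P w - P b) / (P c - P b)`; `F_h(u,v) = GG h (v+h) (u+h)`, `Y_{k,j}(z) = GG j k z`.
* `aa b w`: logarithmic derivative of `P w - P b`.
* `PF b p q`: the Fourier coefficients (`p` for `w`, `q` for `c`) of `BW (GG b c w)`, `p, q ≠ 0`.
* `Ob k F s`: `F w = O(|w - s|^k)` near `s` (`w ≠ s`).
-/

open MeasureTheory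

namespace UQO

noncomputable section

/-- `F w = O(|w - s|^k)` for `w → s`, `w ≠ s` -/
def Ob (k : ℤ) (F : ℂ → ℂ) (s : ℂ) : Prop :=
  ∃ C r : ℝ, 0 < r ∧ ∀ w, w ≠ s → ‖w - s‖ < r → ‖F w‖ ≤ C * ‖w - s‖ ^ k

variable [Lt]

/-- `p q̄ - p̄ q` for frequencies -/
def dl (p q : ℤ × ℤ) : ℂ := mm p * cj (mm q) - cj (mm p) * mm q

/-- `Z(w-b) + Z(w+b) - 2 Z(w)` -/
def aa (b w : ℂ) : ℂ := Z (w - b) + Z (w + b) - 2 * Z w

/-- `(℘(w) - ℘(b)) / (℘(c) - ℘(b))` -/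
def GG (b c w : ℂ) : ℂ := (P w - P b) / (P c - P b)

/-- the generic points of `w ↦ GG b c w` -/
def Gd (b c w : ℂ) : Prop := Ofl w ∧ Ofl (w - b) ∧ Ofl (w + b) ∧ Ofl (w - c) ∧ Ofl (w + c)

/-- the generic parameters -/
def Gp (b c : ℂ) : Prop := Ofl b ∧ Ofl c ∧ Ofl (b - c) ∧ Ofl (b + c)

/-- `∂ BW (GG b c w)` -/
def QQ (b c w : ℂ) : ℂ := (1 / (2 * Complex.I)) *
  ((Real.log ‖GG b c w‖ : ℂ) * aa c w - (Real.log ‖1 - GG b c w‖ : ℂ) * aa b w)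

/-- the derivative of `aa b` -/
def ad (b w : ℂ) : ℂ := 2 * P w - P (w - b) - P (w + b)

/-- `∂ ∂ BW (GG b c w)` -/
def AQ (b c w : ℂ) : ℂ := (1 / (2 * Complex.I)) *
  ((Real.log ‖GG b c w‖ : ℂ) * ad c w - (Real.log ‖1 - GG b c w‖ : ℂ) * ad b w)

/-- `∂̄ ∂ BW (GG b c w)` -/
def JJ (b c w : ℂ) : ℂ := (1 / (4 * Complex.I)) * (cj (aa b w) * aa c w - aa b w * cj (aa c w))

/-- `χ_n(b) + χ_n(-b) - 2` -/
def ss (b : ℂ) (n : ℤ × ℤ) : ℂ := ch n b + ch n (-b) - 2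

/-- the double Fourier coefficients of `BW (GG b c w)` for `p, q ≠ 0` -/
def PF (b : ℂ) (p q : ℤ × ℤ) : ℂ :=
  -(Complex.I * dl p q /
      (4 * (cc : ℂ) ^ 2 * (mm p * cj (mm p)) * (mm q * cj (mm q)))) *
    (ss b (p + q) / (mm (p + q) * cj (mm (p + q))) - ss b (p - q) / (mm (p - q) * cj (mm (p - q))))

/-- the double Fourier coefficients of `BW (GG b c w)` (`q.1 = w`, `q.2 = c`) -/
def Ph (b : ℂ) (p q : ℤ × ℤ) : ℂ :=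
  fcc (fun x : E × E => (BW (GG b (cu x.2) (cu x.1)) : ℂ)) (p, q)

/-! ### torsion points, weights -/

/-- the group `(1/N) Λ / Λ` -/
abbrev Gr (N : ℕ) : Type := ZMod N × ZMod N

/-- the torsion point with index `k` -/
def tq {N : ℕ} (k : Gr N) : ℂ := ((k.1.val : ℂ) + (k.2.val : ℂ) * om) / N

/-- the double Fourier transform of the weight -/
def WD {N : ℕ} [NeZero N] (W : Gr N → Gr N → ℤ) (x y : ℤ × ℤ) : ℂ :=
  ∑ k : Gr N, ∑ l : Gr N, (W k l : ℂ) * (ch x (tq k) * ch y (tq l))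

/-- `Σ_{e ≠ 0} aa e z`, the logarithmic derivative of `∏_{e ≠ 0} (℘(z) - ℘(e))` -/
def gam (N : ℕ) [NeZero N] (z : ℂ) : ℂ :=
  ∑ e ∈ (Finset.univ : Finset (Gr N)).erase 0, aa (tq e) z

/-- `Σ_h D(F_h(u,v))` -/
def F1 (N : ℕ) [NeZero N] (u v : ℂ) : ℂ :=
  ∑ h ∈ (Finset.univ : Finset (Gr N)).erase 0, (BW (GG (tq h) (v + tq h) (u + tq h)) : ℂ)

/-- `Σ_j D(Y_{k,j}(u))` -/
def F2 {N : ℕ} [NeZero N] (k : Gr N) (u : ℂ) : ℂ :=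
  ∑ j ∈ (((Finset.univ : Finset (Gr N)).erase 0).erase k).erase (-k), (BW (GG (tq j) (tq k) u) : ℂ)

/-- the regulator form in terms of `aa` and `gam` -/
def RB {N : ℕ} [NeZero N] (W : Gr N → Gr N → ℤ) (u v : ℂ) : ℂ :=
  ∑ k ∈ (Finset.univ : Finset (Gr N)).erase 0, ∑ l ∈ (Finset.univ : Finset (Gr N)).erase 0,
    (W k l : ℂ) * (4 * (F1 N u v * ((N : ℂ) ^ 2 * aa (tq k) u * ((N : ℂ) ^ 2 * aa (tq l) v)))
      + F2 k u * (gam N (u - v) * ((N : ℂ) ^ 2 * aa (tq l) v))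
      + F2 l v * (gam N (u - v) * ((N : ℂ) ^ 2 * aa (tq k) u)))

/-- the kernel
`(x ȳ - x̄ y)(x̄² + x̄ ȳ + ȳ²) / (|x|² |y|² |x-y|² x̄² ȳ²)` -/
def K3 (x y : ℂ) : ℂ :=
  (x * cj y - cj x * y) * (cj x ^ 2 + cj x * cj y + cj y ^ 2) /
    (x * cj x * (y * cj y) * ((x - y) * cj (x - y)) * (cj x ^ 2 * cj y ^ 2))

/-- `n` is divisible by `N` -/
def dv (N : ℕ) (n : ℤ × ℤ) : Prop := (N : ℤ) ∣ n.1 ∧ (N : ℤ) ∣ n.2

open Classical in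
/-- indicator of `N ∣ n` -/
def dc (N : ℕ) (n : ℤ × ℤ) : ℂ := if dv N n then 1 else 0

/-- the properties of the weight -/
structure Wg {N : ℕ} [NeZero N] (W : Gr N → Gr N → ℤ) : Prop where
  two : Even N
  ev : ∀ k l, W (-k) l = W k l
  anti : ∀ k l, W l k = -W k l
  row : ∀ l, ∑ k, W k l = 0
  supp : ∀ k l, W k l ≠ 0 → (N / 2) • k = 0

/-- `(x ȳ - x̄ y) / (|x|² |y|² |x-y|²)` for frequencies -/
def k0 (x y : ℤ × ℤ) : ℂ :=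
  dl x y / (mm x * cj (mm x) * (mm y * cj (mm y)) * (mm (x - y) * cj (mm (x - y))))

/-- `Σ W(k,l) aa_k(u) aa_l(v)` -/
def g1 {N : ℕ} [NeZero N] (W : Gr N → Gr N → ℤ) (u v : ℂ) : ℂ :=
  ∑ k ∈ (Finset.univ : Finset (Gr N)).erase 0, ∑ l ∈ (Finset.univ : Finset (Gr N)).erase 0,
    (W k l : ℂ) * (aa (tq k) u * aa (tq l) v)

end

end UQO
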