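import Mathlib
import Pool.Agent.UQO.Bas
import Pool.Agent.EllSch.Zeta
import Pool.Agent.EllSch.Add

/-!
# UNI/BP: the Weierstrass functions `P`, `P1`, `Z` of an arbitrary lattice (general part of
EE7/HalfP and EE7/PhId)
-/

namespace UQO

open Pool.Agent.EllSch (wp wq Off lat)

variable [Lt]

theorem P_per : Per P := by
  intro u n
  unfold P
  rw [← lat_eq]
  exact Pool.Agent.EllSch.wp_add_lat ind u n

theorem P1_per : Per P1 := by
  intro u n
  unfold P1
  rw [← lat_eq]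
  exact Pool.Agent.EllSch.wq_add_lat ind u n

theorem P_neg (u : ℂ) : P (-u) = P u := Pool.Agent.EllSch.wp_neg ind u

theorem P1_neg (u : ℂ) : P1 (-u) = -P1 u := Pool.Agent.EllSch.wq_neg ind u

theorem P_zero : P 0 = 0 := by
  unfold P wp
  have : (fun x : ℤ × ℤ => 1 / ((0:ℂ) - lat 1 om x) ^ 2 - 1 / lat 1 om x ^ 2) = fun _ => 0 := by
    funext x
    rw [zero_sub, neg_sq, sub_self]
  rw [this, tsum_zero]

theorem P_lat {u : ℂ} (h : ¬ Ofl u) : P u = 0 := by
  obtain ⟨n, rfl⟩ := (not_ofl_iff u).1 h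
  rw [← zero_add (xx n), P_per, P_zero]

theorem ofl_add (u : ℂ) (n : ℤ × ℤ) : Ofl (u + xx n) ↔ Ofl u := by
  unfold Ofl
  rw [← lat_eq]
  exact Pool.Agent.EllSch.off_add_lat n

theorem ofl_neg (u : ℂ) : Ofl (-u) ↔ Ofl u := Pool.Agent.EllSch.off_neg

theorem not_ofl_zero : ¬ Ofl (0 : ℂ) := by
  rw [not_ofl_iff]
  exact ⟨0, xx_zero.symm⟩

theorem P_eq_iff {u v : ℂ} (hu : Ofl u) (hv : Ofl v) :
    P u = P v ↔ ¬ Ofl (u + v) ∨ ¬ Ofl (u - v) := by
  constructor
  · intro h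
    have o1 := Pool.Agent.EllSch.ode ind hu
    have o2 := Pool.Agent.EllSch.ode ind hv
    have h' : wp 1 om u = wp 1 om v := h
    rw [h', ← o2] at o1
    rcases sq_eq_sq_iff_eq_or_eq_neg.1 o1 with h1 | h1
    · right
      obtain ⟨x, hx⟩ := Pool.Agent.EllSch.exists_lat_of_eq ind hu hv h' h1
      rw [not_ofl_iff]
      refine ⟨x, ?_⟩
      rw [← lat_eq]
      linear_combination hx
    · left
      obtain ⟨x, hx⟩ := Pool.Agent.EllSch.exists_lat_of_eq ind hu
        (Pool.Agent.EllSch.off_neg.2 hv) (by rw [Pool.Agent.EllSch.wp_neg ind]; exact h')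
        (by rw [Pool.Agent.EllSch.wq_neg ind]; exact h1)
      rw [not_ofl_iff]
      refine ⟨x, ?_⟩
      rw [← lat_eq]
      linear_combination hx
  · rintro (h | h)
    · obtain ⟨n, hn⟩ := (not_ofl_iff _).1 h
      have e : u = -v + xx n := by linear_combination hn
      rw [e, P_per, P_neg]
    · obtain ⟨n, hn⟩ := (not_ofl_iff _).1 h
      have e : u = v + xx n := by linear_combination hn
      rw [e, P_per]

theorem P_deriv {u : ℂ} (hu : Ofl u) : HasDerivAt P (P1 u) u :=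
  Pool.Agent.EllSch.hasDerivAt_wp ind hu

theorem Z_add {u v : ℂ} (hu : Ofl u) (hv : Ofl v) (huv : Ofl (u + v)) (hne : P u ≠ P v) :
    Z (u + v) = Z u + Z v + 1 / 2 * ((P1 u - P1 v) / (P u - P v)) := by
  have h := Pool.Agent.EllSch.wz_add ind hu hv huv hne
  unfold Z
  rw [if_pos hu, if_pos hv, if_pos huv, h, cj_add]
  unfold P P1
  ring

end UQO
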