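import Pool.Agent.UQO.ZBas
import Pool.Agent.UQO.ZInt
import Pool.Agent.UNI.BDef
import Pool.Agent.UNI.BP
import Pool.Agent.EE7.BWc

/-!
# UNI/BGDer: the function `w ↦ GG b c w = (℘ w - ℘ b)/(℘ c - ℘ b)`

`Gp b c`: none of `b, c, b - c, b + c` is in the lattice. `Gd b c w`: none of `w, w ± b, w ± c` is in
the lattice. `aa b w = Z (w - b) + Z (w + b) - 2 Z w`.

PROOF (compare EE7/XDer, EE7/PhId, where the case `b` = half period is done).
`Z_sum`: add the addition theorems `Z_add` (BP) for `(w, v)` and `(w, -v)`: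
`½ (℘'(w) - ℘'(v))/(℘(w) - ℘(v)) + ½ (℘'(w) + ℘'(v))/(℘(w) - ℘(v))`; `Z (-v) = -Z v` (`Z_neg`).
`aa_eq` is `Z_sum` for `v = b`.
`P_ne`: `P_eq_iff`. `GG_deriv`: `P_deriv` and `aa_eq`. `aa_c`: `1 - GG = (P c - P w)/(P c - P b)`,
`aa_eq` for `c`.
`aa_deriv`: `Z_deriv` three times (chain rule with translations), the `∂̄` parts
`-cc - cc + 2 cc = 0` and the constants cancel; for real derivatives `wl A B + wl A' B' =
wl (A + A') (B + B')` (`ZHat_wl_add` in UQO/ZHat, or prove it by `ext`).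
`D1_GG`: `D1 z = (1/2i)(-log‖z‖/(1-z) - log‖1-z‖/z)`, and `aa_c`.
`_cnt`: the set is a union of countably many translates of the lattice; `_meas`: `Z_meas`, `P_meas`,
`Real.measurable_log`, ... ; `_per`: `Z_per`, `P_per`.
-/

open MeasureTheory

namespace UQO

variable [Lt]

theorem ofl_cnt (a : ℂ) : {w : ℂ | ¬ Ofl (w + a)}.Countable := by
  apply (Set.countable_range (fun n : ℤ × ℤ => xx n - a)).mono
  intro w hw
  obtain ⟨n, hn⟩ := (not_ofl_iff _).1 hw
  refine ⟨n, ?_⟩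
  change xx n - a = w
  rw [← hn, add_sub_cancel_right]

theorem Gd_cnt (b c : ℂ) : {w : ℂ | ¬ Gd b c w}.Countable := by
  apply ((ofl_cnt 0).union ((ofl_cnt (-b)).union ((ofl_cnt b).union
    ((ofl_cnt (-c)).union (ofl_cnt c))))).mono
  intro w hw
  simp only [Set.mem_union, Set.mem_ofPred_eq, add_zero, ← sub_eq_add_neg]
  by_contra hcon
  simp only [not_or, not_not] at hcon
  exact hw hcon

private lemma BGDer_e1 (u b : ℂ) (n : ℤ × ℤ) : u + xx n - b = (u - b) + xx n := by ring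

private lemma BGDer_e2 (u b : ℂ) (n : ℤ × ℤ) : u + xx n + b = (u + b) + xx n := by ring

theorem aa_per (b : ℂ) : Per (aa b) := by
  intro u n
  unfold aa
  rw [BGDer_e1, BGDer_e2, Z_per, Z_per, Z_per]

theorem ad_per (b : ℂ) : Per (ad b) := by
  intro u n
  unfold ad
  rw [BGDer_e1, BGDer_e2, P_per, P_per, P_per]

theorem GG_per (b c : ℂ) : Per (GG b c) := by
  intro u n
  unfold GG
  rw [P_per]

/-- periodicity in the variable `c` -/
theorem GG_per' (b w : ℂ) : Per (fun c => GG b c w) := by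
  intro u n
  change GG b (u + xx n) w = GG b u w
  unfold GG
  rw [P_per]

theorem QQ_per (b c : ℂ) : Per (QQ b c) := by
  intro u n
  unfold QQ
  rw [GG_per, aa_per, aa_per]

theorem AQ_per (b c : ℂ) : Per (AQ b c) := by
  intro u n
  unfold AQ
  rw [GG_per, ad_per, ad_per]

theorem JJ_per (b c : ℂ) : Per (JJ b c) := by
  intro u n
  unfold JJ
  rw [aa_per, aa_per]

theorem aa_meas (b : ℂ) : Measurable (aa b) := by
  unfold aa
  exact ((Z_meas.comp (measurable_id.sub_const b)).add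
    (Z_meas.comp (measurable_id.add_const b))).sub (Z_meas.const_mul 2)

theorem ad_meas (b : ℂ) : Measurable (ad b) := by
  unfold ad
  exact ((P_meas.const_mul 2).sub (P_meas.comp (measurable_id.sub_const b))).sub
    (P_meas.comp (measurable_id.add_const b))

/-- joint measurability of `(w, c) ↦ GG b c w` -/
theorem GG_meas2 (b : ℂ) : Measurable (fun q : ℂ × ℂ => GG b q.2 q.1) := by
  unfold GG
  exact ((P_meas.comp measurable_fst).sub_const _).div ((P_meas.comp measurable_snd).sub_const _)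

theorem GG_meas (b c : ℂ) : Measurable (GG b c) := by
  unfold GG
  exact (P_meas.sub_const _).div_const _

private lemma BGDer_log (b c : ℂ) : Measurable (fun w => ((Real.log ‖GG b c w‖ : ℝ) : ℂ)) :=
  Complex.measurable_ofReal.comp (Real.measurable_log.comp (GG_meas b c).norm)

private lemma BGDer_log1 (b c : ℂ) : Measurable (fun w => ((Real.log ‖1 - GG b c w‖ : ℝ) : ℂ)) :=
  Complex.measurable_ofReal.comp (Real.measurable_log.comp ((GG_meas b c).const_sub 1).norm)

omit [Lt] in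
private lemma BGDer_cj {f : ℂ → ℂ} (h : Measurable f) : Measurable (fun w => cj (f w)) :=
  Complex.continuous_conj.measurable.comp h

theorem QQ_meas (b c : ℂ) : Measurable (QQ b c) := by
  unfold QQ
  exact (((BGDer_log b c).mul (aa_meas c)).sub ((BGDer_log1 b c).mul (aa_meas b))).const_mul _

theorem AQ_meas (b c : ℂ) : Measurable (AQ b c) := by
  unfold AQ
  exact (((BGDer_log b c).mul (ad_meas c)).sub ((BGDer_log1 b c).mul (ad_meas b))).const_mul _

theorem JJ_meas (b c : ℂ) : Measurable (JJ b c) := by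
  unfold JJ
  exact (((BGDer_cj (aa_meas b)).mul (aa_meas c)).sub
    ((aa_meas b).mul (BGDer_cj (aa_meas c)))).const_mul _

theorem aa_neg (b w : ℂ) : aa b (-w) = -aa b w := by
  unfold aa
  have e1 : -w - b = -(w + b) := by ring
  have e2 : -w + b = -(w - b) := by ring
  rw [e1, e2, Z_neg, Z_neg, Z_neg]
  ring

private lemma BGDer_ne {w v : ℂ} (hw : Ofl w) (hv : Ofl v) (h1 : Ofl (w + v)) (h2 : Ofl (w - v)) :
    P w ≠ P v := by
  intro h
  rcases (P_eq_iff hw hv).1 h with h | h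
  · exact h h1
  · exact h h2

theorem Z_sum {w v : ℂ} (hw : Ofl w) (hv : Ofl v) (h1 : Ofl (w + v)) (h2 : Ofl (w - v)) :
    Z (w + v) + Z (w - v) - 2 * Z w = P1 w / (P w - P v) := by
  have hne := BGDer_ne hw hv h1 h2
  have hd : P w - P v ≠ 0 := sub_ne_zero.2 hne
  have a1 := Z_add hw hv h1 hne
  have a2 := Z_add (v := -v) hw ((ofl_neg v).2 hv) (by rw [← sub_eq_add_neg]; exact h2)
    (by rw [P_neg]; exact hne)
  rw [← sub_eq_add_neg, Z_neg, P1_neg, P_neg] at a2
  rw [a1, a2]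
  field_simp
  ring

theorem aa_eq {b w : ℂ} (hw : Ofl w) (hb : Ofl b) (h1 : Ofl (w + b)) (h2 : Ofl (w - b)) :
    aa b w = P1 w / (P w - P b) := by
  rw [← Z_sum hw hb h1 h2]
  unfold aa
  ring

theorem P_ne {b c : ℂ} (h : Gp b c) : P c - P b ≠ 0 := by
  obtain ⟨hb, hc, h1, h2⟩ := h
  apply sub_ne_zero.2
  apply BGDer_ne hc hb
  · rw [add_comm]; exact h2
  · rw [← ofl_neg, neg_sub]; exact h1

private lemma BGDer_wb {b c w : ℂ} (h : Gp b c) (hw : Gd b c w) : P w - P b ≠ 0 :=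
  sub_ne_zero.2 (BGDer_ne hw.1 h.1 hw.2.2.1 hw.2.1)

private lemma BGDer_wc {b c w : ℂ} (h : Gp b c) (hw : Gd b c w) : P w - P c ≠ 0 :=
  sub_ne_zero.2 (BGDer_ne hw.1 h.2.1 hw.2.2.2.2 hw.2.2.2.1)

theorem GG_one {b c : ℂ} (h : Gp b c) (w : ℂ) :
    1 - GG b c w = (P c - P w) / (P c - P b) := by
  have h1 := P_ne h
  unfold GG
  field_simp
  ring

theorem GG_ne {b c w : ℂ} (h : Gp b c) (hw : Gd b c w) :
    GG b c w ≠ 0 ∧ GG b c w ≠ 1 := by
  refine ⟨div_ne_zero (BGDer_wb h hw) (P_ne h), ?_⟩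
  intro h1
  have h2 := GG_one h w
  rw [h1, sub_self] at h2
  have h3 : P c - P w ≠ 0 := by
    have := BGDer_wc h hw
    intro h4
    apply this
    linear_combination -h4
  exact div_ne_zero h3 (P_ne h) h2.symm

theorem GG_deriv {b c w : ℂ} (h : Gp b c) (hw : Gd b c w) :
    HasDerivAt (GG b c) (aa b w * GG b c w) w := by
  have h1 := ((P_deriv hw.1).sub_const (P b)).div_const (P c - P b)
  have h2 : aa b w * GG b c w = P1 w / (P c - P b) := by
    have a1 := BGDer_wb h hw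
    have a2 := P_ne h
    rw [aa_eq hw.1 h.1 hw.2.2.1 hw.2.1]
    unfold GG
    field_simp
  rw [h2]
  exact h1

theorem aa_c {b c w : ℂ} (h : Gp b c) (hw : Gd b c w) :
    aa c w = -(aa b w * GG b c w / (1 - GG b c w)) := by
  have a1 := BGDer_wb h hw
  have a2 := P_ne h
  have a3 := BGDer_wc h hw
  have a4 : P c - P w ≠ 0 := by
    intro h4
    apply a3
    linear_combination -h4
  rw [GG_one h, aa_eq hw.1 h.1 hw.2.2.1 hw.2.1, aa_eq hw.1 h.2.1 hw.2.2.2.2 hw.2.2.2.1]
  unfold GG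
  have e : P w - P c = -(P c - P w) := by ring
  rw [e]
  field_simp

theorem aa_deriv {b w : ℂ} (h0 : Ofl w) (h1 : Ofl (w - b)) (h2 : Ofl (w + b)) :
    HasFDerivAt (aa b) (EE7.wl (ad b w) 0) w := by
  have g1 := (Z_deriv h1).comp w ((hasFDerivAt_id (𝕜 := ℝ) w).sub_const b)
  have g2 := (Z_deriv h2).comp w ((hasFDerivAt_id (𝕜 := ℝ) w).add_const b)
  have g3 := (Z_deriv h0).const_mul (2 : ℂ)
  have g4 := (g1.add g2).sub g3
  have e : ((wl (-P (w - b) - (Pool.Agent.EllSch.eta1 1 om - cc)) (-cc)).comp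
      (ContinuousLinearMap.id ℝ ℂ) + (wl (-P (w + b) - (Pool.Agent.EllSch.eta1 1 om - cc))
      (-cc)).comp (ContinuousLinearMap.id ℝ ℂ)) - (2 : ℂ) • (wl (-P w -
      (Pool.Agent.EllSch.eta1 1 om - cc)) (-cc)) = EE7.wl (ad b w) 0 := by
    ext1 v
    simp only [sub_apply, add_apply, smul_apply, ContinuousLinearMap.comp_id, smul_eq_mul,
      EE7.BWc_wl_apply]
    unfold ad
    ring
  rw [e] at g4
  exact g4

theorem D1_GG {b c w : ℂ} (h : Gp b c) (hw : Gd b c w) :
    EE7.D1 (GG b c w) * (aa b w * GG b c w) = QQ b c w := by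
  obtain ⟨h0, h1⟩ := GG_ne h hw
  have h1' : 1 - GG b c w ≠ 0 := sub_ne_zero.2 (Ne.symm h1)
  unfold QQ EE7.D1
  rw [aa_c h hw]
  have hI : Complex.I ≠ 0 := Complex.I_ne_zero
  field_simp

end UQO
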