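import Pool.Agent.UQO.Tor
import Pool.Agent.UNI.BP
import Pool.Agent.UNI.BDef

/-!
# UNI/BTors: torsion points and the Fourier transform of the weight

PROOF. `tq k = (k.1.val + k.2.val om) / N`. `tq_add`: `(k + l).val = k.val + l.val - N ε`
(`ZMod.val_add`), so `tq (k + l) - tq k - tq l` is a lattice point; `tq_neg`: from `tq_add` with
`k + (-k) = 0`. `ofl_tq`: `tq k` is a lattice point iff `N ∣ k.1.val` and `N ∣ k.2.val`
(linear independence of `1, om` over `ℝ`: compare imaginary and real parts, `om_pos`), and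
`val < N`. `ofl_tq_sub`, `ofl_tq_add`: `tq k - tq l` and `tq (k - l)` differ by a lattice point
(`ofl_add` in BP).
`tq_of`: if `N w` is a lattice point `xx m` then `w = tq k + xx n` with `k = (m.1, m.2)` mod `N`.
`ch` is periodic (`ch_per`), so `k ↦ ch n (tq k)` is multiplicative (`ch_tq_add`); by `ch_st`
`ch n (tq k) = exp (2 π i (n.2 k.1.val + n.1 k.2.val)/N)`. `sum_ch`: if `N ∣ n` all terms are `1`
(`card = N²`); otherwise the character `k ↦ ch n (tq k)` is not trivial (take `k = (1, 0)` or `(0, 1)`;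
for `N ∤ n.2`: `exp (2 π i n.2 /N) ≠ 1`, `Complex.exp_eq_one_iff`; note that then `N ≥ 2`, so
`(1 : ZMod N).val = 1`) and the sum `S` satisfies `S = ch n (tq k0) S`.
`sum_ss`: `ss (tq 0) n = 0`, `ch n (-tq k) = ch n (tq (-k))`, reindex.
`sum_ch_ss`: `ch n u * ch n u = ch (n + n) u`, `ch (p+q) · ch (p-q) = ch (p + p)`,
`ch (p+q) u · ch (p-q) (-u) = ch (q + q) u`; `¬ dv N ((p+q)+(p+q))` implies `¬ dv N (p + q)`.
WEIGHT (`WD W x y = Σ_k Σ_l W(k,l) ch x (tq k) ch y (tq l)`): `WD_neg_left` : reindex `k ↦ -k`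
(`ch_idx_neg`, `ch_arg_neg`, `ch_tq_neg`), `ev`. `WD_anti`: exchange the sums, `anti`.
`WD_neg_right` from these. `supp`: if `(N/2) • k ≠ 0` then `W k l = 0`; if `(N/2) • k = 0` and
`dv N (x + x)` (i.e. `x = (N/2) x'`, as `N` is even) then `ch x (tq k) = ch x' ((N/2) tq k) = 1`,
because `(N/2) tq k` differs from `tq ((N/2) • k) = 0` by a lattice point. So
`WD W x y = Σ_l ch y (tq l) Σ_k W k l = 0`. `WD_add`: for `l` in the support (`anti`, `supp`)
`ch (x + y) (tq l) = 1`, so `ch y (tq l) = ch (-x) (tq l)` and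
`WD W x y = WD W x (-x) = WD W x x = 0` (`WD_neg_right`, `WD_anti`). `WD_sub`: from `WD_add` and
`WD_neg_right`. `sum_W_ss`, `sum_W_ch_ss`: expand `ss`, the terms without `ch x` or without `ch y`
vanish by `row` (and the column sums: `anti`), `WD_neg_left`, `WD_neg_right`; the terms with `k = 0`
or `l = 0` in the sums are `0` (`ss (tq 0) n = 0`, `ch n (tq 0) = 1`).
-/

namespace UQO

variable [Lt] {N : ℕ} [NeZero N]

private theorem BTors_N : (N : ℂ) ≠ 0 := by exact_mod_cast NeZero.ne N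

private theorem BTors_val (a : ℤ) : ∃ e : ℤ, (((a : ZMod N).val : ℤ)) = a + N * e := by
  refine ⟨-(a / N), ?_⟩
  rw [ZMod.val_intCast]
  have h := Int.emod_add_mul_ediv a N
  linear_combination h

private theorem BTors_int (a b : ℤ) :
    ∃ m, tq (((a : ℤ) : ZMod N), ((b : ℤ) : ZMod N)) = ((a : ℂ) + (b : ℂ) * om) / N + xx m := by
  obtain ⟨e, he⟩ := BTors_val (N := N) a
  obtain ⟨f, hf⟩ := BTors_val (N := N) b
  refine ⟨(e, f), ?_⟩
  have he' : (((a : ZMod N).val : ℂ)) = a + N * e := by exact_mod_cast he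
  have hf' : (((b : ZMod N).val : ℂ)) = b + N * f := by exact_mod_cast hf
  unfold tq
  rw [xx_def]
  simp only []
  rw [he', hf']
  have hN := BTors_N (N := N)
  field_simp
  ring

private theorem BTors_eta (k : Gr N) :
    (((k.1.val : ℤ) : ZMod N), ((k.2.val : ℤ) : ZMod N)) = k := by
  refine Prod.ext ?_ ?_
  · simp only []
    rw [Int.cast_natCast, ZMod.natCast_zmod_val]
  · simp only []
    rw [Int.cast_natCast, ZMod.natCast_zmod_val]

theorem tq_zero : tq (0 : Gr N) = 0 := by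
  unfold tq
  simp

theorem tq_add (k l : Gr N) : ∃ m, tq (k + l) = tq k + tq l + xx m := by
  obtain ⟨m, hm⟩ := BTors_int (N := N) ((k.1.val : ℤ) + l.1.val) ((k.2.val : ℤ) + l.2.val)
  have h : ((((k.1.val : ℤ) + l.1.val : ℤ) : ZMod N), (((k.2.val : ℤ) + l.2.val : ℤ) : ZMod N)) =
      k + l := by
    conv_rhs => rw [← BTors_eta k, ← BTors_eta l]
    push_cast
    rfl
  rw [h] at hm
  refine ⟨m, ?_⟩
  rw [hm]
  unfold tq
  push_cast
  ring

theorem tq_neg (k : Gr N) : ∃ m, tq (-k) = -tq k + xx m := by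
  obtain ⟨m, hm⟩ := tq_add k (-k)
  rw [add_neg_cancel, tq_zero] at hm
  refine ⟨-m, ?_⟩
  rw [xx_neg]
  linear_combination -hm

theorem ch_tq_add (n : ℤ × ℤ) (k l : Gr N) : ch n (tq (k + l)) = ch n (tq k) * ch n (tq l) := by
  obtain ⟨m, hm⟩ := tq_add k l
  rw [hm, ch_per, ch_add]

theorem ch_tq_neg (n : ℤ × ℤ) (k : Gr N) : ch n (tq (-k)) = ch n (-tq k) := by
  obtain ⟨m, hm⟩ := tq_neg k
  rw [hm, ch_per]

theorem ofl_tq (k : Gr N) : Ofl (tq k) ↔ k ≠ 0 := by
  rw [← not_iff_not, not_ofl_iff, not_not]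
  constructor
  · rintro ⟨n, hn⟩
    have h : xx ((k.1.val : ℤ), (k.2.val : ℤ)) = xx ((N : ℤ) * n.1, (N : ℤ) * n.2) := by
      unfold tq at hn
      rw [div_eq_iff (BTors_N (N := N))] at hn
      rw [xx_def] at hn
      rw [xx_def, xx_def]
      push_cast
      rw [hn]
      ring
    have h1 := xx_inj h
    rw [Prod.mk.injEq] at h1
    have key : ∀ (a : ZMod N) (c : ℤ), (a.val : ℤ) = N * c → a = 0 := by
      intro a c hac
      have h2 : a.val < N := ZMod.val_lt a
      have h3 : (N : ℤ) ∣ (a.val : ℤ) := ⟨c, hac⟩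
      have h4 : N ∣ a.val := by exact_mod_cast h3
      have h5 : a.val = 0 := Nat.eq_zero_of_dvd_of_lt h4 h2
      exact (ZMod.val_eq_zero a).1 h5
    exact Prod.ext (key _ _ h1.1) (key _ _ h1.2)
  · rintro rfl
    exact ⟨0, by rw [tq_zero, xx_zero]⟩

theorem ofl_tq_sub (k l : Gr N) : Ofl (tq k - tq l) ↔ k ≠ l := by
  obtain ⟨m, hm⟩ := tq_add k (-l)
  obtain ⟨m', hm'⟩ := tq_neg l
  have h : tq (k - l) = (tq k - tq l) + xx (m' + m) := by
    rw [sub_eq_add_neg, hm, hm', xx_add]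
    ring
  rw [← ofl_add _ (m' + m), ← h, ofl_tq, Ne, sub_eq_zero]

theorem ofl_tq_add (k l : Gr N) : Ofl (tq k + tq l) ↔ k ≠ -l := by
  obtain ⟨m, hm⟩ := tq_add k l
  rw [← ofl_add _ m, ← hm, ofl_tq, Ne, add_eq_zero_iff_eq_neg]

theorem tq_of {w : ℂ} (h : ¬ Ofl (N * w)) : ∃ (k : Gr N) (n : ℤ × ℤ), w = tq k + xx n := by
  obtain ⟨m, hm⟩ := (not_ofl_iff _).1 h
  obtain ⟨m', hm'⟩ := BTors_int (N := N) m.1 m.2
  refine ⟨(((m.1 : ℤ) : ZMod N), ((m.2 : ℤ) : ZMod N)), -m', ?_⟩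
  rw [hm', xx_neg, add_neg_cancel_right, eq_div_iff (BTors_N (N := N)), mul_comm, hm, xx_def]

omit [NeZero N] in
private theorem BTors_tq (k : Gr N) :
    tq k = (((k.1.val : ℝ) / N : ℝ) : ℂ) + (((k.2.val : ℝ) / N : ℝ) : ℂ) * om := by
  unfold tq
  push_cast
  ring

theorem sum_ch (n : ℤ × ℤ) : ∑ k : Gr N, ch n (tq k) = (N : ℂ) ^ 2 * dc N n := by
  have hN := BTors_N (N := N)
  by_cases hd : dv N n
  · unfold dc
    rw [if_pos hd, mul_one]
    have h1 : ∀ k : Gr N, ch n (tq k) = 1 := by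
      intro k
      obtain ⟨⟨a, ha⟩, ⟨b, hb⟩⟩ := hd
      rw [BTors_tq, ch_st, Complex.exp_eq_one_iff]
      refine ⟨b * k.1.val + a * k.2.val, ?_⟩
      have ha' : (n.1 : ℂ) = N * a := by exact_mod_cast ha
      have hb' : (n.2 : ℂ) = N * b := by exact_mod_cast hb
      rw [ha', hb']
      push_cast
      field_simp
    rw [Finset.sum_congr rfl (fun k _ => h1 k), Finset.sum_const, Finset.card_univ,
      Fintype.card_prod, ZMod.card]
    simp
    ring
  · unfold dc
    rw [if_neg hd, mul_zero]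
    obtain ⟨k0, hk0⟩ : ∃ k0 : Gr N, ch n (tq k0) ≠ 1 := by
      unfold dv at hd
      rw [not_and_or] at hd
      rcases hd with hd | hd
      · obtain ⟨m, hm⟩ := BTors_int (N := N) 0 1
        refine ⟨(((0 : ℤ) : ZMod N), ((1 : ℤ) : ZMod N)), fun hk => hd ?_⟩
        rw [hm, ch_per] at hk
        have e : (((0 : ℤ) : ℂ) + ((1 : ℤ) : ℂ) * om) / N = ((0 : ℝ) : ℂ) + ((1 / N : ℝ) : ℂ) * om := by
          push_cast
          ring
        rw [e, ch_st, Complex.exp_eq_one_iff] at hk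
        obtain ⟨j, hj⟩ := hk
        refine ⟨j, ?_⟩
        have h2 : (2 * Real.pi * Complex.I : ℂ) ≠ 0 := Complex.two_pi_I_ne_zero
        have h3 : (n.1 : ℂ) / N = j := by
          have : (2 * Real.pi * Complex.I : ℂ) * ((n.1 : ℂ) / N) = (2 * Real.pi * Complex.I) * j := by
            rw [mul_comm _ (j : ℂ), ← hj]
            push_cast
            ring
          exact mul_left_cancel₀ h2 this
        rw [div_eq_iff hN] at h3
        have h4 : ((n.1 : ℤ) : ℂ) = (((N : ℤ) * j : ℤ) : ℂ) := by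
          push_cast
          rw [h3]
          ring
        exact_mod_cast h4
      · obtain ⟨m, hm⟩ := BTors_int (N := N) 1 0
        refine ⟨(((1 : ℤ) : ZMod N), ((0 : ℤ) : ZMod N)), fun hk => hd ?_⟩
        rw [hm, ch_per] at hk
        have e : (((1 : ℤ) : ℂ) + ((0 : ℤ) : ℂ) * om) / N = ((1 / N : ℝ) : ℂ) + ((0 : ℝ) : ℂ) * om := by
          push_cast
          ring
        rw [e, ch_st, Complex.exp_eq_one_iff] at hk
        obtain ⟨j, hj⟩ := hk
        refine ⟨j, ?_⟩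
        have h2 : (2 * Real.pi * Complex.I : ℂ) ≠ 0 := Complex.two_pi_I_ne_zero
        have h3 : (n.2 : ℂ) / N = j := by
          have : (2 * Real.pi * Complex.I : ℂ) * ((n.2 : ℂ) / N) = (2 * Real.pi * Complex.I) * j := by
            rw [mul_comm _ (j : ℂ), ← hj]
            push_cast
            ring
          exact mul_left_cancel₀ h2 this
        rw [div_eq_iff hN] at h3
        have h4 : ((n.2 : ℤ) : ℂ) = (((N : ℤ) * j : ℤ) : ℂ) := by
          push_cast
          rw [h3]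
          ring
        exact_mod_cast h4
    have h5 : ∑ k : Gr N, ch n (tq k) = ch n (tq k0) * ∑ k : Gr N, ch n (tq k) := by
      rw [Finset.mul_sum]
      calc ∑ k : Gr N, ch n (tq k) = ∑ k : Gr N, ch n (tq (k0 + k)) :=
            (Equiv.sum_comp (Equiv.addLeft k0) (fun k => ch n (tq k))).symm
        _ = _ := Finset.sum_congr rfl fun k _ => ch_tq_add n k0 k
    have h6 : (1 - ch n (tq k0)) * ∑ k : Gr N, ch n (tq k) = 0 := by
      linear_combination h5
    rcases mul_eq_zero.1 h6 with h7 | h7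
    · exact absurd (sub_eq_zero.1 h7).symm hk0
    · exact h7

theorem ss_tq_zero (n : ℤ × ℤ) : ss (tq (0 : Gr N)) n = 0 := by
  unfold ss
  rw [tq_zero, neg_zero]
  have h : ch n 0 = 1 := by
    have := ch_per n 0 0
    unfold ch
    rw [mul_zero, cj_zero, sub_zero, mul_zero, Complex.exp_zero]
  rw [h]
  ring

private theorem BTors_sum_neg (n : ℤ × ℤ) :
    ∑ k : Gr N, ch n (-tq k) = ∑ k : Gr N, ch n (tq k) := by
  calc ∑ k : Gr N, ch n (-tq k) = ∑ k : Gr N, ch n (tq (-k)) :=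
        Finset.sum_congr rfl fun k _ => (ch_tq_neg n k).symm
    _ = _ := Equiv.sum_comp (Equiv.neg (Gr N)) (fun k => ch n (tq k))

theorem sum_ss (n : ℤ × ℤ) : ∑ k ∈ (Finset.univ : Finset (Gr N)).erase 0, ss (tq k) n =
    -(2 * (N : ℂ) ^ 2 * (1 - dc N n)) := by
  rw [Finset.sum_erase (f := fun k : Gr N => ss (tq k) n) _ (ss_tq_zero n)]
  unfold ss
  rw [Finset.sum_sub_distrib, Finset.sum_add_distrib, BTors_sum_neg, sum_ch, Finset.sum_const,
    Finset.card_univ, Fintype.card_prod, ZMod.card]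
  simp
  ring

theorem sum_ch_ss {p q : ℤ × ℤ} (h1 : ¬ dv N (p + p)) (h2 : ¬ dv N (q + q))
    (h3 : ¬ dv N ((p + q) + (p + q))) :
    ∑ h ∈ (Finset.univ : Finset (Gr N)).erase 0, ch (p + q) (tq h) * ss (tq h) (p + q) =
      (N : ℂ) ^ 2 ∧
    ∑ h ∈ (Finset.univ : Finset (Gr N)).erase 0, ch (p + q) (tq h) * ss (tq h) (p - q) = 0 := by
  have h0 : ¬ dv N (p + q) := by
    rintro ⟨a, b⟩
    exact h3 ⟨dvd_add a a, dvd_add b b⟩
  have z : ∀ n : ℤ × ℤ, ¬ dv N n → ∑ k : Gr N, ch n (tq k) = 0 := by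
    intro n hn
    rw [sum_ch]
    unfold dc
    rw [if_neg hn, mul_zero]
  constructor
  · rw [Finset.sum_erase _ (by rw [ss_tq_zero, mul_zero])]
    have e : ∀ h : Gr N, ch (p + q) (tq h) * ss (tq h) (p + q) =
        ch ((p + q) + (p + q)) (tq h) + 1 - 2 * ch (p + q) (tq h) := by
      intro h
      unfold ss
      have e1 := ch_mul_neg (p + q) (tq h)
      rw [ch_arg_neg, ch_idx_add (p + q) (p + q)]
      linear_combination e1
    rw [Finset.sum_congr rfl (fun h _ => e h), Finset.sum_sub_distrib, Finset.sum_add_distrib,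
      ← Finset.mul_sum, z _ h3, z _ h0, Finset.sum_const, Finset.card_univ, Fintype.card_prod,
      ZMod.card]
    simp
    ring
  · rw [Finset.sum_erase _ (by rw [ss_tq_zero, mul_zero])]
    have e : ∀ h : Gr N, ch (p + q) (tq h) * ss (tq h) (p - q) =
        ch (p + p) (tq h) + ch (q + q) (tq h) - 2 * ch (p + q) (tq h) := by
      intro h
      unfold ss
      have e1 : ch (p + p) (tq h) = ch (p + q) (tq h) * ch (p - q) (tq h) := by
        rw [← ch_idx_add]
        congr 1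
        abel
      have e2 : ch (q + q) (tq h) = ch (p + q) (tq h) * ch (-(p - q)) (tq h) := by
        rw [← ch_idx_add]
        congr 1
        abel
      rw [ch_arg_neg, e1, e2]
      ring
    rw [Finset.sum_congr rfl (fun h _ => e h), Finset.sum_sub_distrib, Finset.sum_add_distrib,
      ← Finset.mul_sum, z _ h1, z _ h2, z _ h0]
    ring

variable {W : Gr N → Gr N → ℤ}

theorem WD_neg_left (hW : Wg W) (x y : ℤ × ℤ) : WD W (-x) y = WD W x y := by
  unfold WD
  rw [← Equiv.sum_comp (Equiv.neg (Gr N))]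
  refine Finset.sum_congr rfl fun k _ => Finset.sum_congr rfl fun l _ => ?_
  rw [Equiv.neg_apply, hW.ev, ch_tq_neg, ch_arg_neg, neg_neg]

theorem WD_anti (hW : Wg W) (x y : ℤ × ℤ) : WD W y x = -WD W x y := by
  unfold WD
  rw [Finset.sum_comm, ← Finset.sum_neg_distrib]
  refine Finset.sum_congr rfl fun k _ => ?_
  rw [← Finset.sum_neg_distrib]
  refine Finset.sum_congr rfl fun l _ => ?_
  rw [hW.anti k l]
  push_cast
  ring

theorem WD_neg_right (hW : Wg W) (x y : ℤ × ℤ) : WD W x (-y) = WD W x y := by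
  rw [WD_anti hW, WD_neg_left hW, ← WD_anti hW]

omit [NeZero N] in
private theorem BTors_idx_nsmul (r : ℕ) (n : ℤ × ℤ) (u : ℂ) : ch (r • n) u = ch n u ^ r := by
  induction r with
  | zero => rw [zero_nsmul, ch_idx_zero, pow_zero]
  | succ r ih => rw [succ_nsmul, ch_idx_add, ih, pow_succ]

private theorem BTors_tq_nsmul (r : ℕ) (n : ℤ × ℤ) (k : Gr N) :
    ch n (tq (r • k)) = ch n (tq k) ^ r := by
  induction r with
  | zero =>
    rw [zero_nsmul, tq_zero, pow_zero]
    unfold ch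
    rw [mul_zero, cj_zero, sub_zero, mul_zero, Complex.exp_zero]
  | succ r ih => rw [succ_nsmul, ch_tq_add, ih, pow_succ]

private theorem BTors_one (hW : Wg W) {x : ℤ × ℤ} (h : dv N (x + x)) {k : Gr N}
    (hk : (N / 2) • k = 0) : ch x (tq k) = 1 := by
  obtain ⟨r, hr⟩ := hW.two
  have hr0 : N / 2 = r := by omega
  have hrN : N = 2 * r := by omega
  rw [hr0] at hk
  obtain ⟨⟨a, ha⟩, ⟨b, hb⟩⟩ := h
  have e : x = r • ((a, b) : ℤ × ℤ) := by
    have hN : (N : ℤ) = 2 * r := by exact_mod_cast hrN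
    refine Prod.ext ?_ ?_
    · rw [Prod.fst_add, hN] at ha
      rw [Prod.smul_fst, nsmul_eq_mul]
      show x.1 = (r : ℤ) * a
      have : x.1 + x.1 = 2 * (r * a) := by rw [ha]; ring
      omega
    · rw [Prod.snd_add, hN] at hb
      rw [Prod.smul_snd, nsmul_eq_mul]
      show x.2 = (r : ℤ) * b
      have : x.2 + x.2 = 2 * (r * b) := by rw [hb]; ring
      omega
  rw [e, BTors_idx_nsmul, ← BTors_tq_nsmul, hk, tq_zero]
  unfold ch
  rw [mul_zero, cj_zero, sub_zero, mul_zero, Complex.exp_zero]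

theorem WD_left (hW : Wg W) {x : ℤ × ℤ} (y : ℤ × ℤ) (h : dv N (x + x)) : WD W x y = 0 := by
  have h1 : ∀ k l : Gr N, (W k l : ℂ) * (ch x (tq k) * ch y (tq l)) =
      (W k l : ℂ) * ch y (tq l) := by
    intro k l
    by_cases hw : W k l = 0
    · rw [hw]
      simp
    · rw [BTors_one hW h (hW.supp k l hw), one_mul]
  unfold WD
  rw [Finset.sum_congr rfl (fun k _ => Finset.sum_congr rfl (fun l _ => h1 k l)),
    Finset.sum_comm]
  refine Finset.sum_eq_zero fun l _ => ?_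
  rw [← Finset.sum_mul]
  have h2 : ∑ k : Gr N, (W k l : ℂ) = 0 := by exact_mod_cast hW.row l
  rw [h2, zero_mul]

theorem WD_right (hW : Wg W) (x : ℤ × ℤ) {y : ℤ × ℤ} (h : dv N (y + y)) : WD W x y = 0 := by
  rw [WD_anti hW, WD_left hW x h, neg_zero]

theorem WD_add (hW : Wg W) {x y : ℤ × ℤ} (h : dv N ((x + y) + (x + y))) : WD W x y = 0 := by
  have h1 : WD W x y = WD W x (-x) := by
    unfold WD
    refine Finset.sum_congr rfl fun k _ => Finset.sum_congr rfl fun l _ => ?_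
    by_cases hw : W k l = 0
    · rw [hw]
      simp
    · have hw' : W l k ≠ 0 := by
        rw [hW.anti k l]
        exact neg_ne_zero.2 hw
      have h2 := BTors_one hW h (hW.supp l k hw')
      have h3 := ch_mul_neg x (tq l)
      rw [ch_idx_add] at h2
      have h4 : ch y (tq l) = ch (-x) (tq l) := by
        linear_combination (-(ch y (tq l))) * h3 + ch (-x) (tq l) * h2
      rw [h4]
  have h5 := WD_anti hW x x
  rw [h1, WD_neg_right hW]
  exact CharZero.eq_neg_self_iff.1 h5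

theorem WD_sub (hW : Wg W) {x y : ℤ × ℤ} (h : dv N ((x - y) + (x - y))) : WD W x y = 0 := by
  rw [← WD_neg_right hW]
  apply WD_add hW
  rwa [← sub_eq_add_neg]

theorem WD_bound (W : Gr N → Gr N → ℤ) : ∃ C : ℝ, 0 ≤ C ∧ ∀ x y, ‖WD W x y‖ ≤ C := by
  refine ⟨∑ k : Gr N, ∑ l : Gr N, ‖(W k l : ℂ)‖,
    Finset.sum_nonneg fun k _ => Finset.sum_nonneg fun l _ => norm_nonneg _, fun x y => ?_⟩
  unfold WD
  refine (norm_sum_le _ _).trans (Finset.sum_le_sum fun k _ => ?_)
  refine (norm_sum_le _ _).trans (Finset.sum_le_sum fun l _ => ?_)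
  rw [norm_mul, norm_mul, norm_ch, norm_ch, mul_one, mul_one]

theorem sum_W_ss (hW : Wg W) (x y : ℤ × ℤ) :
    ∑ k ∈ (Finset.univ : Finset (Gr N)).erase 0, ∑ l ∈ (Finset.univ : Finset (Gr N)).erase 0,
      (W k l : ℂ) * (ss (tq k) x * ss (tq l) y) = 4 * WD W x y := by
  have e1 : ∑ k ∈ (Finset.univ : Finset (Gr N)).erase 0,
      ∑ l ∈ (Finset.univ : Finset (Gr N)).erase 0,
      (W k l : ℂ) * (ss (tq k) x * ss (tq l) y) =
      ∑ k : Gr N, ∑ l : Gr N, (W k l : ℂ) * (ss (tq k) x * ss (tq l) y) := by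
    rw [Finset.sum_erase]
    · refine Finset.sum_congr rfl fun k _ => ?_
      rw [Finset.sum_erase]
      rw [ss_tq_zero, mul_zero, mul_zero]
    · refine Finset.sum_eq_zero fun l _ => ?_
      rw [ss_tq_zero, zero_mul, mul_zero]
  have e2 : ∑ k : Gr N, ∑ l : Gr N, (W k l : ℂ) * (ss (tq k) x * ss (tq l) y) =
      WD W x y + WD W x (-y) + WD W (-x) y + WD W (-x) (-y) - 2 * WD W x 0 - 2 * WD W (-x) 0 -
        2 * WD W 0 y - 2 * WD W 0 (-y) + 4 * WD W 0 0 := by
    unfold WD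
    simp only [Finset.mul_sum, ← Finset.sum_add_distrib, ← Finset.sum_sub_distrib]
    refine Finset.sum_congr rfl fun k _ => Finset.sum_congr rfl fun l _ => ?_
    unfold ss
    rw [ch_arg_neg, ch_arg_neg, ch_idx_zero, ch_idx_zero]
    ring
  have z0 : dv N ((0 : ℤ × ℤ) + 0) := by
    rw [add_zero]
    exact ⟨dvd_zero _, dvd_zero _⟩
  rw [e1, e2, WD_right hW x z0, WD_right hW (-x) z0, WD_left hW y z0, WD_left hW (-y) z0,
    WD_left hW 0 z0, WD_neg_right hW, WD_neg_right hW, WD_neg_left hW]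
  ring

theorem sum_W_ch_ss (hW : Wg W) (x y : ℤ × ℤ) :
    ∑ k ∈ (Finset.univ : Finset (Gr N)).erase 0, ∑ l ∈ (Finset.univ : Finset (Gr N)).erase 0,
      (W k l : ℂ) * ((ch x (tq k) - 1) * ss (tq l) y) = 2 * WD W x y := by
  have z1 : ∀ n : ℤ × ℤ, ch n (tq (0 : Gr N)) = 1 := by
    intro n
    rw [tq_zero]
    unfold ch
    rw [mul_zero, cj_zero, sub_zero, mul_zero, Complex.exp_zero]
  have e1 : ∑ k ∈ (Finset.univ : Finset (Gr N)).erase 0,
      ∑ l ∈ (Finset.univ : Finset (Gr N)).erase 0,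
      (W k l : ℂ) * ((ch x (tq k) - 1) * ss (tq l) y) =
      ∑ k : Gr N, ∑ l : Gr N, (W k l : ℂ) * ((ch x (tq k) - 1) * ss (tq l) y) := by
    rw [Finset.sum_erase]
    · refine Finset.sum_congr rfl fun k _ => ?_
      rw [Finset.sum_erase]
      rw [ss_tq_zero, mul_zero, mul_zero]
    · refine Finset.sum_eq_zero fun l _ => ?_
      rw [z1, sub_self, zero_mul, mul_zero]
  have e2 : ∑ k : Gr N, ∑ l : Gr N, (W k l : ℂ) * ((ch x (tq k) - 1) * ss (tq l) y) =
      WD W x y + WD W x (-y) - 2 * WD W x 0 - WD W 0 y - WD W 0 (-y) + 2 * WD W 0 0 := by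
    unfold WD
    simp only [Finset.mul_sum, ← Finset.sum_add_distrib, ← Finset.sum_sub_distrib]
    refine Finset.sum_congr rfl fun k _ => Finset.sum_congr rfl fun l _ => ?_
    unfold ss
    rw [ch_arg_neg, ch_idx_zero, ch_idx_zero]
    ring
  have z0 : dv N ((0 : ℤ × ℤ) + 0) := by
    rw [add_zero]
    exact ⟨dvd_zero _, dvd_zero _⟩
  rw [e1, e2, WD_right hW x z0, WD_left hW y z0, WD_left hW (-y) z0,
    WD_left hW 0 z0, WD_neg_right hW]
  ring

end UQO
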