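import Pool.Agent.UNL.Defs
import Pool.Agent.UNI.BGDer
import Pool.Agent.UNI.BTors
import Pool.Agent.UQO.TorAe

/-!
# UNI/BForms: the regulator form at generic points

`Rq` is `UNL.Reg` for an arbitrary lattice; `Rq = RB` if `N u`, `N v`, `N (u - v)` are not in the
lattice.
-/

open MeasureTheory

namespace UQO

noncomputable section

variable [Lt]

/-- `(℘(z) - ℘(k))^(N²) / ∏_s (℘(z+s) - ℘(k))` -/
def Aq {N : ℕ} [NeZero N] (k : Gr N) (z : ℂ) : ℂ :=
  (P z - P (tq k)) ^ (N ^ 2) / ∏ s : Gr N, (P (z + tq s) - P (tq k))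

/-- `∏_{e ≠ 0} (℘(z) - ℘(e))` -/
def Cq (N : ℕ) [NeZero N] (z : ℂ) : ℂ :=
  ∏ e ∈ (Finset.univ : Finset (Gr N)).erase 0, (P z - P (tq e))

/-- the regulator form -/
def Rq {N : ℕ} [NeZero N] (W : Gr N → Gr N → ℤ) (u v : ℂ) : ℂ :=
  ∑ k ∈ (Finset.univ : Finset (Gr N)).erase 0, ∑ l ∈ (Finset.univ : Finset (Gr N)).erase 0,
    W k l • ((4 : ℤ) • (∑ h ∈ (Finset.univ : Finset (Gr N)).erase 0,
        (EE7.BW (GG (tq h) (v + tq h) (u + tq h)) : ℂ) *
          UNL.wedge (fun u _ => Aq k u) (fun _ v => Aq l v) u v)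
      + (∑ j ∈ (((Finset.univ : Finset (Gr N)).erase 0).erase k).erase (-k),
        (EE7.BW (GG (tq j) (tq k) u) : ℂ) *
          UNL.wedge (fun u v => Cq N (u - v)) (fun _ v => Aq l v) u v)
      + (∑ j ∈ (((Finset.univ : Finset (Gr N)).erase 0).erase l).erase (-l),
        (EE7.BW (GG (tq j) (tq l) v) : ℂ) *
          UNL.wedge (fun u v => Cq N (u - v)) (fun u _ => Aq k u) u v))

variable {N : ℕ} [NeZero N]

/-- `N z` off the lattice: `z + tq s + tq k` is off the lattice -/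
theorem gen_add {z : ℂ} (h : Ofl (N * z)) (s : Gr N) : Ofl (z + tq s) := by
  by_contra h0
  obtain ⟨n, hn⟩ := (not_ofl_iff _).1 h0
  refine (not_ofl_iff _).2 ⟨(N * n.1 - s.1.val, N * n.2 - s.2.val), ?_⟩ h
  have hN : (N : ℂ) ≠ 0 := Nat.cast_ne_zero.2 (NeZero.ne N)
  have : z = xx n - tq s := by linear_combination hn
  rw [this, xx_def, xx_def, tq]
  push_cast
  field_simp
  ring

theorem gen_zero {z : ℂ} (h : Ofl (N * z)) : Ofl z := by
  have := gen_add (N := N) h 0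
  rwa [tq_zero, add_zero] at this

theorem gen_sub {z : ℂ} (h : Ofl (N * z)) (s : Gr N) : Ofl (z - tq s) := by
  obtain ⟨m, hm⟩ := tq_neg s
  have h1 := gen_add (N := N) h (-s)
  rw [hm, ← add_assoc, ofl_add] at h1
  rwa [sub_eq_add_neg]

/-- the translates of a generic point are generic -/
theorem gen_shift {z : ℂ} (h : Ofl (N * z)) (s : Gr N) : Ofl (N * (z + tq s)) := by
  have e : (N : ℂ) * (z + tq s) = N * z + xx ((s.1.val : ℤ), (s.2.val : ℤ)) := by
    have hN : (N : ℂ) ≠ 0 := Nat.cast_ne_zero.2 (NeZero.ne N)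
    rw [xx_def, tq]
    push_cast
    field_simp
  rw [e, ofl_add]
  exact h

theorem gen_ne {z : ℂ} (h : Ofl (N * z)) {k : Gr N} (hk : k ≠ 0) : P z - P (tq k) ≠ 0 := by
  rw [sub_ne_zero]
  intro h1
  rcases (P_eq_iff (gen_zero h) ((ofl_tq k).2 hk)).1 h1 with h2 | h2
  · exact h2 (gen_add h k)
  · exact h2 (gen_sub h k)

theorem gen_P1 {z : ℂ} (h : Ofl (N * z)) {k : Gr N} (hk : k ≠ 0) :
    P1 z = aa (tq k) z * (P z - P (tq k)) := by
  rw [aa_eq (gen_zero h) ((ofl_tq k).2 hk) (gen_add h k) (gen_sub h k), div_mul_cancel₀ _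
    (gen_ne h hk)]

/-- derivative of one factor -/
theorem gen_deriv {z : ℂ} (h : Ofl (N * z)) {k : Gr N} (hk : k ≠ 0) (s : Gr N) :
    HasDerivAt (fun w => P (w + tq s) - P (tq k))
      (aa (tq k) (z + tq s) * (P (z + tq s) - P (tq k))) z := by
  have h1 := gen_P1 (gen_shift h s) hk
  rw [← h1]
  exact ((P_deriv (gen_add h s)).comp_add_const z (tq s)).sub_const _

omit [Lt] in
theorem Forms_prod {ι : Type*} [DecidableEq ι] (S : Finset ι) (f : ι → ℂ → ℂ) (g : ι → ℂ) (z : ℂ)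
    (h : ∀ i ∈ S, HasDerivAt (f i) (g i * f i z) z) :
    HasDerivAt (fun w => ∏ i ∈ S, f i w) ((∑ i ∈ S, g i) * ∏ i ∈ S, f i z) z := by
  induction S using Finset.induction_on with
  | empty => simpa using hasDerivAt_const z (1 : ℂ)
  | insert a S ha ih =>
    have h1 := h a (Finset.mem_insert_self a S)
    have h2 := ih (fun i hi => h i (Finset.mem_insert_of_mem hi))
    have h3 := h1.mul h2
    simp only [Finset.prod_insert ha, Finset.sum_insert ha]
    refine h3.congr_deriv ?_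
    ring

theorem Cq_deriv {z : ℂ} (h : Ofl (N * z)) : HasDerivAt (Cq N) (gam N z * Cq N z) z := by
  have h1 := Forms_prod ((Finset.univ : Finset (Gr N)).erase 0)
    (fun e w => P w - P (tq e)) (fun e => aa (tq e) z) z (by
      intro e he
      have := gen_deriv h (Finset.ne_of_mem_erase he) (0 : Gr N)
      simpa [tq_zero] using this)
  exact h1

theorem Cq_ne {z : ℂ} (h : Ofl (N * z)) : Cq N z ≠ 0 :=
  Finset.prod_ne_zero_iff.2 fun _ he => gen_ne h (Finset.ne_of_mem_erase he)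

theorem Z_tq (z : ℂ) (k : Gr N) : ∑ s : Gr N, Z (z + tq s + tq k) = ∑ s : Gr N, Z (z + tq s) := by
  have h1 : ∀ s : Gr N, Z (z + tq s + tq k) = Z (z + tq (s + k)) := by
    intro s
    obtain ⟨m, hm⟩ := tq_add s k
    rw [hm, ← add_assoc, Z_per, add_assoc]
  simp only [h1]
  exact Equiv.sum_comp (Equiv.addRight k) (fun s => Z (z + tq s))

theorem aa_sum_zero (z : ℂ) (k : Gr N) : ∑ s : Gr N, aa (tq k) (z + tq s) = 0 := by
  have h2 : ∀ s : Gr N, Z (z + tq s - tq k) = Z (z + tq s + tq (-k)) := by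
    intro s
    obtain ⟨m, hm⟩ := tq_neg k
    rw [hm, ← add_assoc, Z_per, sub_eq_add_neg]
  simp only [aa, Finset.sum_sub_distrib, Finset.sum_add_distrib, h2]
  rw [Z_tq z (-k), Z_tq z k, ← Finset.mul_sum]
  ring

theorem Aq_deriv {z : ℂ} (h : Ofl (N * z)) {k : Gr N} (hk : k ≠ 0) :
    HasDerivAt (Aq k) ((N : ℂ) ^ 2 * aa (tq k) z * Aq k z) z := by
  have h1 : HasDerivAt (fun w => P w - P (tq k)) (aa (tq k) z * (P z - P (tq k))) z := by
    have := gen_deriv h hk (0 : Gr N)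
    simpa [tq_zero] using this
  have h2 := h1.pow (N ^ 2)
  have h3 := Forms_prod (Finset.univ : Finset (Gr N))
    (fun s w => P (w + tq s) - P (tq k)) (fun s => aa (tq k) (z + tq s)) z
    (fun s _ => gen_deriv h hk s)
  rw [aa_sum_zero, zero_mul] at h3
  have hne : (∏ s : Gr N, (P (z + tq s) - P (tq k))) ≠ 0 :=
    Finset.prod_ne_zero_iff.2 fun s _ => gen_ne (gen_shift h s) hk
  have h4 := h2.div h3 hne
  refine HasDerivAt.congr_deriv (f := Aq k) h4 ?_
  have hN : (N ^ 2 : ℕ) ≠ 0 := pow_ne_zero 2 (NeZero.ne N)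
  have h5 : (P z - P (tq k)) ^ (N ^ 2) = (P z - P (tq k)) ^ (N ^ 2 - 1) * (P z - P (tq k)) := by
    rw [← pow_succ, Nat.sub_add_cancel (Nat.one_le_iff_ne_zero.2 hN)]
  unfold Aq
  simp only [mul_zero, sub_zero]
  rw [h5]
  push_cast
  field_simp

theorem Aq_ne {z : ℂ} (h : Ofl (N * z)) {k : Gr N} (hk : k ≠ 0) : Aq k z ≠ 0 := by
  have hne : (∏ s : Gr N, (P (z + tq s) - P (tq k))) ≠ 0 :=
    Finset.prod_ne_zero_iff.2 fun s _ => gen_ne (gen_shift h s) hk
  exact div_ne_zero (pow_ne_zero _ (gen_ne h hk)) hne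

theorem wedge_AA {u v : ℂ} (hu : Ofl (N * u)) (hv : Ofl (N * v)) {k l : Gr N} (hk : k ≠ 0)
    (hl : l ≠ 0) : UNL.wedge (fun u _ => Aq k u) (fun _ v => Aq l v) u v =
      (N : ℂ) ^ 2 * aa (tq k) u * ((N : ℂ) ^ 2 * aa (tq l) v) := by
  unfold UNL.wedge
  rw [(Aq_deriv hu hk).deriv, (Aq_deriv hv hl).deriv, deriv_const, deriv_const]
  have h1 := Aq_ne hu hk
  have h2 := Aq_ne hv hl
  field_simp
  ring

theorem wedge_CA {u v : ℂ} (hv : Ofl (N * v)) (huv : Ofl (N * (u - v)))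
    {l : Gr N} (hl : l ≠ 0) : UNL.wedge (fun u v => Cq N (u - v)) (fun _ v => Aq l v) u v =
      gam N (u - v) * ((N : ℂ) ^ 2 * aa (tq l) v) := by
  have d1 : HasDerivAt (fun w => Cq N (w - v)) (gam N (u - v) * Cq N (u - v)) u :=
    (Cq_deriv huv).comp_sub_const u v
  unfold UNL.wedge
  rw [d1.deriv, (Aq_deriv hv hl).deriv, deriv_const]
  have h1 := Cq_ne huv
  have h2 := Aq_ne hv hl
  field_simp
  ring

theorem wedge_CA' {u v : ℂ} (hu : Ofl (N * u)) (huv : Ofl (N * (u - v)))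
    {k : Gr N} (hk : k ≠ 0) : UNL.wedge (fun u v => Cq N (u - v)) (fun u _ => Aq k u) u v =
      gam N (u - v) * ((N : ℂ) ^ 2 * aa (tq k) u) := by
  have d2 : HasDerivAt (fun w => Cq N (u - w)) (-(gam N (u - v) * Cq N (u - v))) v :=
    (Cq_deriv huv).comp_const_sub u v
  unfold UNL.wedge
  rw [d2.deriv, (Aq_deriv hu hk).deriv, deriv_const]
  have h1 := Cq_ne huv
  have h2 := Aq_ne hu hk
  field_simp
  ring

theorem Rq_eq (W : Gr N → Gr N → ℤ) {u v : ℂ} (hu : Ofl (N * u)) (hv : Ofl (N * v))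
    (huv : Ofl (N * (u - v))) : Rq W u v = RB W u v := by
  unfold Rq RB
  refine Finset.sum_congr rfl fun k hk => Finset.sum_congr rfl fun l hl => ?_
  have hk := Finset.ne_of_mem_erase hk
  have hl := Finset.ne_of_mem_erase hl
  rw [wedge_AA hu hv hk hl, wedge_CA hv huv hl, wedge_CA' hu huv hk]
  rw [← Finset.sum_mul, ← Finset.sum_mul, ← Finset.sum_mul]
  rw [zsmul_eq_mul, zsmul_eq_mul]
  rfl

omit [NeZero N] in
theorem per_N : Per (fun u : ℂ => Ofl ((N : ℂ) * u)) := by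
  intro u n
  have e : (N : ℂ) * (u + xx n) = N * u + xx ((N : ℤ) * n.1, (N : ℤ) * n.2) := by
    rw [xx_def, xx_def]
    push_cast
    ring
  simp only [e, ofl_add]

theorem ae_N : ∀ᵐ x : E, Ofl ((N : ℂ) * cu x) := by
  have hN : (N : ℂ) ≠ 0 := Nat.cast_ne_zero.2 (NeZero.ne N)
  have hS : (Set.range (fun n : ℤ × ℤ => xx n / N)).Countable := Set.countable_range _
  filter_upwards [ae_cu hS] with x hx
  by_contra hc
  rw [not_ofl_iff] at hc
  obtain ⟨n, hn⟩ := hc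
  refine hx ⟨n, ?_⟩
  show xx n / N = cu x
  rw [← hn]
  field_simp

/-- almost every point of `E × E` is generic -/
theorem ae_Rq (W : Gr N → Gr N → ℤ) :
    (fun q : E × E => Rq W (cu q.1) (cu q.2)) =ᵐ[volume] fun q => RB W (cu q.1) (cu q.2) := by
  have h1 := EE7.TorAe_qfst.ae (ae_N (N := N))
  have h2 := EE7.TorAe_qsnd.ae (ae_N (N := N))
  have h4 := ((EE7.TorAe_qsnd.comp EE7.mp_shear.quasiMeasurePreserving).comp
    EE7.mp_neg2.quasiMeasurePreserving).ae (ae_N (N := N))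
  filter_upwards [h1, h2, h4] with q g1 g2 g4
  refine Rq_eq W g1 g2 ?_
  have h5 := per_cu_sub (per_N (N := N)) q.1 q.2
  rw [← h5]
  simpa [Function.comp, sub_eq_add_neg] using g4

end

end UQO
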