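import Pool.Agent.UNI.BFour2

/-!
# UNI/BFam2: the second family

PROOF. Insert `fam2_kl` and `F2_hat` (for `m = 0` the term is `0` as `cj (mm 0) = 0`): with
`S m q = Σ_{j ≠ 0} PF (tq j) m q` the left side is
`-(2 N²) Σ_k Σ_l W k l Σ_m (1 - dc N m)/m̄² ss_l(m) Σ_q S m q (ch q (tq k) - 1)`
(all double sums over `(m, q)` converge absolutely: `PF_sum2`, `TM_summable`; so `Σ_m Σ_q = Σ_{(m,q)}`,
`Summable.tsum_prod`, and the finite sums go inside)
`= -(2 N²) Σ_{(m,q)} (1 - dc N m)/m̄² S m q · 2 WD W q m` (`sum_W_ch_ss`).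
Insert `PF_sum_j`. If `WD W q m ≠ 0` then `dc N m = dc N (m + q) = dc N (m - q) = 0` (`WD_right`,
`WD_add`, `WD_sub`: `dv N n` implies `dv N (n + n)`), so this is
`-(2 I N⁴/cc²) Σ WD W q m Δ(m,q)/(|m|²|q|² m̄²) (1/|m+q|² - 1/|m-q|²)`.
In the first part replace `q` by `-q` (`WD_neg_left`, `dl m (-q) = -dl m q`): it becomes
`Σ WD W q m · (-Δ(m,q))/(|m|²|q|²|m-q|² m̄²)`, equal to the second part. So the total is
`(4 I N⁴/cc²) Σ WD W q m · k0 m q/m̄² = -(4 I N⁴/cc²) Σ WD W m q · k0 m q/m̄²` (`WD_anti`).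
Summability of the parts: `k0_sum2` (and its image under `q ↦ -q`), `WD_bound`.
-/

open MeasureTheory

namespace UQO

variable [Lt]

variable {N : ℕ}

private theorem BFam2_dv {n : ℤ × ℤ} (h : dv N n) : dv N (n + n) :=
  ⟨by simpa using dvd_add h.1 h.1, by simpa using dvd_add h.2 h.2⟩

private theorem BFam2_dv_neg {n : ℤ × ℤ} (h : dv N n) : dv N (-n) :=
  ⟨by simpa using h.1, by simpa using h.2⟩

private theorem BFam2_dc (n : ℤ × ℤ) : ‖(1 - dc N n : ℂ)‖ ≤ 1 := by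
  unfold dc
  split_ifs <;> simp

private theorem BFam2_dc_zero {n : ℤ × ℤ} (h : ¬ dv N n) : dc N n = 0 := by
  unfold dc
  rw [if_neg h]

private theorem BFam2_ch (n : ℤ × ℤ) (u : ℂ) : ‖ch n u - 1‖ ≤ 2 := by
  refine (norm_sub_le _ _).trans ?_
  rw [norm_ch, norm_one]
  norm_num

private theorem BFam2_dl (p q : ℤ × ℤ) : dl p (-q) = -dl p q := by
  unfold dl
  rw [mm_neg, cj_neg]
  ring

private theorem BFam2_summable_neg {g : (ℤ × ℤ) × (ℤ × ℤ) → ℂ} (hg : Summable g) :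
    Summable (fun x : (ℤ × ℤ) × (ℤ × ℤ) => g (x.1, -x.2)) ∧
      ∑' x : (ℤ × ℤ) × (ℤ × ℤ), g (x.1, -x.2) = ∑' x, g x := by
  let e : (ℤ × ℤ) × (ℤ × ℤ) ≃ (ℤ × ℤ) × (ℤ × ℤ) := (Equiv.refl _).prodCongr (Equiv.neg _)
  exact ⟨(e.summable_iff (f := g)).mpr hg, e.tsum_eq g⟩

variable [NeZero N]

/-- the sum over the torsion points -/
private noncomputable def BFam2_S (N : ℕ) [NeZero N] (m q : ℤ × ℤ) : ℂ :=
  ∑ j ∈ (Finset.univ : Finset (Gr N)).erase 0, PF (tq j) m q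

/-- one term of the double sum -/
private noncomputable def BFam2_T (k l : Gr N) (x : (ℤ × ℤ) × (ℤ × ℤ)) : ℂ :=
  (1 - dc N x.1) / cj (mm x.1) ^ 2 * BFam2_S N x.1 x.2 * ((ch x.2 (tq k) - 1) * ss (tq l) x.1)

private theorem BFam2_summable (k l : Gr N) : Summable (BFam2_T k l) := by
  obtain ⟨C, hC0, hC⟩ := PF_sum2
  have hmaj : Summable (fun x : (ℤ × ℤ) × (ℤ × ℤ) =>
      8 * ∑ j ∈ (Finset.univ : Finset (Gr N)).erase 0, C * TM x) := by
    refine Summable.mul_left _ ?_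
    exact summable_sum fun j _ => TM_summable.mul_left C
  refine Summable.of_norm_bounded hmaj fun x => ?_
  obtain ⟨m, q⟩ := x
  have h1 : ‖BFam2_S N m q‖ * ‖mm m‖⁻¹ ^ 2 ≤
      ∑ j ∈ (Finset.univ : Finset (Gr N)).erase 0, C * TM (m, q) := by
    refine (mul_le_mul_of_nonneg_right (norm_sum_le _ _) (by positivity)).trans ?_
    rw [Finset.sum_mul]
    exact Finset.sum_le_sum fun j _ => hC (tq j) m q
  have h2 : ‖BFam2_T k l (m, q)‖ =
      ‖(1 - dc N m : ℂ)‖ * (‖ch q (tq k) - 1‖ * ‖ss (tq l) m‖) *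
        (‖BFam2_S N m q‖ * ‖mm m‖⁻¹ ^ 2) := by
    unfold BFam2_T
    rw [norm_mul, norm_mul, norm_mul, norm_div, norm_pow, norm_cj]
    rw [div_eq_mul_inv, ← inv_pow]
    ring
  rw [h2]
  have h3 : ‖(1 - dc N m : ℂ)‖ * (‖ch q (tq k) - 1‖ * ‖ss (tq l) m‖) ≤ 1 * (2 * 4) := by
    have a1 := BFam2_dc (N := N) m
    have a2 := BFam2_ch q (tq k)
    have a3 := ss_bound (tq l) m
    gcongr
  calc _ ≤ 1 * (2 * 4) * (‖BFam2_S N m q‖ * ‖mm m‖⁻¹ ^ 2) := by gcongr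
    _ ≤ 1 * (2 * 4) * ∑ j ∈ (Finset.univ : Finset (Gr N)).erase 0, C * TM (m, q) := by gcongr
    _ = _ := by ring

private theorem BFam2_kl {k : Gr N} (hk : k ≠ 0) (l : Gr N) :
    ∑' m : ℤ × ℤ, (1 - dc N m) * (fc (F2 k) m * (ss (tq l) m / cj (mm m) ^ 2)) =
      ∑' x : (ℤ × ℤ) × (ℤ × ℤ), BFam2_T k l x := by
  rw [(BFam2_summable k l).tsum_prod]
  refine tsum_congr fun m => ?_
  by_cases hm : m = 0
  · subst hm
    have h0 : (cj (mm 0)) ^ 2 = 0 := by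
      rw [mm_zero, cj_zero]
      ring
    have h1 : ∀ q, BFam2_T k l (0, q) = 0 := fun q => by
      unfold BFam2_T
      simp only [h0, div_zero, zero_mul]
    simp only [h1, tsum_zero, h0, div_zero, mul_zero]
  · rw [F2_hat hk hm]
    rw [← tsum_mul_right, ← tsum_mul_left]
    refine tsum_congr fun q => ?_
    unfold BFam2_T BFam2_S
    ring

/-- the summand after the summation over `k` and `l` -/
private noncomputable def BFam2_B (W : Gr N → Gr N → ℤ) (x : (ℤ × ℤ) × (ℤ × ℤ)) : ℂ :=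
  WD W x.1 x.2 * (k0 x.1 x.2 / cj (mm x.1) ^ 2)

private theorem BFam2_B_summable (W : Gr N → Gr N → ℤ) : Summable (BFam2_B W) := by
  obtain ⟨C, hC0, hC⟩ := WD_bound W
  refine Summable.of_norm_bounded (k0_sum2.mul_left C) fun x => ?_
  unfold BFam2_B
  rw [norm_mul]
  exact mul_le_mul_of_nonneg_right (hC _ _) (norm_nonneg _)

private theorem BFam2_sum {W : Gr N → Gr N → ℤ} (hW : Wg W) (x : (ℤ × ℤ) × (ℤ × ℤ)) :
    ∑ k ∈ (Finset.univ : Finset (Gr N)).erase 0, ∑ l ∈ (Finset.univ : Finset (Gr N)).erase 0,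
      (W k l : ℂ) * BFam2_T k l x =
      Complex.I * (N : ℂ) ^ 2 / (cc : ℂ) ^ 2 * (BFam2_B W x + BFam2_B W (x.1, -x.2)) := by
  obtain ⟨m, q⟩ := x
  have h1 : ∑ k ∈ (Finset.univ : Finset (Gr N)).erase 0,
      ∑ l ∈ (Finset.univ : Finset (Gr N)).erase 0, (W k l : ℂ) * BFam2_T k l (m, q) =
      (1 - dc N m) / cj (mm m) ^ 2 * BFam2_S N m q * (2 * WD W q m) := by
    rw [← sum_W_ch_ss hW q m, Finset.mul_sum]
    refine Finset.sum_congr rfl fun k _ => ?_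
    rw [Finset.mul_sum]
    refine Finset.sum_congr rfl fun l _ => ?_
    unfold BFam2_T
    ring
  rw [h1]
  have hS : BFam2_S N m q = _ := PF_sum_j m q
  rw [hS]
  unfold BFam2_B k0
  simp only
  rw [WD_neg_right hW, BFam2_dl, sub_neg_eq_add, mm_neg, cj_neg, WD_anti hW q m]
  by_cases h0 : WD W q m = 0
  · rw [h0]
    ring
  · have e1 : dc N m = 0 := BFam2_dc_zero fun h => h0 (WD_right hW q (BFam2_dv h))
    have e2 : dc N (m + q) = 0 := BFam2_dc_zero fun h => h0 (WD_add hW (by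
      rw [add_comm q m]
      exact BFam2_dv h))
    have e3 : dc N (m - q) = 0 := BFam2_dc_zero fun h => h0 (WD_sub hW (by
      have h2 := BFam2_dv (BFam2_dv_neg h)
      rwa [neg_sub] at h2))
    rw [e1, e2, e3]
    simp only [sub_zero, div_eq_mul_inv, mul_inv, one_mul, inv_neg]
    ring

theorem fam2 {N : ℕ} [NeZero N] {W : Gr N → Gr N → ℤ} (hW : Wg W) :
    ∑ k ∈ (Finset.univ : Finset (Gr N)).erase 0, ∑ l ∈ (Finset.univ : Finset (Gr N)).erase 0,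
      (W k l : ℂ) * ∫ q : E × E, F2 k (cu q.1) * (gam N (cu q.1 - cu q.2) * aa (tq l) (cu q.2)) =
      -(4 * Complex.I * (N : ℂ) ^ 4 / (cc : ℂ) ^ 2) *
        ∑' x : (ℤ × ℤ) × (ℤ × ℤ), WD W x.1 x.2 * (k0 x.1 x.2 / cj (mm x.1) ^ 2) := by
  have h1 : ∀ k ∈ (Finset.univ : Finset (Gr N)).erase 0,
      ∑ l ∈ (Finset.univ : Finset (Gr N)).erase 0,
      (W k l : ℂ) * ∫ q : E × E, F2 k (cu q.1) * (gam N (cu q.1 - cu q.2) * aa (tq l) (cu q.2)) =
      -(2 * (N : ℂ) ^ 2) * ∑ l ∈ (Finset.univ : Finset (Gr N)).erase 0,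
        ∑' x, (W k l : ℂ) * BFam2_T k l x := by
    intro k hk
    have hk0 : k ≠ 0 := (Finset.mem_erase.mp hk).1
    rw [Finset.mul_sum]
    refine Finset.sum_congr rfl fun l _ => ?_
    rw [(fam2_kl hk0 l).2, BFam2_kl hk0 l, tsum_mul_left]
    ring
  rw [Finset.sum_congr rfl h1, ← Finset.mul_sum]
  have hs : ∀ k l : Gr N, Summable (fun x => (W k l : ℂ) * BFam2_T k l x) := fun k l =>
    (BFam2_summable k l).mul_left _
  have h2 : ∑ k ∈ (Finset.univ : Finset (Gr N)).erase 0,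
      ∑ l ∈ (Finset.univ : Finset (Gr N)).erase 0, ∑' x, (W k l : ℂ) * BFam2_T k l x =
      ∑' x, ∑ k ∈ (Finset.univ : Finset (Gr N)).erase 0,
        ∑ l ∈ (Finset.univ : Finset (Gr N)).erase 0, (W k l : ℂ) * BFam2_T k l x := by
    rw [Summable.tsum_finsetSum fun k _ => summable_sum fun l _ => hs k l]
    refine Finset.sum_congr rfl fun k _ => ?_
    rw [Summable.tsum_finsetSum fun l _ => hs k l]
  rw [h2]
  have hB := BFam2_B_summable W
  obtain ⟨hB1, hB2⟩ := BFam2_summable_neg hB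
  have h3 : ∑' x, ∑ k ∈ (Finset.univ : Finset (Gr N)).erase 0,
      ∑ l ∈ (Finset.univ : Finset (Gr N)).erase 0, (W k l : ℂ) * BFam2_T k l x =
      Complex.I * (N : ℂ) ^ 2 / (cc : ℂ) ^ 2 * (2 * ∑' x, BFam2_B W x) := by
    rw [tsum_congr fun x => BFam2_sum hW x, tsum_mul_left, hB.tsum_add hB1, hB2]
    ring
  rw [h3]
  have h4 : ∑' x : (ℤ × ℤ) × (ℤ × ℤ), WD W x.1 x.2 * (k0 x.1 x.2 / cj (mm x.1) ^ 2) =
      ∑' x, BFam2_B W x := rfl
  rw [h4]
  ring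

end UQO
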