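import Pool.Agent.UNI.BFam1
import Pool.Agent.UNI.BFam2

/-!
# UNI/BRB: the integral of `RB`

PROOF. `RB W u v = 4 N⁴ F1 · g1 + N² Σ_{k,l} W k l F2 k u gam (u - v) aa_l v
+ N² Σ_{k,l} W k l F2 l v gam (u - v) aa_k u` (`Finset.mul_sum`; definition of `g1`).
First part: `fam1`. Second part: `fam2_kl`, `fam2`. Third part: exchange `u` and `v`
(`MeasurePreserving` of `Prod.swap`, `integral_prod_swap`) and rename `k, l`:
`F2 l v gam (u - v) aa_k u` becomes `F2 l u gam (v - u) aa_k v = -F2 l u gam (u - v) aa_k v`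
(`gam_neg`), `Σ W k l (...) = Σ W l k (-F2 k u gam (u - v) aa_l v)` and `W l k = -W k l`: the same
value as the second part. In the last lattice sum (for the second part) rename `x.1, x.2`:
`WD W y x · k0 y x = WD W x y · k0 x y` (`WD_anti`, `dl y x = -dl x y`, `mm (y - x) = -mm (x - y)`), so
`Σ WD · k0/x̄² = Σ WD · k0/ȳ²`. Sum up with `K3_eq`, `k0_sum1`, `k0_sum2`, `k0_sum3`, `WD_bound`:
`4 N⁴ · (-(I N²/cc²)) = -(4 I N⁶/cc²)` and `N² · (-(4 I N⁴/cc²)) = -(4 I N⁶/cc²)`.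
-/

open MeasureTheory

namespace UQO

variable [Lt]

private lemma BRB_dl (x y : ℤ × ℤ) : dl y x = -dl x y := by
  simp only [dl]; ring

private lemma BRB_k0 (x y : ℤ × ℤ) : k0 y x = -k0 x y := by
  have h : mm (y - x) = -mm (x - y) := by rw [← mm_neg, neg_sub]
  simp only [k0]
  rw [BRB_dl x y, h]
  have h2 : cj (-mm (x - y)) = -cj (mm (x - y)) := by simp
  rw [h2, neg_mul_neg, neg_div]
  congr 2
  ring

private lemma BRB_swapsum {N : ℕ} [NeZero N] {W : Gr N → Gr N → ℤ} (hW : Wg W) :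
    ∑' x : (ℤ × ℤ) × (ℤ × ℤ), WD W x.1 x.2 * (k0 x.1 x.2 / cj (mm x.1) ^ 2) =
    ∑' x : (ℤ × ℤ) × (ℤ × ℤ), WD W x.1 x.2 * (k0 x.1 x.2 / cj (mm x.2) ^ 2) := by
  rw [← (Equiv.prodComm (ℤ × ℤ) (ℤ × ℤ)).tsum_eq]
  refine tsum_congr fun x => ?_
  simp only [Equiv.prodComm_apply, Prod.fst_swap, Prod.snd_swap]
  rw [BRB_k0 x.1 x.2, WD_anti hW x.1 x.2]
  ring

private lemma BRB_summ {N : ℕ} [NeZero N] (W : Gr N → Gr N → ℤ)
    {f : (ℤ × ℤ) × (ℤ × ℤ) → ℂ} (hf : Summable (fun x => ‖f x‖)) :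
    Summable (fun x => WD W x.1 x.2 * f x) := by
  obtain ⟨C, hC, hb⟩ := WD_bound W
  refine Summable.of_norm_bounded (hf.mul_left C) fun x => ?_
  rw [norm_mul]
  exact mul_le_mul_of_nonneg_right (hb _ _) (norm_nonneg _)

private lemma BRB_sum {N : ℕ} [NeZero N] {W : Gr N → Gr N → ℤ} (hW : Wg W) :
    ∑' x : (ℤ × ℤ) × (ℤ × ℤ), WD W x.1 x.2 * K3 (mm x.1) (mm x.2) =
    (∑' x : (ℤ × ℤ) × (ℤ × ℤ), WD W x.1 x.2 * (k0 x.1 x.2 / (cj (mm x.1) * cj (mm x.2)))) +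
    2 * ∑' x : (ℤ × ℤ) × (ℤ × ℤ), WD W x.1 x.2 * (k0 x.1 x.2 / cj (mm x.1) ^ 2) := by
  have s1 := BRB_summ W (f := fun x => k0 x.1 x.2 / (cj (mm x.1) * cj (mm x.2))) k0_sum1
  have s2 := BRB_summ W (f := fun x => k0 x.1 x.2 / cj (mm x.1) ^ 2) k0_sum2
  have s3 := BRB_summ W (f := fun x => k0 x.1 x.2 / cj (mm x.2) ^ 2) k0_sum3
  have h := BRB_swapsum hW
  rw [two_mul]
  nth_rw 2 [h]
  rw [← add_assoc, ← s1.tsum_add s2, ← (s1.add s2).tsum_add s3]
  refine tsum_congr fun x => ?_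
  rw [K3_eq]
  ring

/-- the second part -/
private lemma BRB_two {N : ℕ} [NeZero N] (W : Gr N → Gr N → ℤ) :
    Integrable (fun q : E × E => ∑ k ∈ (Finset.univ : Finset (Gr N)).erase 0,
      ∑ l ∈ (Finset.univ : Finset (Gr N)).erase 0,
      (W k l : ℂ) * (F2 k (cu q.1) * (gam N (cu q.1 - cu q.2) * aa (tq l) (cu q.2)))) := by
  refine integrable_finsetSum _ fun k hk => integrable_finsetSum _ fun l _ => ?_
  exact (fam2_kl (Finset.ne_of_mem_erase hk) l).1.const_mul _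

private lemma BRB_two_val {N : ℕ} [NeZero N] {W : Gr N → Gr N → ℤ} (hW : Wg W) :
    ∫ q : E × E, (∑ k ∈ (Finset.univ : Finset (Gr N)).erase 0,
      ∑ l ∈ (Finset.univ : Finset (Gr N)).erase 0,
      (W k l : ℂ) * (F2 k (cu q.1) * (gam N (cu q.1 - cu q.2) * aa (tq l) (cu q.2)))) =
      -(4 * Complex.I * (N : ℂ) ^ 4 / (cc : ℂ) ^ 2) *
        ∑' x : (ℤ × ℤ) × (ℤ × ℤ), WD W x.1 x.2 * (k0 x.1 x.2 / cj (mm x.1) ^ 2) := by
  rw [← fam2 hW, integral_finsetSum]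
  · refine Finset.sum_congr rfl fun k hk => ?_
    rw [integral_finsetSum]
    · refine Finset.sum_congr rfl fun l _ => ?_
      rw [integral_const_mul]
    · intro l _
      exact (fam2_kl (Finset.ne_of_mem_erase hk) l).1.const_mul _
  · intro k hk
    refine integrable_finsetSum _ fun l _ => ?_
    exact (fam2_kl (Finset.ne_of_mem_erase hk) l).1.const_mul _

/-- the third part is the exchanged second part -/
private lemma BRB_three {N : ℕ} [NeZero N] {W : Gr N → Gr N → ℤ} (hW : Wg W) (q : E × E) :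
    (∑ k ∈ (Finset.univ : Finset (Gr N)).erase 0,
      ∑ l ∈ (Finset.univ : Finset (Gr N)).erase 0,
      (W k l : ℂ) * (F2 l (cu q.2) * (gam N (cu q.1 - cu q.2) * aa (tq k) (cu q.1)))) =
    (fun q : E × E => ∑ k ∈ (Finset.univ : Finset (Gr N)).erase 0,
      ∑ l ∈ (Finset.univ : Finset (Gr N)).erase 0,
      (W k l : ℂ) * (F2 k (cu q.1) * (gam N (cu q.1 - cu q.2) * aa (tq l) (cu q.2)))) q.swap := by
  simp only [Prod.fst_swap, Prod.snd_swap]
  rw [Finset.sum_comm]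
  refine Finset.sum_congr rfl fun k _ => Finset.sum_congr rfl fun l _ => ?_
  have h1 : gam N (cu q.1 - cu q.2) = -gam N (cu q.2 - cu q.1) := by
    rw [← gam_neg, neg_sub]
  rw [h1, hW.anti k l]
  push_cast
  ring

private lemma BRB_split {N : ℕ} [NeZero N] (W : Gr N → Gr N → ℤ) (u v : ℂ) :
    RB W u v = 4 * (N : ℂ) ^ 4 * (F1 N u v * g1 W u v) +
      (N : ℂ) ^ 2 * (∑ k ∈ (Finset.univ : Finset (Gr N)).erase 0,
        ∑ l ∈ (Finset.univ : Finset (Gr N)).erase 0,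
        (W k l : ℂ) * (F2 k u * (gam N (u - v) * aa (tq l) v))) +
      (N : ℂ) ^ 2 * (∑ k ∈ (Finset.univ : Finset (Gr N)).erase 0,
        ∑ l ∈ (Finset.univ : Finset (Gr N)).erase 0,
        (W k l : ℂ) * (F2 l v * (gam N (u - v) * aa (tq k) u))) := by
  simp only [RB, g1, Finset.mul_sum, ← Finset.sum_add_distrib]
  refine Finset.sum_congr rfl fun k _ => Finset.sum_congr rfl fun l _ => ?_
  ring

theorem RB_val {N : ℕ} [NeZero N] {W : Gr N → Gr N → ℤ} (hW : Wg W) :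
    Integrable (fun q : E × E => RB W (cu q.1) (cu q.2)) ∧
    ∫ q : E × E, RB W (cu q.1) (cu q.2) =
      -(4 * Complex.I * (N : ℂ) ^ 6 / (cc : ℂ) ^ 2) *
        ∑' x : (ℤ × ℤ) × (ℤ × ℤ), WD W x.1 x.2 * K3 (mm x.1) (mm x.2) := by
  obtain ⟨i1, v1⟩ := fam1 hW
  have i2 := BRB_two W
  have v2 := BRB_two_val hW
  have i3 : Integrable (fun q : E × E => (∑ k ∈ (Finset.univ : Finset (Gr N)).erase 0,
      ∑ l ∈ (Finset.univ : Finset (Gr N)).erase 0,
      (W k l : ℂ) * (F2 l (cu q.2) * (gam N (cu q.1 - cu q.2) * aa (tq k) (cu q.1))))) := by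
    refine Integrable.congr i2.swap (Filter.Eventually.of_forall fun q => ?_)
    exact (BRB_three hW q).symm
  have v3 : ∫ q : E × E, (∑ k ∈ (Finset.univ : Finset (Gr N)).erase 0,
      ∑ l ∈ (Finset.univ : Finset (Gr N)).erase 0,
      (W k l : ℂ) * (F2 l (cu q.2) * (gam N (cu q.1 - cu q.2) * aa (tq k) (cu q.1)))) =
      -(4 * Complex.I * (N : ℂ) ^ 4 / (cc : ℂ) ^ 2) *
        ∑' x : (ℤ × ℤ) × (ℤ × ℤ), WD W x.1 x.2 * (k0 x.1 x.2 / cj (mm x.1) ^ 2) := by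
    rw [← v2]
    rw [integral_congr_ae (Filter.Eventually.of_forall fun q => BRB_three hW q)]
    exact integral_prod_swap (μ := (volume : Measure E)) (ν := (volume : Measure E))
      (fun q : E × E => ∑ k ∈ (Finset.univ : Finset (Gr N)).erase 0,
      ∑ l ∈ (Finset.univ : Finset (Gr N)).erase 0,
      (W k l : ℂ) * (F2 k (cu q.1) * (gam N (cu q.1 - cu q.2) * aa (tq l) (cu q.2))))
  have e : (fun q : E × E => RB W (cu q.1) (cu q.2)) = fun q : E × E =>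
      4 * (N : ℂ) ^ 4 * (F1 N (cu q.1) (cu q.2) * g1 W (cu q.1) (cu q.2)) +
      (N : ℂ) ^ 2 * (∑ k ∈ (Finset.univ : Finset (Gr N)).erase 0,
        ∑ l ∈ (Finset.univ : Finset (Gr N)).erase 0,
        (W k l : ℂ) * (F2 k (cu q.1) * (gam N (cu q.1 - cu q.2) * aa (tq l) (cu q.2)))) +
      (N : ℂ) ^ 2 * (∑ k ∈ (Finset.univ : Finset (Gr N)).erase 0,
        ∑ l ∈ (Finset.univ : Finset (Gr N)).erase 0,
        (W k l : ℂ) * (F2 l (cu q.2) * (gam N (cu q.1 - cu q.2) * aa (tq k) (cu q.1)))) := by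
    funext q
    exact BRB_split W _ _
  have j1 := i1.const_mul (4 * (N : ℂ) ^ 4)
  have j2 := i2.const_mul ((N : ℂ) ^ 2)
  have j3 := i3.const_mul ((N : ℂ) ^ 2)
  have j12 : Integrable (fun q : E × E =>
      4 * (N : ℂ) ^ 4 * (F1 N (cu q.1) (cu q.2) * g1 W (cu q.1) (cu q.2)) +
      (N : ℂ) ^ 2 * (∑ k ∈ (Finset.univ : Finset (Gr N)).erase 0,
        ∑ l ∈ (Finset.univ : Finset (Gr N)).erase 0,
        (W k l : ℂ) * (F2 k (cu q.1) * (gam N (cu q.1 - cu q.2) * aa (tq l) (cu q.2))))) :=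
    j1.add j2
  rw [e]
  refine ⟨j12.add j3, ?_⟩
  rw [integral_add j12 j3, integral_add j1 j2, integral_const_mul, integral_const_mul,
    integral_const_mul, v1, v2, v3, BRB_sum hW]
  ring

end UQO
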