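import Pool.Agent.UQO.ZHat
import Pool.Agent.UQO.Fej
import Pool.Agent.EE7.AIm

/-!
# UNI/BFej: pointwise Fejér theorem on the torus

PROOF. Let `K_N`, `s N`, `κ N` be as in `exists_kernel` (UQO/Fej). By `ai_tendsto` (EE7/AIm) applied
to `x ↦ F (y + x)` (it tends to `L` along `𝓝[≠] 0`), `∫ K_N(x) F(y + x) → L`. The left side is the
finite sum `Σ_n κ_N(n) ∫ ch n (cu x) F(y + x) dx = Σ_n κ_N(n) ch (-n) (cu y) ∫ ch n (cu z) F z dz`
(translation invariance, `per_cu_sub`, `ch_per`, `ch_add`); with `c n = ∫ F x ch (-n) (cu x)` this is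
`Σ_n κ_N(n) c(-n) ch (-n) (cu y)`. By `tendsto_tsum_of_dominated_convergence` (bound `‖c (-n)‖`,
`0 ≤ κ ≤ 1`, `κ_N(n) → 1`, and `κ_N(n) = 0` for `n ∉ s N`, so the finite sum is a `tsum`) it tends to
`Σ' c(-n) ch (-n) (cu y) = Σ' c(n) ch n (cu y)` (`Equiv.neg`). Uniqueness of limits.
(EE7/DHat0 contains a similar argument; EE7/AIm has no lattice in it.)
-/

open MeasureTheory Filter Topology

namespace UQO

variable [Lt]

omit [Lt] in
theorem BFej_vol : (volume : Measure E) {0} = 0 := by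
  have h1 : (volume : Measure UnitAddCircle) {0} = 0 := by
    have h := AddCircle.volume_closedBall (T := (1 : ℝ)) (x := 0) 0
    rw [Metric.closedBall_zero] at h
    rw [h]
    simp
  have h2 : ({0} : Set E) = ({0} : Set UnitAddCircle) ×ˢ ({0} : Set UnitAddCircle) := by
    rw [Set.singleton_prod_singleton]
    rfl
  have h3 : (volume : Measure E) = (volume : Measure UnitAddCircle).prod volume := rfl
  rw [h2, h3, Measure.prod_prod, h1, zero_mul]

theorem BFej_int {F : E → ℂ} (n : ℤ × ℤ) (y : E) :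
    ∫ x : E, ch n (cu x) * F (y + x) =
      (∫ x : E, F x * ch (-(-n)) (cu x)) * ch (-n) (cu y) := by
  have h1 : ∀ x : E, ch n (cu x) * F (y + x) =
      (fun z : E => ch n (cu (z - y)) * F z) (x + y) := by
    intro x
    show _ = ch n (cu (x + y - y)) * F (x + y)
    rw [add_sub_cancel_right, add_comm y x]
  simp_rw [h1]
  rw [ZHat_integral_add (fun z : E => ch n (cu (z - y)) * F z) y, ← integral_mul_const]
  congr 1
  funext z
  rw [per_cu_sub (ch_per n), sub_eq_add_neg, ch_add, ch_arg_neg, neg_neg]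
  ring

theorem BFej_sum {F : E → ℂ} (hF : Measurable F) (hb : ∃ C : ℝ, ∀ x, ‖F x‖ ≤ C) (y : E)
    {K : ℕ → E → ℝ} {s : ℕ → Finset (ℤ × ℤ)} {κ : ℕ → ℤ × ℤ → ℝ}
    (hK : ∀ N x, ((K N x : ℝ) : ℂ) = ∑ n ∈ s N, (κ N n : ℂ) * ch n (cu x)) (N : ℕ) :
    ∫ x : E, (K N x : ℂ) * F (y + x) =
      ∑ n ∈ s N, (κ N n : ℂ) * ((∫ x : E, F x * ch (-(-n)) (cu x)) * ch (-n) (cu y)) := by
  obtain ⟨C, hC⟩ := hb
  have hm : Measurable (fun x : E => F (y + x)) := hF.comp (measurable_const_add y)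
  have hi : ∀ n ∈ s N, Integrable (fun x : E => (κ N n : ℂ) * (ch n (cu x) * F (y + x))) := by
    intro n _
    refine Integrable.const_mul ?_ _
    refine Integrable.of_bound (C := C) ?_ (Eventually.of_forall fun x => ?_)
    · exact ((continuous_ch_cu n).measurable.mul hm).aestronglyMeasurable
    · rw [norm_mul, norm_ch, one_mul]
      exact hC _
  calc ∫ x : E, (K N x : ℂ) * F (y + x)
      = ∫ x : E, ∑ n ∈ s N, (κ N n : ℂ) * (ch n (cu x) * F (y + x)) := by
        congr 1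
        funext x
        rw [hK, Finset.sum_mul]
        refine Finset.sum_congr rfl fun m _ => ?_
        ring
    _ = ∑ n ∈ s N, ∫ x : E, (κ N n : ℂ) * (ch n (cu x) * F (y + x)) :=
        integral_finsetSum _ hi
    _ = _ := by
        refine Finset.sum_congr rfl fun n _ => ?_
        rw [integral_const_mul, BFej_int]

theorem fej_pt {F : E → ℂ} (hF : Measurable F) (hb : ∃ C : ℝ, ∀ x, ‖F x‖ ≤ C) {y : E} {L : ℂ}
    (hL : Tendsto F (𝓝[≠] y) (𝓝 L))
    (hs : Summable (fun n : ℤ × ℤ => ∫ x : E, F x * ch (-n) (cu x))) :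
    L = ∑' n : ℤ × ℤ, (∫ x : E, F x * ch (-n) (cu x)) * ch n (cu y) := by
  obtain ⟨K, s, κ, hAI, hκ, hκ1, hκ0, hK⟩ := exists_kernel
  have hA : Tendsto (fun N => ∫ x : E, (K N x : ℂ) * F (y + x)) atTop (𝓝 L) := by
    obtain ⟨C, hC⟩ := hb
    refine ai_tendsto hAI (F := fun x => F (y + x)) (hF.comp (measurable_const_add y))
      ⟨C, fun x => hC _⟩ ?_ BFej_vol
    have h1 : Tendsto (fun x : E => y + x) (𝓝[≠] 0) (𝓝[≠] y) := by
      refine tendsto_nhdsWithin_of_tendsto_nhds_of_eventually_within _ ?_ ?_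
      · have h2 : Tendsto (fun x : E => y + x) (𝓝 0) (𝓝 (y + 0)) :=
          (continuous_const.add continuous_id).tendsto 0
        rw [add_zero] at h2
        exact h2.mono_left nhdsWithin_le_nhds
      · filter_upwards [self_mem_nhdsWithin] with x hx h3
        exact hx (add_eq_left.1 h3)
    exact hL.comp h1
  have hs' : Summable (fun n : ℤ × ℤ => ∫ x : E, F x * ch (-(-n)) (cu x)) :=
    (Equiv.neg (ℤ × ℤ)).summable_iff.mpr hs
  have hB : Tendsto (fun N => ∑' n : ℤ × ℤ,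
      (κ N n : ℂ) * ((∫ x : E, F x * ch (-(-n)) (cu x)) * ch (-n) (cu y))) atTop
      (𝓝 (∑' n : ℤ × ℤ, (∫ x : E, F x * ch (-(-n)) (cu x)) * ch (-n) (cu y))) := by
    refine tendsto_tsum_of_dominated_convergence
      (bound := fun n => ‖∫ x : E, F x * ch (-(-n)) (cu x)‖) hs'.norm ?_ ?_
    · intro n
      have h1 : Tendsto (fun N => ((κ N n : ℝ) : ℂ)) atTop (𝓝 ((1 : ℝ) : ℂ)) :=
        (Complex.continuous_ofReal.tendsto 1).comp (hκ1 n)
      have h2 := h1.mul_const ((∫ x : E, F x * ch (-(-n)) (cu x)) * ch (-n) (cu y))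
      rw [Complex.ofReal_one, one_mul] at h2
      exact h2
    · refine Eventually.of_forall fun N n => ?_
      rw [norm_mul, norm_mul, norm_ch, mul_one, Complex.norm_real,
        Real.norm_of_nonneg (hκ N n).1]
      exact mul_le_of_le_one_left (norm_nonneg _) (hκ N n).2
  have hC' : (fun N => ∑' n : ℤ × ℤ,
      (κ N n : ℂ) * ((∫ x : E, F x * ch (-(-n)) (cu x)) * ch (-n) (cu y))) =
      fun N => ∫ x : E, (K N x : ℂ) * F (y + x) := by
    funext N
    rw [BFej_sum hF hb y hK N]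
    refine tsum_eq_sum (fun m hm => ?_)
    rw [hκ0 N m hm, Complex.ofReal_zero, zero_mul]
  rw [hC'] at hB
  rw [tendsto_nhds_unique hA hB]
  exact (Equiv.neg (ℤ × ℤ)).tsum_eq
    (fun n : ℤ × ℤ => (∫ x : E, F x * ch (-n) (cu x)) * ch n (cu y))

end UQO
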