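import Pool.Agent.UNI.Defs
import Pool.Agent.UBC.Line

/-!
# UNI part (C): evaluation of the lattice sum

The proof is in `Pool.Agent.UBC` (closed form of the total kernel, six term identity, the line
`w = 0`).
-/

namespace UNI

open Pool.Agent

theorem om_im_pos (a : Par) : 0 < (om a).im := by
  have h : (0 : ℝ) < 4 * a.n - a.t ^ 2 := by
    have := a.h
    have h2 : ((a.t ^ 2 : ℤ) : ℝ) < ((4 * a.n : ℤ) : ℝ) := by exact_mod_cast this
    push_cast at h2
    linarith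
  have h3 : (om a).im = Real.sqrt (4 * a.n - a.t ^ 2) / 2 := by
    simp only [om]
    rw [Complex.div_ofNat_im]
    simp
  rw [h3]
  have := Real.sqrt_pos.2 h
  linarith

theorem om_sq (a : Par) : om a ^ 2 = a.t * om a - a.n := by
  have h : (0 : ℝ) ≤ 4 * a.n - a.t ^ 2 := by
    have := a.h
    have h2 : ((a.t ^ 2 : ℤ) : ℝ) < ((4 * a.n : ℤ) : ℝ) := by exact_mod_cast this
    push_cast at h2
    linarith
  have h4 : ((Real.sqrt (4 * a.n - a.t ^ 2) : ℝ) : ℂ) ^ 2 = 4 * a.n - a.t ^ 2 := by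
    rw [← Complex.ofReal_pow, Real.sq_sqrt h]
    push_cast
    ring
  simp only [om]
  linear_combination (1 / 4 : ℂ) * Complex.I ^ 2 * h4 + (4 * (a.n : ℂ) - a.t ^ 2) / 4 * Complex.I_sq

theorem om_norm (a : Par) : om a * cj (om a) = a.n := by
  have h : (0 : ℝ) ≤ 4 * a.n - a.t ^ 2 := by
    have := a.h
    have h2 : ((a.t ^ 2 : ℤ) : ℝ) < ((4 * a.n : ℤ) : ℝ) := by exact_mod_cast this
    push_cast at h2
    linarith
  have h4 : ((Real.sqrt (4 * a.n - a.t ^ 2) : ℝ) : ℂ) ^ 2 = 4 * a.n - a.t ^ 2 := by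
    rw [← Complex.ofReal_pow, Real.sq_sqrt h]
    push_cast
    ring
  have hc : cj (om a) = ((a.t : ℂ) - (Real.sqrt (4 * a.n - a.t ^ 2) : ℝ) * Complex.I) / 2 := by
    simp only [om, cj, map_div₀, map_add, map_mul, Complex.conj_I, Complex.conj_ofReal,
      map_intCast, map_ofNat]
    ring
  rw [hc]
  simp only [om]
  linear_combination -(1 / 4 : ℂ) * Complex.I ^ 2 * h4 - (4 * (a.n : ℂ) - a.t ^ 2) / 4 * Complex.I_sq

theorem om_trace (a : Par) : om a + cj (om a) = a.t := by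
  have hc : cj (om a) = ((a.t : ℂ) - (Real.sqrt (4 * a.n - a.t ^ 2) : ℝ) * Complex.I) / 2 := by
    simp only [om, cj, map_div₀, map_add, map_mul, Complex.conj_I, Complex.conj_ofReal,
      map_intCast, map_ofNat]
    ring
  rw [hc]
  simp only [om]
  ring

private lemma xx_el (a : Par) (m : ℤ × ℤ) : xx a m = UBC.el (om a) m := rfl

private lemma KK_ker (x y : ℂ) : KK x y = UBC.kerC x y := by
  simp only [KK, UBC.kerC, UBC.ker0, cj, map_sub]

/-- absolute convergence of the double lattice sum -/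
theorem KK_summable (a : Par) :
    Summable (fun x : (ℤ × ℤ) × (ℤ × ℤ) => ‖KK (xx a x.1) (xx a x.2)‖) := by
  simp only [KK_ker, xx_el]
  exact UBC.summable_kerC (om_im_pos a)

/-- the evaluation; `h` is a bounded even function on `ℤ` with `h 0 = 0`;
`z = r + s`, and the three pairs are `(β r, α s)`, `(α β z, α s)`, `(α β z, β r)` -/
theorem eval (a : Par) (h : ℤ → ℂ) (hb : ∃ C, ∀ d, ‖h d‖ ≤ C) (he : ∀ d, h (-d) = h d)
    (h0 : h 0 = 0) :
    ∑' q : (ℤ × ℤ) × (ℤ × ℤ), h (dt q.1 q.2) *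
      (KK ((1 - om a) * xx a q.1) (om a * xx a q.2)
        - a.n * KK (om a * (1 - om a) * xx a (q.1 + q.2)) (om a * xx a q.2)
        + (1 - a.t + a.n : ℤ) * KK (om a * (1 - om a) * xx a (q.1 + q.2)) ((1 - om a) * xx a q.1)) =
      6 * (om a - cj (om a)) / (om a ^ 2 * cj (om a) ^ 4 * (1 - om a) ^ 2 * cj (1 - om a) ^ 4) *
        ∑' m : ℤ × ℤ, h (nm a m) / (xx a m ^ 2 * cj (xx a m) ^ 4) := by
  obtain ⟨C, hC⟩ := hb
  have him := om_im_pos a
  have hq := om_sq a
  have k1 := (UBC.summable_FF him hq he hC).2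
  rw [UBC.kernel_sum him hq h0 he hC] at k1
  have hN := om_norm a
  have hN2 : (1 - om a) * (1 - cj (om a)) = ((1 - a.t + a.n : ℤ) : ℂ) := by
    push_cast
    linear_combination hN - om_trace a
  have k2 : ∀ q : (ℤ × ℤ) × (ℤ × ℤ), UBC.FF (om a) a.t a.n h q = h (dt q.1 q.2) *
      (KK ((1 - om a) * xx a q.1) (om a * xx a q.2)
        - a.n * KK (om a * (1 - om a) * xx a (q.1 + q.2)) (om a * xx a q.2)
        + (1 - a.t + a.n : ℤ) *
          KK (om a * (1 - om a) * xx a (q.1 + q.2)) ((1 - om a) * xx a q.1)) := by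
    intro q
    simp only [UBC.FF, UBC.el_mA hq, UBC.el_mB hq, KK_ker, xx_el]
    rw [← hN, ← hN2]
    simp only [cj, UBC.dt, dt, mul_assoc]
  rw [← tsum_congr k2, k1, ← tsum_neg, ← tsum_mul_left]
  refine tsum_congr fun m => ?_
  simp only [UBC.LL, UBC.Nm, nm, xx_el, cj, map_sub, map_one]
  rw [← mul_neg, ← neg_mul, ← neg_div]
  have e1 : -(6 * ((starRingEnd ℂ) (om a) - om a)) = 6 * (om a - (starRingEnd ℂ) (om a)) := by ring
  rw [e1]
  ring

end UNI
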