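import Pool.Agent.UNI.AKl

/-!
# UNI.ACl0 : classes of functions on the generic points

`hat : Additive (Gn a N → ℂˣ) →+ R`, `R` a `ℚ`-vector space; `co hat f = hat (cl a N f)` is additive
on nowhere vanishing functions and kills roots of unity.
`Lx hat φ k` is the class of `kl (tp k) (φ(u,v))`, `φ` one of `u, v, u - v, u + v`; all four lines have
`Tn a N k → Ofl a (φ q - k)` at the generic points.
-/

open Complex

namespace UNI

noncomputable section

variable {a : Par} {N : ℕ} {R : Type*} [AddCommGroup R]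

/-- the class of a function -/
def co (hat : Additive (Gn a N → ℂˣ) →+ R) (f : ℂ → ℂ → ℂ) : R := hat (cl a N f)

/-- the class of the Klein function of index `k` on the line `φ` -/
def Lx (hat : Additive (Gn a N → ℂˣ) →+ R) (φ : ℂ → ℂ → ℂ) (k : G N) : R :=
  co hat (fun u v => kl a (tp a k) (φ u v))

/-- the constants -/
def gc (hat : Additive (Gn a N → ℂˣ) →+ R) (k : G N) : R :=
  if k = 0 then 0 else co hat (fun _ _ => kl a (tp a k) 0)

/-- the translation factor -/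
def Ex (a : Par) (s z : ℂ) : ℂ := exp (et a s * z + et a s * s / 2)

/-- `f` has no zero at generic points -/
def Nz (a : Par) (N : ℕ) (f : ℂ → ℂ → ℂ) : Prop := ∀ q : Gn a N, f q.1.1 q.1.2 ≠ 0

/-- `φ` avoids `(1/N) O` at generic points -/
def Ln (a : Par) (N : ℕ) (φ : ℂ → ℂ → ℂ) : Prop :=
  ∀ q : Gn a N, ∀ k : ℂ, Tn a N k → Ofl a (φ q.1.1 q.1.2 - k)

theorem xx_add' (a : Par) (x y : ℤ × ℤ) : xx a (x + y) = xx a x + xx a y := by
  unfold xx
  push_cast [Prod.fst_add, Prod.snd_add]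
  ring

theorem xx_neg' (a : Par) (x : ℤ × ℤ) : xx a (-x) = -xx a x := by
  unfold xx
  push_cast [Prod.fst_neg, Prod.snd_neg]
  ring

theorem xx_nat (a : Par) (N : ℕ) (x : ℤ × ℤ) : xx a (N • x) = N * xx a x := by
  unfold xx
  rw [Prod.smul_fst, Prod.smul_snd, nsmul_eq_mul, nsmul_eq_mul]
  push_cast
  ring

theorem tn_add' {a : Par} {N : ℕ} {x y : ℂ} (hx : Tn a N x) (hy : Tn a N y) : Tn a N (x + y) := by
  obtain ⟨p, hp⟩ := hx
  obtain ⟨q, hq⟩ := hy
  exact ⟨p + q, by rw [mul_add, hp, hq, xx_add']⟩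

theorem tn_xx' (a : Par) (N : ℕ) (x : ℤ × ℤ) : Tn a N (xx a x) := ⟨N • x, by rw [xx_nat]⟩

theorem ofl_iff' (a : Par) (z : ℂ) : Ofl a z ↔ ∀ x, z ≠ xx a x := by
  unfold Ofl Pool.Agent.EllSch.Off
  simp only [lat_xx]

theorem ofl_neg' {a : Par} {z : ℂ} (h : Ofl a z) : Ofl a (-z) := by
  rw [ofl_iff'] at h ⊢
  intro x hx
  apply h (-x)
  rw [xx_neg', ← hx, neg_neg]

theorem ofl_sub' {a : Par} {N : ℕ} {z k : ℂ} (h : Ofl a (N * z)) (hk : Tn a N k) :
    Ofl a (z - k) := by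
  rw [ofl_iff'] at h ⊢
  intro x hx
  obtain ⟨y, hy⟩ := hk
  apply h (N • x + y)
  rw [xx_add', xx_nat, ← hy, ← hx]
  ring

theorem ru_ne {e : ℂ} (he : Ru e) : e ≠ 0 := by
  obtain ⟨m, hm, h⟩ := he
  rintro rfl
  rw [zero_pow hm.ne'] at h
  exact zero_ne_one h

theorem cl_val (a : Par) (N : ℕ) {f : ℂ → ℂ → ℂ} (hf : Nz a N f) :
    cl a N f = Additive.ofMul (fun q => Units.mk0 (f q.1.1 q.1.2) (hf q)) := by
  unfold cl
  congr 1
  funext q
  rw [dif_pos (hf q)]

theorem nz_const (a : Par) (N : ℕ) {e : ℂ} (he : e ≠ 0) : Nz a N (fun _ _ => e) := fun _ => he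

theorem nz_mul {f g : ℂ → ℂ → ℂ} (hf : Nz a N f) (hg : Nz a N g) :
    Nz a N (fun u v => f u v * g u v) := fun q => mul_ne_zero (hf q) (hg q)

theorem nz_pow {f : ℂ → ℂ → ℂ} (hf : Nz a N f) (n : ℕ) :
    Nz a N (fun u v => f u v ^ n) := fun q => pow_ne_zero n (hf q)

theorem nz_prod {ι : Type*} (S : Finset ι) {f : ι → ℂ → ℂ → ℂ} (hf : ∀ i ∈ S, Nz a N (f i)) :
    Nz a N (fun u v => ∏ i ∈ S, f i u v) := fun q =>
  Finset.prod_ne_zero_iff.2 fun i hi => hf i hi q

theorem nz_Ex (a : Par) (N : ℕ) (s : ℂ) (φ : ℂ → ℂ → ℂ) : Nz a N (fun u v => Ex a s (φ u v)) :=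
  fun _ => exp_ne_zero _

theorem ln_u (a : Par) {N : ℕ} (hN : 0 < N) : Ln a N (fun u _ => u) :=
  fun q _ hk => ofl_sub' q.2.1 hk
theorem ln_v (a : Par) {N : ℕ} (hN : 0 < N) : Ln a N (fun _ v => v) :=
  fun q _ hk => ofl_sub' q.2.2.1 hk
theorem ln_w (a : Par) {N : ℕ} (hN : 0 < N) : Ln a N (fun u v => u - v) :=
  fun q _ hk => ofl_sub' q.2.2.2.2 hk
theorem ln_z (a : Par) {N : ℕ} (hN : 0 < N) : Ln a N (fun u v => u + v) :=
  fun q _ hk => ofl_sub' q.2.2.2.1 hk

theorem co_mul (hat : Additive (Gn a N → ℂˣ) →+ R) {f g : ℂ → ℂ → ℂ} (hf : Nz a N f)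
    (hg : Nz a N g) : co hat (fun u v => f u v * g u v) = co hat f + co hat g := by
  unfold co
  rw [← map_add]
  congr 1
  rw [cl_val a N hf, cl_val a N hg, cl_val a N (nz_mul hf hg), ← ofMul_mul]
  congr 1
  funext q
  ext
  simp

theorem co_div (hat : Additive (Gn a N → ℂˣ) →+ R) {f g : ℂ → ℂ → ℂ} (hf : Nz a N f)
    (hg : Nz a N g) : co hat (fun u v => f u v / g u v) = co hat f - co hat g := by
  have hfg : Nz a N (fun u v => f u v / g u v) := fun q => div_ne_zero (hf q) (hg q)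
  have h := co_mul hat hfg hg
  have e : (fun u v => f u v / g u v * g u v) = fun u v => f u v / g u v * g u v := rfl
  rw [eq_sub_iff_add_eq, ← h]
  unfold co
  congr 1
  rw [cl_val a N hf, cl_val a N (nz_mul hfg hg)]
  congr 1
  funext q
  ext
  simp [div_mul_cancel₀ _ (hg q)]

theorem co_pow (hat : Additive (Gn a N → ℂˣ) →+ R) {f : ℂ → ℂ → ℂ} (hf : Nz a N f) (n : ℕ) :
    co hat (fun u v => f u v ^ n) = n • co hat f := by
  unfold co
  rw [← map_nsmul]
  congr 1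
  rw [cl_val a N hf, cl_val a N (nz_pow hf n), ← ofMul_pow]
  congr 1
  funext q
  ext
  simp

theorem co_one (hat : Additive (Gn a N → ℂˣ) →+ R) : co hat (fun _ _ => 1) = 0 := by
  unfold co
  rw [cl_val a N (nz_const a N one_ne_zero)]
  have : (fun q : Gn a N => Units.mk0 (1 : ℂ) one_ne_zero) = 1 := by
    funext q
    ext
    simp
  rw [this, ofMul_one, map_zero]

theorem co_prod (hat : Additive (Gn a N → ℂˣ) →+ R) {ι : Type*} (S : Finset ι)
    {f : ι → ℂ → ℂ → ℂ} (hf : ∀ i ∈ S, Nz a N (f i)) :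
    co hat (fun u v => ∏ i ∈ S, f i u v) = ∑ i ∈ S, co hat (f i) := by
  classical
  induction S using Finset.induction_on with
  | empty => simp only [Finset.prod_empty, Finset.sum_empty]; exact co_one hat
  | insert i S hi ih =>
    have h1 : Nz a N (f i) := hf i (Finset.mem_insert_self i S)
    have h2 : ∀ j ∈ S, Nz a N (f j) := fun j hj => hf j (Finset.mem_insert_of_mem hj)
    simp only [Finset.prod_insert hi, Finset.sum_insert hi]
    rw [co_mul hat h1 (nz_prod S h2), ih h2]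

theorem co_ru [Module ℚ R] (hat : Additive (Gn a N → ℂˣ) →+ R) {e : ℂ} (he : Ru e) :
    co hat (fun _ _ => e) = 0 := by
  obtain ⟨m, hm, h⟩ := he
  have hne : e ≠ 0 := ru_ne ⟨m, hm, h⟩
  have h1 := co_pow hat (nz_const a N hne) m
  simp only [h] at h1
  rw [co_one] at h1
  have h2 : (m : ℚ) • co hat (fun _ _ => e) = 0 := by
    rw [Nat.cast_smul_eq_nsmul, ← h1]
  have hm' : (m : ℚ) ≠ 0 := by exact_mod_cast hm.ne'
  calc co hat (fun _ _ => e) = (m : ℚ)⁻¹ • ((m : ℚ) • co hat (fun _ _ => e)) := by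
        rw [smul_smul, inv_mul_cancel₀ hm', one_smul]
    _ = 0 := by rw [h2, smul_zero]

theorem tn_tp (a : Par) {N : ℕ} (hN : 0 < N) (k : G N) : Tn a N (tp a k) := by
  refine ⟨((k.1.val : ℤ), (k.2.val : ℤ)), ?_⟩
  unfold tp xx
  have : (N : ℂ) ≠ 0 := by exact_mod_cast hN.ne'
  push_cast
  field_simp

/-- `tp` is additive modulo `O` -/
theorem tp_add (a : Par) {N : ℕ} (hN : 0 < N) (k l : G N) :
    ∃ x, tp a (k + l) = tp a k + tp a l + xx a x := by
  haveI : NeZero N := ⟨hN.ne'⟩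
  refine ⟨(-(((k.1.val + l.1.val) / N : ℕ) : ℤ), -(((k.2.val + l.2.val) / N : ℕ) : ℤ)), ?_⟩
  have h1 : (((k.1 + l.1).val : ℕ) : ℂ) + (N : ℂ) * (((k.1.val + l.1.val) / N : ℕ) : ℂ) =
      (k.1.val : ℂ) + (l.1.val : ℂ) := by
    rw [ZMod.val_add]
    exact_mod_cast Nat.mod_add_div (k.1.val + l.1.val) N
  have h2 : (((k.2 + l.2).val : ℕ) : ℂ) + (N : ℂ) * (((k.2.val + l.2.val) / N : ℕ) : ℂ) =
      (k.2.val : ℂ) + (l.2.val : ℂ) := by
    rw [ZMod.val_add]
    exact_mod_cast Nat.mod_add_div (k.2.val + l.2.val) N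
  have hN' : (N : ℂ) ≠ 0 := by exact_mod_cast hN.ne'
  unfold tp xx
  rw [Prod.fst_add, Prod.snd_add, Int.cast_neg, Int.cast_neg, Int.cast_natCast, Int.cast_natCast]
  have h3 : (((k.1 + l.1).val : ℕ) : ℂ) = (k.1.val : ℂ) + (l.1.val : ℂ) -
      (N : ℂ) * (((k.1.val + l.1.val) / N : ℕ) : ℂ) := by rw [← h1]; ring
  have h4 : (((k.2 + l.2).val : ℕ) : ℂ) = (k.2.val : ℂ) + (l.2.val : ℂ) -
      (N : ℂ) * (((k.2.val + l.2.val) / N : ℕ) : ℂ) := by rw [← h2]; ring
  rw [h3, h4]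
  field_simp
  ring

theorem tp_neg (a : Par) {N : ℕ} (hN : 0 < N) (k : G N) :
    ∃ x, tp a (-k) = -tp a k + xx a x := by
  obtain ⟨x, hx⟩ := tp_add a hN k (-k)
  refine ⟨-x, ?_⟩
  have h0 : tp a (0 : G N) = 0 := by
    unfold tp
    simp
  rw [add_neg_cancel, h0] at hx
  rw [xx_neg']
  linear_combination -hx

theorem ofl_tp (a : Par) {N : ℕ} (hN : 0 < N) {k : G N} (hk : k ≠ 0) : Ofl a (tp a k) := by
  haveI : NeZero N := ⟨hN.ne'⟩
  rw [ofl_iff']
  intro x hx
  apply hk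
  have him : (om a).im ≠ 0 := by
    have := ind a
    unfold Pool.Agent.EllSch.Ind at this
    simpa using this
  have hN' : (N : ℂ) ≠ 0 := by exact_mod_cast hN.ne'
  unfold tp xx at hx
  rw [div_eq_iff hN'] at hx
  have h1 := congrArg Complex.im hx
  have h2 := congrArg Complex.re hx
  simp only [Complex.add_im, Complex.mul_im, Complex.natCast_im, Complex.natCast_re,
    Complex.intCast_im, Complex.intCast_re, zero_mul, zero_add, add_zero, mul_zero,
    Complex.add_re, Complex.mul_re, sub_zero] at h1 h2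
  have h3 : (k.2.val : ℝ) = x.2 * N := by
    have : ((k.2.val : ℝ) - x.2 * N) * (om a).im = 0 := by linear_combination h1
    rcases mul_eq_zero.1 this with h | h
    · linarith
    · exact absurd h him
  have h4 : (k.1.val : ℝ) = x.1 * N := by
    linear_combination h2 - (om a).re * h3
  have h5 : (k.2.val : ℤ) = x.2 * N := by exact_mod_cast h3
  have h6 : (k.1.val : ℤ) = x.1 * N := by exact_mod_cast h4
  have key : ∀ (y : ZMod N) (z : ℤ), (y.val : ℤ) = z * N → y = 0 := by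
    intro y z hy
    have hlt := ZMod.val_lt y
    have hdvd : N ∣ y.val := by
      have : (N : ℤ) ∣ (y.val : ℤ) := ⟨z, by rw [hy]; ring⟩
      exact_mod_cast this
    have := Nat.eq_zero_of_dvd_of_lt hdvd hlt
    exact (ZMod.val_eq_zero y).1 this
  exact Prod.ext (key _ _ h6) (key _ _ h5)

/-- the class of a translated Klein function -/
theorem co_kl [Module ℚ R] (hat : Additive (Gn a N → ℂˣ) →+ R) (hN : 0 < N) {φ : ℂ → ℂ → ℂ}
    (hφ : Ln a N φ) {k s : ℂ} (hs : Tn a N s) {j : G N}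
    (hj : ∃ x, k - s = tp a j + xx a x) :
    co hat (fun u v => kl a k (φ u v + s)) =
      co hat (fun u v => Ex a s (φ u v)) + Lx hat φ j := by
  obtain ⟨x, hx⟩ := hj
  have htj := tn_tp a hN j
  have hk : Tn a N k := by
    have : k = s + (tp a j + xx a x) := by rw [← hx]; ring
    rw [this]
    exact tn_add' hs (tn_add' htj (tn_xx' a N x))
  obtain ⟨e, he, h1⟩ := kl_shift a hN hk hs
  obtain ⟨e', he', h2⟩ := kl_per a hN htj x
  have hkl : Nz a N (fun u v => kl a (tp a j) (φ u v)) := fun q => kl_ne a (hφ q _ htj)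
  have hee : Nz a N (fun _ _ => e * e') := nz_const a N (mul_ne_zero (ru_ne he) (ru_ne he'))
  have h3 : (fun u v => kl a k (φ u v + s)) =
      fun u v => (e * e') * (Ex a s (φ u v) * kl a (tp a j) (φ u v)) := by
    funext u v
    rw [h1, hx, h2]
    unfold Ex
    ring
  rw [h3, co_mul hat hee (nz_mul (nz_Ex a N s φ) hkl), co_mul hat (nz_Ex a N s φ) hkl]
  have h4 : co hat (fun _ _ => e * e') = 0 := by
    rw [co_mul hat (nz_const a N (ru_ne he)) (nz_const a N (ru_ne he')), co_ru hat he,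
      co_ru hat he', add_zero]
  rw [h4, zero_add]
  rfl

/-- the class of a Klein value -/
theorem co_kl0 [Module ℚ R] (hat : Additive (Gn a N → ℂˣ) →+ R) (hN : 0 < N) {k : ℂ} {j : G N}
    (hj0 : j ≠ 0) (hj : ∃ x, k = tp a j + xx a x) :
    co hat (fun _ _ => kl a k 0) = gc hat j := by
  obtain ⟨x, hx⟩ := hj
  obtain ⟨e, he, h1⟩ := kl_per a hN (tn_tp a hN j) x
  have hne : kl a (tp a j) 0 ≠ 0 := by
    apply kl_ne
    rw [zero_sub]
    exact ofl_neg' (ofl_tp a hN hj0)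
  have h2 : (fun _ _ : ℂ => kl a k 0) = fun _ _ => e * kl a (tp a j) 0 := by
    funext u v
    rw [hx, h1]
  rw [h2, co_mul hat (nz_const a N (ru_ne he)) (nz_const a N hne), co_ru hat he, zero_add]
  unfold gc
  rw [if_neg hj0]

theorem gc_neg [Module ℚ R] (hat : Additive (Gn a N → ℂˣ) →+ R) (hN : 0 < N) (k : G N) :
    gc hat (-k) = gc hat k := by
  by_cases hk : k = 0
  · subst hk; rw [neg_zero]
  · obtain ⟨x, hx⟩ := tp_neg a hN k
    have hk' : -k ≠ 0 := neg_ne_zero.2 hk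
    have h1 := co_kl0 (a := a) hat hN (k := -tp a k) (j := -k) hk' ⟨-x, by
      rw [hx, xx_neg']; ring⟩
    rw [← h1]
    have h2 := kl_neg a (tp a k) 0
    rw [neg_zero] at h2
    have hne : kl a (tp a k) 0 ≠ 0 := by
      apply kl_ne
      rw [zero_sub]
      exact ofl_neg' (ofl_tp a hN hk)
    have h3 : (fun _ _ : ℂ => kl a (-tp a k) 0) = fun _ _ => (-1) * kl a (tp a k) 0 := by
      funext u v
      rw [h2]
      ring
    have hru : Ru (-1) := ⟨2, by norm_num, by norm_num⟩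
    rw [h3, co_mul hat (nz_const a N (ru_ne hru)) (nz_const a N hne), co_ru hat hru, zero_add]
    unfold gc
    rw [if_neg hk]

end

end UNI
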