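import Pool.Agent.UNI.Defs
import Pool.Agent.QCL.Sig

/-!
# UNI (A): definitions for the closedness part

Klein functions of the order `O = ℤ + ℤ α`.
-/

open Complex

namespace UNI

noncomputable section

/-- the `ℝ`-linear extension of the quasi periods of `O` -/
def et (a : Par) (z : ℂ) : ℂ :=
  ((z.re - a.t * z.im / sD a : ℝ) : ℂ) * Pool.Agent.EllSch.eta1 1 (om a) +
    ((2 * z.im / sD a : ℝ) : ℂ) * Pool.Agent.EllSch.eta2 1 (om a)

/-- the Weierstrass sigma function of `O` -/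
def sg (a : Par) (z : ℂ) : ℂ := QCL.sig 1 (om a) z

/-- the Klein function `exp (η(k) z - η(k) k / 2) σ (z - k)` -/
def kl (a : Par) (k z : ℂ) : ℂ := exp (et a k * z - et a k * k / 2) * sg a (z - k)

/-- a root of unity -/
def Ru (e : ℂ) : Prop := ∃ m : ℕ, 0 < m ∧ e ^ m = 1

/-- `z ∈ (1/N) O` -/
def Tn (a : Par) (N : ℕ) (z : ℂ) : Prop := ∃ x : ℤ × ℤ, (N : ℂ) * z = xx a x

end

end UNI
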