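import Pool.Agent.UNI.AFD

/-!
# UNI.AF1 : weighted sums that vanish
-/

open Finset

namespace UNI.AF

theorem zero_of_neg {R : Type*} [AddCommGroup R] [Module ℚ R] {x : R} (h : x = -x) : x = 0 := by
  have h1 : (2 : ℚ) • x = 0 := by
    rw [two_smul]
    nth_rewrite 2 [h]
    exact add_neg_cancel x
  exact (smul_eq_zero.1 h1).resolve_left (by norm_num)

theorem anti {R : Type*} [Ring R] {L : AddSubgroup R} (hL : ∀ x ∈ L, x * x = 0) {x y : R}
    (hx : x ∈ L) (hy : y ∈ L) : x * y = -(y * x) := by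
  have h := hL (x + y) (L.add_mem hx hy)
  have h1 := hL x hx
  have h2 := hL y hy
  have h3 : x * y + y * x = 0 := by
    have e : (x + y) * (x + y) = x * x + y * y + (x * y + y * x) := by noncomm_ring
    rw [e, h1, h2] at h
    simpa using h
  exact eq_neg_of_add_eq_zero_left h3

section

variable {Γ : Type*} [AddCommGroup Γ] [Fintype Γ] {W : Γ → Γ → ℤ}
variable (Wn : ∀ k l, W (-k) l = W k l) (Wa : ∀ k l, W l k = -W k l)
variable (Wr : ∀ l, ∑ k, W k l = 0)

theorem sum_neg {M : Type*} [AddCommMonoid M] (f : Γ → M) : ∑ k, f (-k) = ∑ k, f k :=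
  Fintype.sum_equiv (Equiv.neg Γ) _ _ (fun _ => rfl)

theorem sum_subR {M : Type*} [AddCommMonoid M] (f : Γ → M) (a : Γ) : ∑ k, f (k - a) = ∑ k, f k :=
  Fintype.sum_equiv (Equiv.subRight a) _ _ (fun _ => rfl)

theorem sum_subL {M : Type*} [AddCommMonoid M] (f : Γ → M) (a : Γ) : ∑ k, f (a - k) = ∑ k, f k :=
  Fintype.sum_equiv (Equiv.subLeft a) _ _ (fun _ => rfl)

theorem sum_addR {M : Type*} [AddCommMonoid M] (f : Γ → M) (a : Γ) : ∑ k, f (k + a) = ∑ k, f k :=
  Fintype.sum_equiv (Equiv.addRight a) _ _ (fun _ => rfl)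

theorem sum_addL {M : Type*} [AddCommMonoid M] (f : Γ → M) (a : Γ) : ∑ k, f (a + k) = ∑ k, f k :=
  Fintype.sum_equiv (Equiv.addLeft a) _ _ (fun _ => rfl)

include Wn Wa in
theorem Wn' (k l : Γ) : W k (-l) = W k l := by
  rw [Wa (-l) k, Wn, Wa k l, neg_neg]

include Wa Wr in
theorem Wr' (k : Γ) : ∑ l, W k l = 0 := by
  have h := Wr k
  have h2 : ∑ l, W k l = -∑ l, W l k := by
    rw [← Finset.sum_neg_distrib]
    exact Finset.sum_congr rfl (fun l _ => Wa l k)
  rw [h2, h, neg_zero]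

include Wn Wa in
theorem rho (k l : Γ) : ∑ h, W (k - h) (l - h) = 0 := by
  have h1 : ∑ h, W (k - h) (l - h) = ∑ h, -W (k - h) (l - h) := by
    rw [← sum_subL (fun h => W (k - h) (l - h)) (k + l)]
    refine Finset.sum_congr rfl (fun h _ => ?_)
    have e1 : k - (k + l - h) = -(l - h) := by abel
    have e2 : l - (k + l - h) = -(k - h) := by abel
    rw [e1, e2, Wn, Wn' Wn Wa, Wa (k - h) (l - h)]
  rw [Finset.sum_neg_distrib] at h1
  linarith

variable {M : Type*} [AddCommGroup M]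

include Wn Wa in
/-- functions of `l - k` -/
theorem van3 (Φ : Γ → Γ → M) (f : Γ → M) (h : ∀ k l, W k l ≠ 0 → Φ k l = f (l - k)) :
    ∑ k, ∑ l, W k l • Φ k l = 0 := by
  have h1 : ∀ k, ∑ l, W k l • Φ k l = ∑ d, W k (k + d) • f d := by
    intro k
    rw [← sum_addL (fun l => W k l • Φ k l) k]
    refine Finset.sum_congr rfl (fun d _ => ?_)
    by_cases hW : W k (k + d) = 0
    · rw [hW, zero_smul, zero_smul]
    · rw [h k (k + d) hW, add_sub_cancel_left]
  simp_rw [h1]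
  rw [Finset.sum_comm]
  refine Finset.sum_eq_zero (fun d _ => ?_)
  rw [← Finset.sum_smul]
  have h2 : ∑ k, W k (k + d) = 0 := by
    rw [← rho Wn Wa 0 d, ← sum_neg (fun k => W k (k + d))]
    refine Finset.sum_congr rfl (fun k _ => ?_)
    rw [zero_sub, sub_eq_neg_add]
  rw [h2, zero_smul]

include Wn in
theorem evenK (Φ : Γ → Γ → M) : ∑ k, ∑ l, W k l • Φ (-k) l = ∑ k, ∑ l, W k l • Φ k l := by
  rw [← sum_neg (fun k => ∑ l, W k l • Φ k l)]
  refine Finset.sum_congr rfl (fun k _ => Finset.sum_congr rfl (fun l _ => ?_))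
  rw [Wn]

include Wn Wa in
theorem evenL (Φ : Γ → Γ → M) : ∑ k, ∑ l, W k l • Φ k (-l) = ∑ k, ∑ l, W k l • Φ k l := by
  refine Finset.sum_congr rfl (fun k _ => ?_)
  rw [← sum_neg (fun l => W k l • Φ k l)]
  refine Finset.sum_congr rfl (fun l _ => ?_)
  rw [Wn' Wn Wa]

include Wn in
theorem vanK [Module ℚ M] (Φ : Γ → Γ → M) (h : ∀ k l, W k l ≠ 0 → Φ (-k) l = -Φ k l) :
    ∑ k, ∑ l, W k l • Φ k l = 0 := by
  apply zero_of_neg
  rw [← Finset.sum_neg_distrib]
  nth_rewrite 1 [← evenK Wn Φ]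
  refine Finset.sum_congr rfl (fun k _ => ?_)
  rw [← Finset.sum_neg_distrib]
  refine Finset.sum_congr rfl (fun l _ => ?_)
  by_cases hW : W k l = 0
  · rw [hW, zero_smul, zero_smul, neg_zero]
  · rw [h k l hW, smul_neg]

include Wn Wa in
theorem vanL [Module ℚ M] (Φ : Γ → Γ → M) (h : ∀ k l, W k l ≠ 0 → Φ k (-l) = -Φ k l) :
    ∑ k, ∑ l, W k l • Φ k l = 0 := by
  apply zero_of_neg
  rw [← Finset.sum_neg_distrib]
  nth_rewrite 1 [← evenL Wn Wa Φ]
  refine Finset.sum_congr rfl (fun k _ => ?_)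
  rw [← Finset.sum_neg_distrib]
  refine Finset.sum_congr rfl (fun l _ => ?_)
  by_cases hW : W k l = 0
  · rw [hW, zero_smul, zero_smul, neg_zero]
  · rw [h k l hW, smul_neg]

include Wr in
theorem indK (Φ : Γ → Γ → M) (f : Γ → M) (h : ∀ k l, W k l ≠ 0 → Φ k l = f l) :
    ∑ k, ∑ l, W k l • Φ k l = 0 := by
  rw [Finset.sum_comm]
  refine Finset.sum_eq_zero (fun l _ => ?_)
  have h1 : ∑ k, W k l • Φ k l = ∑ k, W k l • f l := by
    refine Finset.sum_congr rfl (fun k _ => ?_)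
    by_cases hW : W k l = 0
    · rw [hW, zero_smul, zero_smul]
    · rw [h k l hW]
  rw [h1, ← Finset.sum_smul, Wr, zero_smul]

include Wa Wr in
theorem indL (Φ : Γ → Γ → M) (f : Γ → M) (h : ∀ k l, W k l ≠ 0 → Φ k l = f k) :
    ∑ k, ∑ l, W k l • Φ k l = 0 := by
  refine Finset.sum_eq_zero (fun k _ => ?_)
  have h1 : ∑ l, W k l • Φ k l = ∑ l, W k l • f k := by
    refine Finset.sum_congr rfl (fun l _ => ?_)
    by_cases hW : W k l = 0
    · rw [hW, zero_smul, zero_smul]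
    · rw [h k l hW]
  rw [h1, ← Finset.sum_smul, Wr' Wa Wr, zero_smul]

end

end UNI.AF
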