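import Pool.Agent.UNI.AF1

/-!
# UNI.AF2 : the boundary of the one variable dilogarithms
-/

open Finset

namespace UNI.AF

section

variable {Γ R : Type*} [AddCommGroup Γ] [Fintype Γ] [Ring R]

theorem sum_const' {M : Type*} [AddCommGroup M] (c : M) :
    ∑ _k : Γ, c = (Fintype.card Γ : ℤ) • c := by
  rw [Finset.sum_const, Finset.card_univ, natCast_zsmul]

/-- words -/
theorem expand (A G c a : R) : (A - G - c) * (a - c) =
    A * a - G * a - A * c + G * c - c * a + c * c := by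
  noncomm_ring

theorem sum_fa (x g : Γ → R) (sx : ∑ k, x k = 0) :
    ∑ j, fa x g j = -((2 * (Fintype.card Γ : ℤ)) • x 0) - (2 : ℤ) • ∑ j, g j := by
  have h1 : ∀ j, fa x g j = x j + x (-j) - (2 : ℤ) • x 0 - (2 : ℤ) • g j := by
    intro j
    simp only [fa, two_mul, two_smul]
  simp_rw [h1]
  rw [Finset.sum_sub_distrib, Finset.sum_sub_distrib, Finset.sum_add_distrib, sx, sum_neg, sx,
    sum_const', ← Finset.smul_sum]
  module

theorem sum_fc0 (g : Γ → R) (k : Γ) :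
    ∑ j, fc0 g k j = -((2 * (Fintype.card Γ : ℤ)) • g k) := by
  have h1 : ∀ j, fc0 g k j = g (k - j) + g (k + j) - (2 : ℤ) • g k - (2 : ℤ) • g j := by
    intro j
    simp only [fc0, two_mul, two_smul]
  simp_rw [h1]
  rw [Finset.sum_sub_distrib, Finset.sum_sub_distrib, Finset.sum_add_distrib, sum_subL, sum_addL,
    sum_const', ← Finset.smul_sum]
  module

variable {L : AddSubgroup R} (hL : ∀ x ∈ L, x * x = 0)

include hL in
theorem gg_zero [Module ℚ R] {g : Γ → R} (hg : ∀ k, g k ∈ L) (k : Γ) :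
    ∑ j, g (k - j) * g j = 0 := by
  apply zero_of_neg
  rw [← Finset.sum_neg_distrib, ← sum_subL (fun j => g (k - j) * g j) k]
  refine Finset.sum_congr rfl (fun j _ => ?_)
  rw [sub_sub_cancel, anti hL (hg _) (hg _)]

include hL in
theorem sum_ca [Module ℚ R] {x g : Γ → R} (hg : ∀ k, g k ∈ L)
    (sx : ∑ k, x k = 0) (gn : ∀ k, g (-k) = g k) (k : Γ) :
    ∑ j, fc0 g k j * fa x g j =
      (2 : ℤ) • (∑ j, g (k - j) * x j) + (2 : ℤ) • (∑ j, g (k + j) * x j)
      + (4 * (Fintype.card Γ : ℤ)) • (g k * x 0) + (4 : ℤ) • (g k * ∑ j, g j)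
      - (4 : ℤ) • ∑ j, g j * x j := by
  have h1 : ∀ j, fc0 g k j * fa x g j =
      (g (k - j) * x j + g (k + j) * x j) + (g (k - j) * x (-j) + g (k + j) * x (-j))
      - (2 : ℤ) • (g (k - j) * x 0) - (2 : ℤ) • (g (k + j) * x 0)
      - (2 : ℤ) • (g (k - j) * g j) - (2 : ℤ) • (g (k + j) * g j)
      - (2 : ℤ) • (g k * fa x g j)
      - (2 : ℤ) • (g j * x j) - (2 : ℤ) • (g j * x (-j)) + (4 : ℤ) • (g j * x 0)
      + (4 : ℤ) • (g j * g j) := by
    intro j
    have e : fc0 g k j = (g (k - j) + g (k + j) - (2 : ℤ) • g j) - (2 : ℤ) • g k := by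
      simp only [fc0, two_mul, two_smul]
      abel
    have e2 : fa x g j = x j + x (-j) - (2 : ℤ) • x 0 - (2 : ℤ) • g j := by
      simp only [fa, two_mul, two_smul]
    rw [e, sub_mul, smul_mul_assoc (2 : ℤ) (g k)]
    nth_rewrite 1 [e2]
    simp only [sub_mul, mul_sub, add_mul, mul_add, smul_mul_assoc, mul_smul_comm, smul_sub,
      smul_add, smul_smul]
    module
  simp_rw [h1]
  have t1 : ∑ j, (g (k - j) * x (-j) + g (k + j) * x (-j)) =
      ∑ j, (g (k - j) * x j + g (k + j) * x j) := by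
    rw [← sum_neg (fun j => g (k - j) * x j + g (k + j) * x j)]
    refine Finset.sum_congr rfl (fun j _ => ?_)
    rw [sub_neg_eq_add, ← sub_eq_add_neg, add_comm]
  have t2 : ∑ j, g (k + j) * g j = 0 := by
    rw [← gg_zero hL hg k, ← sum_neg (fun j => g (k + j) * g j)]
    refine Finset.sum_congr rfl (fun j _ => ?_)
    rw [gn, ← sub_eq_add_neg]
  have t3 : ∑ j, g j * x (-j) = ∑ j, g j * x j := by
    rw [← sum_neg (fun j => g j * x j)]
    refine Finset.sum_congr rfl (fun j _ => ?_)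
    rw [gn]
  have t4 : ∑ j, g j * g j = 0 := Finset.sum_eq_zero (fun j _ => hL _ (hg j))
  have t5 : ∑ j, g (k - j) * x 0 = (∑ j, g j) * x 0 := by
    rw [← Finset.sum_mul, sum_subL]
  have t6 : ∑ j, g (k + j) * x 0 = (∑ j, g j) * x 0 := by
    rw [← Finset.sum_mul, sum_addL]
  have t7 : ∑ j, g j * x 0 = (∑ j, g j) * x 0 := by
    rw [← Finset.sum_mul]
  have t8 : ∑ j, g k * fa x g j =
      -((2 * (Fintype.card Γ : ℤ)) • (g k * x 0)) - (2 : ℤ) • (g k * ∑ j, g j) := by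
    rw [← Finset.mul_sum, sum_fa x g sx, mul_sub, mul_neg, mul_smul_comm, mul_smul_comm]
  simp only [Finset.sum_add_distrib, Finset.sum_sub_distrib, ← Finset.smul_sum] at t1 ⊢
  rw [t1, gg_zero hL hg k, t2, t3, t4, t5, t6, t7, t8]
  module

include hL in
/-- the boundary of `Σ_j {Y_{k,j}}` -/
theorem DY [Module ℚ R] {x g : Γ → R} (hx : ∀ k, x k ∈ L) (hg : ∀ k, g k ∈ L)
    (sx : ∑ k, x k = 0) (gn : ∀ k, g (-k) = g k) (k : Γ) :
    ∑ j, fY1 x g k j * fY x g k j =
      -((2 * (Fintype.card Γ : ℤ)) • (x k * x 0 + x (-k) * x 0))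
      - (2 : ℤ) • (x k * (∑ j, g j) + x (-k) * (∑ j, g j) - (2 : ℤ) • (x 0 * ∑ j, g j))
      + (2 * (Fintype.card Γ : ℤ)) • (x k * g k + x (-k) * g k - (2 : ℤ) • (x 0 * g k))
      + (2 : ℤ) • ((∑ j, x j * g (k - j)) + (∑ j, x j * g (k + j))
        - (2 : ℤ) • ∑ j, x j * g j) := by
  have e2 : ∀ j, fa x g j = x j + x (-j) - (2 : ℤ) • x 0 - (2 : ℤ) • g j := by
    intro j
    simp only [fa, two_mul, two_smul]
  have hc : ∀ j, fc0 g k j ∈ L := by
    intro j
    have e : fc0 g k j = g (k - j) + g (k + j) - (2 : ℤ) • g k - (2 : ℤ) • g j := by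
      simp only [fc0, two_mul, two_smul]
    rw [e]
    exact L.sub_mem (L.sub_mem (L.add_mem (hg _) (hg _)) (L.zsmul_mem (hg _) _))
      (L.zsmul_mem (hg _) _)
  have h1 : ∀ j, fY1 x g k j * fY x g k j =
      fa x g k * fa x g j - fa x g k * fc0 g k j - fc0 g k j * fa x g j := by
    intro j
    have := hL _ (hc j)
    simp only [fY1, fY, sub_mul, mul_sub]
    rw [this]
    abel
  simp_rw [h1]
  rw [Finset.sum_sub_distrib, Finset.sum_sub_distrib, ← Finset.mul_sum, ← Finset.mul_sum,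
    sum_fa x g sx, sum_fc0, sum_ca hL hg sx gn, e2 k]
  have c1 : ∀ j, g (k - j) * x j = -(x j * g (k - j)) := fun j => anti hL (hg _) (hx _)
  have c2 : ∀ j, g (k + j) * x j = -(x j * g (k + j)) := fun j => anti hL (hg _) (hx _)
  have c3 : ∀ j, g j * x j = -(x j * g j) := fun j => anti hL (hg _) (hx _)
  simp_rw [c1, c2, c3]
  have c4 : g k * g k = 0 := hL _ (hg k)
  have c5 : x 0 * x 0 = 0 := hL _ (hx 0)
  simp only [sub_mul, mul_sub, add_mul, mul_neg, mul_smul_comm, smul_mul_assoc,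
    Finset.sum_neg_distrib, c4, c5]
  module

end

end UNI.AF
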