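import Pool.Agent.UNI.AF2

/-!
# UNI.AF3 : the one variable dilogarithms, summed with the weights
-/

open Finset

namespace UNI.AF

section

variable {Γ R : Type*} [AddCommGroup Γ] [Fintype Γ] [Ring R] [Module ℚ R] {W : Γ → Γ → ℤ}
variable {L : AddSubgroup R}

theorem sum_sh (u : Γ → R) (su : ∑ k, u k = 0) (s : Γ) : ∑ k, sh u s k = 0 := by
  simp only [sh]
  rw [sum_subR, su]

theorem lemY (Wn : ∀ k l, W (-k) l = W k l) (Wa : ∀ k l, W l k = -W k l)
    (Wr : ∀ l, ∑ k, W k l = 0) (hL : ∀ x ∈ L, x * x = 0) {u g : Γ → R} (hu : ∀ k, u k ∈ L)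
    (hg : ∀ k, g k ∈ L) (su : ∑ k, u k = 0) (gn : ∀ k, g (-k) = g k)
    (K : ∀ d, ∑ k, (W k d - W k (k + d)) • g k = 0) (q : Γ → R) :
    ∑ k, ∑ l, W k l • (∑ s, (∑ j, fY1 (sh u s) g k j * fY (sh u s) g k j) * q (l - s)) =
      -((4 * (Fintype.card Γ : ℤ)) • ∑ k, ∑ l, W k l • (∑ s, u (k - s) * u (-s) * q (l - s))) := by
  set n : ℤ := (Fintype.card Γ : ℤ) with hn
  set S : R := ∑ j, g j with hS
  set B0 : Γ → Γ → R := fun k l => ∑ s, u (k - s) * u (-s) * q (l - s) with hB0
  set B1 : Γ → Γ → R := fun k l => ∑ s, u (k - s) * S * q (l - s) with hB1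
  set B1' : Γ → Γ → R := fun _ l => ∑ s, u (-s) * S * q (l - s) with hB1'
  set B2 : Γ → Γ → R := fun k l => ∑ s, u (k - s) * g k * q (l - s) with hB2
  set B3 : Γ → Γ → R := fun k l => ∑ s, u (-s) * g k * q (l - s) with hB3
  set B4 : Γ → Γ → R := fun k l => ∑ s, ∑ j, u (j - s) * g (k - j) * q (l - s) with hB4
  set B5 : Γ → Γ → R := fun _ l => ∑ s, ∑ j, u (j - s) * g j * q (l - s) with hB5
  have hΦ : ∀ k l, ∑ s, (∑ j, fY1 (sh u s) g k j * fY (sh u s) g k j) * q (l - s) =
      -((2 * n) • (B0 k l + B0 (-k) l))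
      - (2 : ℤ) • (B1 k l + B1 (-k) l - (2 : ℤ) • B1' k l)
      + (2 * n) • (B2 k l + B2 (-k) l - (2 : ℤ) • B3 k l)
      + (2 : ℤ) • (B4 k l + B4 (-k) l - (2 : ℤ) • B5 k l) := by
    intro k l
    have h1 : ∀ s, (∑ j, fY1 (sh u s) g k j * fY (sh u s) g k j) * q (l - s) =
        -((2 * n) • (u (k - s) * u (-s) * q (l - s) + u (-k - s) * u (-s) * q (l - s)))
        - (2 : ℤ) • (u (k - s) * S * q (l - s) + u (-k - s) * S * q (l - s)
          - (2 : ℤ) • (u (-s) * S * q (l - s)))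
        + (2 * n) • (u (k - s) * g k * q (l - s) + u (-k - s) * g (-k) * q (l - s)
          - (2 : ℤ) • (u (-s) * g k * q (l - s)))
        + (2 : ℤ) • ((∑ j, u (j - s) * g (k - j) * q (l - s))
          + (∑ j, u (j - s) * g (-k - j) * q (l - s))
          - (2 : ℤ) • (∑ j, u (j - s) * g j * q (l - s))) := by
      intro s
      have e : ∀ j, g (-k - j) = g (k + j) := by
        intro j
        rw [← gn (k + j)]
        congr 1
        abel
      rw [DY hL (x := sh u s) (fun j => hu _) hg (sum_sh u su s) gn k]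
      simp only [sh, zero_sub, gn, e]
      simp only [sub_mul, add_mul, neg_mul, smul_mul_assoc, Finset.sum_mul]
      rfl
    simp_rw [h1]
    simp only [hB0, hB1, hB1', hB2, hB3, hB4, hB5, Finset.sum_add_distrib,
      Finset.sum_sub_distrib, Finset.sum_neg_distrib, ← Finset.smul_sum]
  simp_rw [hΦ]
  have hsm : ∀ (c : ℤ) (Φ : Γ → Γ → R), ∑ k, ∑ l, W k l • (c • Φ k l) =
      c • ∑ k, ∑ l, W k l • Φ k l := by
    intro c Φ
    simp only [Finset.smul_sum]
    refine Finset.sum_congr rfl (fun k _ => Finset.sum_congr rfl (fun l _ => ?_))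
    rw [smul_comm]
  have r1 : ∑ k, ∑ l, W k l • B1 k l = 0 := by
    refine van3 Wn Wa B1 (fun d => ∑ s, u (-s) * S * q (d - s)) (fun k l _ => ?_)
    simp only [hB1]
    rw [← sum_addL (fun s => u (k - s) * S * q (l - s)) k]
    refine Finset.sum_congr rfl (fun s _ => ?_)
    have b1 : k - (k + s) = -s := by abel
    have b2 : l - (k + s) = l - k - s := by abel
    rw [b1, b2]
  have r1' : ∑ k, ∑ l, W k l • B1' k l = 0 := indK Wr B1' (fun l => B1' 0 l) (fun k l _ => rfl)
  have r4 : ∑ k, ∑ l, W k l • B4 k l = 0 := by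
    refine van3 Wn Wa B4 (fun d => ∑ s, ∑ j, u (j - s) * g (-d - j) * q (-s)) (fun k l _ => ?_)
    simp only [hB4]
    rw [← sum_addL (fun s => ∑ j, u (j - s) * g (k - j) * q (l - s)) l]
    refine Finset.sum_congr rfl (fun s _ => ?_)
    rw [← sum_addL (fun j => u (j - (l + s)) * g (k - j) * q (l - (l + s))) l]
    refine Finset.sum_congr rfl (fun j _ => ?_)
    have b1 : l + j - (l + s) = j - s := by abel
    have b2 : k - (l + j) = -(l - k) - j := by abel
    have b3 : l - (l + s) = -s := by abel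
    rw [b1, b2, b3]
  have r5 : ∑ k, ∑ l, W k l • B5 k l = 0 := indK Wr B5 (fun l => B5 0 l) (fun k l _ => rfl)
  have r23 : ∑ k, ∑ l, W k l • B2 k l = ∑ k, ∑ l, W k l • B3 k l := by
    have e2 : ∑ k, ∑ l, W k l • B2 k l =
        ∑ l, ∑ s, u (-s) * (∑ k, W k (k + l) • g k) * q (l - s) := by
      have a1 : ∀ k, ∑ l, W k l • B2 k l = ∑ l, ∑ s, u (-s) * (W k (k + l) • g k) * q (l - s) := by
        intro k
        rw [← sum_addL (fun l => W k l • B2 k l) k]
        refine Finset.sum_congr rfl (fun l _ => ?_)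
        simp only [hB2]
        rw [Finset.smul_sum, ← sum_addL (fun s => W k (k + l) • (u (k - s) * g k * q (k + l - s))) k]
        refine Finset.sum_congr rfl (fun s _ => ?_)
        have b1 : k - (k + s) = -s := by abel
        have b2 : k + l - (k + s) = l - s := by abel
        rw [b1, b2, mul_smul_comm, smul_mul_assoc]
      simp_rw [a1]
      rw [Finset.sum_comm]
      refine Finset.sum_congr rfl (fun l _ => ?_)
      rw [Finset.sum_comm]
      refine Finset.sum_congr rfl (fun s _ => ?_)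
      rw [Finset.mul_sum, Finset.sum_mul]
    have e3 : ∑ k, ∑ l, W k l • B3 k l =
        ∑ l, ∑ s, u (-s) * (∑ k, W k l • g k) * q (l - s) := by
      rw [Finset.sum_comm]
      refine Finset.sum_congr rfl (fun l _ => ?_)
      simp only [hB3]
      simp_rw [Finset.smul_sum]
      rw [Finset.sum_comm]
      refine Finset.sum_congr rfl (fun s _ => ?_)
      rw [Finset.mul_sum, Finset.sum_mul]
      refine Finset.sum_congr rfl (fun k _ => ?_)
      rw [mul_smul_comm, smul_mul_assoc]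
    rw [e2, e3]
    refine Finset.sum_congr rfl (fun l _ => Finset.sum_congr rfl (fun s _ => ?_))
    have hK := K l
    simp_rw [sub_smul] at hK
    rw [Finset.sum_sub_distrib, sub_eq_zero] at hK
    rw [hK]
  have hev : ∀ Φ : Γ → Γ → R, ∑ k, ∑ l, W k l • Φ (-k) l = ∑ k, ∑ l, W k l • Φ k l := evenK Wn
  simp only [smul_add, smul_sub, smul_neg, Finset.sum_add_distrib, Finset.sum_sub_distrib,
    Finset.sum_neg_distrib, hsm, hev, r1, r1', r4, r5, r23, smul_zero]
  module

end

end UNI.AF
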