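import Pool.Agent.UNI.AF3

/-!
# UNI.AF4 : the two variable dilogarithms, the terms that vanish
-/

open Finset

namespace UNI.AF

section

variable {Γ R : Type*} [AddCommGroup Γ] [Fintype Γ] [Ring R]

/-- sum over all translates of `X * u_k * v_l` with the weights -/
def T (W : Γ → Γ → ℤ) (u v : Γ → R) (X : Γ → Γ → Γ → R) : R :=
  ∑ k, ∑ l, W k l • ∑ s, ∑ t, ∑ h, X s t h * u (k - s) * v (l - t)

theorem T_add (W : Γ → Γ → ℤ) (u v : Γ → R) (X Y : Γ → Γ → Γ → R) :
    T W u v (fun s t h => X s t h + Y s t h) = T W u v X + T W u v Y := by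
  simp only [T, add_mul, Finset.sum_add_distrib, smul_add]

theorem T_sub (W : Γ → Γ → ℤ) (u v : Γ → R) (X Y : Γ → Γ → Γ → R) :
    T W u v (fun s t h => X s t h - Y s t h) = T W u v X - T W u v Y := by
  simp only [T, sub_mul, Finset.sum_sub_distrib, smul_sub]

theorem T_smul (W : Γ → Γ → ℤ) (u v : Γ → R) (c : ℤ) (X : Γ → Γ → Γ → R) :
    T W u v (fun s t h => c • X s t h) = c • T W u v X := by
  simp only [T, smul_mul_assoc, ← Finset.smul_sum]
  simp only [Finset.smul_sum]
  refine Finset.sum_congr rfl (fun k _ => Finset.sum_congr rfl (fun l _ => ?_))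
  refine Finset.sum_congr rfl (fun s _ => Finset.sum_congr rfl (fun t _ => ?_))
  refine Finset.sum_congr rfl (fun h _ => ?_)
  rw [smul_comm]

/-- reindexing -/
theorem re3 {M : Type*} [AddCommMonoid M] (F : Γ → Γ → Γ → M) (a b c : Γ) :
    ∑ s, ∑ t, ∑ h, F s t h = ∑ s, ∑ t, ∑ h, F (s + a) (t + b) (h + c) := by
  rw [← sum_addR (fun s => ∑ t, ∑ h, F s t h) a]
  refine Finset.sum_congr rfl (fun s _ => ?_)
  rw [← sum_addR (fun t => ∑ h, F (s + a) t h) b]
  refine Finset.sum_congr rfl (fun t _ => ?_)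
  rw [← sum_addR (fun h => F (s + a) (t + b) h) c]

variable {W : Γ → Γ → ℤ} {u v w z g : Γ → R} {L : AddSubgroup R}

theorem T_t (sv : ∑ k, v k = 0) (Y : Γ → Γ → R) : T W u v (fun s _ h => Y s h) = 0 := by
  refine Finset.sum_eq_zero (fun k _ => Finset.sum_eq_zero (fun l _ => ?_))
  have h1 : ∑ s, ∑ t, ∑ h, Y s h * u (k - s) * v (l - t) = 0 := by
    refine Finset.sum_eq_zero (fun s _ => ?_)
    rw [Finset.sum_comm]
    refine Finset.sum_eq_zero (fun h _ => ?_)
    rw [← Finset.mul_sum, sum_subL, sv, mul_zero]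
  rw [h1, smul_zero]

theorem T_s (su : ∑ k, u k = 0) (Y : Γ → Γ → R) : T W u v (fun _ t h => Y t h) = 0 := by
  refine Finset.sum_eq_zero (fun k _ => Finset.sum_eq_zero (fun l _ => ?_))
  have h1 : ∑ s, ∑ t, ∑ h, Y t h * u (k - s) * v (l - t) = 0 := by
    rw [Finset.sum_comm]
    refine Finset.sum_eq_zero (fun t _ => ?_)
    rw [Finset.sum_comm]
    refine Finset.sum_eq_zero (fun h _ => ?_)
    rw [← Finset.sum_mul, ← Finset.mul_sum, sum_subL, su, mul_zero, zero_mul]
  rw [h1, smul_zero]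

theorem T_h (X : Γ → Γ → Γ → R) (hX : ∀ s t, ∑ h, X s t h = 0) : T W u v X = 0 := by
  refine Finset.sum_eq_zero (fun k _ => Finset.sum_eq_zero (fun l _ => ?_))
  have h1 : ∑ s, ∑ t, ∑ h, X s t h * u (k - s) * v (l - t) = 0 := by
    refine Finset.sum_eq_zero (fun s _ => Finset.sum_eq_zero (fun t _ => ?_))
    rw [← Finset.sum_mul, ← Finset.sum_mul, hX, zero_mul, zero_mul]
  rw [h1, smul_zero]

/-- `x y z = - z y x` -/
theorem anti3 (hL : ∀ x ∈ L, x * x = 0) {x y z : R} (hx : x ∈ L) (hy : y ∈ L) (hz : z ∈ L) :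
    x * y * z = -(z * y * x) := by
  rw [anti hL hx hy, neg_mul, mul_assoc, anti hL hx hz, mul_neg, neg_neg, ← mul_assoc,
    anti hL hy hz, neg_mul]

variable (Wn : ∀ k l, W (-k) l = W k l) (Wa : ∀ k l, W l k = -W k l)
variable (Wr : ∀ l, ∑ k, W k l = 0) (Ws : ∀ k l, W k l ≠ 0 → ∃ m, k = m + m)
variable (hL : ∀ x ∈ L, x * x = 0) (hu : ∀ k, u k ∈ L) (hv : ∀ k, v k ∈ L)

include Wa Ws in
theorem Ws' (k l : Γ) (h : W k l ≠ 0) : ∃ m, l = m + m := by
  refine Ws l k ?_
  rw [Wa k l]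
  exact neg_ne_zero.2 h

section rat

variable [Module ℚ R]

include Wn Ws hL hu in
theorem T_a1 : T W u v (fun s t h => z (-(h + h) - (s + t)) * u (-s)) = 0 := by
  refine vanK Wn _ (fun k l hW => ?_)
  obtain ⟨m, rfl⟩ := Ws k l hW
  rw [re3 _ (-(m + m)) 0 m, ← Finset.sum_neg_distrib]
  refine Finset.sum_congr rfl (fun s _ => ?_)
  rw [← Finset.sum_neg_distrib]
  refine Finset.sum_congr rfl (fun t _ => ?_)
  rw [← Finset.sum_neg_distrib]
  refine Finset.sum_congr rfl (fun h _ => ?_)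
  have e1 : -(h + m + (h + m)) - (s + -(m + m) + (t + 0)) = -(h + h) - (s + t) := by abel
  have e2 : -(s + -(m + m)) = m + m - s := by abel
  have e3 : -(m + m) - (s + -(m + m)) = -s := by abel
  have e4 : l - (t + 0) = l - t := by abel
  beta_reduce
  rw [e1, e2, e3, e4, mul_assoc (z _), anti hL (hu (m + m - s)) (hu (-s)), mul_neg, neg_mul,
    ← mul_assoc (z _)]

include Wa Wn Ws hL hv hu in
theorem T_e1 : T W u v (fun s t h => z (-(h + h) - (s + t)) * v (-t)) = 0 := by
  refine vanL Wn Wa _ (fun k l hW => ?_)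
  obtain ⟨m, rfl⟩ := Ws' Wa Ws k l hW
  rw [re3 _ 0 (-(m + m)) m, ← Finset.sum_neg_distrib]
  refine Finset.sum_congr rfl (fun s _ => ?_)
  rw [← Finset.sum_neg_distrib]
  refine Finset.sum_congr rfl (fun t _ => ?_)
  rw [← Finset.sum_neg_distrib]
  refine Finset.sum_congr rfl (fun h _ => ?_)
  have e1 : -(h + m + (h + m)) - (s + 0 + (t + -(m + m))) = -(h + h) - (s + t) := by abel
  have e2 : -(t + -(m + m)) = m + m - t := by abel
  have e3 : -(m + m) - (t + -(m + m)) = -t := by abel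
  have e4 : k - (s + 0) = k - s := by abel
  beta_reduce
  rw [e1, e2, e3, e4]
  have h3 := anti3 hL (hv (m + m - t)) (hu (k - s)) (hv (-t))
  calc z (-(h + h) - (s + t)) * v (m + m - t) * u (k - s) * v (-t)
      = z (-(h + h) - (s + t)) * (v (m + m - t) * u (k - s) * v (-t)) := by noncomm_ring
    _ = _ := by rw [h3]; noncomm_ring

include Wn hL hu hv in
theorem T_uv1 : T W u v (fun s t _ => u (-s) * v (-t)) = 0 := by
  refine vanK Wn _ (fun k l _ => ?_)
  rw [re3 _ (-k) 0 0, ← Finset.sum_neg_distrib]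
  refine Finset.sum_congr rfl (fun s _ => ?_)
  rw [← Finset.sum_neg_distrib]
  refine Finset.sum_congr rfl (fun t _ => ?_)
  rw [← Finset.sum_neg_distrib]
  refine Finset.sum_congr rfl (fun h _ => ?_)
  have e2 : -(s + -k) = k - s := by abel
  have e3 : -k - (s + -k) = -s := by abel
  beta_reduce
  rw [e2, e3, add_zero, anti3 hL (hu (k - s)) (hv (-t)) (hu (-s)), neg_mul]

include Wn hL hu hv in
theorem T_uv2 : T W u v (fun s t h => u (-s) * v (-(h + h) - t)) = 0 := by
  refine vanK Wn _ (fun k l _ => ?_)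
  rw [re3 _ (-k) 0 0, ← Finset.sum_neg_distrib]
  refine Finset.sum_congr rfl (fun s _ => ?_)
  rw [← Finset.sum_neg_distrib]
  refine Finset.sum_congr rfl (fun t _ => ?_)
  rw [← Finset.sum_neg_distrib]
  refine Finset.sum_congr rfl (fun h _ => ?_)
  have e2 : -(s + -k) = k - s := by abel
  have e3 : -k - (s + -k) = -s := by abel
  beta_reduce
  rw [e2, e3, add_zero, add_zero, anti3 hL (hu (k - s)) (hv _) (hu (-s)), neg_mul]

include Wn Wa hL hu hv in
theorem T_uv3 : T W u v (fun s t h => u (-(h + h) - s) * v (-t)) = 0 := by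
  refine vanL Wn Wa _ (fun k l _ => ?_)
  rw [re3 _ 0 (-l) 0, ← Finset.sum_neg_distrib]
  refine Finset.sum_congr rfl (fun s _ => ?_)
  rw [← Finset.sum_neg_distrib]
  refine Finset.sum_congr rfl (fun t _ => ?_)
  rw [← Finset.sum_neg_distrib]
  refine Finset.sum_congr rfl (fun h _ => ?_)
  have e2 : -(t + -l) = l - t := by abel
  have e3 : -l - (t + -l) = -t := by abel
  beta_reduce
  rw [e2, e3, add_zero, add_zero]
  have h3 := anti3 hL (hv (l - t)) (hu (k - s)) (hv (-t))
  calc u (-(h + h) - s) * v (l - t) * u (k - s) * v (-t)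
      = u (-(h + h) - s) * (v (l - t) * u (k - s) * v (-t)) := by noncomm_ring
    _ = _ := by rw [h3]; noncomm_ring

end rat

include Wr Ws in
theorem T_a2 : T W u v (fun s t h => z (-(h + h) - (s + t)) * u (-(h + h) - s)) = 0 := by
  refine indK Wr _ (fun l => ∑ s, ∑ t, ∑ h,
    z (-(h + h) - (s + t)) * u (-(h + h) - s) * u (-s) * v (l - t)) (fun k l hW => ?_)
  obtain ⟨m, rfl⟩ := Ws k l hW
  rw [re3 _ (m + m) 0 (-m)]
  refine Finset.sum_congr rfl (fun s _ => Finset.sum_congr rfl (fun t _ =>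
    Finset.sum_congr rfl (fun h _ => ?_)))
  have e1 : -(h + -m + (h + -m)) - (s + (m + m) + (t + 0)) = -(h + h) - (s + t) := by abel
  have e2 : -(h + -m + (h + -m)) - (s + (m + m)) = -(h + h) - s := by abel
  have e3 : m + m - (s + (m + m)) = -s := by abel
  beta_reduce
  rw [e1, e2, e3, add_zero]

include Wa Wr Ws in
theorem T_e2 : T W u v (fun s t h => z (-(h + h) - (s + t)) * v (-(h + h) - t)) = 0 := by
  refine indL Wa Wr _ (fun k => ∑ s, ∑ t, ∑ h,
    z (-(h + h) - (s + t)) * v (-(h + h) - t) * u (k - s) * v (-t)) (fun k l hW => ?_)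
  obtain ⟨m, rfl⟩ := Ws' Wa Ws k l hW
  rw [re3 _ 0 (m + m) (-m)]
  refine Finset.sum_congr rfl (fun s _ => Finset.sum_congr rfl (fun t _ =>
    Finset.sum_congr rfl (fun h _ => ?_)))
  have e1 : -(h + -m + (h + -m)) - (s + 0 + (t + (m + m))) = -(h + h) - (s + t) := by abel
  have e2 : -(h + -m + (h + -m)) - (t + (m + m)) = -(h + h) - t := by abel
  have e3 : m + m - (t + (m + m)) = -t := by abel
  beta_reduce
  rw [e1, e2, e3, add_zero]

include Wn Wa in
theorem T_a3 : T W u v (fun s t h => z (-(h + h) - (s + t)) * u (-h - s)) = 0 := by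
  refine van3 Wn Wa _ (fun d => ∑ s, ∑ t, ∑ h,
    z (-(h + h) - (s + t)) * u (-h - s) * u (-s) * v (d - t)) (fun k l _ => ?_)
  rw [re3 _ k k (-k)]
  refine Finset.sum_congr rfl (fun s _ => Finset.sum_congr rfl (fun t _ =>
    Finset.sum_congr rfl (fun h _ => ?_)))
  have e1 : -(h + -k + (h + -k)) - (s + k + (t + k)) = -(h + h) - (s + t) := by abel
  have e2 : -(h + -k) - (s + k) = -h - s := by abel
  have e3 : k - (s + k) = -s := by abel
  have e4 : l - (t + k) = l - k - t := by abel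
  beta_reduce
  rw [e1, e2, e3, e4]

include Wn Wa in
theorem T_e3 : T W u v (fun s t h => z (-(h + h) - (s + t)) * v (-h - t)) = 0 := by
  refine van3 Wn Wa _ (fun d => ∑ s, ∑ t, ∑ h,
    z (-(h + h) - (s + t)) * v (-h - t) * u (-s) * v (d - t)) (fun k l _ => ?_)
  rw [re3 _ k k (-k)]
  refine Finset.sum_congr rfl (fun s _ => Finset.sum_congr rfl (fun t _ =>
    Finset.sum_congr rfl (fun h _ => ?_)))
  have e1 : -(h + -k + (h + -k)) - (s + k + (t + k)) = -(h + h) - (s + t) := by abel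
  have e2 : -(h + -k) - (t + k) = -h - t := by abel
  have e3 : k - (s + k) = -s := by abel
  have e4 : l - (t + k) = l - k - t := by abel
  beta_reduce
  rw [e1, e2, e3, e4]

include Wn Wa Ws in
theorem T_b2 : T W u v (fun s t h => w (t - s) * u (-(h + h) - s)) = 0 := by
  refine van3 Wn Wa _ (fun d => ∑ s, ∑ t, ∑ h,
    w (t - s + d) * u (-(h + h) - s) * u (-s) * v (-t)) (fun k l hW => ?_)
  obtain ⟨m, rfl⟩ := Ws k l hW
  rw [re3 _ (m + m) l (-m)]
  refine Finset.sum_congr rfl (fun s _ => Finset.sum_congr rfl (fun t _ =>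
    Finset.sum_congr rfl (fun h _ => ?_)))
  have e1 : t + l - (s + (m + m)) = t - s + (l - (m + m)) := by abel
  have e2 : -(h + -m + (h + -m)) - (s + (m + m)) = -(h + h) - s := by abel
  have e3 : m + m - (s + (m + m)) = -s := by abel
  have e4 : l - (t + l) = -t := by abel
  beta_reduce
  rw [e1, e2, e3, e4]

include Wn Wa Ws in
theorem T_f2 : T W u v (fun s t h => w (t - s) * v (-(h + h) - t)) = 0 := by
  refine van3 Wn Wa _ (fun d => ∑ s, ∑ t, ∑ h,
    w (t - s + d) * v (-(h + h) - t) * u (-s) * v (-t)) (fun k l hW => ?_)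
  obtain ⟨m, rfl⟩ := Ws' Wa Ws k l hW
  rw [re3 _ k (m + m) (-m)]
  refine Finset.sum_congr rfl (fun s _ => Finset.sum_congr rfl (fun t _ =>
    Finset.sum_congr rfl (fun h _ => ?_)))
  have e1 : t + (m + m) - (s + k) = t - s + (m + m - k) := by abel
  have e2 : -(h + -m + (h + -m)) - (t + (m + m)) = -(h + h) - t := by abel
  have e3 : k - (s + k) = -s := by abel
  have e4 : m + m - (t + (m + m)) = -t := by abel
  beta_reduce
  rw [e1, e2, e3, e4]

include Wn Wa in
theorem T_uv4 : T W u v (fun s t h => u (-h - s) * v (-h - t)) = 0 := by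
  refine van3 Wn Wa _ (fun d => ∑ s, ∑ t, ∑ h,
    u (-h - s) * v (-h - t) * u (-s) * v (d - t)) (fun k l _ => ?_)
  rw [re3 _ k k (-k)]
  refine Finset.sum_congr rfl (fun s _ => Finset.sum_congr rfl (fun t _ =>
    Finset.sum_congr rfl (fun h _ => ?_)))
  have e1 : -(h + -k) - (s + k) = -h - s := by abel
  have e2 : -(h + -k) - (t + k) = -h - t := by abel
  have e3 : k - (s + k) = -s := by abel
  have e4 : l - (t + k) = l - k - t := by abel
  beta_reduce
  rw [e1, e2, e3, e4]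

include Wn Wa Ws in
theorem T_uv5 : T W u v (fun s t h => u (-(h + h) - s) * v (-(h + h) - t)) = 0 := by
  refine van3 Wn Wa _ (fun d => ∑ s, ∑ t, ∑ h,
    u (-(h + h) - s) * v (-(h + h) - t) * u (-s) * v (d - t)) (fun k l hW => ?_)
  obtain ⟨m, rfl⟩ := Ws k l hW
  rw [re3 _ (m + m) (m + m) (-m)]
  refine Finset.sum_congr rfl (fun s _ => Finset.sum_congr rfl (fun t _ =>
    Finset.sum_congr rfl (fun h _ => ?_)))
  have e1 : -(h + -m + (h + -m)) - (s + (m + m)) = -(h + h) - s := by abel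
  have e2 : -(h + -m + (h + -m)) - (t + (m + m)) = -(h + h) - t := by abel
  have e3 : m + m - (s + (m + m)) = -s := by abel
  have e4 : l - (t + (m + m)) = l - (m + m) - t := by abel
  beta_reduce
  rw [e1, e2, e3, e4]

theorem T_b3 (su : ∑ k, u k = 0) : T W u v (fun s t h => w (t - s) * u (-h - s)) = 0 := by
  refine T_h _ (fun s t => ?_)
  rw [← Finset.mul_sum]
  have : ∑ h, u (-h - s) = 0 := by
    rw [← su, ← sum_subL u (-s)]
    refine Finset.sum_congr rfl (fun h _ => ?_)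
    congr 1
    abel
  rw [this, mul_zero]

theorem T_f3 (sv : ∑ k, v k = 0) : T W u v (fun s t h => w (t - s) * v (-h - t)) = 0 := by
  refine T_h _ (fun s t => ?_)
  rw [← Finset.mul_sum]
  have : ∑ h, v (-h - t) = 0 := by
    rw [← sv, ← sum_subL v (-t)]
    refine Finset.sum_congr rfl (fun h _ => ?_)
    congr 1
    abel
  rw [this, mul_zero]

end

end UNI.AF
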