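import Pool.Agent.UNI.AF4

/-!
# UNI.AF5 : the two variable dilogarithms, the main terms
-/

open Finset

namespace UNI.AF

section

variable {Γ R : Type*} [AddCommGroup Γ] [Fintype Γ] [Ring R]
variable {W : Γ → Γ → ℤ} {u v w z g : Γ → R} {L : AddSubgroup R}

/-- the main term of the line `u` -/
def MA (W : Γ → Γ → ℤ) (u v w : Γ → R) : R :=
  ∑ k, ∑ l, W k l • ∑ s, u (k - s) * u (-s) * ∑ t, w t * v (l - s - t)

theorem T_b1 (hL : ∀ x ∈ L, x * x = 0) (hu : ∀ k, u k ∈ L) (hw : ∀ k, w k ∈ L) :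
    T W u v (fun s t _ => w (t - s) * u (-s)) = -((Fintype.card Γ : ℤ) • MA W u v w) := by
  rw [MA, T, Finset.smul_sum, ← Finset.sum_neg_distrib]
  refine Finset.sum_congr rfl (fun k _ => ?_)
  rw [Finset.smul_sum, ← Finset.sum_neg_distrib]
  refine Finset.sum_congr rfl (fun l _ => ?_)
  rw [smul_comm _ (W k l), ← smul_neg]
  congr 1
  rw [Finset.smul_sum, ← Finset.sum_neg_distrib]
  refine Finset.sum_congr rfl (fun s _ => ?_)
  have h1 : ∀ t, ∑ _h : Γ, w (t - s) * u (-s) * u (k - s) * v (l - t) =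
      -((Fintype.card Γ : ℤ) • (u (k - s) * u (-s) * (w (t - s) * v (l - t)))) := by
    intro t
    rw [sum_const', ← smul_neg]
    congr 1
    have h3 := anti3 hL (hw (t - s)) (hu (-s)) (hu (k - s))
    rw [h3]
    noncomm_ring
  simp_rw [h1]
  rw [Finset.sum_neg_distrib, ← Finset.smul_sum, ← Finset.mul_sum]
  congr 3
  rw [← sum_addR (fun t => w (t - s) * v (l - t)) s]
  refine Finset.sum_congr rfl (fun t _ => ?_)
  have e1 : t + s - s = t := by abel
  have e2 : l - (t + s) = l - s - t := by abel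
  rw [e1, e2]

theorem T_f1 (hL : ∀ x ∈ L, x * x = 0) (hu : ∀ k, u k ∈ L) (hv : ∀ k, v k ∈ L)
    (hw : ∀ k, w k ∈ L) :
    T W u v (fun s t _ => w (t - s) * v (-t)) =
      (Fintype.card Γ : ℤ) • MA (fun a b => W b a) v u (fun a => w (-a)) := by
  rw [MA, T, Finset.sum_comm, Finset.smul_sum]
  refine Finset.sum_congr rfl (fun l _ => ?_)
  rw [Finset.smul_sum]
  refine Finset.sum_congr rfl (fun k _ => ?_)
  rw [smul_comm _ (W k l)]
  congr 1
  rw [Finset.smul_sum, Finset.sum_comm]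
  refine Finset.sum_congr rfl (fun t _ => ?_)
  have h1 : ∀ s, ∑ _h : Γ, w (t - s) * v (-t) * u (k - s) * v (l - t) =
      (Fintype.card Γ : ℤ) • (v (l - t) * v (-t) * (w (t - s) * u (k - s))) := by
    intro s
    rw [sum_const']
    congr 1
    have a1 := anti hL (hu (k - s)) (hv (l - t))
    have a2 := anti3 hL (hw (t - s)) (hv (-t)) (hv (l - t))
    calc w (t - s) * v (-t) * u (k - s) * v (l - t)
        = w (t - s) * v (-t) * (u (k - s) * v (l - t)) := by noncomm_ring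
      _ = -(w (t - s) * v (-t) * v (l - t)) * u (k - s) := by rw [a1]; noncomm_ring
      _ = _ := by rw [a2]; noncomm_ring
  simp_rw [h1]
  rw [← Finset.smul_sum, ← Finset.mul_sum]
  congr 2
  rw [← sum_addR (fun s => w (t - s) * u (k - s)) t]
  refine Finset.sum_congr rfl (fun s _ => ?_)
  have e1 : t - (s + t) = -s := by abel
  have e2 : k - (s + t) = k - t - s := by abel
  rw [e1, e2]

theorem red2 (Wn : ∀ k l, W (-k) l = W k l) (Wa : ∀ k l, W l k = -W k l)
    (Wr : ∀ l, ∑ k, W k l = 0) (X : R) (a b : Γ → R) :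
    ∑ k, ∑ l, W k l • (X * fA a k * fA b l) =
      (4 * (Fintype.card Γ : ℤ) ^ 2) • ∑ k, ∑ l, W k l • (X * a k * b l) := by
  set n : ℤ := (Fintype.card Γ : ℤ) with hn
  have hA : ∀ (x : Γ → R) k, fA x k = n • (x k + x (-k) - (2 : ℤ) • x 0) := by
    intro x k
    simp only [fA, two_mul, two_smul, hn, zsmul_eq_mul, Int.cast_natCast]
  have h1 : ∀ k l, X * fA a k * fA b l =
      (n ^ 2) • (X * a k * b l + X * a k * b (-l) - (2 : ℤ) • (X * a k * b 0)
        + (X * a (-k) * b l + X * a (-k) * b (-l) - (2 : ℤ) • (X * a (-k) * b 0))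
        - (2 : ℤ) • (X * a 0 * b l) - (2 : ℤ) • (X * a 0 * b (-l)) + (4 : ℤ) • (X * a 0 * b 0)) := by
    intro k l
    rw [hA, hA]
    simp only [mul_add, mul_sub, add_mul, sub_mul, mul_smul_comm, smul_mul_assoc]
    module
  simp_rw [h1]
  have hsm : ∀ (c : ℤ) (Φ : Γ → Γ → R), ∑ k, ∑ l, W k l • (c • Φ k l) =
      c • ∑ k, ∑ l, W k l • Φ k l := by
    intro c Φ
    simp only [Finset.smul_sum]
    refine Finset.sum_congr rfl (fun k _ => Finset.sum_congr rfl (fun l _ => ?_))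
    rw [smul_comm]
  have c1 : ∑ k, ∑ l, W k l • (X * a k * b (-l)) = ∑ k, ∑ l, W k l • (X * a k * b l) :=
    evenL Wn Wa (fun k l => X * a k * b l)
  have c2 : ∑ k, ∑ l, W k l • (X * a (-k) * b l) = ∑ k, ∑ l, W k l • (X * a k * b l) :=
    evenK Wn (fun k l => X * a k * b l)
  have c3 : ∑ k, ∑ l, W k l • (X * a (-k) * b (-l)) = ∑ k, ∑ l, W k l • (X * a k * b l) := by
    rw [evenK Wn (fun k l => X * a k * b (-l)), c1]
  have c4 : ∑ k, ∑ l, W k l • (X * a k * b 0) = 0 :=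
    indL Wa Wr _ (fun k => X * a k * b 0) (fun _ _ _ => rfl)
  have c5 : ∑ k, ∑ l, W k l • (X * a (-k) * b 0) = 0 :=
    indL Wa Wr _ (fun k => X * a (-k) * b 0) (fun _ _ _ => rfl)
  have c6 : ∑ k, ∑ l, W k l • (X * a 0 * b l) = 0 :=
    indK Wr _ (fun l => X * a 0 * b l) (fun _ _ _ => rfl)
  have c7 : ∑ k, ∑ l, W k l • (X * a 0 * b (-l)) = 0 :=
    indK Wr _ (fun l => X * a 0 * b (-l)) (fun _ _ _ => rfl)
  have c8 : ∑ k, ∑ l, W k l • (X * a 0 * b 0) = 0 :=
    indK Wr _ (fun l => X * a 0 * b 0) (fun _ _ _ => rfl)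
  rw [hsm]
  simp only [smul_add, smul_sub, Finset.sum_add_distrib, Finset.sum_sub_distrib, hsm, c1, c2, c3,
    c4, c5, c6, c7, c8, smul_zero]
  module

/-- the part of the two variable dilogarithms -/
theorem partI [Module ℚ R] (hL : ∀ x ∈ L, x * x = 0)
    (hu : ∀ k, u k ∈ L) (hv : ∀ k, v k ∈ L) (hw : ∀ k, w k ∈ L)
    (su : ∑ k, u k = 0) (sv : ∑ k, v k = 0)
    (Wn : ∀ k l, W (-k) l = W k l) (Wa : ∀ k l, W l k = -W k l)
    (Wr : ∀ l, ∑ k, W k l = 0) (Ws : ∀ k l, W k l ≠ 0 → ∃ m, k = m + m) (eps : R) :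
    T W u v (fun s t h => (fF1 (sh u s) (sh v t) (sh w (s - t)) (sh z (s + t)) g h + eps) *
      fF (sh u s) (sh v t) h) =
      -((Fintype.card Γ : ℤ) • MA W u v w)
      - (Fintype.card Γ : ℤ) • MA (fun a b => W b a) v u (fun a => w (-a)) := by
  have hX : ∀ s t h, (fF1 (sh u s) (sh v t) (sh w (s - t)) (sh z (s + t)) g h + eps) *
      fF (sh u s) (sh v t) h =
      z (-(h + h) - (s + t)) * u (-s) + z (-(h + h) - (s + t)) * u (-(h + h) - s)
      - (2 : ℤ) • (z (-(h + h) - (s + t)) * u (-h - s))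
      - z (-(h + h) - (s + t)) * v (-t) - z (-(h + h) - (s + t)) * v (-(h + h) - t)
      + (2 : ℤ) • (z (-(h + h) - (s + t)) * v (-h - t))
      + w (t - s) * u (-s) + w (t - s) * u (-(h + h) - s) - (2 : ℤ) • (w (t - s) * u (-h - s))
      - w (t - s) * v (-t) - w (t - s) * v (-(h + h) - t) + (2 : ℤ) • (w (t - s) * v (-h - t))
      + ((-((2 : ℤ) • u (-h - s)) + (2 : ℤ) • g h + eps) *
        (u (-s) + u (-(h + h) - s) - (2 : ℤ) • u (-h - s)))
      + ((v (-t) + v (-(h + h) - t) - (2 : ℤ) • g h - eps) *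
        (v (-t) + v (-(h + h) - t) - (2 : ℤ) • v (-h - t)))
      + u (-s) * v (-t) + u (-s) * v (-(h + h) - t) + u (-(h + h) - s) * v (-t)
      + u (-(h + h) - s) * v (-(h + h) - t) - (4 : ℤ) • (u (-h - s) * v (-h - t)) := by
    intro s t h
    have e1 : (0 : Γ) - s = -s := by abel
    have e2 : (0 : Γ) - t = -t := by abel
    have e3 : (0 : Γ) - (s - t) = t - s := by abel
    simp only [fF1, fF, sh, e1, e2, e3]
    have a1 := anti hL (hv (-t)) (hu (-s))
    have a2 := anti hL (hv (-t)) (hu (-(h + h) - s))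
    have a3 := anti hL (hv (-t)) (hu (-h - s))
    have a4 := anti hL (hv (-(h + h) - t)) (hu (-s))
    have a5 := anti hL (hv (-(h + h) - t)) (hu (-(h + h) - s))
    have a6 := anti hL (hv (-(h + h) - t)) (hu (-h - s))
    simp only [two_mul, two_smul, mul_add, mul_sub, add_mul, sub_mul, neg_mul, a1, a2, a3, a4, a5,
      a6]
    module
  simp_rw [hX]
  have t1 := T_a1 (W := W) (u := u) (v := v) (z := z) (L := L) Wn Ws hL hu
  have t2 := T_a2 (W := W) (u := u) (v := v) (z := z) Wr Ws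
  have t3 := T_a3 (W := W) (u := u) (v := v) (z := z) Wn Wa
  have t4 := T_e1 (W := W) (u := u) (v := v) (z := z) (L := L) Wn Wa Ws hL hu hv
  have t5 := T_e2 (W := W) (u := u) (v := v) (z := z) Wa Wr Ws
  have t6 := T_e3 (W := W) (u := u) (v := v) (z := z) Wn Wa
  have t7 := T_b1 (W := W) (u := u) (v := v) (w := w) hL hu hw
  have t8 := T_b2 (W := W) (u := u) (v := v) (w := w) Wn Wa Ws
  have t9 := T_b3 (W := W) (u := u) (v := v) (w := w) su
  have t10 := T_f1 (W := W) (u := u) (v := v) (w := w) hL hu hv hw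
  have t11 := T_f2 (W := W) (u := u) (v := v) (w := w) Wn Wa Ws
  have t12 := T_f3 (W := W) (u := u) (v := v) (w := w) sv
  have t13 : T W u v (fun s _ h => (-((2 : ℤ) • u (-h - s)) + (2 : ℤ) • g h + eps) *
        (u (-s) + u (-(h + h) - s) - (2 : ℤ) • u (-h - s))) = 0 := T_t sv _
  have t14 : T W u v (fun _ t h => (v (-t) + v (-(h + h) - t) - (2 : ℤ) • g h - eps) *
        (v (-t) + v (-(h + h) - t) - (2 : ℤ) • v (-h - t))) = 0 := T_s su _
  have t15 := T_uv1 (W := W) (u := u) (v := v) (L := L) Wn hL hu hv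
  have t16 := T_uv2 (W := W) (u := u) (v := v) (L := L) Wn hL hu hv
  have t17 := T_uv3 (W := W) (u := u) (v := v) (L := L) Wn Wa hL hu hv
  have t18 := T_uv5 (W := W) (u := u) (v := v) Wn Wa Ws
  have t19 := T_uv4 (W := W) (u := u) (v := v) Wn Wa
  rw [T_sub, T_add, T_add, T_add, T_add, T_add, T_add, T_add, T_sub, T_sub, T_sub, T_add, T_add,
    T_add, T_sub, T_sub, T_sub, T_add, T_smul, T_smul, T_smul, T_smul, T_smul, t1, t2, t3, t4, t5,
    t6, t7, t8, t9, t10, t11, t12, t13, t14, t15, t16, t17, t18, t19]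
  simp

end

end UNI.AF
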