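import Pool.Agent.UNI.AF5

/-!
# UNI.AF6 : the one variable parts
-/

open Finset

namespace UNI.AF

section

variable {Γ R : Type*} [AddCommGroup Γ] [Fintype Γ] [Ring R]
variable {W : Γ → Γ → ℤ} {u v w z g : Γ → R} {L : AddSubgroup R}

/-- the sum over `t` -/
theorem sum_t (sv : ∑ k, v k = 0) (S : R) (s l : Γ) :
    ∑ t, (-((2 * (Fintype.card Γ : ℤ)) • w (t - s)) - (2 : ℤ) • S) * fA (sh v t) l =
      -((2 * (Fintype.card Γ : ℤ) ^ 2) • ((∑ t, w t * v (l - s - t)) + (∑ t, w t * v (-l - s - t))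
        - (2 : ℤ) • ∑ t, w t * v (-s - t))) := by
  set n : ℤ := (Fintype.card Γ : ℤ) with hn
  have h1 : ∀ t, (-((2 * n) • w (t - s)) - (2 : ℤ) • S) * fA (sh v t) l =
      -((2 * n ^ 2) • (w (t - s) * v (l - t) + w (t - s) * v (-l - t)
        - (2 : ℤ) • (w (t - s) * v (-t))))
      - (2 * n) • (S * v (l - t) + S * v (-l - t) - (2 : ℤ) • (S * v (-t))) := by
    intro t
    have hA : fA (sh v t) l = n • (v (l - t) + v (-l - t) - (2 : ℤ) • v (-t)) := by
      simp only [fA, sh, two_mul, two_smul, hn, zsmul_eq_mul, Int.cast_natCast, zero_sub]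
    rw [hA]
    simp only [mul_add, mul_sub, sub_mul, neg_mul, mul_smul_comm, smul_mul_assoc]
    module
  simp_rw [h1]
  have c1 : ∑ t, S * v (l - t) = 0 := by rw [← Finset.mul_sum, sum_subL, sv, mul_zero]
  have c2 : ∑ t, S * v (-l - t) = 0 := by rw [← Finset.mul_sum, sum_subL, sv, mul_zero]
  have c3 : ∑ t, S * v (-t) = 0 := by rw [← Finset.mul_sum, sum_neg, sv, mul_zero]
  have d : ∀ a : Γ, ∑ t, w (t - s) * v (a - t) = ∑ t, w t * v (a - s - t) := by
    intro a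
    rw [← sum_addR (fun t => w (t - s) * v (a - t)) s]
    refine Finset.sum_congr rfl (fun t _ => ?_)
    have e1 : t + s - s = t := by abel
    have e2 : a - (t + s) = a - s - t := by abel
    rw [e1, e2]
  have d1 := d l
  have d2 := d (-l)
  have d3 : ∑ t, w (t - s) * v (-t) = ∑ t, w t * v (-s - t) := by
    have := d 0
    simp only [zero_sub] at this
    exact this
  simp only [Finset.sum_sub_distrib, Finset.sum_neg_distrib, Finset.sum_add_distrib,
    ← Finset.smul_sum, c1, c2, c3, d1, d2, d3]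
  module

theorem partII [Module ℚ R] (hL : ∀ x ∈ L, x * x = 0)
    (hu : ∀ k, u k ∈ L) (hg : ∀ k, g k ∈ L)
    (su : ∑ k, u k = 0) (sv : ∑ k, v k = 0) (gn : ∀ k, g (-k) = g k)
    (Wn : ∀ k l, W (-k) l = W k l) (Wa : ∀ k l, W l k = -W k l)
    (Wr : ∀ l, ∑ k, W k l = 0) (K : ∀ d, ∑ k, (W k d - W k (k + d)) • g k = 0) :
    ∑ s, ∑ t, ∑ k, ∑ l, W k l • ((∑ j, fY1 (sh u s) g k j * fY (sh u s) g k j) *
      (-((2 * (Fintype.card Γ : ℤ)) • w (t - s)) - (2 : ℤ) • ∑ j, g j) * fA (sh v t) l) =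
      (16 * (Fintype.card Γ : ℤ) ^ 3) • MA W u v w := by
  set n : ℤ := (Fintype.card Γ : ℤ) with hn
  set D : Γ → Γ → R := fun k s => ∑ j, fY1 (sh u s) g k j * fY (sh u s) g k j with hD
  set q : Γ → R := fun a => ∑ t, w t * v (a - t) with hq
  have h1 : ∑ s, ∑ t, ∑ k, ∑ l, W k l • (D k s *
      (-((2 * n) • w (t - s)) - (2 : ℤ) • ∑ j, g j) * fA (sh v t) l) =
      ∑ k, ∑ l, W k l • ∑ s, D k s * (-((2 * n ^ 2) • (q (l - s) + q (-l - s)
        - (2 : ℤ) • q (-s)))) := by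
    have a1 : ∀ s t : Γ, ∑ k, ∑ l, W k l • (D k s *
        (-((2 * n) • w (t - s)) - (2 : ℤ) • ∑ j, g j) * fA (sh v t) l) =
        ∑ x : Γ × Γ, W x.1 x.2 • (D x.1 s *
        (-((2 * n) • w (t - s)) - (2 : ℤ) • ∑ j, g j) * fA (sh v t) x.2) := by
      intro s t
      rw [Fintype.sum_prod_type]
    simp_rw [a1]
    have a2 : ∀ s : Γ, ∑ t, ∑ x : Γ × Γ, W x.1 x.2 • (D x.1 s *
        (-((2 * n) • w (t - s)) - (2 : ℤ) • ∑ j, g j) * fA (sh v t) x.2) =
        ∑ x : Γ × Γ, W x.1 x.2 • (D x.1 s * (-((2 * n ^ 2) • (q (x.2 - s) + q (-x.2 - s)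
        - (2 : ℤ) • q (-s))))) := by
      intro s
      rw [Finset.sum_comm]
      refine Finset.sum_congr rfl (fun x _ => ?_)
      rw [← Finset.smul_sum]
      congr 1
      have := sum_t (w := w) sv (∑ j, g j) s x.2
      simp only [hq]
      rw [← this, Finset.mul_sum]
      refine Finset.sum_congr rfl (fun t _ => ?_)
      rw [mul_assoc]
    simp_rw [a2]
    rw [Finset.sum_comm, Fintype.sum_prod_type]
    refine Finset.sum_congr rfl (fun k _ => Finset.sum_congr rfl (fun l _ => ?_))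
    rw [← Finset.smul_sum]
  rw [h1]
  have h2 : ∀ k l, ∑ s, D k s * (-((2 * n ^ 2) • (q (l - s) + q (-l - s) - (2 : ℤ) • q (-s)))) =
      -((2 * n ^ 2) • ((∑ s, D k s * q (l - s)) + (∑ s, D k s * q (-l - s))
        - (2 : ℤ) • ∑ s, D k s * q (-s))) := by
    intro k l
    simp only [mul_neg, mul_smul_comm, mul_add, mul_sub, Finset.sum_neg_distrib,
      ← Finset.smul_sum, Finset.sum_add_distrib, Finset.sum_sub_distrib]
  simp_rw [h2]
  have hsm : ∀ (c : ℤ) (Φ : Γ → Γ → R), ∑ k, ∑ l, W k l • (c • Φ k l) =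
      c • ∑ k, ∑ l, W k l • Φ k l := by
    intro c Φ
    simp only [Finset.smul_sum]
    refine Finset.sum_congr rfl (fun k _ => Finset.sum_congr rfl (fun l _ => ?_))
    rw [smul_comm]
  have b1 : ∑ k, ∑ l, W k l • ∑ s, D k s * q (-l - s) = ∑ k, ∑ l, W k l • ∑ s, D k s * q (l - s) :=
    evenL Wn Wa (fun k l => ∑ s, D k s * q (l - s))
  have b2 : ∑ k, ∑ l, W k l • ∑ s, D k s * q (-s) = 0 :=
    indL Wa Wr _ (fun k => ∑ s, D k s * q (-s)) (fun _ _ _ => rfl)
  have b3 := lemY Wn Wa Wr hL hu hg su gn K q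
  have b4 : ∑ k, ∑ l, W k l • (∑ s, u (k - s) * u (-s) * q (l - s)) = MA W u v w := rfl
  rw [b4] at b3
  have b5 : ∑ k, ∑ l, W k l • ∑ s, D k s * q (l - s) = -((4 * n) • MA W u v w) := b3
  simp only [smul_neg, Finset.sum_neg_distrib, hsm]
  simp only [smul_add, smul_sub, Finset.sum_add_distrib, Finset.sum_sub_distrib, hsm, b1, b2, b5,
    smul_zero]
  module

end

end UNI.AF
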