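import Mathlib

/-!
# UNI.AFD : definitions of the formal closedness lemma
-/

namespace UNI

section

variable {Γ R : Type*} [AddCommGroup Γ] [Fintype Γ] [Ring R]

/-- `log (℘(z) - ℘(k))` -/
def fa (x g : Γ → R) (k : Γ) : R := x k + x (-k) - 2 * x 0 - 2 * g k

/-- `log (℘(k) - ℘(j))` -/
def fc0 (g : Γ → R) (k j : Γ) : R := g (k - j) + g (k + j) - 2 * g k - 2 * g j

/-- `log A_k` -/
def fA (x : Γ → R) (k : Γ) : R := (Fintype.card Γ : R) * (x k + x (-k) - 2 * x 0)

/-- `log C` -/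
def fC (x g : Γ → R) : R := ∑ e, fa x g e

/-- `log F_h` -/
def fF (u v : Γ → R) (h : Γ) : R :=
  (u 0 + u (-(h + h)) - 2 * u (-h)) - (v 0 + v (-(h + h)) - 2 * v (-h))

/-- `log (1 - F_h)` -/
def fF1 (u v w z g : Γ → R) (h : Γ) : R :=
  z (-(h + h)) + w 0 - 2 * u (-h) - v 0 - v (-(h + h)) + 2 * g h

/-- `log Y_{k,j}` -/
def fY (x g : Γ → R) (k j : Γ) : R := fa x g j - fc0 g k j

/-- `log (1 - Y_{k,j})` -/
def fY1 (x g : Γ → R) (k j : Γ) : R := fa x g k - fc0 g k j

/-- translation -/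
def sh (x : Γ → R) (s : Γ) (k : Γ) : R := x (k - s)

/-- the boundary of the symbol at one point, all sums over the whole group; `eps` is a translation
invariant letter -/
def dl (W : Γ → Γ → ℤ) (u v w z g : Γ → R) (eps : R) : R :=
  ∑ k, ∑ l, W k l • (4 * (∑ h, (fF1 u v w z g h + eps) * fF u v h * fA u k * fA v l)
    + (∑ j, fY1 u g k j * fY u g k j * fC w g * fA v l)
    + (∑ j, fY1 v g l j * fY v g l j * fC w g * fA u k))

end

end UNI
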