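import Pool.Agent.UNI.ADefs
import Pool.Agent.UNI.PartC
import Pool.Agent.QCL.SigAdd
import Pool.Agent.EllSch.Lattice
import Pool.Agent.EllSch.Zeta

/-!
# UNI.AKl : Klein functions

`et` is additive and equals `EllSch.eta` on the lattice. `kl a k z = exp (et k z - et k k / 2) σ(z-k)`.
From `QCL.sig_add_lat` (used for `z + λ + μ` in two ways at a point off the lattice):
`exp (et λ * μ) = exp (et μ * λ)` for `λ, μ ∈ O`, so `exp ((et x y - et y x) / 2)` is a root of unity
for `x, y ∈ (1/N) O` (its `2 N²`-th power is `1`).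
-/

open Complex

namespace UNI

open Pool.Agent.EllSch

private lemma sD_pos (a : Par) : 0 < sD a := by
  have h : (0 : ℝ) < 4 * a.n - a.t ^ 2 := by
    have := a.h
    have h2 : ((a.t ^ 2 : ℤ) : ℝ) < ((4 * a.n : ℤ) : ℝ) := by exact_mod_cast this
    push_cast at h2
    linarith
  exact Real.sqrt_pos.2 h

private lemma om_re' (a : Par) : (om a).re = a.t / 2 := by
  simp only [om]
  rw [Complex.div_ofNat_re]
  simp

private lemma om_im' (a : Par) : (om a).im = sD a / 2 := by
  simp only [om, sD]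
  rw [Complex.div_ofNat_im]
  simp

theorem ind (a : Par) : Ind 1 (om a) := by
  have := om_im_pos a
  simp only [Ind, one_re, one_im, one_mul, zero_mul, sub_zero]
  exact this.ne'

theorem lat_xx (a : Par) (x : ℤ × ℤ) : lat 1 (om a) x = xx a x := by
  simp [lat, xx]

theorem et_add (a : Par) (x y : ℂ) : et a (x + y) = et a x + et a y := by
  simp only [et, add_re, add_im]
  push_cast
  ring

theorem et_real (a : Par) (r : ℝ) (x : ℂ) : et a (r * x) = r * et a x := by
  simp only [et, re_ofReal_mul, im_ofReal_mul]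
  push_cast
  ring

private lemma et_neg (a : Par) (x : ℂ) : et a (-x) = -et a x := by
  have := et_real a (-1) x
  push_cast at this
  rw [neg_one_mul, neg_one_mul] at this
  exact this

private lemma et_sub (a : Par) (x y : ℂ) : et a (x - y) = et a x - et a y := by
  rw [sub_eq_add_neg, et_add, et_neg, sub_eq_add_neg]

private lemma et_zero (a : Par) : et a 0 = 0 := by
  have := et_real a 0 0
  simpa using this

private lemma et_nat (a : Par) (N : ℕ) (x : ℂ) : et a (N * x) = N * et a x := by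
  have := et_real a N x
  push_cast at this
  exact this

private lemma et_two (a : Par) (x : ℂ) : et a (2 * x) = 2 * et a x := by
  have := et_real a 2 x
  push_cast at this
  exact this

theorem et_xx (a : Par) (x : ℤ × ℤ) : et a (xx a x) = eta 1 (om a) x := by
  have h := (sD_pos a).ne'
  have h1 : (xx a x).re = x.1 + x.2 * (a.t / 2) := by
    simp [xx, om_re', om_im']
  have h2 : (xx a x).im = x.2 * (sD a / 2) := by
    simp [xx, om_re', om_im']
  have h3 : (xx a x).re - a.t * (xx a x).im / sD a = x.1 := by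
    rw [h1, h2]; field_simp; ring
  have h4 : 2 * (xx a x).im / sD a = x.2 := by
    rw [h2]; field_simp
  simp only [et, Pool.Agent.EllSch.eta, h3, h4]
  push_cast
  ring

theorem sg_add_xx (a : Par) (x : ℤ × ℤ) : ∃ e : ℂ, (e = 1 ∨ e = -1) ∧ ∀ z,
    sg a (z + xx a x) = e * exp (et a (xx a x) * (z + xx a x / 2)) * sg a z := by
  obtain ⟨e, he, h⟩ := QCL.sig_add_lat (ind a) x
  refine ⟨e, he, fun z => ?_⟩
  have := h z
  rw [lat_xx, ← et_xx] at this
  exact this

private lemma exists_off (a : Par) : Ofl a (1 / 2) := Zeta.off_half (ind a)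

private lemma sg_ne (a : Par) {z : ℂ} (h : Ofl a z) : sg a z ≠ 0 := QCL.sig_ne (ind a) h

private lemma sg_neg (a : Par) (z : ℂ) : sg a (-z) = -sg a z := QCL.sig_neg _ _ _

/-- Legendre, as needed -/
theorem legendre (a : Par) (x y : ℤ × ℤ) :
    exp (et a (xx a x) * xx a y) = exp (et a (xx a y) * xx a x) := by
  obtain ⟨e, he, h⟩ := sg_add_xx a x
  obtain ⟨f, hf, g⟩ := sg_add_xx a y
  have hs := sg_ne a (exists_off a)
  have he0 : e ≠ 0 := by rcases he with rfl | rfl <;> norm_num
  have hf0 : f ≠ 0 := by rcases hf with rfl | rfl <;> norm_num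
  set z : ℂ := 1 / 2 with hz
  set X := xx a x with hX
  set Y := xx a y with hY
  set p := et a X with hp
  set q := et a Y with hq
  have h1 : sg a (z + X + Y) = f * exp (q * (z + X + Y / 2)) * (e * exp (p * (z + X / 2)) * sg a z) := by
    rw [g, h]
  have h2 : sg a (z + X + Y) = e * exp (p * (z + Y + X / 2)) * (f * exp (q * (z + Y / 2)) * sg a z) := by
    rw [show z + X + Y = (z + Y) + X by ring, h, g]
  have h3 : exp (q * (z + X + Y / 2)) = exp (q * X) * exp (q * (z + Y / 2)) := by
    rw [← exp_add]; congr 1; ring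
  have h4 : exp (p * (z + Y + X / 2)) = exp (p * Y) * exp (p * (z + X / 2)) := by
    rw [← exp_add]; congr 1; ring
  rw [h1, h3, h4] at h2
  have h5 := exp_ne_zero (q * (z + Y / 2))
  have h6 := exp_ne_zero (p * (z + X / 2))
  have h7 : (e * f * exp (q * (z + Y / 2)) * exp (p * (z + X / 2)) * sg a z) ≠ 0 := by
    simp [he0, hf0, hs]
  apply mul_left_cancel₀ h7
  linear_combination -h2

private lemma Tn_xx (a : Par) (N : ℕ) (x : ℤ × ℤ) : Tn a N (xx a x) := by
  refine ⟨(N * x.1, N * x.2), ?_⟩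
  simp [xx]
  ring

theorem ru_pair (a : Par) {N : ℕ} (hN : 0 < N) {x y : ℂ} (hx : Tn a N x) (hy : Tn a N y) :
    Ru (exp ((et a x * y - et a y * x) / 2)) := by
  obtain ⟨X, hX⟩ := hx
  obtain ⟨Y, hY⟩ := hy
  refine ⟨2 * N ^ 2, by positivity, ?_⟩
  have h := legendre a X Y
  rw [← hX, ← hY, et_nat, et_nat] at h
  rw [← exp_nat_mul]
  have h2 : ((2 * N ^ 2 : ℕ) : ℂ) * ((et a x * y - et a y * x) / 2) =
      (N * et a x) * (N * y) - (N * et a y) * (N * x) := by
    push_cast; ring
  rw [h2, exp_sub, h, div_self (exp_ne_zero _)]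

theorem kl_ne (a : Par) {k z : ℂ} (h : Ofl a (z - k)) : kl a k z ≠ 0 :=
  mul_ne_zero (exp_ne_zero _) (sg_ne a h)

theorem kl_neg (a : Par) (k z : ℂ) : kl a (-k) (-z) = -kl a k z := by
  simp only [kl, et_neg]
  rw [show -z - -k = -(z - k) by ring, sg_neg,
    show -et a k * -z - -et a k * -k / 2 = et a k * z - et a k * k / 2 by ring]
  ring

private lemma Ru_mul {e f : ℂ} (he : Ru e) (hf : Ru f) : Ru (e * f) := by
  obtain ⟨m, hm, h⟩ := he
  obtain ⟨n, hn, g⟩ := hf
  refine ⟨m * n, by positivity, ?_⟩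
  rw [mul_pow, pow_mul, h, one_pow, mul_comm m n, pow_mul, g, one_pow, one_mul]

private lemma Ru_pm {e : ℂ} (he : e = 1 ∨ e = -1) : Ru e := by
  refine ⟨2, by norm_num, ?_⟩
  rcases he with rfl | rfl <;> norm_num

/-- change of `k` by a lattice vector -/
theorem kl_per (a : Par) {N : ℕ} (hN : 0 < N) {k : ℂ} (hk : Tn a N k) (x : ℤ × ℤ) :
    ∃ e : ℂ, Ru e ∧ ∀ z, kl a (k + xx a x) z = e * kl a k z := by
  obtain ⟨e, he, h⟩ := sg_add_xx a x
  have hee : e * e = 1 := by rcases he with rfl | rfl <;> norm_num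
  refine ⟨e * exp ((et a (xx a x) * k - et a k * xx a x) / 2),
    Ru_mul (Ru_pm he) (ru_pair a hN (Tn_xx a N x) hk), fun z => ?_⟩
  have h1 := h (z - (k + xx a x))
  rw [show z - (k + xx a x) + xx a x = z - k by ring] at h1
  simp only [kl, et_add]
  rw [h1]
  set X := xx a x
  set p := et a X
  set q := et a k
  have h2 : exp ((q + p) * z - (q + p) * (k + X) / 2) =
      exp ((p * k - q * X) / 2) * exp (q * z - q * k / 2) * exp (p * (z - (k + X) + X / 2)) := by
    rw [← exp_add, ← exp_add]; congr 1; ring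
  rw [h2]
  linear_combination (-(exp ((p * k - q * X) / 2) * exp (q * z - q * k / 2) *
    exp (p * (z - (k + X) + X / 2)) * sg a (z - (k + X)))) * hee

/-- translation of `z` -/
theorem kl_shift (a : Par) {N : ℕ} (hN : 0 < N) {k s : ℂ} (hk : Tn a N k) (hs : Tn a N s) :
    ∃ e : ℂ, Ru e ∧ ∀ z, kl a k (z + s) =
      e * exp (et a s * z + et a s * s / 2) * kl a (k - s) z := by
  refine ⟨exp ((et a k * s - et a s * k) / 2), ru_pair a hN hk hs, fun z => ?_⟩
  simp only [kl, et_sub]
  rw [show z + s - k = z - (k - s) by ring, ← mul_assoc, ← exp_add, ← exp_add]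
  congr 2
  ring

private lemma P_sub (a : Par) {u v : ℂ} (hu : Ofl a u) (hv : Ofl a v) :
    P a u - P a v = -(sg a (u + v) * sg a (u - v) / (sg a u ^ 2 * sg a v ^ 2)) :=
  QCL.wp_sub (ind a) hu hv

/-- `℘(x + h) - ℘(y + h)` as a product of Klein functions -/
theorem P_sub_kl (a : Par) {h x y : ℂ} (hx : Ofl a (x + h)) (hy : Ofl a (y + h)) :
    P a (y + h) - P a (x + h) =
      kl a (-(2 * h)) (x + y) * kl a 0 (x - y) / (kl a (-h) x ^ 2 * kl a (-h) y ^ 2) := by
  have hX := sg_ne a hx
  have hY := sg_ne a hy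
  rw [P_sub a hy hx]
  simp only [kl, et_neg, et_two, et_zero]
  rw [show y + h + (x + h) = x + y - -(2 * h) by ring, show y + h - (x + h) = -(x - y - 0) by ring,
    sg_neg, show x - -h = x + h by ring, show y - -h = y + h by ring,
    show (0 : ℂ) * (x - y) - 0 * 0 / 2 = 0 by ring, exp_zero, one_mul]
  rw [mul_pow, mul_pow, ← exp_nat_mul, ← exp_nat_mul]
  have h1 := exp_ne_zero (((2 : ℕ) : ℂ) * (-et a h * x - -et a h * -h / 2))
  have h2 := exp_ne_zero (((2 : ℕ) : ℂ) * (-et a h * y - -et a h * -h / 2))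
  have h3 : exp (-(2 * et a h) * (x + y) - -(2 * et a h) * -(2 * h) / 2) =
      exp (((2 : ℕ) : ℂ) * (-et a h * x - -et a h * -h / 2)) *
        exp (((2 : ℕ) : ℂ) * (-et a h * y - -et a h * -h / 2)) := by
    rw [← exp_add]; congr 1; push_cast; ring
  rw [h3]
  field_simp

/-- `℘(z + h) - ℘(h)` as a product of Klein functions -/
theorem P_sub_kl' (a : Par) {h z : ℂ} (hh : Ofl a h) (hz : Ofl a (z + h)) :
    P a (z + h) - P a h =
      kl a (-(2 * h)) z * kl a 0 z / (kl a (-h) z ^ 2 * (kl a h 0 * kl a (-h) 0)) := by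
  have h1 := P_sub_kl a (h := h) (x := 0) (y := z) (by rwa [zero_add]) hz
  have h2 := kl_neg a 0 z
  rw [neg_zero] at h2
  have h3 := kl_neg a h 0
  rw [neg_zero] at h3
  rw [zero_add, zero_add, zero_sub, h2] at h1
  rw [h1, h3]
  have h4 : kl a h 0 ≠ 0 := kl_ne a (by
    rw [zero_sub]
    exact off_neg.2 hh)
  have h5 : kl a (-h) z ≠ 0 := kl_ne a (by
    rw [sub_neg_eq_add]
    exact hz)
  field_simp

/-- `℘(z) - ℘(k)` as a product of Klein functions -/
theorem P_sub_kl'' (a : Par) {k z : ℂ} (hk : Ofl a k) (hz : Ofl a z) :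
    P a z - P a k = kl a k z * kl a (-k) z / (kl a 0 z ^ 2 * (kl a k 0 * kl a (-k) 0)) := by
  have hX := sg_ne a hk
  have hY := sg_ne a hz
  rw [P_sub a hz hk]
  simp only [kl, et_neg, et_zero]
  rw [show z - -k = z + k by ring, show z - 0 = z by ring, show 0 - -k = k by ring,
    zero_sub, sg_neg, show (0 : ℂ) * z - 0 * 0 / 2 = 0 by ring, exp_zero, one_mul]
  have h1 := exp_ne_zero (et a k * 0 - et a k * k / 2)
  have h2 : exp (-et a k * 0 - -et a k * -k / 2) = exp (et a k * 0 - et a k * k / 2) := by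
    congr 1; ring
  have h3 : exp (et a k * z - et a k * k / 2) * exp (-et a k * z - -et a k * -k / 2) =
      exp (et a k * 0 - et a k * k / 2) * exp (et a k * 0 - et a k * k / 2) := by
    rw [← exp_add, ← exp_add]; congr 1; ring
  rw [h2, show exp (et a k * z - et a k * k / 2) * sg a (z - k) *
      (exp (-et a k * z - -et a k * -k / 2) * sg a (z + k)) =
      (exp (et a k * z - et a k * k / 2) * exp (-et a k * z - -et a k * -k / 2)) *
      (sg a (z - k) * sg a (z + k)) by ring, h3]
  field_simp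

/-- `℘(k) - ℘(j)` as a product of Klein values -/
theorem P_sub_kl0 (a : Par) {k j : ℂ} (hk : Ofl a k) (hj : Ofl a j) :
    P a k - P a j = kl a (k - j) 0 * kl a (-(k + j)) 0 /
      (kl a k 0 * kl a (-k) 0 * (kl a j 0 * kl a (-j) 0)) := by
  have hX := sg_ne a hk
  have hY := sg_ne a hj
  rw [P_sub a hk hj]
  simp only [kl, et_neg, et_sub, et_add]
  rw [show 0 - -k = k by ring, show 0 - -j = j by ring, show 0 - -(k + j) = k + j by ring,
    show 0 - (k - j) = -(k - j) by ring, show 0 - k = -k by ring, show 0 - j = -j by ring,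
    sg_neg, sg_neg, sg_neg]
  have h1 := exp_ne_zero (et a k * 0 - et a k * k / 2)
  have h1' := exp_ne_zero (et a j * 0 - et a j * j / 2)
  have h2 : exp (-et a k * 0 - -et a k * -k / 2) = exp (et a k * 0 - et a k * k / 2) := by
    congr 1; ring
  have h2' : exp (-et a j * 0 - -et a j * -j / 2) = exp (et a j * 0 - et a j * j / 2) := by
    congr 1; ring
  have h3 : exp ((et a k - et a j) * 0 - (et a k - et a j) * (k - j) / 2) *
      exp (-(et a k + et a j) * 0 - -(et a k + et a j) * -(k + j) / 2) =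
      exp (et a k * 0 - et a k * k / 2) ^ 2 * exp (et a j * 0 - et a j * j / 2) ^ 2 := by
    rw [← exp_nat_mul, ← exp_nat_mul, ← exp_add, ← exp_add]; congr 1; push_cast; ring
  rw [h2, h2', show exp ((et a k - et a j) * 0 - (et a k - et a j) * (k - j) / 2) * -sg a (k - j) *
      (exp (-(et a k + et a j) * 0 - -(et a k + et a j) * -(k + j) / 2) * sg a (k + j)) =
      (exp ((et a k - et a j) * 0 - (et a k - et a j) * (k - j) / 2) *
      exp (-(et a k + et a j) * 0 - -(et a k + et a j) * -(k + j) / 2)) *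
      (-sg a (k - j) * sg a (k + j)) by ring, h3]
  field_simp

end UNI
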