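import Pool.Agent.UNI.Defs

/-!
# UNI.AW : elementary properties of the weight `HH`
-/

namespace UNI

variable {N : ℕ}

/-- `k, l` dependent mod `c` -/
def AWdep (c : ℕ) (k l : G N) : Prop :=
  ∃ x y : ℤ, ¬ ((c : ℤ) ∣ x ∧ (c : ℤ) ∣ y) ∧ x • k + y • l = 0

theorem AW_congr (c : ℕ) {k l k' l' : G N}
    (h1 : (c • k = 0 ∧ c • l = 0) ↔ (c • k' = 0 ∧ c • l' = 0))
    (h2 : AWdep c k l ↔ AWdep c k' l')
    (h3 : (k = 0 ∧ l = 0) ↔ (k' = 0 ∧ l' = 0)) : HH c k l = HH c k' l' := by
  classical
  unfold AWdep at h2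
  unfold HH
  simp only [h1, h2, h3]

theorem HH_symm (c : ℕ) (k l : G N) : HH c k l = HH c l k := by
  refine AW_congr c and_comm ?_ and_comm
  constructor
  · rintro ⟨x, y, h, e⟩
    exact ⟨y, x, fun hh => h ⟨hh.2, hh.1⟩, by rw [add_comm]; exact e⟩
  · rintro ⟨x, y, h, e⟩
    exact ⟨y, x, fun hh => h ⟨hh.2, hh.1⟩, by rw [add_comm]; exact e⟩

theorem HH_neg (c : ℕ) (k l : G N) : HH c (-k) l = HH c k l := by
  refine AW_congr c (by rw [smul_neg, neg_eq_zero]) ?_ (by rw [neg_eq_zero])
  constructor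
  · rintro ⟨x, y, h, e⟩
    refine ⟨-x, y, fun hh => h ⟨(dvd_neg).mp hh.1, hh.2⟩, ?_⟩
    rw [neg_smul, ← smul_neg]; exact e
  · rintro ⟨x, y, h, e⟩
    refine ⟨-x, y, fun hh => h ⟨(dvd_neg).mp hh.1, hh.2⟩, ?_⟩
    rw [neg_smul, smul_neg, neg_neg]; exact e

theorem HH_add (c : ℕ) (k l : G N) : HH c k (k + l) = HH c k l := by
  refine AW_congr c ?_ ?_ ?_
  · constructor
    · rintro ⟨h1, h2⟩
      rw [smul_add, h1, zero_add] at h2
      exact ⟨h1, h2⟩
    · rintro ⟨h1, h2⟩
      exact ⟨h1, by rw [smul_add, h1, zero_add]; exact h2⟩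
  · constructor
    · rintro ⟨x, y, h, e⟩
      refine ⟨x + y, y, fun hh => h ⟨(dvd_add_left hh.2).mp hh.1, hh.2⟩, ?_⟩
      rw [← e, smul_add, add_smul, add_assoc]
    · rintro ⟨x, y, h, e⟩
      refine ⟨x - y, y, fun hh => h ⟨?_, hh.2⟩, ?_⟩
      · have := dvd_add hh.1 hh.2
        rwa [sub_add_cancel] at this
      · rw [← e, smul_add, sub_smul]
        abel
  · constructor
    · rintro ⟨h1, h2⟩
      rw [h1, zero_add] at h2
      exact ⟨h1, h2⟩
    · rintro ⟨h1, h2⟩
      rw [h1, h2, zero_add]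
      exact ⟨rfl, rfl⟩

theorem HH_supp (c : ℕ) {k l : G N} (h : HH c k l ≠ 0) : c • k = 0 ∧ c • l = 0 := by
  by_contra hc
  apply h
  unfold HH
  rw [if_neg hc]

/-- the number of `c`-torsion elements of `ZMod N` -/
theorem AW_card1 (c : ℕ) (hc : 0 < c) (N : ℕ) [NeZero N] (hN : c ∣ N) :
    (Finset.univ.filter (fun x : ZMod N => c • x = 0)).card = c := by
  obtain ⟨m, rfl⟩ := hN
  have hm : 0 < m := by
    rcases Nat.eq_zero_or_pos m with h | h
    · subst h; exact absurd (Nat.mul_zero c) (NeZero.ne _)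
    · exact h
  have e : (Finset.univ.filter (fun x : ZMod (c * m) => c • x = 0))
      = (Finset.range c).image (fun j => ((j * m : ℕ) : ZMod (c * m))) := by
    ext x
    simp only [Finset.mem_filter, Finset.mem_univ, true_and, Finset.mem_image, Finset.mem_range]
    constructor
    · intro hx
      have h1 : ((c * x.val : ℕ) : ZMod (c * m)) = 0 := by
        rw [Nat.cast_mul, ZMod.natCast_zmod_val, ← nsmul_eq_mul]; exact hx
      rw [ZMod.natCast_eq_zero_iff] at h1
      have h2 : m ∣ x.val := (Nat.mul_dvd_mul_iff_left hc).mp h1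
      obtain ⟨j, hj⟩ := h2
      have h3 : x.val < c * m := ZMod.val_lt x
      refine ⟨j, ?_, ?_⟩
      · rw [hj, mul_comm m j] at h3
        exact lt_of_mul_lt_mul_right h3 (Nat.zero_le m)
      · rw [mul_comm j m, ← hj, ZMod.natCast_zmod_val]
    · rintro ⟨j, _, rfl⟩
      rw [nsmul_eq_mul, ← Nat.cast_mul, ZMod.natCast_eq_zero_iff]
      exact ⟨j, by ring⟩
  rw [e, Finset.card_image_of_injOn, Finset.card_range]
  intro i hi j hj hij
  simp only [Finset.coe_range, Set.mem_Iio] at hi hj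
  have hi' : i * m < c * m := Nat.mul_lt_mul_of_pos_right hi hm
  have hj' : j * m < c * m := Nat.mul_lt_mul_of_pos_right hj hm
  have h := congrArg ZMod.val hij
  simp only [ZMod.val_natCast, Nat.mod_eq_of_lt hi', Nat.mod_eq_of_lt hj'] at h
  exact Nat.eq_of_mul_eq_mul_right hm h

/-- the number of `c`-torsion elements of `G N` -/
theorem AW_card2 (c : ℕ) (hc : 0 < c) (N : ℕ) [NeZero N] (hN : c ∣ N) :
    (Finset.univ.filter (fun l : G N => c • l = 0)).card = c * c := by
  have e : (Finset.univ.filter (fun l : G N => c • l = 0))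
      = (Finset.univ.filter (fun x : ZMod N => c • x = 0)) ×ˢ
        (Finset.univ.filter (fun x : ZMod N => c • x = 0)) := by
    ext l
    simp only [Finset.mem_filter, Finset.mem_univ, true_and, Finset.mem_product]
    rw [Prod.ext_iff]
    rfl
  rw [e, Finset.card_product, AW_card1 c hc N hN]

theorem AW_order (c : ℕ) (hc : c.Prime) {k : G N} (hk : c • k = 0) (h0 : k ≠ 0) :
    addOrderOf k = c := by
  have := Fact.mk hc
  exact addOrderOf_eq_prime hk h0

theorem AW_mem (c : ℕ) (hc : c.Prime) {k : G N} (hk : c • k = 0) (h0 : k ≠ 0) (l : G N) :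
    l ∈ AddSubgroup.zmultiples k ↔ (c • l = 0 ∧ AWdep c k l) := by
  have hp : Prime (c : ℤ) := Nat.prime_iff_prime_int.mp hc
  constructor
  · intro h
    obtain ⟨m, rfl⟩ := AddSubgroup.mem_zmultiples_iff.mp h
    refine ⟨?_, m, -1, ?_, ?_⟩
    · rw [smul_comm, hk, smul_zero]
    · rintro ⟨_, h2⟩
      rw [dvd_neg] at h2
      exact hp.not_isUnit (isUnit_of_dvd_one h2)
    · rw [neg_smul, one_smul, add_neg_cancel]
  · rintro ⟨hl, x, y, h, e⟩
    have hcz : (c : ℤ) • l = 0 := by rw [natCast_zsmul]; exact hl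
    have hy : ¬ (c : ℤ) ∣ y := by
      intro hy
      apply h
      refine ⟨?_, hy⟩
      obtain ⟨t, rfl⟩ := hy
      rw [mul_comm, mul_smul, hcz, smul_zero, add_zero] at e
      rw [← AW_order c hc hk h0]
      exact addOrderOf_dvd_iff_zsmul_eq_zero.mpr e
    have hcop : IsCoprime (c : ℤ) y := (Prime.coprime_iff_not_dvd hp).mpr hy
    obtain ⟨u, v, huv⟩ := hcop
    rw [AddSubgroup.mem_zmultiples_iff]
    refine ⟨-(v * x), ?_⟩
    have h1 : y • l = -(x • k) := by
      rw [eq_neg_iff_add_eq_zero, add_comm]; exact e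
    calc (-(v * x)) • k = v • (-(x • k)) := by rw [neg_smul, mul_smul, smul_neg]
      _ = v • (y • l) := by rw [h1]
      _ = u • ((c : ℤ) • l) + v • (y • l) := by rw [hcz, smul_zero, zero_add]
      _ = (u * c + v * y) • l := by rw [add_smul, mul_smul, mul_smul]
      _ = l := by rw [huv, one_smul]

/-- for `c • k = 0`: if `k ≠ 0` then `#{l | c l = 0} = c²` and `#{l | c l = 0, l ∈ ⟨k⟩} = c` -/
theorem HH_row (c : ℕ) (hc : c.Prime) (N : ℕ) [NeZero N] (hN : c ∣ N) (k : G N) :
    ∑ l : G N, HH c k l = 0 := by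
  classical
  have hc0 : 0 < c := hc.pos
  by_cases hk : c • k = 0
  swap
  · apply Finset.sum_eq_zero
    intro l _
    by_contra h
    exact hk (HH_supp c h).1
  have e1 : ∀ l : G N, HH c k l = (if c • l = 0 then (1 : ℤ) else 0)
      - (if (c • l = 0 ∧ AWdep c k l) then (c : ℤ) else 0)
      + (if l = 0 then (if k = 0 then (c : ℤ) ^ 3 - (c : ℤ) ^ 2 else 0) else 0) := by
    intro l
    have hd : HH c k l = if c • k = 0 ∧ c • l = 0 then
      1 - (if AWdep c k l then (c : ℤ) else 0)
        + (if k = 0 ∧ l = 0 then (c : ℤ) ^ 3 - (c : ℤ) ^ 2 else 0) else 0 := rfl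
    rw [hd]
    by_cases hl : c • l = 0
    · by_cases hdd : AWdep c k l <;> by_cases hl0 : l = 0 <;> by_cases hk0 : k = 0 <;>
        simp_all
    · have hl0 : l ≠ 0 := by
        rintro rfl; exact hl (smul_zero _)
      rw [if_neg (fun h => hl h.2), if_neg hl, if_neg (fun h => hl h.1), if_neg hl0]
      ring
  simp_rw [e1]
  rw [Finset.sum_add_distrib, Finset.sum_sub_distrib, Finset.sum_ite_eq' Finset.univ (0 : G N),
    if_pos (Finset.mem_univ _)]
  have s1 : ∑ l : G N, (if c • l = 0 then (1 : ℤ) else 0) = (c : ℤ) * c := by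
    rw [← Finset.sum_filter, Finset.sum_const, AW_card2 c hc0 N hN]
    simp
  rw [s1]
  by_cases hk0 : k = 0
  · rw [if_pos hk0]
    have hdep : ∀ l : G N, AWdep c k l := by
      intro l
      refine ⟨1, 0, ?_, ?_⟩
      · rintro ⟨h1, _⟩
        have := Int.isUnit_iff_natAbs_eq.mp (isUnit_of_dvd_one h1)
        rw [Int.natAbs_natCast] at this
        exact hc.one_lt.ne' this
      · rw [hk0, smul_zero, zero_smul, add_zero]
    have s2 : ∑ l : G N, (if (c • l = 0 ∧ AWdep c k l) then (c : ℤ) else 0)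
        = (c : ℤ) * c * c := by
      have : ∀ l : G N, (if (c • l = 0 ∧ AWdep c k l) then (c : ℤ) else 0)
          = (if c • l = 0 then (c : ℤ) else 0) := by
        intro l
        simp [hdep l]
      simp_rw [this]
      rw [← Finset.sum_filter, Finset.sum_const, AW_card2 c hc0 N hN]
      simp
    rw [s2]
    ring
  · rw [if_neg hk0]
    have s2 : ∑ l : G N, (if (c • l = 0 ∧ AWdep c k l) then (c : ℤ) else 0)
        = (c : ℤ) * c := by
      have hcard : (Finset.univ.filter (fun l : G N => c • l = 0 ∧ AWdep c k l)).card = c := by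
        have e2 : (Finset.univ.filter (fun l : G N => c • l = 0 ∧ AWdep c k l))
            = Finset.univ.filter (fun l : G N => l ∈ AddSubgroup.zmultiples k) := by
          ext l
          simp only [Finset.mem_filter, Finset.mem_univ, true_and]
          exact (AW_mem c hc hk hk0 l).symm
        rw [e2, ← Fintype.card_subtype]
        have := Fintype.card_zmultiples (x := k)
        rw [AW_order c hc hk hk0] at this
        convert this
      rw [← Finset.sum_filter, Finset.sum_const, hcard]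
      simp
    rw [s2]
    ring

end UNI
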