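import Pool.Agent.UQO.ZHat
import Pool.Agent.UQO.TorAe
import Pool.Agent.UQO.Pars
import Pool.Agent.UNI.BGDer

/-!
# UNI/BConv: convolutions on the torus and their Fourier coefficients

PROOF (EE7/DHat contains the case of a translation by `1/2`: `DHat_conv`, `DHat_int`, ...).
`F (cu q.1) * G (cu q.1 + cu q.2)`: the map `(x, y) ↦ (x, x + y)` preserves the product measure
(`measurePreserving_prod_add` or `MeasurePreserving.skew_product`), and
`G (cu x + cu y) = G (cu (x + y))` (`per_cu_add`), so it is integrable as the composition with the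
product function `F (cu x) G (cu y)` (`Integrable.mul_prod`). Same for `x - y` (`per_cu_sub`).
Coefficients: Fubini (`integral_prod`), for fixed `x` the inner integral is
`∫ y, G (cu (x + y)) ch (-q) (cu y) = ch q (cu x) ∫ y, G (cu y) ch (-q) (cu y)` (translation
invariance, `ch_add`, `ch_mul_neg`), etc.; `ch (-p) u * ch q u = ch (-(p - q)) u` (`ch_idx_add`).
`conv_fcc'`: `∫ y, G (cu (x - y)) ch (-q) (cu y) = ch (-q) (cu x) fc G (-q)` (substitute
`y ↦ x - y`). `conv_fcc3`: for fixed `y` integrate over `x` first (swap of the product).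
`fcc_shift`: translation by `(pr a, pr b)` (`per_cu_add_pr`, translation invariance of the measure
of `E × E`; `ch (-p) (u - a) = ch (-p) u * ch p a`), no integrability needed.
`fc_aa`: `fc_Z`, `fc_shift` with `a = ∓b` (`ch n (-b)`), linearity (`Z_shift_int`);
`fc_aa_cj`: `ZHat_conj`, `ss b (-n) = ss b n` and `cj (ss b n) = ss b n` (`ch_idx_neg`,
`ch_arg_neg`), `mm_neg`.
-/

open MeasureTheory

namespace UQO

variable [Lt]

private lemma BConv_finE : IsFiniteMeasure (volume : Measure E) := by
  rw [Measure.volume_eq_prod]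
  infer_instance

private lemma BConv_mul_ch {f : E × E → ℂ} (hf : Integrable f) (a b : ℤ × ℤ) :
    Integrable (fun q : E × E => f q * (ch a (cu q.1) * ch b (cu q.2))) := by
  have hc : Continuous (fun q : E × E => ch a (cu q.1) * ch b (cu q.2)) :=
    ((continuous_ch_cu a).comp continuous_fst).mul ((continuous_ch_cu b).comp continuous_snd)
  refine hf.mul_bdd (c := 1) hc.aestronglyMeasurable (Filter.Eventually.of_forall fun q => ?_)
  rw [norm_mul, norm_ch, norm_ch, one_mul]

private lemma BConv_mul_ch1 {f : E → ℂ} (hf : Integrable f) (a : ℤ × ℤ) :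
    Integrable (fun x : E => f x * ch a (cu x)) := by
  refine hf.mul_bdd (c := 1) (continuous_ch_cu a).aestronglyMeasurable
    (Filter.Eventually.of_forall fun q => ?_)
  rw [norm_ch]

theorem prod_int {F G : ℂ → ℂ} (iF : Integrable (fun x : E => F (cu x)))
    (iG : Integrable (fun x : E => G (cu x))) :
    Integrable (fun q : E × E => F (cu q.1) * G (cu q.2)) :=
  iF.mul_prod iG

private lemma BConv_fcc (F : E × E → ℂ) (p q : ℤ × ℤ) :
    fcc F (p, q) = ∫ x : E × E, F x * (ch (-p) (cu x.1) * ch (-q) (cu x.2)) := rfl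

theorem prod_fcc {F G : ℂ → ℂ} (iF : Integrable (fun x : E => F (cu x)))
    (iG : Integrable (fun x : E => G (cu x))) (p q : ℤ × ℤ) :
    fcc (fun x : E × E => F (cu x.1) * G (cu x.2)) (p, q) = fc F p * fc G q := by
  have hi := BConv_mul_ch (prod_int iF iG) (-p) (-q)
  rw [BConv_fcc]
  rw [Measure.volume_eq_prod] at hi ⊢
  rw [integral_prod _ hi]
  have h1 : ∀ x : E, (∫ y : E, F (cu x) * G (cu y) * (ch (-p) (cu x) * ch (-q) (cu y))) =
      F (cu x) * ch (-p) (cu x) * fc G q := by
    intro x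
    unfold fc
    rw [← integral_const_mul]
    congr 1
    funext y
    ring
  simp only [h1]
  rw [integral_mul_const]
  rfl

theorem conv_int {F G : ℂ → ℂ} (hG : Per G) (iF : Integrable (fun x : E => F (cu x)))
    (iG : Integrable (fun x : E => G (cu x))) :
    Integrable (fun q : E × E => F (cu q.1) * G (cu q.1 + cu q.2)) := by
  have h2 := (mp_shear.integrable_comp_of_integrable (g := fun q : E × E =>
    F (cu q.1) * G (cu q.2)) (prod_int iF iG))
  refine h2.congr (Filter.Eventually.of_forall fun q => ?_)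
  show F (cu q.1) * G (cu (q.1 + q.2)) = _
  rw [per_cu_add hG]

theorem conv_int' {F G : ℂ → ℂ} (hG : Per G) (iF : Integrable (fun x : E => F (cu x)))
    (iG : Integrable (fun x : E => G (cu x))) :
    Integrable (fun q : E × E => F (cu q.1) * G (cu q.1 - cu q.2)) := by
  have h2 := mp_neg2.integrable_comp_of_integrable (conv_int hG iF iG)
  refine h2.congr (Filter.Eventually.of_forall fun q => ?_)
  have hG' : Per (fun u => G (cu q.1 + u)) := by
    intro u n
    show G (cu q.1 + (u + xx n)) = G (cu q.1 + u)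
    rw [← add_assoc, hG]
  have e := per_cu_neg hG' q.2
  show F (cu q.1) * G (cu q.1 + cu (-q.2)) = _
  rw [e, ← sub_eq_add_neg]

/-- the composition with the reflection `u ↦ G (-u)` -/
private lemma BConv_neg_per {G : ℂ → ℂ} (hG : Per G) : Per (fun u => G (-u)) := by
  intro u n
  show G (-(u + xx n)) = G (-u)
  have e : -(u + xx n) = -u + xx (-n) := by
    rw [xx_neg]
    ring
  rw [e, hG]

private lemma BConv_neg_int {G : ℂ → ℂ} (hG : Per G) (iG : Integrable (fun x : E => G (cu x))) :
    Integrable (fun x : E => G (-cu x)) := by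
  have h := ZHat_mp_neg.integrable_comp_of_integrable iG
  refine h.congr (Filter.Eventually.of_forall fun x => ?_)
  show G (cu (-x)) = G (-cu x)
  rw [per_cu_neg hG]

private lemma BConv_swap_int {f : E × E → ℂ} (hf : Integrable f) :
    Integrable (fun q : E × E => f (q.2, q.1)) :=
  mp_swap.integrable_comp_of_integrable hf

theorem conv_int3 {F G : ℂ → ℂ} (hG : Per G) (iF : Integrable (fun x : E => F (cu x)))
    (iG : Integrable (fun x : E => G (cu x))) :
    Integrable (fun q : E × E => G (cu q.1 - cu q.2) * F (cu q.2)) := by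
  have h := BConv_swap_int (conv_int' (BConv_neg_per hG) iF (BConv_neg_int hG iG))
  refine h.congr (Filter.Eventually.of_forall fun q => ?_)
  show F (cu q.2) * G (-(cu q.2 - cu q.1)) = _
  rw [neg_sub, mul_comm]

theorem conv_fcc {F G : ℂ → ℂ} (hG : Per G) (iF : Integrable (fun x : E => F (cu x)))
    (iG : Integrable (fun x : E => G (cu x))) (p q : ℤ × ℤ) :
    fcc (fun x : E × E => F (cu x.1) * G (cu x.1 + cu x.2)) (p, q) = fc G q * fc F (p - q) := by
  have hi := BConv_mul_ch (conv_int hG iF iG) (-p) (-q)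
  rw [BConv_fcc]
  rw [Measure.volume_eq_prod] at hi ⊢
  rw [integral_prod _ hi]
  have h1 : ∀ x : E, (∫ y : E, F (cu x) * G (cu x + cu y) *
      (ch (-p) (cu x) * ch (-q) (cu y))) = fc G q * (F (cu x) * ch (-(p - q)) (cu x)) := by
    intro x
    have h2 : (∫ y : E, F (cu x) * G (cu x + cu y) *
      (ch (-p) (cu x) * ch (-q) (cu y))) =
        F (cu x) * ch (-p) (cu x) * fc (fun u => G (u + cu x)) q := by
      unfold fc
      rw [← integral_const_mul]
      congr 1
      funext y
      show _ = F (cu x) * ch (-p) (cu x) * (G (cu y + cu x) * ch (-q) (cu y))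
      rw [add_comm (cu y)]
      ring
    rw [h2, fc_shift hG]
    have h3 : ch (-(p - q)) (cu x) = ch (-p) (cu x) * ch q (cu x) := by
      rw [← ch_idx_add]
      congr 1
      abel
    rw [h3]
    ring
  simp only [h1]
  rw [integral_const_mul]
  rfl

theorem conv_fcc' {F G : ℂ → ℂ} (hG : Per G) (iF : Integrable (fun x : E => F (cu x)))
    (iG : Integrable (fun x : E => G (cu x))) (p q : ℤ × ℤ) :
    fcc (fun x : E × E => F (cu x.1) * G (cu x.1 - cu x.2)) (p, q) =
      fc G (-q) * fc F (p + q) := by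
  have h0 := conv_fcc hG iF iG p (-q)
  rw [sub_neg_eq_add] at h0
  rw [← h0, BConv_fcc, BConv_fcc, neg_neg]
  have hmp : MeasurePreserving (fun q : E × E => (q.1, -q.2)) volume volume := mp_neg2
  have hme : MeasurableEmbedding (fun q : E × E => (q.1, -q.2)) :=
    ((MeasurableEquiv.refl E).prodCongr (MeasurableEquiv.neg E)).measurableEmbedding
  rw [← hmp.integral_comp hme]
  congr 1
  funext x
  have hG' : Per (fun u => G (cu x.1 - u)) := by
    intro u n
    show G (cu x.1 - (u + xx n)) = G (cu x.1 - u)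
    have e3 : cu x.1 - (u + xx n) = cu x.1 - u + xx (-n) := by
      rw [xx_neg]
      ring
    rw [e3, hG]
  have e := per_cu_neg hG' x.2
  have e2 := per_cu_neg (ch_per (-q)) x.2
  show F (cu x.1) * G (cu x.1 - cu (-x.2)) * (ch (-p) (cu x.1) * ch (-q) (cu (-x.2))) = _
  rw [e, e2, ch_arg_neg, neg_neg, sub_neg_eq_add]

theorem conv_fcc3 {F G : ℂ → ℂ} (hG : Per G) (iF : Integrable (fun x : E => F (cu x)))
    (iG : Integrable (fun x : E => G (cu x))) (p q : ℤ × ℤ) :
    fcc (fun x : E × E => G (cu x.1 - cu x.2) * F (cu x.2)) (p, q) = fc G p * fc F (p + q) := by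
  have h0 := conv_fcc' (BConv_neg_per hG) iF (BConv_neg_int hG iG) q p
  have h1 : fc (fun u => G (-u)) (-p) = fc G p := by
    unfold fc
    rw [← ZHat_integral_neg]
    congr 1
    funext x
    have e2 := per_cu_neg (ch_per (- -p)) x
    have e3 := per_cu_neg (BConv_neg_per hG) x
    show G (-cu (-x)) * ch (- -p) (cu (-x)) = G (cu x) * ch (-p) (cu x)
    have e4 : G (-cu (-x)) = G (cu x) := by
      rw [e3, neg_neg]
    rw [e2, e4, ch_arg_neg, neg_neg]
  rw [h1, add_comm q p] at h0
  rw [← h0, BConv_fcc, BConv_fcc]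
  have hmp : MeasurePreserving (fun q : E × E => (q.2, q.1)) volume volume := mp_swap
  have hme : MeasurableEmbedding (fun q : E × E => (q.2, q.1)) :=
    MeasurableEquiv.prodComm.measurableEmbedding
  rw [← hmp.integral_comp hme]
  congr 1
  funext x
  show G (cu x.2 - cu x.1) * F (cu x.1) * (ch (-p) (cu x.2) * ch (-q) (cu x.1)) =
    F (cu x.1) * G (-(cu x.1 - cu x.2)) * (ch (-q) (cu x.1) * ch (-p) (cu x.2))
  rw [neg_sub]
  ring

theorem fcc_shift {G : ℂ → ℂ → ℂ} (h1 : ∀ v, Per (fun u => G u v)) (h2 : ∀ u, Per (G u))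
    (a b : ℂ) (p q : ℤ × ℤ) :
    fcc (fun x : E × E => G (cu x.1 + a) (cu x.2 + b)) (p, q) =
      ch p a * ch q b * fcc (fun x : E × E => G (cu x.1) (cu x.2)) (p, q) := by
  rw [BConv_fcc, BConv_fcc]
  have hmp : MeasurePreserving (fun q : E × E => (q.1 + pr a, q.2 + pr b)) volume volume :=
    mp_shift (pr a) (pr b)
  have hme : MeasurableEmbedding (fun q : E × E => (q.1 + pr a, q.2 + pr b)) :=
    ((MeasurableEquiv.addRight (pr a)).prodCongr (MeasurableEquiv.addRight (pr b))).measurableEmbedding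
  rw [← hmp.integral_comp hme (fun x : E × E => G (cu x.1) (cu x.2) *
    (ch (-p) (cu x.1) * ch (-q) (cu x.2))), ← integral_const_mul]
  congr 1
  funext x
  have e1 : G (cu (x.1 + pr a)) (cu (x.2 + pr b)) = G (cu x.1 + a) (cu x.2 + b) := by
    have a1 := per_cu_add_pr (h1 (cu (x.2 + pr b))) x.1 a
    have a2 := per_cu_add_pr (h2 (cu x.1 + a)) x.2 b
    exact a1.trans a2
  have e2 := per_cu_add_pr (ch_per (-p)) x.1 a
  have e3 := per_cu_add_pr (ch_per (-q)) x.2 b
  show G (cu x.1 + a) (cu x.2 + b) * (ch (-p) (cu x.1) * ch (-q) (cu x.2)) =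
    ch p a * ch q b * (G (cu (x.1 + pr a)) (cu (x.2 + pr b)) *
      (ch (-p) (cu (x.1 + pr a)) * ch (-q) (cu (x.2 + pr b))))
  rw [e1, e2, e3, ch_add, ch_add]
  have k1 := ch_mul_neg p a
  have k2 := ch_mul_neg q b
  have k3 : ch p a * ch q b * (ch (-p) a * ch (-q) b) = 1 := by
    linear_combination (ch q b * ch (-q) b) * k1 + k2
  linear_combination -(G (cu x.1 + a) (cu x.2 + b) * ch (-p) (cu x.1) * ch (-q) (cu x.2)) * k3

private lemma BConv_cj_int {f : E → ℂ} (h : Integrable f) : Integrable (fun x => cj (f x)) :=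
  (Complex.conjLIE : ℂ ≃ₗᵢ[ℝ] ℂ).toContinuousLinearEquiv.toContinuousLinearMap.integrable_comp h

private lemma BConv_Z_shift (a : ℂ) : Integrable (fun x : E => Z (cu x + a)) := Z_shift_int a

theorem aa_int (b : ℂ) : Integrable (fun x : E => aa b (cu x)) := by
  have h := ((BConv_Z_shift (-b)).add (BConv_Z_shift b)).sub ((BConv_Z_shift 0).const_mul 2)
  refine h.congr (Filter.Eventually.of_forall fun x => ?_)
  show Z (cu x + -b) + Z (cu x + b) - 2 * Z (cu x + 0) = aa b (cu x)
  rw [add_zero, ← sub_eq_add_neg]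
  rfl

theorem aa_cj_int (b : ℂ) : Integrable (fun x : E => cj (aa b (cu x))) :=
  BConv_cj_int (aa_int b)

theorem fc_aa (b : ℂ) (n : ℤ × ℤ) : fc (aa b) n = -(ss b n / cj (mm n)) := by
  have h : fc (aa b) n = fc (fun u => Z (u + -b)) n + fc (fun u => Z (u + b)) n -
      2 * fc (fun u => Z (u + 0)) n := by
    unfold fc
    have b1 := BConv_mul_ch1 (BConv_Z_shift (-b)) (-n)
    have b2 := BConv_mul_ch1 (BConv_Z_shift b) (-n)
    have b3 := (BConv_mul_ch1 (BConv_Z_shift 0) (-n)).const_mul 2
    have e := (integral_sub (b1.add b2) b3).trans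
      (congrArg₂ (· - ·) (integral_add b1 b2) (integral_const_mul 2 _))
    refine Eq.trans ?_ e
    congr 1
    funext x
    show (Z (cu x - b) + Z (cu x + b) - 2 * Z (cu x)) * ch (-n) (cu x) =
      Z (cu x + -b) * ch (-n) (cu x) + Z (cu x + b) * ch (-n) (cu x) -
        2 * (Z (cu x + 0) * ch (-n) (cu x))
    rw [add_zero, ← sub_eq_add_neg]
    ring
  have h0 : ch n 0 = 1 := by
    unfold ch
    rw [mul_zero, cj_zero, sub_zero, mul_zero, Complex.exp_zero]
  rw [h, fc_shift Z_per, fc_shift Z_per, fc_shift Z_per, fc_Z, h0, ss]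
  ring

theorem fc_aa_cj (b : ℂ) (n : ℤ × ℤ) : fc (fun w => cj (aa b w)) n = ss b n / mm n := by
  rw [ZHat_conj, fc_aa, mm_neg]
  have h1 : cj (ss b (-n)) = ss b n := by
    unfold ss
    rw [cj_sub, cj_add, cj_two, ← ch_idx_neg, ← ch_idx_neg, neg_neg]
  rw [cj_neg, cj_div, h1, cj_cj, div_neg, neg_neg]

end UQO
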