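import Pool.Agent.UNI.BPhi
import Pool.Agent.UNI.BTors

/-!
# UNI/BFour: Fourier coefficients of `F1`, `g1`, `gam`

PROOF. `F1_meas`, `F1_bdd`: `GG_meas2` composed with translations, `EE7.BW_meas`, `BWG_bdd`, finite
sums. `F1_cont`: for `(u, v) = (cu q.1, cu q.2)` with `Ofl (u + tq h)`, `Ofl (v + tq h)` and
`P (v + tq h) ≠ P (tq h)` for all `h ≠ 0` the function is continuous at `q`: `P` is continuous off the
lattice, `EE7.BW_cont`, and `continuousAt_cu` in both variables. To get joint continuity from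
`continuousAt_cu` (one variable, values in any space): `x ↦ P (cu x + a)` is continuous at `q.1` as a
function on `E` (`continuousAt_cu` for the periodic function `P (· + a)`), and so on; compose with
`Prod.fst`, `Prod.snd`. The exceptional set is null: `P (v + a) = P a` only for `v` in a countable set
(`P_eq_iff`, `ofl_cnt`), `ae_cu` (a.e. statement in one variable pulled back to `E × E` by
`Measure.quasiMeasurePreserving_fst/snd.ae`).
`F1_fcc`: linearity (the summands are bounded measurable, so integrable), `fcc_shift` for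
`G u v = BW (GG (tq h) v u)` (doubly periodic, `GG_per`, `GG_per'`) and `Ph_eq` (`ofl_tq`);
`ch p a * ch q a = ch (p + q) a`. `F1_hat`: insert `PF` and `sum_ch_ss` (`¬ dv N (p + p)` implies
`p ≠ 0`).
`g1_int`, `g1_fcc`: `prod_int`, `prod_fcc`, `fc_aa`, `aa_int`, linearity, `sum_W_ss`.
`gam`: sums of `aa`; `sum_ss`.
-/

open MeasureTheory

namespace UQO

variable [Lt]

private theorem BFour_meas (h a b : ℂ) :
    Measurable (fun q : E × E => ((BW (GG h (cu q.2 + a) (cu q.1 + b)) : ℝ) : ℂ)) := by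
  have m1 : Measurable (fun q : E × E => cu q.1 + b) :=
    (measurable_cu.comp measurable_fst).add_const _
  have m2 : Measurable (fun q : E × E => cu q.2 + a) :=
    (measurable_cu.comp measurable_snd).add_const _
  have m3 : Measurable (fun q : E × E => (cu q.1 + b, cu q.2 + a)) := m1.prodMk m2
  have m4 := (GG_meas2 h).comp m3
  simp only [Function.comp_def] at m4
  have m5 : Measurable (fun q : E × E => BW (GG h (cu q.2 + a) (cu q.1 + b))) :=
    EE7.BW_meas.comp m4
  exact Complex.measurable_ofReal.comp m5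

theorem F1_meas (N : ℕ) [NeZero N] : Measurable (fun q : E × E => F1 N (cu q.1) (cu q.2)) := by
  unfold F1
  exact Finset.measurable_sum _ fun h _ => BFour_meas (tq h) (tq h) (tq h)

theorem F1_bdd (N : ℕ) [NeZero N] : ∃ C : ℝ, ∀ u v : ℂ, ‖F1 N u v‖ ≤ C := by
  obtain ⟨C, hC⟩ := BWG_bdd
  refine ⟨((Finset.univ : Finset (Gr N)).erase 0).card • C, fun u v => ?_⟩
  unfold F1
  exact (norm_sum_le _ _).trans (Finset.sum_le_card_nsmul _ _ _ fun h _ => hC _)

private theorem BFour_P_cont {x : E} {a : ℂ} (h : Ofl (cu x + a)) :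
    ContinuousAt (fun y : E => P (cu y + a)) x := by
  refine continuousAt_cu (F := fun u => P (u + a)) ?_ ?_
  · intro u n
    show P (u + xx n + a) = P (u + a)
    rw [add_right_comm, P_per]
  · exact ContinuousAt.comp (g := P) (f := fun u => u + a) (P_deriv h).continuousAt
      (continuousAt_id.add continuousAt_const)

private theorem BFour_ae1 (N : ℕ) [NeZero N] : ∀ᵐ x : E, ∀ h : Gr N, Ofl (cu x + tq h) := by
  rw [ae_all_iff]
  intro h
  filter_upwards [ae_cu (ofl_cnt (tq h))] with x hx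
  by_contra hc
  exact hx hc

private theorem BFour_ae2 (N : ℕ) [NeZero N] :
    ∀ᵐ x : E, ∀ h : Gr N, h ≠ 0 → P (cu x + tq h) ≠ P (tq h) := by
  rw [ae_all_iff]
  intro h
  filter_upwards [ae_cu (ofl_cnt (tq h)), ae_cu (ofl_cnt (tq h + tq h)), ae_cu (ofl_cnt 0)]
    with x h1 h2 h3 hh hc
  have e1 : Ofl (cu x + tq h) := by
    by_contra hc
    exact h1 hc
  rw [P_eq_iff e1 ((ofl_tq h).2 hh)] at hc
  rcases hc with hc | hc
  · rw [add_assoc] at hc
    exact h2 hc
  · rw [add_sub_cancel_right] at hc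
    refine h3 ?_
    show ¬ Ofl (cu x + 0)
    rwa [add_zero]

theorem F1_cont (N : ℕ) [NeZero N] :
    ∀ᵐ q : E × E, ContinuousAt (fun q : E × E => F1 N (cu q.1) (cu q.2)) q := by
  have h1 := EE7.TorAe_qfst.ae (BFour_ae1 N)
  have h2 := EE7.TorAe_qsnd.ae (BFour_ae1 N)
  have h3 := EE7.TorAe_qsnd.ae (BFour_ae2 N)
  filter_upwards [h1, h2, h3] with q h1 h2 h3
  unfold F1
  refine tendsto_finsetSum _ fun h hh => ?_
  have hh0 : h ≠ 0 := (Finset.mem_erase.1 hh).1
  have c1 : ContinuousAt (fun q : E × E => P (cu q.1 + tq h)) q :=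
    ContinuousAt.comp (g := fun y : E => P (cu y + tq h)) (f := Prod.fst)
      (BFour_P_cont (h1 h)) continuousAt_fst
  have c2 : ContinuousAt (fun q : E × E => P (cu q.2 + tq h)) q :=
    ContinuousAt.comp (g := fun y : E => P (cu y + tq h)) (f := Prod.snd)
      (BFour_P_cont (h2 h)) continuousAt_snd
  have c3 : ContinuousAt (fun q : E × E => GG (tq h) (cu q.2 + tq h) (cu q.1 + tq h)) q := by
    unfold GG
    exact (c1.sub continuousAt_const).div (c2.sub continuousAt_const) (sub_ne_zero.2 (h3 h hh0))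
  exact ContinuousAt.comp (g := fun r : ℝ => (r : ℂ))
    (f := fun q : E × E => BW (GG (tq h) (cu q.2 + tq h) (cu q.1 + tq h)))
    Complex.continuous_ofReal.continuousAt
    (ContinuousAt.comp (g := BW) EE7.BW_cont.continuousAt c3)

private theorem BFour_ch_cont (k : (ℤ × ℤ) × (ℤ × ℤ)) :
    Continuous (fun q : E × E => ch (-k.1) (cu q.1) * ch (-k.2) (cu q.2)) :=
  ((continuous_ch_cu (-k.1)).comp continuous_fst).mul ((continuous_ch_cu (-k.2)).comp continuous_snd)

private theorem BFour_ch_norm (k : (ℤ × ℤ) × (ℤ × ℤ)) (q : E × E) :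
    ‖ch (-k.1) (cu q.1) * ch (-k.2) (cu q.2)‖ ≤ 1 := by
  rw [norm_mul, norm_ch, norm_ch, one_mul]

private theorem BFour_mul_ch {f : E × E → ℂ} (hf : Integrable f) (k : (ℤ × ℤ) × (ℤ × ℤ)) :
    Integrable (fun q : E × E => f q * (ch (-k.1) (cu q.1) * ch (-k.2) (cu q.2))) :=
  hf.mul_bdd (c := 1) (BFour_ch_cont k).aestronglyMeasurable
    (Filter.Eventually.of_forall fun q => BFour_ch_norm k q)

private theorem BFour_fcc_sum {ι : Type*} (s : Finset ι) {f : ι → E × E → ℂ}
    (hf : ∀ i ∈ s, Integrable (f i)) (k : (ℤ × ℤ) × (ℤ × ℤ)) :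
    fcc (fun q => ∑ i ∈ s, f i q) k = ∑ i ∈ s, fcc (f i) k := by
  unfold fcc
  simp only [Finset.sum_mul]
  exact integral_finsetSum s fun i hi => BFour_mul_ch (hf i hi) k

private theorem BFour_fc_sum {ι : Type*} (s : Finset ι) {f : ι → ℂ → ℂ}
    (hf : ∀ i ∈ s, Integrable (fun x : E => f i (cu x))) (n : ℤ × ℤ) :
    fc (fun u => ∑ i ∈ s, f i u) n = ∑ i ∈ s, fc (f i) n := by
  unfold fc
  simp only [Finset.sum_mul]
  refine integral_finsetSum s fun i hi => ?_
  exact (hf i hi).mul_bdd (c := 1) (continuous_ch_cu (-n)).aestronglyMeasurable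
    (Filter.Eventually.of_forall fun x => (norm_ch _ _).le)

private theorem BFour_fcc_const (c : ℂ) (f : E × E → ℂ) (k : (ℤ × ℤ) × (ℤ × ℤ)) :
    fcc (fun q => c * f q) k = c * fcc f k := by
  unfold fcc
  simp only [mul_assoc]
  exact integral_const_mul _ _

private theorem BFour_int (h : ℂ) (a b : ℂ) :
    Integrable (fun q : E × E => (BW (GG h (cu q.2 + a) (cu q.1 + b)) : ℂ)) := by
  obtain ⟨C, hC⟩ := BWG_bdd
  have h0 := Pars_fin
  exact Integrable.of_bound (C := C) (BFour_meas h a b).aestronglyMeasurable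
    (Filter.Eventually.of_forall fun q => hC _)

theorem F1_fcc (N : ℕ) [NeZero N] {p q : ℤ × ℤ} (hp : p ≠ 0) (hq : q ≠ 0) :
    fcc (fun x : E × E => F1 N (cu x.1) (cu x.2)) (p, q) =
      ∑ h ∈ (Finset.univ : Finset (Gr N)).erase 0, ch (p + q) (tq h) * PF (tq h) p q := by
  unfold F1
  rw [BFour_fcc_sum _ (fun h _ => BFour_int (tq h) (tq h) (tq h))]
  refine Finset.sum_congr rfl fun h hh => ?_
  have hh0 : h ≠ 0 := (Finset.mem_erase.1 hh).1
  have e1 := fcc_shift (G := fun u v => (BW (GG (tq h) v u) : ℂ))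
    (fun v u n => by
      show ((BW (GG (tq h) v (u + xx n)) : ℝ) : ℂ) = _
      rw [GG_per])
    (fun u v n => by
      show ((BW (GG (tq h) (v + xx n) u) : ℝ) : ℂ) = _
      have e2 : GG (tq h) (v + xx n) u = GG (tq h) v u := GG_per' (tq h) u v n
      rw [e2])
    (tq h) (tq h) p q
  rw [e1, ch_idx_add]
  congr 1
  exact Ph_eq ((ofl_tq h).2 hh0) hp hq

theorem F1_hat (N : ℕ) [NeZero N] {p q : ℤ × ℤ} (h1 : ¬ dv N (p + p)) (h2 : ¬ dv N (q + q))
    (h3 : ¬ dv N ((p + q) + (p + q))) :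
    fcc (fun x : E × E => F1 N (cu x.1) (cu x.2)) (p, q) =
      -(Complex.I * (N : ℂ) ^ 2 * dl p q / (4 * (cc : ℂ) ^ 2 * (mm p * cj (mm p)) *
        (mm q * cj (mm q)) * (mm (p + q) * cj (mm (p + q))))) := by
  have hp : p ≠ 0 := by
    rintro rfl
    apply h1
    rw [add_zero]
    exact ⟨dvd_zero _, dvd_zero _⟩
  have hq : q ≠ 0 := by
    rintro rfl
    apply h2
    rw [add_zero]
    exact ⟨dvd_zero _, dvd_zero _⟩
  rw [F1_fcc N hp hq]
  obtain ⟨s1, s2⟩ := sum_ch_ss h1 h2 h3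
  have e : ∀ h : Gr N, ch (p + q) (tq h) * PF (tq h) p q =
      -(Complex.I * dl p q / (4 * (cc : ℂ) ^ 2 * (mm p * cj (mm p)) * (mm q * cj (mm q)))) *
        ((ch (p + q) (tq h) * ss (tq h) (p + q)) * (mm (p + q) * cj (mm (p + q)))⁻¹ -
          (ch (p + q) (tq h) * ss (tq h) (p - q)) * (mm (p - q) * cj (mm (p - q)))⁻¹) := by
    intro h
    unfold PF
    rw [div_eq_mul_inv (ss (tq h) (p + q)), div_eq_mul_inv (ss (tq h) (p - q))]
    ring
  rw [Finset.sum_congr rfl fun h _ => e h, ← Finset.mul_sum, Finset.sum_sub_distrib,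
    ← Finset.sum_mul, ← Finset.sum_mul, s1, s2, zero_mul, sub_zero]
  rw [div_eq_mul_inv, div_eq_mul_inv, mul_inv _ (mm (p + q) * cj (mm (p + q)))]
  ring

private theorem BFour_g1_term {N : ℕ} [NeZero N] (W : Gr N → Gr N → ℤ) (k l : Gr N) :
    Integrable (fun q : E × E => (W k l : ℂ) * (aa (tq k) (cu q.1) * aa (tq l) (cu q.2))) :=
  (prod_int (aa_int (tq k)) (aa_int (tq l))).const_mul _

theorem g1_int {N : ℕ} [NeZero N] (W : Gr N → Gr N → ℤ) :
    Integrable (fun q : E × E => g1 W (cu q.1) (cu q.2)) := by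
  unfold g1
  exact integrable_finsetSum _ fun k _ => integrable_finsetSum _ fun l _ => BFour_g1_term W k l

theorem g1_fcc {N : ℕ} [NeZero N] {W : Gr N → Gr N → ℤ} (hW : Wg W) (m n : ℤ × ℤ) :
    fcc (fun q : E × E => g1 W (cu q.1) (cu q.2)) (m, n) =
      4 * WD W m n / (cj (mm m) * cj (mm n)) := by
  unfold g1
  rw [BFour_fcc_sum _ (fun k _ => integrable_finsetSum _ fun l _ => BFour_g1_term W k l)]
  rw [← sum_W_ss hW m n, Finset.sum_div]
  refine Finset.sum_congr rfl fun k _ => ?_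
  rw [BFour_fcc_sum _ (fun l _ => BFour_g1_term W k l), Finset.sum_div]
  refine Finset.sum_congr rfl fun l _ => ?_
  rw [BFour_fcc_const, prod_fcc (aa_int (tq k)) (aa_int (tq l)), fc_aa, fc_aa, neg_mul_neg,
    div_mul_div_comm, mul_div_assoc (W k l : ℂ)]

theorem gam_per (N : ℕ) [NeZero N] : Per (gam N) := by
  intro u n
  unfold gam
  exact Finset.sum_congr rfl fun e _ => aa_per (tq e) u n

theorem gam_neg (N : ℕ) [NeZero N] (z : ℂ) : gam N (-z) = -gam N z := by
  unfold gam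
  rw [← Finset.sum_neg_distrib]
  exact Finset.sum_congr rfl fun e _ => aa_neg (tq e) z

theorem gam_int (N : ℕ) [NeZero N] : Integrable (fun x : E => gam N (cu x)) := by
  unfold gam
  exact integrable_finsetSum _ fun e _ => aa_int (tq e)

theorem fc_gam (N : ℕ) [NeZero N] (n : ℤ × ℤ) :
    fc (gam N) n = 2 * (N : ℂ) ^ 2 * (1 - dc N n) / cj (mm n) := by
  have e : gam N = fun u => ∑ e ∈ (Finset.univ : Finset (Gr N)).erase 0, aa (tq e) u := rfl
  rw [e, BFour_fc_sum _ (fun e _ => aa_int (tq e))]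
  simp only [fc_aa]
  rw [Finset.sum_neg_distrib, ← Finset.sum_div, sum_ss, neg_div, neg_neg]

end UQO
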