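import Pool.Agent.UNI.BDef
import Pool.Agent.UBC.Gen

/-!
# UNI/BSm: summability

PROOF. `summ3`: `mm n = n.1 · 1 + n.2 · (-ob)`, `Im (-ob) = Im om > 0`: `UBC`'s `sum3_of`
(Pool/Agent/UBC/Gen; see the namespace there). `TM_summable`: products of two absolutely summable
families over `(ℤ²)²` (`Summable.mul_of_nonneg`), and the reindexings `(x, y) ↦ (x, x - y)`,
`(x, x + y)`, `(y, x ± y)` (injective: `Summable.comp_injective`).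
`PF_bound`: `‖dl p q‖ ≤ 2 ‖mm p‖ ‖mm q‖`, `‖ss b n‖ ≤ 4` (`norm_ch`), `‖mm p * cj (mm p)‖ =
‖mm p‖²` (`norm_cj`); if `p = 0` or `q = 0` then `PF b p q = 0` (division by zero).
With `α = ‖mm p‖⁻¹`, `β = ‖mm q‖⁻¹`, `γ, δ = ‖mm (p ± q)‖⁻¹`: `PF_sum1`: `α²β²γ² = (αβ)(αγ)(βγ) ≤
(αβ)³ + (αγ)³ + (βγ)³` (`UBC.amgm`). `PF_sum2`: `α³ β γ² ≤ α³ (β³ + γ³)` (`β γ² ≤ β³ + γ³`).
`PF_summable`: for fixed `p ≠ 0`, `‖PF b p q‖ ≤ C (β³ + γ³ + δ³)`, `summ3` and reindexing; for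
`p = 0` it is `0`. `K3_eq`: algebra; if `x = 0`, `y = 0` or `x = y` both sides are `0`.
`k0_sum1`, `k0_sum2`: `‖k0 x y‖ ≤ 2 α β γ²` (`α = ‖mm x‖⁻¹`, `β = ‖mm y‖⁻¹`, `γ = ‖mm (x-y)‖⁻¹`).
-/

namespace UQO

variable [Lt]

/-- the majorant -/
noncomputable def TM (x : (ℤ × ℤ) × (ℤ × ℤ)) : ℝ :=
  ‖mm x.1‖⁻¹ ^ 3 * ‖mm x.2‖⁻¹ ^ 3
    + (‖mm x.1‖⁻¹ ^ 3 * ‖mm (x.1 - x.2)‖⁻¹ ^ 3 + ‖mm x.2‖⁻¹ ^ 3 * ‖mm (x.1 - x.2)‖⁻¹ ^ 3)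
    + (‖mm x.1‖⁻¹ ^ 3 * ‖mm (x.1 + x.2)‖⁻¹ ^ 3 + ‖mm x.2‖⁻¹ ^ 3 * ‖mm (x.1 + x.2)‖⁻¹ ^ 3)

omit [Lt] in
private lemma BSm_amgm {x y z : ℝ} (hx : 0 ≤ x) (hy : 0 ≤ y) (hz : 0 ≤ z) :
    x * y * z ≤ x ^ 3 + y ^ 3 + z ^ 3 := by
  nlinarith [mul_nonneg (add_nonneg (add_nonneg hx hy) hz)
    (add_nonneg (add_nonneg (sq_nonneg (x - y)) (sq_nonneg (x - z))) (sq_nonneg (y - z))),
    mul_nonneg (mul_nonneg hx hy) hz]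

omit [Lt] in
private lemma BSm_two {x y : ℝ} (hx : 0 ≤ x) (hy : 0 ≤ y) : x * y ^ 2 ≤ x ^ 3 + y ^ 3 := by
  rcases le_total x y with h | h
  · have h1 : x * y ^ 2 ≤ y * y ^ 2 := mul_le_mul_of_nonneg_right h (sq_nonneg y)
    have h2 : 0 ≤ x ^ 3 := by positivity
    nlinarith
  · have h1 : y ^ 2 ≤ x ^ 2 := pow_le_pow_left₀ hy h 2
    have h2 : x * y ^ 2 ≤ x * x ^ 2 := mul_le_mul_of_nonneg_left h1 hx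
    have h3 : 0 ≤ y ^ 3 := by positivity
    nlinarith

omit [Lt] in
private lemma BSm_inv (a : ℝ) : a * (a⁻¹ ^ 2) = a⁻¹ := by
  by_cases h : a = 0
  · simp [h]
  · field_simp

theorem summ3 : Summable (fun n : ℤ × ℤ => ‖mm n‖⁻¹ ^ 3) := by
  have h := Pool.Agent.UBC.LD.sum3_of (u := 1) (v := -ob) one_ne_zero (by
    rw [div_one, Complex.neg_im, ob_im, neg_neg]
    exact om_pos)
  refine h.congr fun n => ?_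
  rw [mm_def]
  congr 3
  ring

private lemma BSm_prod : Summable fun x : (ℤ × ℤ) × (ℤ × ℤ) => ‖mm x.1‖⁻¹ ^ 3 * ‖mm x.2‖⁻¹ ^ 3 :=
  summ3.mul_of_nonneg summ3 (fun _ => by positivity) (fun _ => by positivity)

private lemma BSm_sub : Summable fun x : (ℤ × ℤ) × (ℤ × ℤ) =>
    ‖mm x.1‖⁻¹ ^ 3 * ‖mm (x.1 - x.2)‖⁻¹ ^ 3 := by
  have hinj : Function.Injective (fun x : (ℤ × ℤ) × (ℤ × ℤ) => (x.1, x.1 - x.2)) := by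
    intro x y h
    have h1 := congrArg Prod.fst h
    have h2 := congrArg Prod.snd h
    simp only at h1 h2
    rw [h1] at h2
    exact Prod.ext h1 ((sub_right_inj).1 h2)
  have h := BSm_prod.comp_injective hinj
  refine h.congr fun x => ?_
  simp only [Function.comp]

private lemma BSm_sub2 : Summable fun x : (ℤ × ℤ) × (ℤ × ℤ) =>
    ‖mm x.2‖⁻¹ ^ 3 * ‖mm (x.1 - x.2)‖⁻¹ ^ 3 := by
  have hinj : Function.Injective (fun x : (ℤ × ℤ) × (ℤ × ℤ) => (x.2, x.1 - x.2)) := by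
    intro x y h
    have h1 := congrArg Prod.fst h
    have h2 := congrArg Prod.snd h
    simp only at h1 h2
    rw [h1] at h2
    exact Prod.ext ((sub_left_inj).1 h2) h1
  have h := BSm_prod.comp_injective hinj
  refine h.congr fun x => ?_
  simp only [Function.comp]

private lemma BSm_add : Summable fun x : (ℤ × ℤ) × (ℤ × ℤ) =>
    ‖mm x.1‖⁻¹ ^ 3 * ‖mm (x.1 + x.2)‖⁻¹ ^ 3 := by
  have hinj : Function.Injective (fun x : (ℤ × ℤ) × (ℤ × ℤ) => (x.1, x.1 + x.2)) := by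
    intro x y h
    have h1 := congrArg Prod.fst h
    have h2 := congrArg Prod.snd h
    simp only at h1 h2
    rw [h1] at h2
    exact Prod.ext h1 ((add_right_inj _).1 h2)
  have h := BSm_prod.comp_injective hinj
  refine h.congr fun x => ?_
  simp only [Function.comp]

private lemma BSm_add2 : Summable fun x : (ℤ × ℤ) × (ℤ × ℤ) =>
    ‖mm x.2‖⁻¹ ^ 3 * ‖mm (x.1 + x.2)‖⁻¹ ^ 3 := by
  have hinj : Function.Injective (fun x : (ℤ × ℤ) × (ℤ × ℤ) => (x.2, x.1 + x.2)) := by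
    intro x y h
    have h1 := congrArg Prod.fst h
    have h2 := congrArg Prod.snd h
    simp only at h1 h2
    rw [h1] at h2
    exact Prod.ext ((add_left_inj _).1 h2) h1
  have h := BSm_prod.comp_injective hinj
  refine h.congr fun x => ?_
  simp only [Function.comp]

theorem TM_summable : Summable TM :=
  (BSm_prod.add (BSm_sub.add BSm_sub2)).add (BSm_add.add BSm_add2)

theorem dl_bound (p q : ℤ × ℤ) : ‖dl p q‖ ≤ 2 * (‖mm p‖ * ‖mm q‖) := by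
  unfold dl
  refine (norm_sub_le _ _).trans ?_
  rw [norm_mul, norm_mul, norm_cj, norm_cj]
  linarith

private lemma BSm_ch (n : ℤ × ℤ) (u : ℂ) : ‖ch n u‖ = 1 := by
  unfold ch
  rw [Complex.norm_exp]
  have h : ((cc : ℂ) * (mm n * u - cj (mm n * u))).re = 0 := by
    rw [Complex.re_ofReal_mul, Complex.sub_re, cj_re, sub_self, mul_zero]
  rw [h, Real.exp_zero]

theorem ss_bound (b : ℂ) (n : ℤ × ℤ) : ‖ss b n‖ ≤ 4 := by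
  unfold ss
  refine (norm_sub_le _ _).trans ?_
  have h := norm_add_le (ch n b) (ch n (-b))
  rw [BSm_ch, BSm_ch] at h
  have h2 : ‖(2 : ℂ)‖ = 2 := by norm_num
  rw [h2]
  linarith

omit [Lt] in
private lemma BSm_nn (z : ℂ) : ‖z * cj z‖ = ‖z‖ ^ 2 := by
  rw [norm_mul, norm_cj, sq]

omit [Lt] in
private lemma BSm_div (w z : ℂ) : ‖w / (z * cj z)‖ = ‖w‖ * ‖z‖⁻¹ ^ 2 := by
  rw [norm_div, BSm_nn, div_eq_mul_inv, inv_pow]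

theorem PF_bound (b : ℂ) (p q : ℤ × ℤ) : ‖PF b p q‖ ≤
    2 / cc ^ 2 * (‖mm p‖⁻¹ * ‖mm q‖⁻¹ * (‖mm (p + q)‖⁻¹ ^ 2 + ‖mm (p - q)‖⁻¹ ^ 2)) := by
  have hcc := cc_pos
  unfold PF
  rw [norm_mul, norm_neg, norm_div, norm_mul, norm_mul, norm_mul, norm_mul, Complex.norm_I, one_mul,
    BSm_nn, BSm_nn, norm_pow, Complex.norm_real, Real.norm_of_nonneg hcc.le]
  have h4 : ‖(4 : ℂ)‖ = 4 := by norm_num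
  rw [h4]
  have h1 : ‖ss b (p + q) / (mm (p + q) * cj (mm (p + q))) -
      ss b (p - q) / (mm (p - q) * cj (mm (p - q)))‖ ≤
      4 * (‖mm (p + q)‖⁻¹ ^ 2 + ‖mm (p - q)‖⁻¹ ^ 2) := by
    refine (norm_sub_le _ _).trans ?_
    rw [BSm_div, BSm_div]
    have h5 := mul_le_mul_of_nonneg_right (ss_bound b (p + q)) (sq_nonneg (‖mm (p + q)‖⁻¹))
    have h6 := mul_le_mul_of_nonneg_right (ss_bound b (p - q)) (sq_nonneg (‖mm (p - q)‖⁻¹))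
    linarith
  have h2 : ‖dl p q‖ / (4 * cc ^ 2 * ‖mm p‖ ^ 2 * ‖mm q‖ ^ 2) ≤
      1 / (2 * cc ^ 2) * (‖mm p‖⁻¹ * ‖mm q‖⁻¹) := by
    calc ‖dl p q‖ / (4 * cc ^ 2 * ‖mm p‖ ^ 2 * ‖mm q‖ ^ 2)
        = ‖dl p q‖ * ((4 * cc ^ 2)⁻¹ * (‖mm p‖⁻¹ ^ 2 * ‖mm q‖⁻¹ ^ 2)) := by
          rw [div_eq_mul_inv, mul_inv, mul_inv, inv_pow, inv_pow, mul_assoc]
      _ ≤ (2 * (‖mm p‖ * ‖mm q‖)) * ((4 * cc ^ 2)⁻¹ * (‖mm p‖⁻¹ ^ 2 * ‖mm q‖⁻¹ ^ 2)) :=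
          mul_le_mul_of_nonneg_right (dl_bound p q) (by positivity)
      _ = 2 * (4 * cc ^ 2)⁻¹ * ((‖mm p‖ * ‖mm p‖⁻¹ ^ 2) * (‖mm q‖ * ‖mm q‖⁻¹ ^ 2)) := by ring
      _ = 2 * (4 * cc ^ 2)⁻¹ * (‖mm p‖⁻¹ * ‖mm q‖⁻¹) := by rw [BSm_inv, BSm_inv]
      _ = 1 / (2 * cc ^ 2) * (‖mm p‖⁻¹ * ‖mm q‖⁻¹) := by
          congr 1
          field_simp
          norm_num
  calc _ ≤ (1 / (2 * cc ^ 2) * (‖mm p‖⁻¹ * ‖mm q‖⁻¹)) *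
        (4 * (‖mm (p + q)‖⁻¹ ^ 2 + ‖mm (p - q)‖⁻¹ ^ 2)) :=
        mul_le_mul h2 h1 (norm_nonneg _) (by positivity)
    _ = _ := by
        field_simp
        norm_num

theorem PF_summable (b : ℂ) (p : ℤ × ℤ) : Summable (fun q => PF b p q) := by
  have hcc := cc_pos
  have s1 := summ3
  have s2 : Summable fun q : ℤ × ℤ => ‖mm (p + q)‖⁻¹ ^ 3 :=
    s1.comp_injective (add_right_injective p)
  have s3 : Summable fun q : ℤ × ℤ => ‖mm (p - q)‖⁻¹ ^ 3 :=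
    s1.comp_injective (i := fun q : ℤ × ℤ => p - q) sub_right_injective
  refine Summable.of_norm_bounded ((((s1.add s2).add (s1.add s3))).mul_left
    (2 / cc ^ 2 * ‖mm p‖⁻¹)) fun q => ?_
  refine (PF_bound b p q).trans ?_
  have h1 : 0 ≤ ‖mm q‖⁻¹ := by positivity
  have h2 := BSm_two h1 (show 0 ≤ ‖mm (p + q)‖⁻¹ by positivity)
  have h3 := BSm_two h1 (show 0 ≤ ‖mm (p - q)‖⁻¹ by positivity)
  have h4 : 0 ≤ 2 / cc ^ 2 * ‖mm p‖⁻¹ := by positivity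
  calc _ = (2 / cc ^ 2 * ‖mm p‖⁻¹) *
        (‖mm q‖⁻¹ * ‖mm (p + q)‖⁻¹ ^ 2 + ‖mm q‖⁻¹ * ‖mm (p - q)‖⁻¹ ^ 2) := by ring
    _ ≤ _ := mul_le_mul_of_nonneg_left (by linarith) h4

private lemma BSm_TM (p q : ℤ × ℤ) : TM (p, q) = ‖mm p‖⁻¹ ^ 3 * ‖mm q‖⁻¹ ^ 3
    + (‖mm p‖⁻¹ ^ 3 * ‖mm (p - q)‖⁻¹ ^ 3 + ‖mm q‖⁻¹ ^ 3 * ‖mm (p - q)‖⁻¹ ^ 3)
    + (‖mm p‖⁻¹ ^ 3 * ‖mm (p + q)‖⁻¹ ^ 3 + ‖mm q‖⁻¹ ^ 3 * ‖mm (p + q)‖⁻¹ ^ 3) := rfl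

omit [Lt] in
private lemma BSm_three {x y z : ℝ} (hx : 0 ≤ x) (hy : 0 ≤ y) (hz : 0 ≤ z) :
    x ^ 2 * y ^ 2 * z ^ 2 ≤ x ^ 3 * y ^ 3 + x ^ 3 * z ^ 3 + y ^ 3 * z ^ 3 := by
  have h := BSm_amgm (mul_nonneg hx hy) (mul_nonneg hx hz) (mul_nonneg hy hz)
  calc x ^ 2 * y ^ 2 * z ^ 2 = (x * y) * (x * z) * (y * z) := by ring
    _ ≤ _ := h
    _ = _ := by ring

omit [Lt] in
private lemma BSm_four {x y z : ℝ} (hx : 0 ≤ x) (hy : 0 ≤ y) (hz : 0 ≤ z) :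
    x ^ 3 * (y * z ^ 2) ≤ x ^ 3 * y ^ 3 + x ^ 3 * z ^ 3 := by
  have h := mul_le_mul_of_nonneg_left (BSm_two hy hz) (pow_nonneg hx 3)
  linarith

theorem PF_sum1 : ∃ C : ℝ, 0 ≤ C ∧ ∀ (b : ℂ) (p q : ℤ × ℤ),
    ‖PF b p q‖ * (‖mm p‖⁻¹ * ‖mm q‖⁻¹) ≤ C * TM (p, q) := by
  have hcc := cc_pos
  refine ⟨2 / cc ^ 2 * 2, by positivity, fun b p q => ?_⟩
  have h0 : 0 ≤ ‖mm p‖⁻¹ * ‖mm q‖⁻¹ := by positivity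
  refine (mul_le_mul_of_nonneg_right (PF_bound b p q) h0).trans ?_
  rw [BSm_TM]
  obtain ⟨A, hA⟩ : ∃ A, A = ‖mm p‖⁻¹ := ⟨_, rfl⟩
  obtain ⟨B, hB⟩ : ∃ B, B = ‖mm q‖⁻¹ := ⟨_, rfl⟩
  obtain ⟨G, hG⟩ : ∃ G, G = ‖mm (p + q)‖⁻¹ := ⟨_, rfl⟩
  obtain ⟨D, hD⟩ : ∃ D, D = ‖mm (p - q)‖⁻¹ := ⟨_, rfl⟩
  have a1 : 0 ≤ A := by rw [hA]; positivity
  have b1 : 0 ≤ B := by rw [hB]; positivity
  have g1 : 0 ≤ G := by rw [hG]; positivity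
  have d1 : 0 ≤ D := by rw [hD]; positivity
  rw [← hA, ← hB, ← hG, ← hD]
  have h1 := BSm_three a1 b1 g1
  have h2 := BSm_three a1 b1 d1
  have h3 : 0 ≤ 2 / cc ^ 2 := by positivity
  have e1 : 0 ≤ A ^ 3 * D ^ 3 := by positivity
  have e2 : 0 ≤ B ^ 3 * D ^ 3 := by positivity
  have e3 : 0 ≤ A ^ 3 * G ^ 3 := by positivity
  have e4 : 0 ≤ B ^ 3 * G ^ 3 := by positivity
  calc 2 / cc ^ 2 * (A * B * (G ^ 2 + D ^ 2)) * (A * B)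
      = 2 / cc ^ 2 * (A ^ 2 * B ^ 2 * G ^ 2 + A ^ 2 * B ^ 2 * D ^ 2) := by ring
    _ ≤ 2 / cc ^ 2 * (2 * (A ^ 3 * B ^ 3 + (A ^ 3 * D ^ 3 + B ^ 3 * D ^ 3)
        + (A ^ 3 * G ^ 3 + B ^ 3 * G ^ 3))) := mul_le_mul_of_nonneg_left (by linarith) h3
    _ = _ := by ring

theorem PF_sum2 : ∃ C : ℝ, 0 ≤ C ∧ ∀ (b : ℂ) (p q : ℤ × ℤ),
    ‖PF b p q‖ * ‖mm p‖⁻¹ ^ 2 ≤ C * TM (p, q) := by
  have hcc := cc_pos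
  refine ⟨2 / cc ^ 2 * 2, by positivity, fun b p q => ?_⟩
  have h0 : 0 ≤ ‖mm p‖⁻¹ ^ 2 := by positivity
  refine (mul_le_mul_of_nonneg_right (PF_bound b p q) h0).trans ?_
  rw [BSm_TM]
  obtain ⟨A, hA⟩ : ∃ A, A = ‖mm p‖⁻¹ := ⟨_, rfl⟩
  obtain ⟨B, hB⟩ : ∃ B, B = ‖mm q‖⁻¹ := ⟨_, rfl⟩
  obtain ⟨G, hG⟩ : ∃ G, G = ‖mm (p + q)‖⁻¹ := ⟨_, rfl⟩
  obtain ⟨D, hD⟩ : ∃ D, D = ‖mm (p - q)‖⁻¹ := ⟨_, rfl⟩
  have a1 : 0 ≤ A := by rw [hA]; positivity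
  have b1 : 0 ≤ B := by rw [hB]; positivity
  have g1 : 0 ≤ G := by rw [hG]; positivity
  have d1 : 0 ≤ D := by rw [hD]; positivity
  rw [← hA, ← hB, ← hG, ← hD]
  have h1 := BSm_four a1 b1 g1
  have h2 := BSm_four a1 b1 d1
  have h3 : 0 ≤ 2 / cc ^ 2 := by positivity
  have e1 : 0 ≤ A ^ 3 * D ^ 3 := by positivity
  have e2 : 0 ≤ B ^ 3 * D ^ 3 := by positivity
  have e3 : 0 ≤ A ^ 3 * G ^ 3 := by positivity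
  have e4 : 0 ≤ B ^ 3 * G ^ 3 := by positivity
  calc 2 / cc ^ 2 * (A * B * (G ^ 2 + D ^ 2)) * A ^ 2
      = 2 / cc ^ 2 * (A ^ 3 * (B * G ^ 2) + A ^ 3 * (B * D ^ 2)) := by ring
    _ ≤ 2 / cc ^ 2 * (2 * (A ^ 3 * B ^ 3 + (A ^ 3 * D ^ 3 + B ^ 3 * D ^ 3)
        + (A ^ 3 * G ^ 3 + B ^ 3 * G ^ 3))) := mul_le_mul_of_nonneg_left (by linarith) h3
    _ = _ := by ring

theorem K3_eq (x y : ℤ × ℤ) : K3 (mm x) (mm y) =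
    k0 x y / (cj (mm x) * cj (mm y)) + k0 x y / cj (mm x) ^ 2 + k0 x y / cj (mm y) ^ 2 := by
  unfold K3 k0 dl
  rw [mm_sub]
  by_cases hx : mm x = 0
  · simp [hx]
  by_cases hy : mm y = 0
  · simp [hy]
  have hx' : cj (mm x) ≠ 0 := fun h => hx (cj_eq_zero.1 h)
  have hy' : cj (mm y) ≠ 0 := fun h => hy (cj_eq_zero.1 h)
  generalize mm x * cj (mm x) * (mm y * cj (mm y)) * ((mm x - mm y) * cj (mm x - mm y)) = D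
  generalize mm x * cj (mm y) - cj (mm x) * mm y = T
  rw [← div_mul_div_comm]
  generalize T / D = R
  field_simp
  ring

private lemma BSm_k0 (x y : ℤ × ℤ) : ‖k0 x y‖ ≤
    2 * (‖mm x‖⁻¹ * ‖mm y‖⁻¹ * ‖mm (x - y)‖⁻¹ ^ 2) := by
  unfold k0
  rw [norm_div, norm_mul, norm_mul, BSm_nn, BSm_nn, BSm_nn]
  calc ‖dl x y‖ / (‖mm x‖ ^ 2 * ‖mm y‖ ^ 2 * ‖mm (x - y)‖ ^ 2)
      = ‖dl x y‖ * (‖mm x‖⁻¹ ^ 2 * ‖mm y‖⁻¹ ^ 2 * ‖mm (x - y)‖⁻¹ ^ 2) := by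
        rw [div_eq_mul_inv, mul_inv, mul_inv, inv_pow, inv_pow, inv_pow]
    _ ≤ (2 * (‖mm x‖ * ‖mm y‖)) * (‖mm x‖⁻¹ ^ 2 * ‖mm y‖⁻¹ ^ 2 * ‖mm (x - y)‖⁻¹ ^ 2) :=
        mul_le_mul_of_nonneg_right (dl_bound x y) (by positivity)
    _ = 2 * ((‖mm x‖ * ‖mm x‖⁻¹ ^ 2) * (‖mm y‖ * ‖mm y‖⁻¹ ^ 2) * ‖mm (x - y)‖⁻¹ ^ 2) := by ring
    _ = _ := by rw [BSm_inv, BSm_inv]

private lemma BSm_le (x : (ℤ × ℤ) × (ℤ × ℤ)) :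
    ‖mm x.1‖⁻¹ ^ 3 * ‖mm x.2‖⁻¹ ^ 3 + ‖mm x.1‖⁻¹ ^ 3 * ‖mm (x.1 - x.2)‖⁻¹ ^ 3
      + ‖mm x.2‖⁻¹ ^ 3 * ‖mm (x.1 - x.2)‖⁻¹ ^ 3 ≤ TM x := by
  have h1 : 0 ≤ ‖mm x.1‖⁻¹ ^ 3 * ‖mm (x.1 + x.2)‖⁻¹ ^ 3 := by positivity
  have h2 : 0 ≤ ‖mm x.2‖⁻¹ ^ 3 * ‖mm (x.1 + x.2)‖⁻¹ ^ 3 := by positivity
  have h3 := BSm_TM x.1 x.2
  have h4 : TM (x.1, x.2) = TM x := rfl
  rw [← h4, h3]
  linarith

private lemma BSm_sum {f : (ℤ × ℤ) × (ℤ × ℤ) → ℂ} (h : ∀ x, ‖f x‖ ≤ 2 * TM x) :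
    Summable fun x => ‖f x‖ := by
  have hT : Summable (fun x : (ℤ × ℤ) × (ℤ × ℤ) => 2 * TM x) := TM_summable.mul_left 2
  have h0 : ∀ x, 0 ≤ ‖f x‖ := fun x => norm_nonneg _
  exact Summable.of_nonneg_of_le h0 h hT

theorem k0_sum1 : Summable (fun x : (ℤ × ℤ) × (ℤ × ℤ) =>
    ‖k0 x.1 x.2 / (cj (mm x.1) * cj (mm x.2))‖) := by
  refine BSm_sum fun x => ?_
  refine le_trans ?_ (mul_le_mul_of_nonneg_left (BSm_le x) zero_le_two)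
  rw [norm_div, norm_mul, norm_cj, norm_cj, div_eq_mul_inv, mul_inv]
  have a1 : 0 ≤ ‖mm x.1‖⁻¹ := by positivity
  have b1 : 0 ≤ ‖mm x.2‖⁻¹ := by positivity
  have d1 : 0 ≤ ‖mm (x.1 - x.2)‖⁻¹ := by positivity
  have h1 := mul_le_mul_of_nonneg_right (BSm_k0 x.1 x.2) (mul_nonneg a1 b1)
  have h2 := BSm_three a1 b1 d1
  refine h1.trans ?_
  calc _ = 2 * (‖mm x.1‖⁻¹ ^ 2 * ‖mm x.2‖⁻¹ ^ 2 * ‖mm (x.1 - x.2)‖⁻¹ ^ 2) := by ring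
    _ ≤ _ := mul_le_mul_of_nonneg_left h2 zero_le_two

theorem k0_sum2 : Summable (fun x : (ℤ × ℤ) × (ℤ × ℤ) => ‖k0 x.1 x.2 / cj (mm x.1) ^ 2‖) := by
  refine BSm_sum fun x => ?_
  refine le_trans ?_ (mul_le_mul_of_nonneg_left (BSm_le x) zero_le_two)
  rw [norm_div, norm_pow, norm_cj, div_eq_mul_inv, ← inv_pow]
  have a1 : 0 ≤ ‖mm x.1‖⁻¹ := by positivity
  have b1 : 0 ≤ ‖mm x.2‖⁻¹ := by positivity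
  have d1 : 0 ≤ ‖mm (x.1 - x.2)‖⁻¹ := by positivity
  have h1 := mul_le_mul_of_nonneg_right (BSm_k0 x.1 x.2) (sq_nonneg ‖mm x.1‖⁻¹)
  have h2 := BSm_four a1 b1 d1
  have h3 : 0 ≤ ‖mm x.2‖⁻¹ ^ 3 * ‖mm (x.1 - x.2)‖⁻¹ ^ 3 := by positivity
  refine h1.trans ?_
  calc _ = 2 * (‖mm x.1‖⁻¹ ^ 3 * (‖mm x.2‖⁻¹ * ‖mm (x.1 - x.2)‖⁻¹ ^ 2)) := by ring
    _ ≤ _ := mul_le_mul_of_nonneg_left (by linarith) zero_le_two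

theorem k0_sum3 : Summable (fun x : (ℤ × ℤ) × (ℤ × ℤ) => ‖k0 x.1 x.2 / cj (mm x.2) ^ 2‖) := by
  refine BSm_sum fun x => ?_
  refine le_trans ?_ (mul_le_mul_of_nonneg_left (BSm_le x) zero_le_two)
  rw [norm_div, norm_pow, norm_cj, div_eq_mul_inv, ← inv_pow]
  have a1 : 0 ≤ ‖mm x.1‖⁻¹ := by positivity
  have b1 : 0 ≤ ‖mm x.2‖⁻¹ := by positivity
  have d1 : 0 ≤ ‖mm (x.1 - x.2)‖⁻¹ := by positivity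
  have h1 := mul_le_mul_of_nonneg_right (BSm_k0 x.1 x.2) (sq_nonneg ‖mm x.2‖⁻¹)
  have h2 := BSm_four b1 a1 d1
  have h3 : 0 ≤ ‖mm x.1‖⁻¹ ^ 3 * ‖mm (x.1 - x.2)‖⁻¹ ^ 3 := by positivity
  refine h1.trans ?_
  calc _ = 2 * (‖mm x.2‖⁻¹ ^ 3 * (‖mm x.1‖⁻¹ * ‖mm (x.1 - x.2)‖⁻¹ ^ 2)) := by ring
    _ ≤ _ := mul_le_mul_of_nonneg_left (by linarith) zero_le_two

end UQO
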