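import Pool.Agent.UQO.Pars
import Pool.Agent.UNI.BFour
import Pool.Agent.UNI.BSm

/-!
# UNI/BFam1: the first family

PROOF. `pars` (UQO/Pars) with `F = F1` (`F1_meas`, `F1_bdd`, `F1_cont`) and `g = g1 W` (`g1_int`):
`∫ F1 g1 = Σ_k fcc F1 k · fcc g1 (-k)`. For `k = (p, q)`: `fcc g1 (-p, -q) = 4 WD W p q/(p̄ q̄)`
(`g1_fcc`, `WD_neg_left`, `WD_neg_right`, `mm_neg`). If `WD W p q ≠ 0` then none of `p + p`, `q + q`,
`(p + q) + (p + q)` is divisible by `N` (`WD_left`, `WD_right`, `WD_add`) and `F1_hat` applies: the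
term is `t (p, q) = -(I N² / cc²) WD W p q Δ(p,q)/(|p|²|q|²|p+q|² p̄ q̄)`; if `WD W p q = 0` both are
`0`. Replace `q` by `-q` (`Equiv` of `ℤ² × ℤ²`): `WD_neg_right`, `dl p (-q) = -dl p q`,
`cj (mm (-q)) = -cj (mm q)`, so the term becomes `-(I N²/cc²) WD W p q · k0 p q/(p̄ q̄)`.
Summability: `k0_sum1`, `WD_bound` (before the substitution: `Summable` is invariant under the
equivalence).
-/

open MeasureTheory

namespace UQO

variable [Lt]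

omit [Lt] in
private theorem BFam1_cj_neg (z : ℂ) : cj (-z) = -cj z := by
  simp [EE7.cj]

private theorem BFam1_term {N : ℕ} [NeZero N] {W : Gr N → Gr N → ℤ} (hW : Wg W) (p q : ℤ × ℤ) :
    fcc (fun x : E × E => F1 N (cu x.1) (cu x.2)) (p, q) *
      fcc (fun x : E × E => g1 W (cu x.1) (cu x.2)) (-(p, q)) =
    -(Complex.I * (N : ℂ) ^ 2 / (cc : ℂ) ^ 2) *
      (WD W p (-q) * (k0 p (-q) / (cj (mm p) * cj (mm (-q))))) := by
  have h0 : (-(p, q) : (ℤ × ℤ) × (ℤ × ℤ)) = (-p, -q) := rfl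
  rw [h0, g1_fcc hW, WD_neg_left hW, WD_neg_right hW, mm_neg, mm_neg, BFam1_cj_neg, BFam1_cj_neg]
  by_cases h : WD W p q = 0
  · rw [h]
    simp
  · have h1 : ¬ dv N (p + p) := fun h1 => h (WD_left hW q h1)
    have h2 : ¬ dv N (q + q) := fun h2 => h (WD_right hW p h2)
    have h3 : ¬ dv N ((p + q) + (p + q)) := fun h3 => h (WD_add hW h3)
    rw [F1_hat N h1 h2 h3]
    have h4 : dl p (-q) = -dl p q := by
      unfold dl
      rw [mm_neg, BFam1_cj_neg]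
      ring
    unfold k0
    rw [h4, sub_neg_eq_add, mm_neg, BFam1_cj_neg]
    ring

theorem fam1 {N : ℕ} [NeZero N] {W : Gr N → Gr N → ℤ} (hW : Wg W) :
    Integrable (fun q : E × E => F1 N (cu q.1) (cu q.2) * g1 W (cu q.1) (cu q.2)) ∧
    ∫ q : E × E, F1 N (cu q.1) (cu q.2) * g1 W (cu q.1) (cu q.2) =
      -(Complex.I * (N : ℂ) ^ 2 / (cc : ℂ) ^ 2) *
        ∑' x : (ℤ × ℤ) × (ℤ × ℤ), WD W x.1 x.2 *
          (k0 x.1 x.2 / (cj (mm x.1) * cj (mm x.2))) := by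
  obtain ⟨C, hC⟩ := F1_bdd N
  have hm := F1_meas N
  refine ⟨(g1_int W).bdd_mul (c := C) hm.aestronglyMeasurable
    (Filter.Eventually.of_forall fun q => hC _ _), ?_⟩
  obtain ⟨D, hD0, hD⟩ := WD_bound W
  have hS : Summable (fun x : (ℤ × ℤ) × (ℤ × ℤ) => WD W x.1 x.2 *
      (k0 x.1 x.2 / (cj (mm x.1) * cj (mm x.2)))) := by
    refine Summable.of_norm_bounded (k0_sum1.mul_left D) fun x => ?_
    rw [norm_mul]
    exact mul_le_mul_of_nonneg_right (hD _ _) (norm_nonneg _)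
  let e : ((ℤ × ℤ) × (ℤ × ℤ)) ≃ ((ℤ × ℤ) × (ℤ × ℤ)) :=
    Equiv.prodCongr (Equiv.refl _) (Equiv.neg _)
  have hT : ∀ x : (ℤ × ℤ) × (ℤ × ℤ),
      fcc (fun x : E × E => F1 N (cu x.1) (cu x.2)) x *
        fcc (fun x : E × E => g1 W (cu x.1) (cu x.2)) (-x) =
      (fun x : (ℤ × ℤ) × (ℤ × ℤ) => -(Complex.I * (N : ℂ) ^ 2 / (cc : ℂ) ^ 2) *
        (WD W x.1 x.2 * (k0 x.1 x.2 / (cj (mm x.1) * cj (mm x.2))))) (e x) := by
    rintro ⟨p, q⟩
    exact BFam1_term hW p q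
  have hs : Summable (fun x : (ℤ × ℤ) × (ℤ × ℤ) =>
      fcc (fun x : E × E => F1 N (cu x.1) (cu x.2)) x *
        fcc (fun x : E × E => g1 W (cu x.1) (cu x.2)) (-x)) := by
    refine (((e.summable_iff).2 (hS.mul_left (-(Complex.I * (N : ℂ) ^ 2 / (cc : ℂ) ^ 2)))).congr
      fun x => ?_)
    exact (hT x).symm
  rw [pars hm ⟨C, fun q => hC _ _⟩ (F1_cont N) (g1_int W) hs, tsum_congr hT,
    e.tsum_eq (fun x : (ℤ × ℤ) × (ℤ × ℤ) => -(Complex.I * (N : ℂ) ^ 2 / (cc : ℂ) ^ 2) *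
        (WD W x.1 x.2 * (k0 x.1 x.2 / (cj (mm x.1) * cj (mm x.2))))), tsum_mul_left]

end UQO
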