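import Pool.Agent.UNI.BDef

/-!
# UNI/BLoc: calculus of local bounds

`Ob k F s`: `‖F w‖ ≤ C ‖w - s‖ ^ k` for `w` near `s`, `w ≠ s` (`k : ℤ`).

PROOF. All elementary. In `mono` shrink `r` to `min r 1`: for `0 < ‖w - s‖ < 1` and `l ≤ k`,
`‖w - s‖ ^ k ≤ ‖w - s‖ ^ l` (`zpow_le_zpow_right_of_le_one₀` or similar); one may replace `C` by `|C|`
at the start. `mul`: `zpow_add₀`.
`of_diff`: a real differentiable function is Lipschitz at `s`
(`HasFDerivAt.isBigO_sub`/`DifferentiableAt.isBigO_sub`).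
`log_one`: for `‖x‖ ≤ 1/2`: `|log ‖1 + x‖| ≤ 2 ‖x‖` (as `1 - ‖x‖ ≤ ‖1 + x‖ ≤ 1 + ‖x‖`,
`log t ≤ t - 1`, `log t ≥ 1 - 1/t`); `‖X w‖ → 0` because `1 ≤ k`.
`log_an`: `f` analytic at `s`, not locally zero: `f w = (w - s)^n g w` near `s` with `g` analytic,
`g s ≠ 0` (`AnalyticAt.exists_eventuallyEq_pow_smul_nonzero_iff`); so
`log ‖f w‖ = n log ‖w - s‖ + log ‖g w‖`, the second term is bounded near `s` (continuity), and
`|log t| ≤ 1/t` for `0 < t < 1`.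
-/

open Filter Topology

namespace UQO

namespace Ob

variable {k l : ℤ} {F G : ℂ → ℂ} {s : ℂ}

private theorem BLoc_ev {p : ℂ → Prop} {s : ℂ} (h : ∀ᶠ w in 𝓝[≠] s, p w) :
    ∃ r : ℝ, 0 < r ∧ ∀ w, w ≠ s → ‖w - s‖ < r → p w := by
  rw [eventually_nhdsWithin_iff, Metric.eventually_nhds_iff] at h
  obtain ⟨r, hr, h⟩ := h
  exact ⟨r, hr, fun w hw hd => h (by rwa [dist_eq_norm]) hw⟩

private theorem BLoc_pos {w s : ℂ} (h : w ≠ s) : 0 < ‖w - s‖ := norm_pos_iff.2 (sub_ne_zero.2 h)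

private theorem BLoc_nonneg (h : Ob k F s) : ∃ C r : ℝ, 0 ≤ C ∧ 0 < r ∧
    ∀ w, w ≠ s → ‖w - s‖ < r → ‖F w‖ ≤ C * ‖w - s‖ ^ k := by
  obtain ⟨C, r, hr, h⟩ := h
  refine ⟨max C 0, r, le_max_right _ _, hr, fun w hw hd => (h w hw hd).trans ?_⟩
  exact mul_le_mul_of_nonneg_right (le_max_left _ _) (zpow_pos (BLoc_pos hw) k).le

theorem congr (h : Ob k F s) (he : ∀ᶠ w in 𝓝[≠] s, F w = G w) : Ob k G s := by
  obtain ⟨C, r, hr, h⟩ := h
  obtain ⟨r', hr', h'⟩ := BLoc_ev he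
  refine ⟨C, min r r', lt_min hr hr', fun w hw hd => ?_⟩
  rw [← h' w hw (lt_of_lt_of_le hd (min_le_right _ _))]
  exact h w hw (lt_of_lt_of_le hd (min_le_left _ _))

theorem mono (hkl : l ≤ k) (h : Ob k F s) : Ob l F s := by
  obtain ⟨C, r, hC, hr, h⟩ := BLoc_nonneg h
  refine ⟨C, min r 1, lt_min hr one_pos, fun w hw hd => ?_⟩
  refine (h w hw (lt_of_lt_of_le hd (min_le_left _ _))).trans ?_
  refine mul_le_mul_of_nonneg_left ?_ hC
  exact zpow_le_zpow_right_of_le_one₀ (BLoc_pos hw)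
    (lt_of_lt_of_le hd (min_le_right _ _)).le hkl

theorem add (hF : Ob k F s) (hG : Ob k G s) : Ob k (fun w => F w + G w) s := by
  obtain ⟨C, r, hr, h⟩ := hF
  obtain ⟨C', r', hr', h'⟩ := hG
  refine ⟨C + C', min r r', lt_min hr hr', fun w hw hd => ?_⟩
  have h1 := h w hw (lt_of_lt_of_le hd (min_le_left _ _))
  have h2 := h' w hw (lt_of_lt_of_le hd (min_le_right _ _))
  calc ‖F w + G w‖ ≤ ‖F w‖ + ‖G w‖ := norm_add_le _ _
    _ ≤ C * ‖w - s‖ ^ k + C' * ‖w - s‖ ^ k := add_le_add h1 h2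
    _ = (C + C') * ‖w - s‖ ^ k := by ring

theorem neg (hF : Ob k F s) : Ob k (fun w => -F w) s := by
  obtain ⟨C, r, hr, h⟩ := hF
  refine ⟨C, r, hr, fun w hw hd => ?_⟩
  show ‖-F w‖ ≤ _
  rw [norm_neg]
  exact h w hw hd

theorem sub (hF : Ob k F s) (hG : Ob k G s) : Ob k (fun w => F w - G w) s := by
  have h := hF.add hG.neg
  refine h.congr (Eventually.of_forall fun w => ?_)
  show F w + -G w = F w - G w
  ring

theorem const_mul (c : ℂ) (hF : Ob k F s) : Ob k (fun w => c * F w) s := by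
  obtain ⟨C, r, hr, h⟩ := hF
  refine ⟨‖c‖ * C, r, hr, fun w hw hd => ?_⟩
  show ‖c * F w‖ ≤ _
  rw [norm_mul, mul_assoc]
  exact mul_le_mul_of_nonneg_left (h w hw hd) (norm_nonneg c)

theorem mul (hF : Ob k F s) (hG : Ob l G s) : Ob (k + l) (fun w => F w * G w) s := by
  obtain ⟨C, r, hC, hr, h⟩ := BLoc_nonneg hF
  obtain ⟨C', r', hC', hr', h'⟩ := BLoc_nonneg hG
  refine ⟨C * C', min r r', lt_min hr hr', fun w hw hd => ?_⟩
  have h1 := h w hw (lt_of_lt_of_le hd (min_le_left _ _))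
  have h2 := h' w hw (lt_of_lt_of_le hd (min_le_right _ _))
  have hp := BLoc_pos hw
  show ‖F w * G w‖ ≤ _
  rw [norm_mul, zpow_add₀ hp.ne']
  calc ‖F w‖ * ‖G w‖ ≤ (C * ‖w - s‖ ^ k) * (C' * ‖w - s‖ ^ l) :=
        mul_le_mul h1 h2 (norm_nonneg _) (mul_nonneg hC (zpow_pos hp k).le)
    _ = C * C' * (‖w - s‖ ^ k * ‖w - s‖ ^ l) := by ring

theorem conj (hF : Ob k F s) : Ob k (fun w => cj (F w)) s := by
  obtain ⟨C, r, hr, h⟩ := hF
  refine ⟨C, r, hr, fun w hw hd => ?_⟩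
  have e : ‖cj (F w)‖ = ‖F w‖ := RCLike.norm_conj _
  show ‖cj (F w)‖ ≤ _
  rw [e]
  exact h w hw hd

theorem of_cont (h : ContinuousAt F s) : Ob 0 F s := by
  have h1 : ∀ᶠ w in 𝓝 s, ‖F w‖ < ‖F s‖ + 1 :=
    h.norm.eventually (gt_mem_nhds (lt_add_one _))
  obtain ⟨r, hr, h2⟩ := BLoc_ev (h1.filter_mono nhdsWithin_le_nhds)
  refine ⟨‖F s‖ + 1, r, hr, fun w hw hd => ?_⟩
  rw [zpow_zero, mul_one]
  exact (h2 w hw hd).le

theorem of_diff (h : DifferentiableAt ℝ F s) : Ob 1 (fun w => F w - F s) s := by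
  obtain ⟨c, hc⟩ := h.isBigO_sub.bound
  obtain ⟨r, hr, h2⟩ := BLoc_ev (hc.filter_mono nhdsWithin_le_nhds)
  refine ⟨c, r, hr, fun w hw hd => ?_⟩
  rw [zpow_one]
  exact h2 w hw hd

/-- translation of the argument -/
theorem shift {a : ℂ} (h : Ob k F (s + a)) : Ob k (fun w => F (w + a)) s := by
  obtain ⟨C, r, hr, h⟩ := h
  refine ⟨C, r, hr, fun w hw hd => ?_⟩
  have e : w + a - (s + a) = w - s := by ring
  have h1 := h (w + a) (fun hh => hw (add_right_cancel hh)) (by rwa [e])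
  rwa [e] at h1

private theorem BLoc_log {x : ℂ} (hx : ‖x‖ ≤ 1 / 2) : |Real.log ‖1 + x‖| ≤ 2 * ‖x‖ := by
  have h1 : ‖1 + x‖ ≤ 1 + ‖x‖ := by
    have := norm_add_le (1 : ℂ) x
    rwa [norm_one] at this
  have h2 : 1 - ‖x‖ ≤ ‖1 + x‖ := by
    have := norm_sub_norm_le (1 : ℂ) (-x)
    rw [norm_one, norm_neg, sub_neg_eq_add] at this
    exact this
  have h0 := norm_nonneg x
  have hpos : 0 < ‖1 + x‖ := by linarith
  have h3 := Real.log_le_sub_one_of_pos hpos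
  have h4 := Real.one_sub_inv_le_log_of_pos hpos
  have h5 : (‖1 + x‖)⁻¹ ≤ (1 - ‖x‖)⁻¹ := inv_anti₀ (by linarith) h2
  have h6 : (1 - ‖x‖)⁻¹ ≤ 1 + 2 * ‖x‖ := by
    rw [inv_le_comm₀ (by linarith) (by linarith), inv_le_iff_one_le_mul₀ (by linarith)]
    nlinarith
  rw [abs_le]
  constructor <;> linarith

theorem log_one (hk : 1 ≤ k) (hF : Ob k F s) :
    Ob k (fun w => ((Real.log ‖1 + F w‖ : ℝ) : ℂ)) s := by
  obtain ⟨C, r, hC, hr, h⟩ := BLoc_nonneg hF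
  have hC1 : 0 < 2 * (C + 1) := by linarith
  refine ⟨2 * C, min r (min 1 (1 / (2 * (C + 1)))),
    lt_min hr (lt_min one_pos (one_div_pos.2 hC1)), fun w hw hd => ?_⟩
  have hp := BLoc_pos hw
  have h1 := h w hw (lt_of_lt_of_le hd (min_le_left _ _))
  have h2 : ‖w - s‖ < 1 := lt_of_lt_of_le hd ((min_le_right _ _).trans (min_le_left _ _))
  have h3 : ‖w - s‖ < 1 / (2 * (C + 1)) :=
    lt_of_lt_of_le hd ((min_le_right _ _).trans (min_le_right _ _))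
  have h4 : ‖w - s‖ ^ k ≤ ‖w - s‖ := by
    have := zpow_le_zpow_right_of_le_one₀ hp h2.le hk
    rwa [zpow_one] at this
  have h5 : ‖F w‖ ≤ 1 / 2 := by
    rw [lt_div_iff₀ hC1] at h3
    have h6 : C * ‖w - s‖ ^ k ≤ C * ‖w - s‖ := mul_le_mul_of_nonneg_left h4 hC
    nlinarith
  show ‖((Real.log ‖1 + F w‖ : ℝ) : ℂ)‖ ≤ _
  rw [Complex.norm_real, Real.norm_eq_abs]
  calc |Real.log ‖1 + F w‖| ≤ 2 * ‖F w‖ := BLoc_log h5
    _ ≤ 2 * (C * ‖w - s‖ ^ k) := by linarith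
    _ = 2 * C * ‖w - s‖ ^ k := by ring

/-- the logarithm of `w - s` -/
theorem log_id : Ob (-1) (fun w => ((Real.log ‖w - s‖ : ℝ) : ℂ)) s := by
  refine ⟨1, 1, one_pos, fun w hw hd => ?_⟩
  have hp := BLoc_pos hw
  show ‖((Real.log ‖w - s‖ : ℝ) : ℂ)‖ ≤ _
  rw [Complex.norm_real, Real.norm_eq_abs, one_mul, zpow_neg_one,
    abs_of_nonpos (Real.log_nonpos hp.le hd.le), ← Real.log_inv]
  have h1 := Real.log_le_sub_one_of_pos (inv_pos.2 hp)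
  linarith

theorem log_an {f : ℂ → ℂ} (hf : AnalyticAt ℂ f s) (h0 : ∀ᶠ w in 𝓝[≠] s, f w ≠ 0) :
    Ob (-1) (fun w => ((Real.log ‖f w‖ : ℝ) : ℂ)) s := by
  have hn : ¬ ∀ᶠ z in 𝓝 s, f z = 0 := by
    intro h
    obtain ⟨w, hw1, hw2⟩ := (h0.and (h.filter_mono nhdsWithin_le_nhds)).exists
    exact hw1 hw2
  obtain ⟨n, g, hg, hgs, hfg⟩ := hf.exists_eventuallyEq_pow_smul_nonzero_iff.2 hn
  have h1 : Ob 0 (fun w => ((Real.log ‖g w‖ : ℝ) : ℂ)) s := by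
    apply of_cont
    have h2 : ContinuousAt (fun w => Real.log ‖g w‖) s :=
      hg.continuousAt.norm.log (norm_ne_zero_iff.2 hgs)
    exact Complex.continuous_ofReal.continuousAt.comp h2
  have h2 := ((log_id (s := s)).const_mul (n : ℂ)).add (h1.mono (by norm_num : (-1 : ℤ) ≤ 0))
  refine h2.congr ?_
  have h3 : ∀ᶠ w in 𝓝[≠] s, g w ≠ 0 :=
    (hg.continuousAt.eventually_ne hgs).filter_mono nhdsWithin_le_nhds
  filter_upwards [hfg.filter_mono nhdsWithin_le_nhds, h3, self_mem_nhdsWithin] with w hw hgw hws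
  have hp : ‖w - s‖ ≠ 0 := norm_ne_zero_iff.2 (sub_ne_zero.2 hws)
  rw [hw, norm_smul, norm_pow, Real.log_mul (pow_ne_zero n hp) (norm_ne_zero_iff.2 hgw),
    Real.log_pow]
  push_cast
  ring

end Ob

end UQO
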