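import Pool.Agent.UQO.ZBas
import Pool.Agent.UQO.ZInt
import Pool.Agent.UNI.BLoc
import Pool.Agent.UNI.BP

/-!
# UNI/BZloc: local behaviour of `Z` and `P`

PROOF. `Z_ob0`, `P_ob0`: if `Ofl (s + a)` then `Z`, `P` are continuous at `s + a` (`Z_deriv`,
`P_deriv`), `Ob.of_cont` and `Ob.shift`.
`Z_ob`: if `s + a = xx n` is a lattice point: `Z (w + a) = Z (w - s)` for all `w` (`Z_per`), and
`‖Z u‖ ≤ 1/‖u‖ + C` for small `u ≠ 0` (`Z_near`). Otherwise `Z_ob0` and `Ob.mono`. Same for `P_ob`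
with `P_near`.
`inv_ob`: at a lattice point `s = xx n`: `P w - P b = P (w - s) - P b`, and
`‖P u - 1/u²‖ ≤ C` gives `‖P u - P b‖ ≥ 1/‖u‖² - C' ≥ 1/(2‖u‖²)` for small `u`, so
`‖1/(P w - P b)‖ ≤ 2 ‖w - s‖²`.
`P_ev`: `P w = P b` with `Ofl w`, `Ofl b` means that `w - b` or `w + b` is a lattice point
(`P_eq_iff`); near `s`, `w ≠ s`, there are no lattice points other than `s` itself, and no points of
`b + Λ`, `-b + Λ` other than `s` (the lattice is discrete and closed; `ZBas_eventually` gives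
`∀ᶠ u in 𝓝[≠] 0, Ofl u`, and by translation `∀ᶠ w in 𝓝[≠] s, Ofl (w + a)` for all `s, a`:
if `Ofl (s + a)` use that `{Ofl}` is open (`ZBas_open`)).
`logP`: if `Ofl s`, `w ↦ P w - P b` is analytic at `s` (`DifferentiableOn.analyticAt` on the open set
`{Ofl}`; `P_deriv`) and not zero near `s` (`P_ev`): `Ob.log_an`. If `s` is a lattice point:
`P w - P b = (w - s)^(-2) (1 + X w)` with `X w = (w - s)² (P (w - s) - P b) - 1 = Ob 2` by `P_near`,
`log ‖P w - P b‖ = -2 log ‖w - s‖ + log ‖1 + X w‖`: `Ob.log_id`, `Ob.log_one`, `Ob.mono`.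
-/

open Filter Topology

namespace UQO

variable [Lt]

omit [Lt] in
lemma BZloc_tend (s a : ℂ) : Tendsto (fun w : ℂ => w + a) (𝓝[≠] s) (𝓝[≠] (s + a)) := by
  rw [tendsto_nhdsWithin_iff]
  constructor
  · have h : Continuous (fun w : ℂ => w + a) := by fun_prop
    exact (h.tendsto s).mono_left nhdsWithin_le_nhds
  · filter_upwards [self_mem_nhdsWithin] with w hw
    intro h
    exact hw (add_right_cancel h)

/-- `w + a` is not a lattice point for `w` near `s`, `w ≠ s` -/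
theorem ofl_ev (s a : ℂ) : ∀ᶠ w in 𝓝[≠] s, Ofl (w + a) :=
  (BZloc_tend s a).eventually (Pool.Agent.EllSch.Basic.eventually_off ind (s + a))

theorem P_ev {b : ℂ} (hb : Ofl b) (s : ℂ) : ∀ᶠ w in 𝓝[≠] s, P w ≠ P b := by
  filter_upwards [ofl_ev s 0, ofl_ev s b, ofl_ev s (-b)] with w h0 h1 h2 heq
  rw [add_zero] at h0
  rcases (P_eq_iff h0 hb).1 heq with h | h
  · exact h h1
  · rw [sub_eq_add_neg] at h
    exact h h2

theorem Z_ob0 {s a : ℂ} (h : Ofl (s + a)) : Ob 0 (fun w => Z (w + a)) s :=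
  (Ob.of_cont (Z_deriv h).continuousAt).shift

omit [Lt] in
/-- from a bound `‖F u - 1/u^k‖ ≤ C` near `0` to `‖F u‖ ≤ C' / ‖u‖^k` -/
lemma BZloc_pole {F : ℂ → ℂ} {C r : ℝ} (k : ℕ)
    (h : ∀ u : ℂ, u ≠ 0 → ‖u‖ < r → ‖F u - 1 / u ^ k‖ ≤ C) (u : ℂ) (h0 : u ≠ 0)
    (h1 : ‖u‖ < min r 1) : ‖F u‖ ≤ (1 + |C|) * ‖u‖ ^ (-(k : ℤ)) := by
  have hr : ‖u‖ < r := lt_of_lt_of_le h1 (min_le_left _ _)
  have h1' : ‖u‖ < 1 := lt_of_lt_of_le h1 (min_le_right _ _)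
  have hp : 0 < ‖u‖ := norm_pos_iff.2 h0
  have hpk : 0 < ‖u‖ ^ k := pow_pos hp k
  have hle : ‖u‖ ^ k ≤ 1 := pow_le_one₀ hp.le h1'.le
  have hinv : 1 ≤ (‖u‖ ^ k)⁻¹ := (one_le_inv₀ hpk).2 hle
  have e : ‖u‖ ^ (-(k : ℤ)) = (‖u‖ ^ k)⁻¹ := by
    rw [zpow_neg, zpow_natCast]
  have e2 : ‖(1 : ℂ) / u ^ k‖ = (‖u‖ ^ k)⁻¹ := by
    rw [norm_div, norm_one, norm_pow, one_div]
  have h2 : ‖F u‖ ≤ ‖F u - 1 / u ^ k‖ + ‖1 / u ^ k‖ := by
    have := norm_add_le (F u - 1 / u ^ k) (1 / u ^ k)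
    rwa [sub_add_cancel] at this
  rw [e, add_mul, one_mul]
  rw [e2] at h2
  have h3 : ‖F u - 1 / u ^ k‖ ≤ |C| * (‖u‖ ^ k)⁻¹ :=
    ((h u h0 hr).trans (le_abs_self C)).trans (le_mul_of_one_le_right (abs_nonneg C) hinv)
  linarith

theorem Z_ob (s a : ℂ) : Ob (-1) (fun w => Z (w + a)) s := by
  by_cases h : Ofl (s + a)
  · exact (Z_ob0 h).mono (by norm_num)
  · obtain ⟨n, hn⟩ := (not_ofl_iff _).1 h
    obtain ⟨C, r, hr, hC⟩ := Z_near
    refine ⟨1 + |C|, min r 1, lt_min hr one_pos, fun w hw hwr => ?_⟩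
    have e : w + a = (w - s) + xx n := by
      rw [← hn]
      ring
    have h1 := BZloc_pole (F := Z) (C := C) (r := r) 1
      (fun u h0 h2 => by rw [pow_one]; exact hC u h0 h2) (w - s) (sub_ne_zero.2 hw) hwr
    show ‖Z (w + a)‖ ≤ _
    rw [e, Z_per]
    simpa using h1

theorem P_ob0 {s a : ℂ} (h : Ofl (s + a)) : Ob 0 (fun w => P (w + a)) s :=
  (Ob.of_cont (P_deriv h).continuousAt).shift

theorem P_ob (s a : ℂ) : Ob (-2) (fun w => P (w + a)) s := by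
  by_cases h : Ofl (s + a)
  · exact (P_ob0 h).mono (by norm_num)
  · obtain ⟨n, hn⟩ := (not_ofl_iff _).1 h
    obtain ⟨C, r, hr, hC⟩ := P_near
    refine ⟨1 + |C|, min r 1, lt_min hr one_pos, fun w hw hwr => ?_⟩
    have e : w + a = (w - s) + xx n := by
      rw [← hn]
      ring
    have h1 := BZloc_pole (F := P) (C := C) (r := r) 2 hC (w - s) (sub_ne_zero.2 hw) hwr
    show ‖P (w + a)‖ ≤ _
    rw [e, P_per]
    exact h1

theorem inv_ob (b : ℂ) {s : ℂ} (h : ¬ Ofl s) : Ob 2 (fun w => 1 / (P w - P b)) s := by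
  obtain ⟨n, hn⟩ := (not_ofl_iff _).1 h
  obtain ⟨C, r, hr, hC⟩ := P_near
  set K : ℝ := |C| + ‖P b‖ with hK
  have hK0 : 0 ≤ K := by positivity
  have hd : 0 < 1 / (2 * (K + 1)) := by positivity
  refine ⟨2, min r (1 / (2 * (K + 1))), lt_min hr hd, fun w hw hwr => ?_⟩
  have hr1 : ‖w - s‖ < r := lt_of_lt_of_le hwr (min_le_left _ _)
  have hr2 : ‖w - s‖ < 1 / (2 * (K + 1)) := lt_of_lt_of_le hwr (min_le_right _ _)
  have h0 : w - s ≠ 0 := sub_ne_zero.2 hw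
  have e : w = (w - s) + xx n := by
    rw [← hn]
    ring
  have eP : P w = P (w - s) := by
    conv_lhs => rw [e]
    rw [P_per]
  set u : ℂ := w - s with hu
  have hp : 0 < ‖u‖ := norm_pos_iff.2 h0
  have hle : ‖u‖ ≤ 1 := by
    refine hr2.le.trans ?_
    rw [div_le_one (by positivity)]
    linarith
  have hsq : ‖u‖ ^ 2 ≤ ‖u‖ := by
    rw [sq]
    exact mul_le_of_le_one_right hp.le hle
  have hKu : K * ‖u‖ ^ 2 ≤ 1 / 2 := by
    have h1 : K * ‖u‖ ^ 2 ≤ K * (1 / (2 * (K + 1))) :=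
      mul_le_mul_of_nonneg_left (hsq.trans hr2.le) hK0
    refine h1.trans ?_
    rw [mul_one_div, div_le_div_iff₀ (by positivity) (by norm_num)]
    linarith
  have h2 := hC u h0 hr1
  have e2 : ‖(1 : ℂ) / u ^ 2‖ = (‖u‖ ^ 2)⁻¹ := by
    rw [norm_div, norm_one, norm_pow, one_div]
  have h3 : (‖u‖ ^ 2)⁻¹ ≤ ‖P u - P b‖ + K := by
    have h4 : (1 : ℂ) / u ^ 2 = (P u - P b) + (-(P u - 1 / u ^ 2) + P b) := by ring
    have h5 : ‖(1 : ℂ) / u ^ 2‖ ≤ ‖P u - P b‖ + (‖P u - 1 / u ^ 2‖ + ‖P b‖) := by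
      refine (le_of_eq (congrArg norm h4)).trans ?_
      refine (norm_add_le _ _).trans ?_
      have h6 := norm_add_le (-(P u - 1 / u ^ 2)) (P b)
      rw [norm_neg] at h6
      linarith
    rw [e2] at h5
    have := le_abs_self C
    linarith
  have hsp : 0 < ‖u‖ ^ 2 := by positivity
  have h6 : K ≤ (1 / 2) * (‖u‖ ^ 2)⁻¹ := by
    rw [← div_eq_mul_inv, le_div_iff₀ hsp]
    exact hKu
  have h7 : (1 / 2) * (‖u‖ ^ 2)⁻¹ ≤ ‖P u - P b‖ := by linarith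
  have h8 : 0 < (1 / 2) * (‖u‖ ^ 2)⁻¹ := by positivity
  show ‖1 / (P w - P b)‖ ≤ 2 * ‖u‖ ^ (2 : ℤ)
  rw [eP, norm_div, norm_one]
  refine (one_div_le_one_div_of_le h8 h7).trans (le_of_eq ?_)
  have : (‖u‖ ^ (2 : ℤ) : ℝ) = ‖u‖ ^ 2 := zpow_ofNat _ 2
  rw [this]
  field_simp

theorem logP {b : ℂ} (hb : Ofl b) (s : ℂ) :
    Ob (-1) (fun w => ((Real.log ‖P w - P b‖ : ℝ) : ℂ)) s := by
  by_cases h : Ofl s
  · have hd : DifferentiableOn ℂ (fun w => P w - P b) {u | Ofl u} := fun u hu =>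
      (((P_deriv hu).sub_const (P b)).differentiableAt).differentiableWithinAt
    refine Ob.log_an (f := fun w => P w - P b) (hd.analyticAt (ZBas_open.mem_nhds h)) ?_
    filter_upwards [P_ev hb s] with w hw
    exact sub_ne_zero.2 hw
  · obtain ⟨n, hn⟩ := (not_ofl_iff _).1 h
    obtain ⟨C, r, hr, hC⟩ := P_near
    have hX : Ob 2 (fun w => (w - s) ^ 2 * (P (w - s) - P b) - 1) s := by
      refine ⟨|C| + ‖P b‖, r, hr, fun w hw hwr => ?_⟩
      have h0 : w - s ≠ 0 := sub_ne_zero.2 hw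
      have h2 := hC (w - s) h0 hwr
      have e : (w - s) ^ 2 * (P (w - s) - P b) - 1 =
          (w - s) ^ 2 * ((P (w - s) - 1 / (w - s) ^ 2) - P b) := by
        field_simp
        ring
      have hz : (‖w - s‖ ^ (2 : ℤ) : ℝ) = ‖w - s‖ ^ 2 := zpow_ofNat _ 2
      show ‖(w - s) ^ 2 * (P (w - s) - P b) - 1‖ ≤ _
      rw [e, norm_mul, norm_pow, hz, mul_comm]
      refine mul_le_mul_of_nonneg_right ?_ (by positivity)
      refine (norm_sub_le _ _).trans ?_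
      have := le_abs_self C
      linarith
    have h1 : Ob (-1) (fun w => (-2 : ℂ) * ((Real.log ‖w - s‖ : ℝ) : ℂ) +
        ((Real.log ‖1 + ((w - s) ^ 2 * (P (w - s) - P b) - 1)‖ : ℝ) : ℂ)) s :=
      (Ob.log_id.const_mul (-2)).add ((Ob.log_one (by norm_num) hX).mono (by norm_num))
    refine h1.congr ?_
    filter_upwards [P_ev hb s, self_mem_nhdsWithin] with w hw hws
    have h0 : w - s ≠ 0 := sub_ne_zero.2 hws
    have e : w = (w - s) + xx n := by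
      rw [← hn]
      ring
    have eP : P w = P (w - s) := by
      conv_lhs => rw [e]
      rw [P_per]
    have hne : P (w - s) - P b ≠ 0 := by
      rw [← eP]
      exact sub_ne_zero.2 hw
    rw [eP, add_sub_cancel, norm_mul, norm_pow,
      Real.log_mul (pow_ne_zero 2 (norm_ne_zero_iff.2 h0)) (norm_ne_zero_iff.2 hne), Real.log_pow]
    push_cast
    ring

end UQO
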