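import Pool.Agent.UNI.BPhi
import Pool.Agent.UNI.BFej
import Pool.Agent.UNI.BSm
import Pool.Agent.UNI.BZloc

/-!
# UNI/BPsi: the Fourier coefficients of `w ↦ BW (GG b c w)` for a fixed `c`

PROOF. Fix `b`, `Ofl b`, and `p ≠ 0`. Let `f c = fc (fun w => BW (GG b c w)) p`, a bounded (`BWG_bdd`,
`norm_ch`), periodic (`GG_per'`) function; `y ↦ f (cu y)` is measurable on `E` (integral of a jointly
measurable function, `StronglyMeasurable.integral_prod_left` or similar, `BWG_meas2`), and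
`∫ y, f (cu y) ch (-q) (cu y) = Ph b p q` (Fubini, `BW` bounded). For `q ≠ 0` this is `PF b p q`
(`Ph_eq`), and `PF b p 0 = 0` (division by zero), so the family is summable (`PF_summable`; it
differs from `q ↦ PF b p q` only at `q = 0`).
LIMIT AT `0`: as `c → 0`, `c ≠ 0`: `‖P c‖ → ∞` (`P_near`), so for every `w` `GG b c w = (P w - P b)/
(P c - P b) → 0` and `BW (GG b c w) → BW 0 = 0` (`EE7.BW_cont`, `EE7.BW_zero`); by dominated
convergence `f c → 0` (`tendsto_integral_filter_of_dominated_convergence`, the filter `𝓝[≠] 0` is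
countably generated). Transfer to the torus (`F (cu y) → L` along `𝓝[≠] (pr c0)` if `F w → L` along
`𝓝[≠] c0`: private lemma `DHat0_lift` in EE7/DHat0 for `c0 = 0`; `pr` is open, `Tor_open`, `per_pr`):
`Tendsto (fun y => f (cu y)) (𝓝[≠] 0) (𝓝 0)`. `fej_pt` with `y = 0`, `L = 0` (`ch n (cu 0) = 1`):
`0 = Ph b p 0 + Σ_q PF b p q`, i.e. `Ph b p 0 = -Σ_q PF b p q`.
LIMIT AT `c0`, `Ofl c0`: `f c → f c0` as `c → c0`, `c ≠ c0`. If `P c0 ≠ P b` then
`GG b c w → GG b c0 w` for every `w` (`P` is continuous at `c0`), dominated convergence. If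
`P c0 = P b` then for `w` with `P w ≠ P b` (all `w` outside a countable set, so a.e.: `ae_cu`, `P_ev`
or `P_eq_iff`) `‖GG b c w‖ → ∞` (`P c ≠ P b` near `c0`, `P_ev`) and `BW (GG b c w) =
-BW (1/GG b c w) → 0` (`EE7.BW_inv`), so `f c → 0`, while `GG b c0 w = x / 0 = 0`, `BW 0 = 0`,
`f c0 = 0`. `fej_pt` at `y = pr c0` (`f (cu (pr c0)) = f c0`, `ch n (cu (pr c0)) = ch n c0`):
`f c0 = Ph b p 0 + Σ_q PF b p q ch q c0 = Σ_q PF b p q (ch q c0 - 1)`.
-/

open MeasureTheory Filter Topology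

namespace UQO

variable [Lt]

theorem lift_tendsto {A : Type*} {F : ℂ → A} (hF : Per F) {l : Filter A} {c : ℂ}
    (h : Tendsto F (𝓝[≠] c) l) : Tendsto (fun y : E => F (cu y)) (𝓝[≠] (pr c)) l := by
  intro S hS
  have h1 := h hS
  rw [mem_map, mem_nhdsWithin_iff_eventually] at h1 ⊢
  have h2 : 𝓝 (pr c) ≤ map pr (𝓝 c) := Tor_open.nhds_le c
  apply h2
  rw [mem_map]
  filter_upwards [h1] with u hu
  intro hu0
  have hu1 : u ∈ ({c} : Set ℂ)ᶜ := by
    intro h3
    apply hu0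
    rw [Set.mem_singleton_iff] at h3
    rw [h3]
    exact Set.mem_singleton _
  have := hu hu1
  simp only [Set.mem_preimage] at this ⊢
  rwa [per_pr hF]

theorem P_tendsto : Tendsto (fun u : ℂ => ‖P u‖) (𝓝[≠] 0) atTop := by
  obtain ⟨C, r, hr, h⟩ := P_near
  have h1 : Tendsto (fun u : ℂ => ‖1 / u ^ 2‖ - C) (𝓝[≠] 0) atTop := by
    apply tendsto_atTop_add_const_right
    have h2 : Tendsto (fun u : ℂ => ‖u⁻¹‖) (𝓝[≠] 0) atTop :=
      tendsto_norm_inv_nhdsNE_zero_atTop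
    have h3 : Tendsto (fun u : ℂ => ‖u⁻¹‖ * ‖u⁻¹‖) (𝓝[≠] 0) atTop := h2.atTop_mul_atTop₀ h2
    refine h3.congr (fun u => ?_)
    rw [one_div, ← inv_pow, norm_pow, sq]
  refine tendsto_atTop_mono' _ ?_ h1
  have h4 : ∀ᶠ u : ℂ in 𝓝[≠] 0, ‖u‖ < r := by
    have : ∀ᶠ u : ℂ in 𝓝 0, ‖u‖ < r := by
      have := Metric.ball_mem_nhds (0 : ℂ) hr
      filter_upwards [this] with u hu
      simpa using hu
    exact this.filter_mono nhdsWithin_le_nhds
  filter_upwards [h4, self_mem_nhdsWithin] with u hu hu0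
  have h5 := h u hu0 hu
  have h6 : ‖1 / u ^ 2‖ - ‖P u‖ ≤ ‖P u - 1 / u ^ 2‖ := by
    rw [norm_sub_rev]
    exact norm_sub_norm_le _ _
  linarith

private theorem BPsi_inv (z : ℂ) : BW z = -BW (1 / z) := by
  by_cases h : z = 0
  · rw [h, div_zero, EE7.BW_zero, neg_zero]
  · rw [EE7.BW_inv h, neg_neg]

private theorem BPsi_GG (b c w : ℂ) :
    ((BW (GG b c w) : ℝ) : ℂ) = ((-BW ((P c - P b) / (P w - P b)) : ℝ) : ℂ) := by
  rw [BPsi_inv (GG b c w)]
  unfold GG
  rw [one_div_div]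

private theorem BPsi_chm (n : ℤ × ℤ) : Measurable (fun x : E => ch n (cu x)) :=
  (continuous_ch_cu n).measurable

private theorem BPsi_meas1 (b c : ℂ) :
    Measurable (fun x : E => ((BW (GG b c (cu x)) : ℝ) : ℂ)) :=
  Complex.measurable_ofReal.comp (EE7.BW_meas.comp ((GG_meas b c).comp measurable_cu))

private theorem BPsi_chz (n : ℤ × ℤ) : ch n 0 = 1 := by
  unfold ch
  rw [mul_zero, cj_zero, sub_self, mul_zero, Complex.exp_zero]

/-- the function of `c` -/
private noncomputable def BPsi_f (b : ℂ) (p : ℤ × ℤ) (c : ℂ) : ℂ :=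
  fc (fun w => ((BW (GG b c w) : ℝ) : ℂ)) p

private theorem BPsi_per (b : ℂ) (p : ℤ × ℤ) : Per (BPsi_f b p) := by
  intro u n
  unfold BPsi_f fc
  refine integral_congr_ae (Eventually.of_forall fun x => ?_)
  show ((BW (GG b (u + xx n) (cu x)) : ℝ) : ℂ) * ch (-p) (cu x) =
    ((BW (GG b u (cu x)) : ℝ) : ℂ) * ch (-p) (cu x)
  have h := GG_per' b (cu x) u n
  have h' : GG b (u + xx n) (cu x) = GG b u (cu x) := h
  rw [h']

private theorem BPsi_meas2 (b : ℂ) (p : ℤ × ℤ) : Measurable (fun z : E × E =>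
    ((BW (GG b (cu z.2) (cu z.1)) : ℝ) : ℂ) * ch (-p) (cu z.1)) :=
  (BWG_meas2 b).mul ((BPsi_chm (-p)).comp measurable_fst)

private theorem BPsi_fm (b : ℂ) (p : ℤ × ℤ) : Measurable (fun y : E => BPsi_f b p (cu y)) := by
  have h := (BPsi_meas2 b p).stronglyMeasurable
  have h2 := h.integral_prod_left' (μ := (volume : Measure E))
  exact h2.measurable

private theorem BPsi_bd (b : ℂ) (p : ℤ × ℤ) : ∃ C : ℝ, ∀ c, ‖BPsi_f b p c‖ ≤ C := by
  obtain ⟨C, hC⟩ := BWG_bdd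
  refine ⟨C * (volume : Measure E).real Set.univ, fun c => ?_⟩
  unfold BPsi_f fc
  refine norm_integral_le_of_norm_le_const (Eventually.of_forall fun x => ?_)
  rw [norm_mul, norm_ch, mul_one]
  exact hC _

private theorem BPsi_fub (b : ℂ) (p q : ℤ × ℤ) :
    ∫ y : E, BPsi_f b p (cu y) * ch (-q) (cu y) = Ph b p q := by
  obtain ⟨C, hC⟩ := BWG_bdd
  have hi : Integrable (fun z : E × E => ((BW (GG b (cu z.2) (cu z.1)) : ℝ) : ℂ) *
      (ch (-p) (cu z.1) * ch (-q) (cu z.2))) := by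
    refine Integrable.of_bound (C := C) ?_ (Eventually.of_forall fun z => ?_)
    · exact ((BWG_meas2 b).mul (((BPsi_chm (-p)).comp measurable_fst).mul
        ((BPsi_chm (-q)).comp measurable_snd))).aestronglyMeasurable
    · rw [norm_mul, norm_mul, norm_ch, norm_ch, mul_one, mul_one]
      exact hC _
  have h1 : Ph b p q = ∫ y : E, ∫ x : E, ((BW (GG b (cu y) (cu x)) : ℝ) : ℂ) *
      (ch (-p) (cu x) * ch (-q) (cu y)) := by
    unfold Ph fcc
    exact integral_prod_symm _ hi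
  rw [h1]
  refine integral_congr_ae (Eventually.of_forall fun y => ?_)
  show BPsi_f b p (cu y) * ch (-q) (cu y) = ∫ x : E, ((BW (GG b (cu y) (cu x)) : ℝ) : ℂ) *
      (ch (-p) (cu x) * ch (-q) (cu y))
  unfold BPsi_f fc
  rw [← integral_mul_const]
  refine integral_congr_ae (Eventually.of_forall fun x => ?_)
  show ((BW (GG b (cu y) (cu x)) : ℝ) : ℂ) * ch (-p) (cu x) * ch (-q) (cu y) =
    ((BW (GG b (cu y) (cu x)) : ℝ) : ℂ) * (ch (-p) (cu x) * ch (-q) (cu y))
  ring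

private theorem BPsi_PF0 (b : ℂ) (p : ℤ × ℤ) : PF b p 0 = 0 := by
  unfold PF
  rw [mm_zero, zero_mul, mul_zero, div_zero, neg_zero, zero_mul]

private theorem BPsi_summ {b : ℂ} (hb : Ofl b) {p : ℤ × ℤ} (hp : p ≠ 0) :
    Summable (fun q : ℤ × ℤ => Ph b p q) := by
  have h1 : Summable (fun m : ℤ × ℤ => if m = 0 then Ph b p 0 else 0) :=
    summable_of_ne_finset_zero (s := {0}) (fun x hx => by
      rw [Finset.mem_singleton] at hx
      rw [if_neg hx])
  refine ((PF_summable b p).add h1).congr (fun m => ?_)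
  by_cases hm : m = 0
  · subst hm
    rw [BPsi_PF0, zero_add, if_pos rfl]
  · rw [if_neg hm, add_zero, Ph_eq hb hp hm]

private theorem BPsi_lim {b c L0 : ℂ} {p : ℤ × ℤ} {g : ℂ → ℂ}
    (h : ∀ w, Tendsto (fun c => ((BW (GG b c w) : ℝ) : ℂ)) (𝓝[≠] c) (𝓝 (g w)))
    (hL : fc g p = L0) : Tendsto (BPsi_f b p) (𝓝[≠] c) (𝓝 L0) := by
  obtain ⟨C, hC⟩ := BWG_bdd
  rw [← hL]
  unfold BPsi_f fc
  refine tendsto_integral_filter_of_dominated_convergence (fun _ => C)
    (Eventually.of_forall fun c' => ?_) (Eventually.of_forall fun c' => ?_)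
    (integrable_const _) ?_
  · exact ((BPsi_meas1 b c').mul (BPsi_chm (-p))).aestronglyMeasurable
  · refine Eventually.of_forall fun x => ?_
    rw [norm_mul, norm_ch, mul_one]
    exact hC _
  · exact Eventually.of_forall fun x => (h (cu x)).mul_const _

private theorem BPsi_lim0 (b : ℂ) (p : ℤ × ℤ) : Tendsto (BPsi_f b p) (𝓝[≠] 0) (𝓝 0) := by
  refine BPsi_lim (g := fun _ => 0) (fun w => ?_) ?_
  · have h1 : Tendsto (fun v : ℂ => ‖P v - P b‖) (𝓝[≠] 0) atTop := by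
      have h2 : Tendsto (fun v : ℂ => ‖P v‖ - ‖P b‖) (𝓝[≠] 0) atTop :=
        tendsto_atTop_add_const_right _ _ P_tendsto
      refine tendsto_atTop_mono (fun v => ?_) h2
      exact norm_sub_norm_le _ _
    have h3 : Tendsto (fun v : ℂ => (P v - P b)⁻¹) (𝓝[≠] 0) (𝓝 0) := by
      rw [tendsto_zero_iff_norm_tendsto_zero]
      simp only [norm_inv]
      exact tendsto_inv_atTop_zero.comp h1
    have h4 : Tendsto (fun v : ℂ => GG b v w) (𝓝[≠] 0) (𝓝 0) := by
      have h5 := h3.const_mul (P w - P b)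
      rw [mul_zero] at h5
      exact h5
    have h6 : Tendsto (fun v : ℂ => BW (GG b v w)) (𝓝[≠] 0) (𝓝 (BW 0)) :=
      (EE7.BW_cont.tendsto 0).comp h4
    rw [EE7.BW_zero] at h6
    have h7 := (Complex.continuous_ofReal.tendsto 0).comp h6
    rw [Complex.ofReal_zero] at h7
    exact h7
  · unfold fc
    simp

private theorem BPsi_limc (b : ℂ) (p : ℤ × ℤ) {c : ℂ} (hc : Ofl c) :
    Tendsto (BPsi_f b p) (𝓝[≠] c) (𝓝 (BPsi_f b p c)) := by
  refine BPsi_lim (g := fun w => ((BW (GG b c w) : ℝ) : ℂ)) (fun w => ?_) rfl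
  simp only [BPsi_GG]
  have h1 : ContinuousAt P c := (P_deriv hc).continuousAt
  have h2 : ContinuousAt (fun c => (P c - P b) / (P w - P b)) c :=
    (h1.sub continuousAt_const).div_const _
  have h3 : ContinuousAt (fun c => ((-BW ((P c - P b) / (P w - P b)) : ℝ) : ℂ)) c := by
    have h4 : ContinuousAt (fun c => BW ((P c - P b) / (P w - P b))) c :=
      ContinuousAt.comp (g := BW) EE7.BW_cont.continuousAt h2
    exact Complex.continuous_ofReal.continuousAt.comp h4.neg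
  exact h3.tendsto.mono_left nhdsWithin_le_nhds

private theorem BPsi_main {b c L : ℂ} (hb : Ofl b) {p : ℤ × ℤ} (hp : p ≠ 0)
    (hL : Tendsto (BPsi_f b p) (𝓝[≠] c) (𝓝 L)) : L = ∑' q : ℤ × ℤ, Ph b p q * ch q c := by
  obtain ⟨C, hC⟩ := BPsi_bd b p
  have h := fej_pt (F := fun y : E => BPsi_f b p (cu y)) (BPsi_fm b p) ⟨C, fun y => hC _⟩
    (lift_tendsto (BPsi_per b p) hL) (by
      simp only [BPsi_fub]
      exact BPsi_summ hb hp)
  rw [h]
  refine tsum_congr fun q => ?_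
  rw [BPsi_fub, per_pr (ch_per q)]

theorem psi_zero {b : ℂ} (hb : Ofl b) {p : ℤ × ℤ} (hp : p ≠ 0) :
    Ph b p 0 = -∑' q : ℤ × ℤ, PF b p q := by
  have h := BPsi_main hb hp (BPsi_lim0 b p)
  simp only [BPsi_chz, mul_one] at h
  have hs := BPsi_summ hb hp
  rw [hs.tsum_eq_add_tsum_ite 0] at h
  have h2 : (∑' m, if m = 0 then 0 else Ph b p m) = ∑' m, PF b p m := by
    refine tsum_congr fun m => ?_
    by_cases hm : m = 0
    · subst hm
      rw [BPsi_PF0, if_pos rfl]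
    · rw [if_neg hm, Ph_eq hb hp hm]
  rw [h2] at h
  exact eq_neg_of_add_eq_zero_left h.symm

theorem psi {b c : ℂ} (hb : Ofl b) (hc : Ofl c) {p : ℤ × ℤ} (hp : p ≠ 0) :
    fc (fun w => (BW (GG b c w) : ℂ)) p = ∑' q : ℤ × ℤ, PF b p q * (ch q c - 1) := by
  have h : BPsi_f b p c = ∑' q : ℤ × ℤ, Ph b p q * ch q c :=
    BPsi_main hb hp (BPsi_limc b p hc)
  have hs : Summable (fun q : ℤ × ℤ => Ph b p q * ch q c) := by
    refine Summable.of_norm ?_
    simp only [norm_mul, norm_ch, mul_one]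
    exact (BPsi_summ hb hp).norm
  have hs2 : Summable (fun q : ℤ × ℤ => PF b p q * ch q c) := by
    refine Summable.of_norm ?_
    simp only [norm_mul, norm_ch, mul_one]
    exact (PF_summable b p).norm
  rw [hs.tsum_eq_add_tsum_ite 0] at h
  have h2 : (∑' m, if m = 0 then 0 else Ph b p m * ch m c) = ∑' m, PF b p m * ch m c := by
    refine tsum_congr fun m => ?_
    by_cases hm : m = 0
    · subst hm
      rw [BPsi_PF0, if_pos rfl, zero_mul]
    · rw [if_neg hm, Ph_eq hb hp hm]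
  rw [h2, ch_idx_zero, mul_one, psi_zero hb hp] at h
  show BPsi_f b p c = _
  rw [h]
  simp only [mul_sub, mul_one]
  rw [hs2.tsum_sub (PF_summable b p)]
  ring

end UQO
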