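import Pool.Agent.UQO.Pars
import Pool.Agent.UNI.BFour
import Pool.Agent.UNI.BPsi

/-!
# UNI/BFour2: the function `F2 k`, and one term of the second family

PROOF. `F2 k u = Σ_{j ≠ 0, ±k} BW (GG (tq j) (tq k) u)`. `F2_eq`: for `j = ±k` the summand is `0`
(`P (tq k) = P (tq j)`, by `tq_neg`, `P_per`, `P_neg`; so `GG = x / 0 = 0`, `EE7.BW_zero`), so the sum
may run over all `j ≠ 0`. Measurable, bounded; continuous at every `q` with `Ofl (cu q.1)`
(`P` continuous, `EE7.BW_cont`, `continuousAt_cu` for the periodic function `F2 k`; a.e. by `ae_cu`).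
`F2_hat`: `F2_eq`, linearity of `fc`, `psi` (`ofl_tq`), and `tsum` of a finite sum of summable
families (`PF_summable`, `‖ch q c - 1‖ ≤ 2`). `PF_sum_j`: `sum_ss`.
`F2_hat_sum`: `‖fc (F2 k) p‖ ≤ Σ_q ‖Σ_j PF (tq j) p q‖ · 2`; with `‖mm p‖⁻¹ ^ 2` the double sum over
`(p, q)` converges (`PF_sum2`, `TM_summable`), so `Σ_p ‖fc (F2 k) p‖ ‖mm p‖⁻¹ ^ 2` converges
(`Summable.prod` for real families, `norm_tsum_le_tsum_norm`).
`fam2_kl`: `g (u, v) = gam N (u - v) * aa (tq l) v` is integrable with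
`fcc g (m, n) = fc gam m · fc aa_l (m + n)` (`conv_int3`, `conv_fcc3`), `F (u, v) = F2 k u` is
bounded, measurable, a.e. continuous, `fcc F (p, q) = fc (F2 k) p` if `q = 0` and `0` otherwise
(`prod_fcc` with the constant `1`, `integral_ch`). `pars`: `∫ F g = Σ_{(p,q)} fcc F (p,q) fcc g (-p,-q)
= Σ_p fc (F2 k) p · fc gam (-p) · fc aa_l (-p)`
`= Σ_p fc (F2 k) p · (-2 N² (1 - dc N p)/p̄) · (ss_l(p)/p̄)`
(`fc_gam`, `fc_aa`, `dc N (-p) = dc N p`, `ss b (-n) = ss b n`).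
(The sum over `ℤ² × ℤ²` of a family supported on `q = 0`: `Function.Injective.tsum_eq` and
`Summable` for the injection `p ↦ (p, 0)`.)
-/

open MeasureTheory

namespace UQO

variable [Lt] {N : ℕ} [NeZero N]

private theorem BFour2_GG0 {k j : Gr N} (h : j = k ∨ j = -k) (u : ℂ) :
    ((BW (GG (tq j) (tq k) u) : ℝ) : ℂ) = 0 := by
  have hP : P (tq j) = P (tq k) := by
    rcases h with h | h
    · rw [h]
    · rw [h]
      obtain ⟨m, hm⟩ := tq_neg k
      rw [hm, P_per, P_neg]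
  unfold GG
  rw [hP, sub_self, div_zero, EE7.BW_zero, Complex.ofReal_zero]

theorem F2_eq (k : Gr N) (u : ℂ) : F2 k u =
    ∑ j ∈ (Finset.univ : Finset (Gr N)).erase 0, (BW (GG (tq j) (tq k) u) : ℂ) := by
  unfold F2
  rw [Finset.sum_erase (f := fun j : Gr N => ((BW (GG (tq j) (tq k) u) : ℝ) : ℂ)) _
      (BFour2_GG0 (Or.inr rfl) u),
    Finset.sum_erase (f := fun j : Gr N => ((BW (GG (tq j) (tq k) u) : ℝ) : ℂ)) _
      (BFour2_GG0 (Or.inl rfl) u)]

theorem F2_per (k : Gr N) : Per (F2 k) := by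
  intro u n
  rw [F2_eq, F2_eq]
  refine Finset.sum_congr rfl fun j _ => ?_
  rw [GG_per (tq j) (tq k) u n]

private theorem BFour2_m1 (b c : ℂ) : Measurable (fun w : ℂ => ((BW (GG b c w) : ℝ) : ℂ)) :=
  Complex.measurable_ofReal.comp (EE7.BW_meas.comp (GG_meas b c))

theorem F2_meas (k : Gr N) : Measurable (F2 k) := by
  have h : F2 k = fun u => ∑ j ∈ (Finset.univ : Finset (Gr N)).erase 0,
      ((BW (GG (tq j) (tq k) u) : ℝ) : ℂ) := by
    funext u
    exact F2_eq k u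
  rw [h]
  exact Finset.measurable_fun_sum _ fun j _ => BFour2_m1 _ _

theorem F2_bdd (k : Gr N) : ∃ C : ℝ, ∀ u : ℂ, ‖F2 k u‖ ≤ C := by
  obtain ⟨C, hC⟩ := BWG_bdd
  refine ⟨∑ _j ∈ (Finset.univ : Finset (Gr N)).erase 0, C, fun u => ?_⟩
  rw [F2_eq]
  exact norm_sum_le_of_le _ fun j _ => hC _

private theorem BFour2_ca (k : Gr N) {u : ℂ} (hu : Ofl u) : ContinuousAt (F2 k) u := by
  have h : F2 k = fun u => ∑ j ∈ (Finset.univ : Finset (Gr N)).erase 0,
      ((BW (GG (tq j) (tq k) u) : ℝ) : ℂ) := by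
    funext u
    exact F2_eq k u
  rw [h]
  have h1 : ∀ j ∈ (Finset.univ : Finset (Gr N)).erase 0,
      ContinuousAt (fun u => ((BW (GG (tq j) (tq k) u) : ℝ) : ℂ)) u := by
    intro j _
    have h1 : ContinuousAt P u := (P_deriv hu).continuousAt
    have h2 : ContinuousAt (GG (tq j) (tq k)) u := (h1.sub continuousAt_const).div_const _
    have h4 : ContinuousAt (fun c => BW (GG (tq j) (tq k) c)) u :=
      ContinuousAt.comp (g := BW) EE7.BW_cont.continuousAt h2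
    exact Complex.continuous_ofReal.continuousAt.comp h4
  exact tendsto_finsetSum _ h1

theorem F2_cont (k : Gr N) :
    ∀ᵐ q : E × E, ContinuousAt (fun q : E × E => F2 k (cu q.1)) q := by
  have h1 : ∀ᵐ x : E, Ofl (cu x) := by
    filter_upwards [ae_cu (ofl_cnt 0)] with x hx
    by_contra hc
    refine hx ?_
    show ¬ Ofl (cu x + 0)
    rwa [add_zero]
  filter_upwards [TorAe_qfst.ae h1] with q hq
  have h2 : ContinuousAt (fun y : E => F2 k (cu y)) q.1 :=
    continuousAt_cu (F2_per k) (BFour2_ca k hq)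
  exact ContinuousAt.comp (g := fun y : E => F2 k (cu y)) (f := Prod.fst) h2 continuousAt_fst

theorem PF_sum_j (p q : ℤ × ℤ) :
    ∑ j ∈ (Finset.univ : Finset (Gr N)).erase 0, PF (tq j) p q =
      Complex.I * (N : ℂ) ^ 2 * dl p q /
        (2 * (cc : ℂ) ^ 2 * (mm p * cj (mm p)) * (mm q * cj (mm q))) *
      ((1 - dc N (p + q)) / (mm (p + q) * cj (mm (p + q)))
        - (1 - dc N (p - q)) / (mm (p - q) * cj (mm (p - q)))) := by
  unfold PF
  rw [← Finset.mul_sum, Finset.sum_sub_distrib, ← Finset.sum_div, ← Finset.sum_div, sum_ss,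
    sum_ss]
  ring

private theorem BFour2_fc (k : Gr N) (p : ℤ × ℤ) : fc (F2 k) p =
    ∑ j ∈ (Finset.univ : Finset (Gr N)).erase 0,
      fc (fun w => ((BW (GG (tq j) (tq k) w) : ℝ) : ℂ)) p := by
  obtain ⟨C, hC⟩ := BWG_bdd
  unfold fc
  rw [← integral_finsetSum]
  · refine integral_congr_ae (Filter.Eventually.of_forall fun x => ?_)
    show F2 k (cu x) * ch (-p) (cu x) = _
    rw [F2_eq, Finset.sum_mul]
  · intro j _
    refine Integrable.of_bound (C := C) ?_ (Filter.Eventually.of_forall fun x => ?_)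
    · exact (((BFour2_m1 _ _).comp measurable_cu).mul
        (continuous_ch_cu (-p)).measurable).aestronglyMeasurable
    · rw [norm_mul, norm_ch, mul_one]
      exact hC _

private theorem BFour2_two (q : ℤ × ℤ) (u : ℂ) : ‖ch q u - 1‖ ≤ 2 := by
  have h := norm_sub_le (ch q u) 1
  rw [norm_ch, norm_one] at h
  linarith

theorem F2_hat {k : Gr N} (hk : k ≠ 0) {p : ℤ × ℤ} (hp : p ≠ 0) :
    fc (F2 k) p = ∑' q : ℤ × ℤ,
      (∑ j ∈ (Finset.univ : Finset (Gr N)).erase 0, PF (tq j) p q) * (ch q (tq k) - 1) := by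
  rw [BFour2_fc]
  have h1 : ∀ j ∈ (Finset.univ : Finset (Gr N)).erase 0,
      fc (fun w => ((BW (GG (tq j) (tq k) w) : ℝ) : ℂ)) p =
        ∑' q : ℤ × ℤ, PF (tq j) p q * (ch q (tq k) - 1) := by
    intro j hj
    exact psi ((ofl_tq j).2 (Finset.ne_of_mem_erase hj)) ((ofl_tq k).2 hk) hp
  rw [Finset.sum_congr rfl h1, ← Summable.tsum_finsetSum]
  · refine tsum_congr fun q => ?_
    rw [Finset.sum_mul]
  · intro j _
    refine Summable.of_norm_bounded ((PF_summable (tq j) p).norm.mul_right 2) fun q => ?_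
    rw [norm_mul]
    exact mul_le_mul_of_nonneg_left (BFour2_two _ _) (norm_nonneg _)

private theorem BFour2_TM0 (x : (ℤ × ℤ) × (ℤ × ℤ)) : 0 ≤ TM x := by
  unfold TM
  positivity

theorem F2_hat_sum {k : Gr N} (hk : k ≠ 0) :
    Summable (fun p : ℤ × ℤ => ‖fc (F2 k) p‖ * ‖mm p‖⁻¹ ^ 2) := by
  obtain ⟨C, hC0, hC⟩ := PF_sum2
  set c : ℝ := ((((Finset.univ : Finset (Gr N)).erase 0).card : ℕ) : ℝ) with hc
  have hs := TM_summable.prod.mul_left (c * C * 2)
  refine Summable.of_nonneg_of_le (fun p => by positivity) (fun p => ?_) hs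
  by_cases hp : p = 0
  · subst hp
    rw [mm_zero, norm_zero, inv_zero, zero_pow two_ne_zero, mul_zero]
    exact mul_nonneg (by positivity) (tsum_nonneg fun q => BFour2_TM0 _)
  · have h1 : ‖fc (F2 k) p‖ * ‖mm p‖⁻¹ ^ 2 =
        ‖∑' q : ℤ × ℤ, ((∑ j ∈ (Finset.univ : Finset (Gr N)).erase 0, PF (tq j) p q) *
          (ch q (tq k) - 1)) * ((‖mm p‖⁻¹ ^ 2 : ℝ) : ℂ)‖ := by
      rw [tsum_mul_right, ← F2_hat hk hp, norm_mul, Complex.norm_real, Real.norm_of_nonneg]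
      positivity
    rw [h1]
    have h2 : Summable (fun q : ℤ × ℤ => TM (p, q)) := TM_summable.prod_factor p
    refine tsum_of_norm_bounded (h2.hasSum.mul_left (c * C * 2)) fun q => ?_
    rw [norm_mul, norm_mul, Complex.norm_real, Real.norm_of_nonneg (by positivity)]
    have h3 : ‖∑ j ∈ (Finset.univ : Finset (Gr N)).erase 0, PF (tq j) p q‖ * ‖mm p‖⁻¹ ^ 2 ≤
        c * (C * TM (p, q)) := by
      have h4 : ‖∑ j ∈ (Finset.univ : Finset (Gr N)).erase 0, PF (tq j) p q‖ ≤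
          ∑ j ∈ (Finset.univ : Finset (Gr N)).erase 0, ‖PF (tq j) p q‖ := norm_sum_le _ _
      refine (mul_le_mul_of_nonneg_right h4 (by positivity)).trans ?_
      rw [Finset.sum_mul]
      refine (Finset.sum_le_card_nsmul _ _ (C * TM (p, q)) fun j _ => hC _ _ _).trans ?_
      rw [nsmul_eq_mul]
    have h5 : 0 ≤ ‖∑ j ∈ (Finset.univ : Finset (Gr N)).erase 0, PF (tq j) p q‖ *
        ‖mm p‖⁻¹ ^ 2 := by positivity
    have h6 := mul_le_mul h3 (BFour2_two q (tq k)) (norm_nonneg _) (h5.trans h3)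
    calc _ = ‖∑ j ∈ (Finset.univ : Finset (Gr N)).erase 0, PF (tq j) p q‖ * ‖mm p‖⁻¹ ^ 2 *
          ‖ch q (tq k) - 1‖ := by ring
      _ ≤ c * (C * TM (p, q)) * 2 := h6
      _ = c * C * 2 * TM (p, q) := by ring

private theorem BFour2_ss_neg (b : ℂ) (n : ℤ × ℤ) : ss b (-n) = ss b n := by
  unfold ss
  rw [ch_arg_neg (-n) b, ch_arg_neg n b, neg_neg]
  ring

private theorem BFour2_dc_neg (n : ℤ × ℤ) : dc N (-n) = dc N n := by
  have h : dv N (-n) = dv N n := by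
    unfold dv
    rw [Prod.fst_neg, Prod.snd_neg, dvd_neg, dvd_neg]
  unfold dc
  by_cases h1 : dv N n
  · rw [if_pos h1, if_pos (h ▸ h1)]
  · rw [if_neg h1, if_neg (h ▸ h1)]

private theorem BFour2_dc_norm (n : ℤ × ℤ) : ‖1 - dc N n‖ ≤ 1 := by
  unfold dc
  split_ifs <;> simp

private theorem BFour2_one (q : ℤ × ℤ) : fc (fun _ => (1 : ℂ)) q = if q = 0 then 1 else 0 := by
  unfold fc
  simp only [one_mul]
  rw [integral_ch]
  simp only [neg_eq_zero]

theorem fam2_kl {k : Gr N} (hk : k ≠ 0) (l : Gr N) :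
    Integrable (fun q : E × E =>
      F2 k (cu q.1) * (gam N (cu q.1 - cu q.2) * aa (tq l) (cu q.2))) ∧
    ∫ q : E × E, F2 k (cu q.1) * (gam N (cu q.1 - cu q.2) * aa (tq l) (cu q.2)) =
      -(2 * (N : ℂ) ^ 2) * ∑' m : ℤ × ℤ,
        (1 - dc N m) * (fc (F2 k) m * (ss (tq l) m / cj (mm m) ^ 2)) := by
  obtain ⟨C, hC⟩ := F2_bdd k
  have hg : Integrable (fun q : E × E => gam N (cu q.1 - cu q.2) * aa (tq l) (cu q.2)) :=
    conv_int3 (gam_per N) (aa_int (tq l)) (gam_int N)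
  have hFm : Measurable (fun q : E × E => F2 k (cu q.1)) :=
    (F2_meas k).comp (measurable_cu.comp measurable_fst)
  refine ⟨hg.bdd_mul (c := C) hFm.aestronglyMeasurable
    (Filter.Eventually.of_forall fun q => hC _), ?_⟩
  have iF : Integrable (fun x : E => F2 k (cu x)) :=
    Integrable.of_bound (C := C) ((F2_meas k).comp measurable_cu).aestronglyMeasurable
      (Filter.Eventually.of_forall fun x => hC _)
  have i1 : Integrable (fun x : E => (fun _ : ℂ => (1 : ℂ)) (cu x)) := integrable_const _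
  have hF : ∀ p q : ℤ × ℤ, fcc (fun q : E × E => F2 k (cu q.1)) (p, q) =
      fc (F2 k) p * if q = 0 then 1 else 0 := by
    intro p q
    rw [← BFour2_one, ← prod_fcc iF i1]
    simp only [mul_one]
  have hgc : ∀ p q : ℤ × ℤ,
      fcc (fun q : E × E => gam N (cu q.1 - cu q.2) * aa (tq l) (cu q.2)) (p, q) =
      fc (gam N) p * fc (aa (tq l)) (p + q) := by
    intro p q
    exact conv_fcc3 (gam_per N) (aa_int (tq l)) (gam_int N) p q
  set f : (ℤ × ℤ) × (ℤ × ℤ) → ℂ := fun x => fcc (fun q : E × E => F2 k (cu q.1)) x *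
    fcc (fun q : E × E => gam N (cu q.1 - cu q.2) * aa (tq l) (cu q.2)) (-x) with hf
  have hf1 : ∀ m : ℤ × ℤ, f (m, 0) = -(2 * (N : ℂ) ^ 2) *
      ((1 - dc N m) * (fc (F2 k) m * (ss (tq l) m / cj (mm m) ^ 2))) := by
    intro m
    have h1 : (-((m, 0) : (ℤ × ℤ) × (ℤ × ℤ))) = (-m, 0) := by
      rw [Prod.neg_mk, neg_zero]
    simp only [hf]
    rw [h1, hF, hgc, if_pos rfl, mul_one, add_zero, fc_gam, fc_aa, BFour2_dc_neg, BFour2_ss_neg,
      mm_neg, cj_neg]
    ring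
  have hf0 : ∀ x : (ℤ × ℤ) × (ℤ × ℤ), x ∉ Set.range (fun m : ℤ × ℤ => (m, (0 : ℤ × ℤ))) →
      f x = 0 := by
    rintro ⟨p, q⟩ hx
    have hq : q ≠ 0 := by
      rintro rfl
      exact hx ⟨p, rfl⟩
    simp only [hf]
    rw [hF, if_neg hq, mul_zero, zero_mul]
  have hinj : Function.Injective (fun m : ℤ × ℤ => (m, (0 : ℤ × ℤ))) := by
    intro a b hab
    exact (Prod.ext_iff.1 hab).1
  have hsf : Summable f := by
    rw [← hinj.summable_iff hf0]
    refine Summable.of_norm_bounded ((F2_hat_sum hk).mul_left (8 * (N : ℝ) ^ 2)) fun m => ?_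
    show ‖f (m, 0)‖ ≤ _
    rw [hf1]
    simp only [norm_mul, norm_neg, norm_div, norm_pow, norm_cj, Complex.norm_natCast,
      Complex.norm_ofNat]
    have h1 := BFour2_dc_norm (N := N) m
    have h2 := ss_bound (tq l) m
    have h3 : ‖1 - dc N m‖ * (‖fc (F2 k) m‖ * (‖ss (tq l) m‖ / ‖mm m‖ ^ 2)) ≤
        1 * (‖fc (F2 k) m‖ * (4 / ‖mm m‖ ^ 2)) := by
      gcongr
    calc _ ≤ 2 * (N : ℝ) ^ 2 * (1 * (‖fc (F2 k) m‖ * (4 / ‖mm m‖ ^ 2))) := by gcongr
      _ = 8 * (N : ℝ) ^ 2 * (‖fc (F2 k) m‖ * ‖mm m‖⁻¹ ^ 2) := by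
        rw [div_eq_mul_inv, inv_pow]
        ring
  have hp := pars hFm ⟨C, fun q => hC _⟩ (F2_cont k) hg hsf
  refine hp.trans ?_
  rw [← tsum_mul_left]
  have hsup : Function.support f ⊆ Set.range (fun m : ℤ × ℤ => (m, (0 : ℤ × ℤ))) := by
    intro x hx
    by_contra hc
    exact hx (hf0 x hc)
  have h9 := hinj.tsum_eq hsup
  show ∑' x, f x = _
  rw [← h9]
  exact tsum_congr fun m => hf1 m

end UQO
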