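import Pool.Agent.UQO.ZInt
import Pool.Agent.UQO.TorAe
import Pool.Agent.UNI.BDef

/-!
# UNI/BInt: integrability on the torus from local bounds

`Ob k F s` (BDef): `‖F w‖ ≤ C ‖w - s‖ ^ k` for `w` near `s`, `w ≠ s`.

PROOF. By `LocallyIntegrable` (compact space `E`; `integrableOn_univ`,
`LocallyIntegrable.integrableOn_isCompact` or similar) it is enough to find for every `x : E` a
neighbourhood `U` of `x` with `F ∘ cu` integrable on `U`. Let `s = cu x`, `pr s = x` (`pr_cu`), `C, r`
from `Ob (-1) F s`, and `U = pr '' (ball s r)`, open (`Tor_open`). A point `y ∈ U`, `y ≠ x`, is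
`y = pr w` with `‖w - s‖ < r`, `w ≠ s`, `F (cu y) = F w` (`per_pr`), so
`‖F (cu y)‖ ≤ C / ‖w - s‖`, and `y - x = pr (w - s)` (`pr_sub`) has
`‖(y - x).1‖ + ‖(y - x).2‖ ≤ K ‖w - s‖` (definition of `pr`; `|(r : UnitAddCircle)| ≤ |r|`:
`UnitAddCircle.norm_eq`/`AddCircle.norm_le..`; `|u.re|, |u.im| ≤ ‖u‖`; `K = 1 + (1 + |re om|)/im om`).
So on `U`, outside the null set `{x}`, `‖F (cu y)‖ ≤ C K / (‖(y - x).1‖ + ‖(y - x).2‖)` (this is also
true with `0 < C`; replace `C` by `|C|`), and this function of `y` is integrable: translate of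
`norm_int` (`Integrable.comp_sub_right`, or `ZHat_integral_add`-like translation invariance).
Measurability: `hm.comp measurable_cu`.
-/

open MeasureTheory

namespace UQO

variable [Lt]

private theorem BInt_norm_coe_le (a : ℝ) : ‖(a : UnitAddCircle)‖ ≤ |a| := by
  rw [UnitAddCircle.norm_eq]
  have h := round_le a 0
  simpa using h

/-- the distance on the torus is bounded by the distance in the plane -/
private theorem BInt_dist (w s : ℂ) :
    ‖(pr w - pr s).1‖ + ‖(pr w - pr s).2‖ ≤ ZInt_c * ‖w - s‖ := by
  rw [← pr_sub]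
  have h1 := Tor_decomp (w - s)
  have h2 := ZInt_norm_ge ((w - s).re - (w - s).im / (om : ℂ).im * (om : ℂ).re)
    ((w - s).im / (om : ℂ).im)
  rw [h1] at h2
  refine le_trans (add_le_add ?_ ?_) h2
  · exact BInt_norm_coe_le _
  · exact BInt_norm_coe_le _

private theorem BInt_ae_ne (x : E) : ∀ᵐ y : E, y ≠ x := by
  have : (volume : Measure E).IsAddRightInvariant := by
    show ((volume : Measure UnitAddCircle).prod
      (volume : Measure UnitAddCircle)).IsAddRightInvariant
    infer_instance
  have h1 : ∀ᵐ y : E, y.1 ≠ 0 :=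
    (Measure.quasiMeasurePreserving_fst (μ := (volume : Measure UnitAddCircle))
      (ν := (volume : Measure UnitAddCircle))).ae ZInt_ae_ne
  have h2 := (measurePreserving_sub_right (volume : Measure E) x).quasiMeasurePreserving.ae h1
  filter_upwards [h2] with y hy h
  apply hy
  rw [h, sub_self]
  rfl

theorem int_local {F : ℂ → ℂ} (hF : Per F) (hm : Measurable F) (h : ∀ s, Ob (-1) F s) :
    Integrable (fun x : E => F (cu x)) := by
  have : (volume : Measure E).IsAddRightInvariant := by
    show ((volume : Measure UnitAddCircle).prod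
      (volume : Measure UnitAddCircle)).IsAddRightInvariant
    infer_instance
  have hl : LocallyIntegrable (fun x : E => F (cu x)) := by
    intro x
    obtain ⟨C, r, hr, hb⟩ := h (cu x)
    refine ⟨pr '' Metric.ball (cu x) r, ?_, ?_⟩
    · refine (Tor_open _ Metric.isOpen_ball).mem_nhds ⟨cu x, Metric.mem_ball_self hr, pr_cu x⟩
    · have hi : Integrable (fun y : E => |C| * ZInt_c * (1 / (‖(y - x).1‖ + ‖(y - x).2‖))) :=
        (norm_int.comp_sub_right x).const_mul (|C| * ZInt_c)
      have hms : MeasurableSet (pr '' Metric.ball (cu x) r) :=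
        (Tor_open _ Metric.isOpen_ball).measurableSet
      refine Integrable.mono' hi.integrableOn (hm.comp measurable_cu).aestronglyMeasurable ?_
      filter_upwards [ae_restrict_mem hms, ae_restrict_of_ae (BInt_ae_ne x)] with y hy hne
      obtain ⟨w, hw, rfl⟩ := hy
      have hws : w ≠ cu x := by
        rintro rfl
        exact hne (pr_cu x)
      have hw' : ‖w - cu x‖ < r := by
        rw [← dist_eq_norm]
        exact hw
      have h1 := hb w hws hw'
      have h2 : F (cu (pr w)) = F w := per_pr hF w
      show ‖F (cu (pr w))‖ ≤ _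
      rw [h2]
      have h3 := BInt_dist w (cu x)
      rw [pr_cu] at h3
      have hn0 : 0 < ‖w - cu x‖ := norm_pos_iff.2 (sub_ne_zero.2 hws)
      have hd0 : 0 < ‖(pr w - x).1‖ + ‖(pr w - x).2‖ := by
        by_contra hneg
        push Not at hneg
        have a1 := norm_nonneg (pr w - x).1
        have a2 := norm_nonneg (pr w - x).2
        apply hne
        have h5 : pr w - x = 0 :=
          Prod.ext (norm_eq_zero.mp (by linarith)) (norm_eq_zero.mp (by linarith))
        exact sub_eq_zero.1 h5
      have h4 : ‖F w‖ ≤ |C| * ‖w - cu x‖⁻¹ := by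
        refine h1.trans ?_
        rw [zpow_neg_one]
        exact mul_le_mul_of_nonneg_right (le_abs_self C) (by positivity)
      refine h4.trans ?_
      rw [mul_assoc]
      refine mul_le_mul_of_nonneg_left ?_ (abs_nonneg C)
      rw [mul_one_div, le_div_iff₀ hd0, inv_mul_le_iff₀ hn0]
      rw [mul_comm]
      exact h3
  exact integrableOn_univ.1 (hl.integrableOn_isCompact isCompact_univ)

end UQO
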