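import Pool.Agent.UNI.BZloc
import Pool.Agent.UNI.BGDer

/-!
# UNI/BLap1: local bounds for `QQ`, `AQ`, `JJ`

PROOF. Put `A = aa b`, `C = aa c`, `A' = ad b`, `C' = ad c`, `G = GG b c`; `Gp b c`.
`L0 = log ‖G‖ = log ‖P w - P b‖ - log ‖P c - P b‖` and `L1 = log ‖1 - G‖ =
log ‖P w - P c‖ - log ‖P c - P b‖` near every `s` (`P_ev`, `GG_one`, `P_ne`, `Real.log_div`), so both
are `Ob (-1)` at every `s` (`logP`, `Ob.of_cont`, `Ob.mono`).
`QQ = (1/2i)(L0 C - L1 A)`, `AQ = (1/2i)(L0 C' - L1 A')`, `JJ = (1/4i)(Ā C - A C̄)`.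
At a point `s` there are four cases (disjoint because of `Gp b c`):
(i) `s` in the lattice. `C - A = Z(w-c) + Z(w+c) - Z(w-b) - Z(w+b)` is `Ob 0`, `A` is `Ob (-1)`,
`C' - A' = P(w-b) + P(w+b) - P(w-c) - P(w+c)` is `Ob 0`, `A'` is `Ob (-2)`, and
`L0 - L1 = log ‖(P w - P b)/(P w - P c)‖ = log ‖1 + (P c - P b)/(P w - P c)‖` is `Ob 2`
(`inv_ob`, `Ob.log_one`). So `L0 C - L1 A = L0 (C - A) + (L0 - L1) A`,
`L0 C' - L1 A' = L0 (C' - A') + (L0 - L1) A'` and `Ā C - A C̄ = Ā (C - A) - A conj(C - A)` are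
`Ob (-1)`.
(ii) `s - b` or `s + b` in the lattice (then `s, s ± c` are not, by `Gp`): `C`, `C'` are `Ob 0`, `A`
is `Ob (-1)`, `A'` is `Ob (-2)`; `G s = 0` (`P s = P b`) and `G` is differentiable at `s`
(`P_deriv`), so `L1 = log ‖1 + (-G)‖` is `Ob 1` (`Ob.of_diff`, `Ob.log_one`).
(iii) `s - c` or `s + c` in the lattice: the same with `b` and `c` exchanged:
`G s = 1`, `L0 = log ‖1 + (G - 1)‖` is `Ob 1`, `A`, `A'` are `Ob 0`, `C` is `Ob (-1)`, `C'` is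
`Ob (-2)`.
(iv) otherwise `A, A', C, C'` are `Ob 0`, `L0, L1` are `Ob (-1)`.
-/

open Filter Topology

namespace UQO

variable [Lt]

private theorem BLap1_cst (c : ℂ) (s : ℂ) {k : ℤ} (hk : k ≤ 0) : Ob k (fun _ => c) s :=
  Ob.mono hk (Ob.of_cont continuousAt_const)

private theorem BLap1_L0 {b c : ℂ} (h : Gp b c) (s : ℂ) :
    Ob (-1) (fun w => ((Real.log ‖GG b c w‖ : ℝ) : ℂ)) s := by
  have hD := P_ne h
  refine Ob.congr (Ob.sub (logP h.1 s)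
    (BLap1_cst (((Real.log ‖P c - P b‖ : ℝ) : ℂ)) s (by norm_num))) ?_
  filter_upwards [P_ev h.1 s] with w hw
  have h1 : P w - P b ≠ 0 := sub_ne_zero.2 hw
  rw [← Complex.ofReal_sub, ← Real.log_div (norm_ne_zero_iff.2 h1) (norm_ne_zero_iff.2 hD), ← norm_div]
  rfl

private theorem BLap1_L1 {b c : ℂ} (h : Gp b c) (s : ℂ) :
    Ob (-1) (fun w => ((Real.log ‖1 - GG b c w‖ : ℝ) : ℂ)) s := by
  have hD := P_ne h
  refine Ob.congr (Ob.sub (logP h.2.1 s)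
    (BLap1_cst (((Real.log ‖P c - P b‖ : ℝ) : ℂ)) s (by norm_num))) ?_
  filter_upwards [P_ev h.2.1 s] with w hw
  have h1 : P w - P c ≠ 0 := sub_ne_zero.2 hw
  rw [← Complex.ofReal_sub, ← Real.log_div (norm_ne_zero_iff.2 h1) (norm_ne_zero_iff.2 hD), ← norm_div,
    GG_one h, ← norm_neg ((P w - P c) / (P c - P b)), ← neg_div, neg_sub]

private theorem BLap1_L01 {b c : ℂ} (h : Gp b c) {s : ℂ} (hs : ¬ Ofl s) :
    Ob 2 (fun w => ((Real.log ‖GG b c w‖ : ℝ) : ℂ) - ((Real.log ‖1 - GG b c w‖ : ℝ) : ℂ)) s := by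
  have hD := P_ne h
  refine Ob.congr (Ob.log_one (k := 2) (by norm_num) (Ob.const_mul (P c - P b) (inv_ob c hs))) ?_
  filter_upwards [P_ev h.1 s, P_ev h.2.1 s] with w hw hw'
  have h1 : P w - P b ≠ 0 := sub_ne_zero.2 hw
  have h2 : P w - P c ≠ 0 := sub_ne_zero.2 hw'
  have h3 : (1 : ℂ) + (P c - P b) * (1 / (P w - P c)) = (P w - P b) / (P w - P c) := by
    field_simp
    ring
  have h4 : ‖1 - GG b c w‖ = ‖P w - P c‖ / ‖P c - P b‖ := by
    rw [GG_one h, norm_div, ← norm_neg (P c - P w), neg_sub]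
  have h5 : ‖GG b c w‖ = ‖P w - P b‖ / ‖P c - P b‖ := norm_div _ _
  rw [h3, h4, h5, ← Complex.ofReal_sub, norm_div, Real.log_div (norm_ne_zero_iff.2 h1)
    (norm_ne_zero_iff.2 h2), Real.log_div (norm_ne_zero_iff.2 h1) (norm_ne_zero_iff.2 hD),
    Real.log_div (norm_ne_zero_iff.2 h2) (norm_ne_zero_iff.2 hD)]
  congr 1
  ring

private theorem BLap1_diff {b c s : ℂ} (hs : Ofl s) : DifferentiableAt ℝ (GG b c) s := by
  have h1 : HasDerivAt (GG b c) (P1 s / (P c - P b)) s :=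
    ((P_deriv hs).sub_const (P b)).div_const (P c - P b)
  exact h1.differentiableAt.restrictScalars ℝ

private theorem BLap1_L1' {b c : ℂ} {s : ℂ} (hs : Ofl s) (hG : GG b c s = 0) :
    Ob 1 (fun w => ((Real.log ‖1 - GG b c w‖ : ℝ) : ℂ)) s := by
  have h1 := Ob.log_one (k := 1) le_rfl (Ob.neg (Ob.of_diff (BLap1_diff (b := b) (c := c) hs)))
  refine Ob.congr h1 (Eventually.of_forall fun w => ?_)
  have e : (1 : ℂ) + -(GG b c w - GG b c s) = 1 - GG b c w := by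
    rw [hG]
    ring
  rw [e]

private theorem BLap1_L0' {b c : ℂ} {s : ℂ} (hs : Ofl s) (hG : GG b c s = 1) :
    Ob 1 (fun w => ((Real.log ‖GG b c w‖ : ℝ) : ℂ)) s := by
  have h1 := Ob.log_one (k := 1) le_rfl (Ob.of_diff (BLap1_diff (b := b) (c := c) hs))
  refine Ob.congr h1 (Eventually.of_forall fun w => ?_)
  simp only [hG, add_sub_cancel]

private theorem BLap1_b {b c s : ℂ} (h : Gp b c) (hs : ¬ Ofl (s - b) ∨ ¬ Ofl (s + b)) :
    Ofl s ∧ Ofl (s - c) ∧ Ofl (s + c) := by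
  obtain ⟨h1, h2, h3, h4⟩ := h
  rcases hs with h5 | h5
  · obtain ⟨n, hn⟩ := (not_ofl_iff _).1 h5
    have e1 : s = b + xx n := by linear_combination hn
    have e2 : s - c = (b - c) + xx n := by linear_combination hn
    have e3 : s + c = (b + c) + xx n := by linear_combination hn
    rw [e2, e3, ofl_add, ofl_add, e1, ofl_add]
    exact ⟨h1, h3, h4⟩
  · obtain ⟨n, hn⟩ := (not_ofl_iff _).1 h5
    have e1 : s = -b + xx n := by linear_combination hn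
    have e2 : s - c = -(b + c) + xx n := by linear_combination hn
    have e3 : s + c = -(b - c) + xx n := by linear_combination hn
    rw [e2, e3, ofl_add, ofl_add, e1, ofl_add, ofl_neg, ofl_neg, ofl_neg]
    exact ⟨h1, h4, h3⟩

private theorem BLap1_c {b c s : ℂ} (h : Gp b c) (hs : ¬ Ofl (s - c) ∨ ¬ Ofl (s + c)) :
    Ofl s ∧ Ofl (s - b) ∧ Ofl (s + b) := by
  refine BLap1_b (b := c) (c := b) ⟨h.2.1, h.1, ?_, ?_⟩ hs
  · rw [← ofl_neg, neg_sub]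
    exact h.2.2.1
  · rw [add_comm]
    exact h.2.2.2

private theorem BLap1_0 {a s : ℂ} (ha : Ofl a) (hs : ¬ Ofl s) : Ofl (s - a) ∧ Ofl (s + a) := by
  obtain ⟨n, rfl⟩ := (not_ofl_iff _).1 hs
  have e1 : xx n - a = -a + xx n := by ring
  have e2 : xx n + a = a + xx n := by ring
  rw [e1, e2, ofl_add, ofl_add, ofl_neg]
  exact ⟨ha, ha⟩

/-- the four cases -/
private theorem BLap1_main {b c s : ℂ} (h : Gp b c) {Fb Fc : ℂ → ℂ} {m : ℤ} (hm : m ≤ 2)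
    (h1 : ¬ Ofl s → Ob (-m) Fb s ∧ Ob 0 (fun w => Fc w - Fb w) s)
    (h2 : (¬ Ofl (s - b) ∨ ¬ Ofl (s + b)) → Ob (-m) Fb s ∧ Ob 0 Fc s)
    (h3 : (¬ Ofl (s - c) ∨ ¬ Ofl (s + c)) → Ob 0 Fb s ∧ Ob (-m) Fc s)
    (h4 : Ofl s → Ofl (s - b) → Ofl (s + b) → Ofl (s - c) → Ofl (s + c) → Ob 0 Fb s ∧ Ob 0 Fc s) :
    Ob (-1) (fun w => (1 / (2 * Complex.I)) * (((Real.log ‖GG b c w‖ : ℝ) : ℂ) * Fc w -
      ((Real.log ‖1 - GG b c w‖ : ℝ) : ℂ) * Fb w)) s := by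
  refine Ob.const_mul _ ?_
  have L0 := BLap1_L0 h s
  have L1 := BLap1_L1 h s
  by_cases hs : Ofl s
  · by_cases hb : ¬ Ofl (s - b) ∨ ¬ Ofl (s + b)
    · obtain ⟨hA, hC⟩ := h2 hb
      have hP : P s = P b := (P_eq_iff hs h.1).2 hb.symm
      have hG : GG b c s = 0 := by
        unfold GG
        rw [hP, sub_self, zero_div]
      have L1' := BLap1_L1' (b := b) (c := c) hs hG
      exact Ob.sub (Ob.mono (by norm_num) (Ob.mul L0 hC)) (Ob.mono (by linarith) (Ob.mul L1' hA))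
    · by_cases hc : ¬ Ofl (s - c) ∨ ¬ Ofl (s + c)
      · obtain ⟨hA, hC⟩ := h3 hc
        have hP : P s = P c := (P_eq_iff hs h.2.1).2 hc.symm
        have hG : GG b c s = 1 := by
          unfold GG
          rw [hP, div_self (P_ne h)]
        have L0' := BLap1_L0' (b := b) (c := c) hs hG
        exact Ob.sub (Ob.mono (by linarith) (Ob.mul L0' hC)) (Ob.mono (by norm_num) (Ob.mul L1 hA))
      · push Not at hb hc
        obtain ⟨hA, hC⟩ := h4 hs hb.1 hb.2 hc.1 hc.2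
        exact Ob.sub (Ob.mono (by norm_num) (Ob.mul L0 hC)) (Ob.mono (by norm_num) (Ob.mul L1 hA))
  · obtain ⟨hA, hC⟩ := h1 hs
    have L01 := BLap1_L01 h hs
    refine Ob.congr (Ob.add (Ob.mono (by norm_num) (Ob.mul L0 hC))
      (Ob.mono (by linarith) (Ob.mul L01 hA))) (Eventually.of_forall fun w => ?_)
    ring

private theorem BLap1_Zm (s b : ℂ) : Ob (-1) (fun w => Z (w - b)) s := by
  simpa only [sub_eq_add_neg] using Z_ob s (-b)

private theorem BLap1_Z (s : ℂ) : Ob (-1) (fun w => Z w) s := by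
  simpa only [add_zero] using Z_ob s 0

private theorem BLap1_Zm0 {s b : ℂ} (h : Ofl (s - b)) : Ob 0 (fun w => Z (w - b)) s := by
  rw [sub_eq_add_neg] at h
  simpa only [sub_eq_add_neg] using Z_ob0 h

private theorem BLap1_Z0 {s : ℂ} (h : Ofl s) : Ob 0 (fun w => Z w) s := by
  have h' : Ofl (s + 0) := by rwa [add_zero]
  simpa only [add_zero] using Z_ob0 h'

private theorem BLap1_Pm (s b : ℂ) : Ob (-2) (fun w => P (w - b)) s := by
  simpa only [sub_eq_add_neg] using P_ob s (-b)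

private theorem BLap1_P (s : ℂ) : Ob (-2) (fun w => P w) s := by
  simpa only [add_zero] using P_ob s 0

private theorem BLap1_Pm0 {s b : ℂ} (h : Ofl (s - b)) : Ob 0 (fun w => P (w - b)) s := by
  rw [sub_eq_add_neg] at h
  simpa only [sub_eq_add_neg] using P_ob0 h

private theorem BLap1_P0 {s : ℂ} (h : Ofl s) : Ob 0 (fun w => P w) s := by
  have h' : Ofl (s + 0) := by rwa [add_zero]
  simpa only [add_zero] using P_ob0 h'

private theorem BLap1_aa (b s : ℂ) : Ob (-1) (aa b) s :=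
  Ob.sub (Ob.add (BLap1_Zm s b) (Z_ob s b)) (Ob.const_mul 2 (BLap1_Z s))

private theorem BLap1_aa0 {b s : ℂ} (h : Ofl s) (h1 : Ofl (s - b)) (h2 : Ofl (s + b)) :
    Ob 0 (aa b) s :=
  Ob.sub (Ob.add (BLap1_Zm0 h1) (Z_ob0 h2)) (Ob.const_mul 2 (BLap1_Z0 h))

private theorem BLap1_ad (b s : ℂ) : Ob (-2) (ad b) s :=
  Ob.sub (Ob.sub (Ob.const_mul 2 (BLap1_P s)) (BLap1_Pm s b)) (P_ob s b)

private theorem BLap1_ad0 {b s : ℂ} (h : Ofl s) (h1 : Ofl (s - b)) (h2 : Ofl (s + b)) :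
    Ob 0 (ad b) s :=
  Ob.sub (Ob.sub (Ob.const_mul 2 (BLap1_P0 h)) (BLap1_Pm0 h1)) (P_ob0 h2)

private theorem BLap1_aad {b c s : ℂ} (h : Gp b c) (hs : ¬ Ofl s) :
    Ob 0 (fun w => aa c w - aa b w) s := by
  have hb := BLap1_0 h.1 hs
  have hc := BLap1_0 h.2.1 hs
  refine Ob.congr (Ob.sub (Ob.add (BLap1_Zm0 hc.1) (Z_ob0 hc.2))
    (Ob.add (BLap1_Zm0 hb.1) (Z_ob0 hb.2))) (Eventually.of_forall fun w => ?_)
  unfold aa
  ring

private theorem BLap1_add {b c s : ℂ} (h : Gp b c) (hs : ¬ Ofl s) :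
    Ob 0 (fun w => ad c w - ad b w) s := by
  have hb := BLap1_0 h.1 hs
  have hc := BLap1_0 h.2.1 hs
  refine Ob.congr (Ob.sub (Ob.add (BLap1_Pm0 hb.1) (P_ob0 hb.2))
    (Ob.add (BLap1_Pm0 hc.1) (P_ob0 hc.2))) (Eventually.of_forall fun w => ?_)
  unfold ad
  ring

theorem QQ_ob {b c : ℂ} (h : Gp b c) (s : ℂ) : Ob (-1) (QQ b c) s := by
  refine BLap1_main (m := 1) h (by norm_num) (fun hs => ⟨BLap1_aa b s, BLap1_aad h hs⟩)
    (fun hs => ?_) (fun hs => ?_) (fun h0 h1 h2 h3 h4 => ⟨BLap1_aa0 h0 h1 h2, BLap1_aa0 h0 h3 h4⟩)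
  · obtain ⟨h0, h1, h2⟩ := BLap1_b h hs
    exact ⟨BLap1_aa b s, BLap1_aa0 h0 h1 h2⟩
  · obtain ⟨h0, h1, h2⟩ := BLap1_c h hs
    exact ⟨BLap1_aa0 h0 h1 h2, BLap1_aa c s⟩

theorem AQ_ob {b c : ℂ} (h : Gp b c) (s : ℂ) : Ob (-1) (AQ b c) s := by
  refine BLap1_main (m := 2) h le_rfl (fun hs => ⟨BLap1_ad b s, BLap1_add h hs⟩)
    (fun hs => ?_) (fun hs => ?_) (fun h0 h1 h2 h3 h4 => ⟨BLap1_ad0 h0 h1 h2, BLap1_ad0 h0 h3 h4⟩)
  · obtain ⟨h0, h1, h2⟩ := BLap1_b h hs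
    exact ⟨BLap1_ad b s, BLap1_ad0 h0 h1 h2⟩
  · obtain ⟨h0, h1, h2⟩ := BLap1_c h hs
    exact ⟨BLap1_ad0 h0 h1 h2, BLap1_ad c s⟩

theorem JJ_ob {b c : ℂ} (h : Gp b c) (s : ℂ) : Ob (-1) (JJ b c) s := by
  refine Ob.const_mul _ ?_
  have hA := BLap1_aa b s
  have hC := BLap1_aa c s
  by_cases hs : Ofl s
  · by_cases hb : ¬ Ofl (s - b) ∨ ¬ Ofl (s + b)
    · obtain ⟨h0, h1, h2⟩ := BLap1_b h hb
      have hC0 := BLap1_aa0 h0 h1 h2
      exact Ob.sub (Ob.mono (by norm_num) (Ob.mul (Ob.conj hA) hC0))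
        (Ob.mono (by norm_num) (Ob.mul hA (Ob.conj hC0)))
    · push Not at hb
      have hA0 := BLap1_aa0 hs hb.1 hb.2
      exact Ob.sub (Ob.mono (by norm_num) (Ob.mul (Ob.conj hA0) hC))
        (Ob.mono (by norm_num) (Ob.mul hA0 (Ob.conj hC)))
  · have hD := BLap1_aad h hs
    refine Ob.congr (Ob.sub (Ob.mono (l := -1) (by norm_num) (Ob.mul (Ob.conj hA) hD))
      (Ob.mono (by norm_num) (Ob.mul hA (Ob.conj hD)))) (Eventually.of_forall fun w => ?_)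
    simp only [cj_sub]
    ring

end UQO
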