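import Pool.Agent.UQO.Green
import Pool.Agent.UNI.BInt
import Pool.Agent.UNI.BLap1
import Pool.Agent.EE7.BWb
import Pool.Agent.EE7.BWc

/-!
# UNI/BLap2: the Laplace equation of `w ↦ BW (GG b c w)` for fixed generic `b, c`

PROOF. `BWG_deriv`: chain rule for `EE7.BW_deriv` (EE7/BWb; `GG_ne`) and `GG_deriv`, then `D1_GG`:
for `G : ℂ → ℂ` with real derivative `wl A B` at `f u` and `f` holomorphic with derivative `f'`,
`G ∘ f` has derivative `wl (A f') (B conj f')` (private lemma `DX_comp` in EE7/DX, copy it).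
`QQ_deriv`: `QQ = (1/2i)(log ‖G‖ C - log ‖1 - G‖ A)` with `A = aa b`, `C = aa c`; by
`BWc_log`/`BWc_log'` (EE7/BWc) and the chain rule, `log ‖G‖` has derivative `wl (A/2) (Ā/2)`
(as `G' = A G`) and `log ‖1 - G‖` has derivative `wl (C/2) (C̄/2)` (as `-G'/(1 - G) = C`, `aa_c`);
`A`, `C` have derivatives `wl (ad b w) 0`, `wl (ad c w) 0` (`aa_deriv`). Product rule
(`BWc_mul` in EE7/BWc). The terms `A C/2 - C A/2` cancel in the `∂` part.
`lap`: `F = BW ∘ G` is bounded (`EE7.BW_bdd`), measurable, periodic; `QQ`, `AQ`, `JJ`, `conj QQ` are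
integrable (`int_local`, `QQ_ob` ...; the conjugate of an integrable function is integrable).
`green_ch` for `F` (`A = QQ`, `B = conj QQ`) and for `QQ` (`A = AQ`, `B = JJ`), `S = {w | ¬ Gd b c w}`
(`Gd_cnt`): `fc QQ n = cc mm n fc F n`, `fc JJ n = -cc cj (mm n) fc QQ n`.
-/

open MeasureTheory

namespace UQO

variable [Lt]

omit [Lt] in
private theorem BLap2_wl (A B h : ℂ) : EE7.wl A B h = A * h + B * cj h := by
  simp only [EE7.wl, cj, _root_.add_apply, _root_.smul_apply,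
    ContinuousLinearMap.id_apply, smul_eq_mul, ContinuousLinearEquiv.coe_coe,
    Complex.conjCLE_apply]

omit [Lt] in
private theorem BLap2_comp {G f : ℂ → ℂ} {A B f' u : ℂ} (hG : HasFDerivAt G (EE7.wl A B) (f u))
    (hf : HasDerivAt f f' u) :
    HasFDerivAt (fun w => G (f w)) (EE7.wl (A * f') (B * cj f')) u := by
  refine (hG.comp u (EE7.BWc_holo hf)).congr_fderiv ?_
  apply ContinuousLinearMap.ext
  intro h
  rw [ContinuousLinearMap.comp_apply, BLap2_wl, BLap2_wl, BLap2_wl, zero_mul, add_zero, cj_mul]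
  ring

omit [Lt] in
private theorem BLap2_ne {z : ℂ} (h1 : z ≠ 1) : 1 - z ≠ 0 ∧ 1 - cj z ≠ 0 := by
  have h0' : (1 : ℂ) - z ≠ 0 := sub_ne_zero.2 h1.symm
  refine ⟨h0', fun h => h0' ?_⟩
  have h2 : cj (1 - z) = 0 := by rw [cj_sub, cj_one, h]
  exact cj_eq_zero.1 h2

theorem BWG_deriv {b c w : ℂ} (h : Gp b c) (hw : Gd b c w) :
    HasFDerivAt (fun w => (BW (GG b c w) : ℂ)) (EE7.wl (QQ b c w) (cj (QQ b c w))) w := by
  obtain ⟨h0, h1⟩ := GG_ne h hw
  have h2 := BLap2_comp (G := fun z => (BW z : ℂ)) (f := GG b c) (EE7.BW_deriv h0 h1)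
    (GG_deriv h hw)
  rw [← cj_mul, D1_GG h hw] at h2
  exact h2

theorem QQ_deriv {b c w : ℂ} (h : Gp b c) (hw : Gd b c w) :
    HasFDerivAt (QQ b c) (EE7.wl (AQ b c w) (JJ b c w)) w := by
  obtain ⟨h0, h1⟩ := GG_ne h hw
  obtain ⟨g1, g1'⟩ := BLap2_ne h1
  have g0' : cj (GG b c w) ≠ 0 := fun e => h0 (cj_eq_zero.1 e)
  have hG := GG_deriv h hw
  have l0 := BLap2_comp (f := GG b c) (EE7.BWc_log h0) hG
  have l1 := BLap2_comp (f := GG b c) (EE7.BWc_log' h1) hG
  have dc := aa_deriv (b := c) hw.1 hw.2.2.2.1 hw.2.2.2.2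
  have db := aa_deriv (b := b) hw.1 hw.2.1 hw.2.2.1
  have key := EE7.BWc_const_mul (1 / (2 * Complex.I)) (EE7.BWc_sub (EE7.BWc_mul l0 dc)
    (EE7.BWc_mul l1 db))
  have hc := aa_c h hw
  have hcc : cj (aa c w) = -(cj (aa b w) * cj (GG b c w) / (1 - cj (GG b c w))) := by
    rw [hc, cj_neg, cj_div, cj_mul, cj_sub, cj_one]
  have hI : Complex.I ≠ 0 := Complex.I_ne_zero
  unfold QQ
  convert key using 2
  · unfold AQ
    rw [hc]
    field_simp
    ring
  · unfold JJ
    rw [hcc, hc, cj_mul]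
    field_simp
    ring

theorem lap {b c : ℂ} (h : Gp b c) :
    Integrable (fun x : E => JJ b c (cu x)) ∧
    ∀ n : ℤ × ℤ, fc (JJ b c) n =
      -((cc : ℂ) ^ 2 * (mm n * cj (mm n)) * fc (fun w => (BW (GG b c w) : ℂ)) n) := by
  have iQ := int_local (QQ_per b c) (QQ_meas b c) (QQ_ob h)
  have iA := int_local (AQ_per b c) (AQ_meas b c) (AQ_ob h)
  have iJ := int_local (JJ_per b c) (JJ_meas b c) (JJ_ob h)
  have mF : Measurable (fun w : ℂ => (BW (GG b c w) : ℂ)) :=
    Complex.measurable_ofReal.comp (EE7.BW_cont.measurable.comp (GG_meas b c))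
  have iF : Integrable (fun x : E => (BW (GG b c (cu x)) : ℂ)) := by
    obtain ⟨C, hC, hb⟩ := EE7.BW_bdd
    refine Integrable.mono' (integrable_const C) (mF.comp measurable_cu).aestronglyMeasurable
      (Filter.Eventually.of_forall fun x => ?_)
    rw [Complex.norm_real, Real.norm_eq_abs]
    exact hb _
  have mc : Measurable (fun w : ℂ => cj (QQ b c w)) :=
    Complex.continuous_conj.measurable.comp (QQ_meas b c)
  have iQc : Integrable (fun x : E => cj (QQ b c (cu x))) := by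
    refine Integrable.mono' iQ.norm (mc.comp measurable_cu).aestronglyMeasurable
      (Filter.Eventually.of_forall fun x => ?_)
    rw [norm_cj]
  have pF : Per (fun w : ℂ => (BW (GG b c w) : ℂ)) := fun u n => by
    simp only [GG_per b c u n]
  have pQc : Per (fun w : ℂ => cj (QQ b c w)) := fun u n => by
    simp only [QQ_per b c u n]
  have hgood : ∀ u, u ∉ {w : ℂ | ¬ Gd b c w} → Gd b c u := fun u hu => by
    by_contra hh
    exact hu hh
  refine ⟨iJ, fun n => ?_⟩
  have h1 := (green_ch pF (QQ_per b c) pQc (Gd_cnt b c)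
    (fun u hu => BWG_deriv h (hgood u hu)) iF iQ iQc n).1
  have h2 := (green_ch (QQ_per b c) (AQ_per b c) (JJ_per b c) (Gd_cnt b c)
    (fun u hu => QQ_deriv h (hgood u hu)) iQ iA iJ n).2
  rw [h2, h1]
  ring

end UQO
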