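import Pool.Agent.UNI.BConv
import Pool.Agent.UNI.BLap2
import Pool.Agent.EE7.BWb

/-!
# UNI/BPhi: the double Fourier coefficients of `BW (GG b c w)`

`Ph b p q = ∫∫ BW (GG b c w) ch (-p) w ch (-q) c`, `w = cu x.1`, `c = cu x.2`.

PROOF (compare EE7/DHat, where `b` is a half period). Let `Ofl b`, `p ≠ 0`, `q ≠ 0`. By Fubini (`BW`
is bounded, measurable) `Ph b p q = ∫_y fc (fun w => BW (GG b (cu y) w)) p · ch (-q) (cu y)`; for
a.e. `y` (`ae_Gp`) `lap` gives
`-(cc² mm p cj (mm p)) Ph b p q = ∫_y fc (JJ b (cu y)) p · ch (-q) (cu y)`.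
With `A = aa b`, `B w = Z (w - b) + Z (w + b)` (so `A = B - 2 Z`) and `aa c w = Z (w - c) + Z (w + c)
- 2 Z w`:
`JJ b c w = H(w, c) - c0(w)`, `4 i H = conj(A w) (Z (w - c) + Z (w + c)) - A w conj(Z (w - c) +
Z (w + c))`, `4 i c0 = 2 (conj(A w) Z w - A w conj(Z w)) = 2 (conj(B w) Z w - B w conj(Z w))`,
integrable by `Z_int2` (`Ofl b`), independent of `c`: it contributes `0` since `∫ ch (-q) = 0`
(`integral_ch`, `q ≠ 0`). `H` is integrable on `E × E` (`conv_int`, `conv_int'` with `F = conj A` or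
`A`, `G = Z` or `conj Z`; `aa_int`, `aa_cj_int`, `Z_int`), so Fubini in the other order, and
`fcc` of the four terms by `conv_fcc`, `conv_fcc'`, `fc_aa`, `fc_aa_cj`, `fc_Z`, `fc_Z_conj`. With the
letters `p, q` for `mm p, mm q`, `S = ss b (p + q)`, `T = ss b (p - q)`, `Δ = p q̄ - p̄ q = dl p q`:
`4 i fcc H (p,q) = S/(p+q) · 1/q̄ - T/(p-q) · 1/q̄ - S/(p̄+q̄) · 1/q + T/(p̄-q̄) · 1/q
= -(Δ/|q|²) (S/|p+q|² - T/|p-q|²)`
(if `p + q = 0` then `S = ss b 0 = 0`, same for `p - q`), which is the claim.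
(Checked numerically.)
`ae_Gp`: the bad `c` lie in a countable union of lattice translates (`ae_cu`, `ofl_cnt`).
`BWG_meas2`: `GG_meas2`, `EE7.BW_meas`, `measurable_cu`.
-/

open MeasureTheory

namespace UQO

variable [Lt]

theorem BWG_meas2 (b : ℂ) :
    Measurable (fun x : E × E => (BW (GG b (cu x.2) (cu x.1)) : ℂ)) := by
  have h1 : Measurable (fun x : E × E => ((cu x.1, cu x.2) : ℂ × ℂ)) :=
    (measurable_cu.comp measurable_fst).prodMk (measurable_cu.comp measurable_snd)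
  have h2 := (GG_meas2 b).comp h1
  have h3 := EE7.BW_meas.comp h2
  exact Complex.measurable_ofReal.comp h3

theorem BWG_bdd : ∃ C : ℝ, ∀ z : ℂ, ‖((BW z : ℝ) : ℂ)‖ ≤ C := by
  obtain ⟨C, _, h⟩ := EE7.BW_bdd
  refine ⟨C, fun z => ?_⟩
  rw [Complex.norm_real]
  exact h z

theorem ae_Gp {b : ℂ} (hb : Ofl b) : ∀ᵐ y : E, Gp b (cu y) := by
  filter_upwards [ae_cu (ofl_cnt 0), ae_cu (ofl_cnt (-b)), ae_cu (ofl_cnt b)] with y h0 h1 h2
  have g0 : Ofl (cu y + 0) := by
    by_contra h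
    exact h0 h
  have g1 : Ofl (cu y + -b) := by
    by_contra h
    exact h1 h
  have g2 : Ofl (cu y + b) := by
    by_contra h
    exact h2 h
  refine ⟨hb, ?_, ?_, ?_⟩
  · rwa [add_zero] at g0
  · rw [← ZBas_ofl_neg, neg_sub, sub_eq_add_neg]
    exact g1
  · rw [add_comm]
    exact g2

private lemma BPhi_finE : IsFiniteMeasure (volume : Measure E) := by
  rw [Measure.volume_eq_prod]
  infer_instance

private lemma BPhi_finEE : IsFiniteMeasure (volume : Measure (E × E)) := by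
  have := BPhi_finE
  rw [Measure.volume_eq_prod]
  infer_instance

/-- a bounded character factor does not change integrability on `E × E` -/
private lemma BPhi_mul_ch {f : E × E → ℂ} (hf : Integrable f) (a b : ℤ × ℤ) :
    Integrable (fun q : E × E => f q * (ch a (cu q.1) * ch b (cu q.2))) := by
  have hc : Continuous (fun q : E × E => ch a (cu q.1) * ch b (cu q.2)) :=
    ((continuous_ch_cu a).comp continuous_fst).mul ((continuous_ch_cu b).comp continuous_snd)
  refine hf.mul_bdd (c := 1) hc.aestronglyMeasurable (Filter.Eventually.of_forall fun q => ?_)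
  rw [norm_mul, norm_ch, norm_ch, one_mul]

private lemma BPhi_mul_ch1 {f : E → ℂ} (hf : Integrable f) (a : ℤ × ℤ) :
    Integrable (fun x : E => f x * ch a (cu x)) := by
  refine hf.mul_bdd (c := 1) (continuous_ch_cu a).aestronglyMeasurable
    (Filter.Eventually.of_forall fun q => ?_)
  rw [norm_ch]

/-- the four products -/
private noncomputable def BPhi_H (b u v : ℂ) : ℂ :=
  (1 / (4 * Complex.I)) * ((cj (aa b u) * Z (u + v) + cj (aa b u) * Z (u - v))
    - (aa b u * cj (Z (u + v)) + aa b u * cj (Z (u - v))))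

private noncomputable def BPhi_c (b u : ℂ) : ℂ :=
  (1 / (4 * Complex.I)) * (2 * (cj (aa b u) * Z u - aa b u * cj (Z u)))

private lemma BPhi_split (b u v : ℂ) : JJ b v u = BPhi_H b u v - BPhi_c b u := by
  unfold BPhi_H BPhi_c JJ
  have e : aa v u = Z (u - v) + Z (u + v) - 2 * Z u := rfl
  rw [e, cj_sub, cj_add, cj_mul, cj_two]
  ring

private lemma BPhi_cZ_per : Per (fun u => cj (Z u)) := by
  intro u n
  show cj (Z (u + xx n)) = cj (Z u)
  rw [Z_per]

private lemma BPhi_cj_int {f : E → ℂ} (h : Integrable f) : Integrable (fun x => cj (f x)) :=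
  (Complex.conjLIE : ℂ ≃ₗᵢ[ℝ] ℂ).toContinuousLinearEquiv.toContinuousLinearMap.integrable_comp h

private lemma BPhi_c_int {b : ℂ} (hb : Ofl b) : Integrable (fun x : E => BPhi_c b (cu x)) := by
  have o1 : Ofl (-b - 0) := by
    rw [sub_zero, ZBas_ofl_neg]
    exact hb
  have o2 : Ofl (b - 0) := by
    rw [sub_zero]
    exact hb
  have i1 := Z_int2 o1
  have i2 := Z_int2 o2
  have hm : AEStronglyMeasurable (fun x : E => BPhi_c b (cu x)) volume := by
    have h1 : Measurable (fun x : E => aa b (cu x)) := (aa_meas b).comp measurable_cu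
    have h2 : Measurable (fun x : E => Z (cu x)) := Z_meas.comp measurable_cu
    have h3 : Measurable (fun x : E => cj (aa b (cu x))) :=
      (Complex.continuous_conj.measurable).comp h1
    have h4 : Measurable (fun x : E => cj (Z (cu x))) :=
      (Complex.continuous_conj.measurable).comp h2
    exact ((((h3.mul h2).sub (h1.mul h4)).const_mul 2).const_mul
      (1 / (4 * Complex.I))).aestronglyMeasurable
  refine Integrable.mono' (i1.add i2) hm (Filter.Eventually.of_forall fun x => ?_)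
  have e : BPhi_c b (cu x) = (1 / (4 * Complex.I)) * (2 * (cj (Z (cu x + -b)) * Z (cu x + 0)
      + cj (Z (cu x + b)) * Z (cu x + 0) - (Z (cu x + -b) * cj (Z (cu x + 0))
      + Z (cu x + b) * cj (Z (cu x + 0))))) := by
    unfold BPhi_c
    have e : aa b (cu x) = Z (cu x - b) + Z (cu x + b) - 2 * Z (cu x) := rfl
    rw [e, cj_sub, cj_add, cj_mul, cj_two, add_zero, ← sub_eq_add_neg]
    ring
  rw [e, norm_mul, norm_mul, norm_div, norm_mul, Complex.norm_I, norm_one]
  have n4 : ‖(4 : ℂ)‖ = 4 := by norm_num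
  have n2 : ‖(2 : ℂ)‖ = 2 := by norm_num
  rw [n4, n2]
  have t1 := norm_sub_le (cj (Z (cu x + -b)) * Z (cu x + 0) + cj (Z (cu x + b)) * Z (cu x + 0))
    (Z (cu x + -b) * cj (Z (cu x + 0)) + Z (cu x + b) * cj (Z (cu x + 0)))
  have t2 := norm_add_le (cj (Z (cu x + -b)) * Z (cu x + 0)) (cj (Z (cu x + b)) * Z (cu x + 0))
  have t3 := norm_add_le (Z (cu x + -b) * cj (Z (cu x + 0))) (Z (cu x + b) * cj (Z (cu x + 0)))
  rw [norm_mul, norm_mul, norm_cj, norm_cj] at t2
  rw [norm_mul, norm_mul, norm_cj] at t3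
  show _ ≤ ‖Z (cu x + -b)‖ * ‖Z (cu x + 0)‖ + ‖Z (cu x + b)‖ * ‖Z (cu x + 0)‖
  linarith

private lemma BPhi_ints (b : ℂ) (p q : ℤ × ℤ) :
    Integrable (fun x : E × E => BPhi_H b (cu x.1) (cu x.2)) ∧
    ∫ x : E × E, BPhi_H b (cu x.1) (cu x.2) * (ch (-p) (cu x.1) * ch (-q) (cu x.2)) =
      (1 / (4 * Complex.I)) * (fc Z q * fc (fun u => cj (aa b u)) (p - q) +
        fc Z (-q) * fc (fun u => cj (aa b u)) (p + q) -
        (fc (fun u => cj (Z u)) q * fc (aa b) (p - q) +
        fc (fun u => cj (Z u)) (-q) * fc (aa b) (p + q))) := by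
  have i1 := aa_int b
  have i2 := aa_cj_int b
  have j1 := Z_int
  have j2 := BPhi_cj_int j1
  have a1 := conv_int (F := fun u => cj (aa b u)) Z_per i2 j1
  have a2 := conv_int' (F := fun u => cj (aa b u)) Z_per i2 j1
  have a3 := conv_int (F := aa b) (G := fun u => cj (Z u)) BPhi_cZ_per i1 j2
  have a4 := conv_int' (F := aa b) (G := fun u => cj (Z u)) BPhi_cZ_per i1 j2
  refine ⟨((a1.add a2).sub (a3.add a4)).const_mul _, ?_⟩
  rw [← conv_fcc (F := fun u => cj (aa b u)) Z_per i2 j1,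
    ← conv_fcc' (F := fun u => cj (aa b u)) Z_per i2 j1,
    ← conv_fcc (F := aa b) (G := fun u => cj (Z u)) BPhi_cZ_per i1 j2,
    ← conv_fcc' (F := aa b) (G := fun u => cj (Z u)) BPhi_cZ_per i1 j2]
  have b1 := BPhi_mul_ch a1 (-p) (-q)
  have b2 := BPhi_mul_ch a2 (-p) (-q)
  have b3 := BPhi_mul_ch a3 (-p) (-q)
  have b4 := BPhi_mul_ch a4 (-p) (-q)
  have e := (integral_sub (b1.add b2) (b3.add b4)).trans
    (congrArg₂ (· - ·) (integral_add b1 b2) (integral_add b3 b4))
  refine Eq.trans ?_ (congrArg (fun z : ℂ => 1 / (4 * Complex.I) * z) e)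
  show _ = 1 / (4 * Complex.I) * _
  rw [← integral_const_mul]
  congr 1
  funext x
  simp only [BPhi_H, Pi.add_apply]
  ring

private lemma BPhi_alg1 {z S q : ℂ} (hq : q ≠ 0) :
    S / (z + q) * (1 / cj q) - S / (cj z + cj q) * (1 / q) =
      -((z * cj q - cj z * q) / (q * cj q)) * (S / ((z + q) * (cj z + cj q))) := by
  have hq' : cj q ≠ 0 := fun h => hq (cj_eq_zero.1 h)
  by_cases h : z + q = 0
  · have h' : cj z + cj q = 0 := by
      rw [← cj_add, h, cj_zero]
    rw [h, h']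
    simp
  · have h' : cj z + cj q ≠ 0 := by
      rw [← cj_add]
      exact fun h0 => h (cj_eq_zero.1 h0)
    field_simp
    ring

private lemma BPhi_alg (b : ℂ) {p q : ℤ × ℤ} (hp : p ≠ 0) (hq : q ≠ 0) :
    (1 / (4 * Complex.I)) * (fc Z q * fc (fun u => cj (aa b u)) (p - q) +
        fc Z (-q) * fc (fun u => cj (aa b u)) (p + q) -
        (fc (fun u => cj (Z u)) q * fc (aa b) (p - q) +
        fc (fun u => cj (Z u)) (-q) * fc (aa b) (p + q))) =
      -((cc : ℂ) ^ 2 * (mm p * cj (mm p)) * PF b p q) := by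
  rw [fc_Z, fc_Z, fc_Z_conj, fc_Z_conj, fc_aa, fc_aa, fc_aa_cj, fc_aa_cj]
  have x1 : mm p ≠ 0 := fun h => hp (mm_eq_zero.1 h)
  have x2 : mm q ≠ 0 := fun h => hq (mm_eq_zero.1 h)
  have y1 : cj (mm p) ≠ 0 := fun h => x1 (cj_eq_zero.1 h)
  have y2 : cj (mm q) ≠ 0 := fun h => x2 (cj_eq_zero.1 h)
  have x3 : -mm q ≠ 0 := neg_ne_zero.2 x2
  have k1 := BPhi_alg1 (z := mm p) (S := ss b (p + q)) x2
  have k2 := BPhi_alg1 (z := mm p) (S := ss b (p - q)) x3
  have hc := cc_ne
  have hI := Complex.I_ne_zero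
  have hI2 := Complex.I_sq
  unfold PF dl
  rw [mm_sub, mm_add, mm_neg, cj_sub, cj_add, cj_neg]
  rw [cj_neg, ← sub_eq_add_neg, ← sub_eq_add_neg] at k2
  generalize ss b (p + q) / ((mm p + mm q) * (cj (mm p) + cj (mm q))) = X at k1 ⊢
  generalize ss b (p - q) / ((mm p - mm q) * (cj (mm p) - cj (mm q))) = Y at k2 ⊢
  generalize ss b (p + q) / (mm p + mm q) = X1 at k1 ⊢
  generalize ss b (p + q) / (cj (mm p) + cj (mm q)) = X2 at k1 ⊢
  generalize ss b (p - q) / (mm p - mm q) = Y1 at k2 ⊢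
  generalize ss b (p - q) / (cj (mm p) - cj (mm q)) = Y2 at k2 ⊢
  have e1 : -(1 / cj (mm q)) * Y1 + -(1 / -cj (mm q)) * X1 -
      (1 / mm q * -Y2 + 1 / -mm q * -X2) =
      (X1 * (1 / cj (mm q)) - X2 * (1 / mm q)) + (Y1 * (1 / -cj (mm q)) - Y2 * (1 / -mm q)) := by
    rw [div_neg, div_neg]
    ring
  rw [e1, k1, k2]
  field_simp
  ring_nf
  try simp only [hI2]
  try ring

theorem Ph_eq {b : ℂ} (hb : Ofl b) {p q : ℤ × ℤ} (hp : p ≠ 0) (hq : q ≠ 0) :
    Ph b p q = PF b p q := by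
  have x1 : mm p ≠ 0 := fun h => hp (mm_eq_zero.1 h)
  have y1 : cj (mm p) ≠ 0 := fun h => x1 (cj_eq_zero.1 h)
  have hc := cc_ne
  have hK : (cc : ℂ) ^ 2 * (mm p * cj (mm p)) ≠ 0 :=
    mul_ne_zero (pow_ne_zero 2 hc) (mul_ne_zero x1 y1)
  obtain ⟨C, hB⟩ := BWG_bdd
  have := BPhi_finEE
  have iB : Integrable (fun x : E × E => (BW (GG b (cu x.2) (cu x.1)) : ℂ)) := by
    refine Integrable.mono' (integrable_const C) (BWG_meas2 b).aestronglyMeasurable
      (Filter.Eventually.of_forall fun q => ?_)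
    exact hB _
  have iB' := BPhi_mul_ch iB (-p) (-q)
  obtain ⟨iH, eH⟩ := BPhi_ints b p q
  have iH' := BPhi_mul_ch iH (-p) (-q)
  have key : (cc : ℂ) ^ 2 * (mm p * cj (mm p)) * Ph b p q =
      -∫ x : E × E, BPhi_H b (cu x.1) (cu x.2) * (ch (-p) (cu x.1) * ch (-q) (cu x.2)) := by
    have d1 : Ph b p q = ∫ y : E, fc (fun w => (BW (GG b (cu y) w) : ℂ)) p * ch (-q) (cu y) := by
      unfold Ph fcc
      rw [Measure.volume_eq_prod] at iB' ⊢
      rw [integral_prod_symm _ iB']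
      congr 1
      funext y
      unfold fc
      rw [← integral_mul_const]
      congr 1
      funext x
      ring
    have iH2 := iH'
    rw [Measure.volume_eq_prod] at iH2
    have s1 := iH2.prod_left_ae
    have s2 := iH2.integral_prod_right
    have d2 : (fun y : E => -((cc : ℂ) ^ 2 * (mm p * cj (mm p)) *
        (fc (fun w => (BW (GG b (cu y) w) : ℂ)) p * ch (-q) (cu y)))) =ᵐ[volume]
        fun y => (∫ x : E, BPhi_H b (cu x) (cu y) * (ch (-p) (cu x) * ch (-q) (cu y))) -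
          fc (BPhi_c b) p * ch (-q) (cu y) := by
      filter_upwards [ae_Gp hb, s1] with y hy hs
      have h1 := (lap hy).2 p
      have h2 : -((cc : ℂ) ^ 2 * (mm p * cj (mm p)) *
        (fc (fun w => (BW (GG b (cu y) w) : ℂ)) p * ch (-q) (cu y))) =
        fc (JJ b (cu y)) p * ch (-q) (cu y) := by
        rw [h1]
        ring
      rw [h2]
      unfold fc
      rw [← integral_mul_const, ← integral_mul_const, ← integral_sub hs
        ((BPhi_mul_ch1 (BPhi_c_int hb) (-p)).mul_const _)]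
      congr 1
      funext x
      show JJ b (cu y) (cu x) * ch (-p) (cu x) * ch (-q) (cu y) = _
      rw [BPhi_split]
      ring
    have d3 : ∫ y : E, -((cc : ℂ) ^ 2 * (mm p * cj (mm p)) *
        (fc (fun w => (BW (GG b (cu y) w) : ℂ)) p * ch (-q) (cu y))) =
        -((cc : ℂ) ^ 2 * (mm p * cj (mm p)) * Ph b p q) := by
      rw [integral_neg, integral_const_mul, ← d1]
    have hfin := BPhi_finE
    have i3 : Integrable (fun y : E => fc (BPhi_c b) p * ch (-q) (cu y)) := by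
      have : Integrable (fun y : E => (1 : ℂ) * ch (-q) (cu y)) :=
        BPhi_mul_ch1 (integrable_const (1 : ℂ)) (-q)
      simp only [one_mul] at this
      exact this.const_mul _
    rw [← neg_eq_iff_eq_neg, ← d3, integral_congr_ae d2, integral_sub s2 i3, integral_const_mul,
      integral_ch, if_neg (neg_ne_zero.2 hq), mul_zero, sub_zero]
    exact (integral_prod_symm _ iH2).symm
  rw [eH, BPhi_alg b hp hq, neg_neg] at key
  exact mul_left_cancel₀ hK key

end UQO
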