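import Mathlib
import Pool.Agent.EllSch.Defs
import Pool.Agent.EE7.Defs
import Pool.Agent.UNI.Par

/-!
# UNI: common definitions (MP_870c49_nt, every imaginary quadratic order)

`O = ℤ + ℤ α` (`UNI.Par`), `E = ℂ / O`, `G N = (1/N) O / O`.
The torus `EE7.E = UnitAddCircle × UnitAddCircle` has the coordinates `u = s + s' α`.
The Bloch-Wigner dilogarithm `EE7.BW` and its derivatives `EE7.D1`, `EE7.D2`, `EE7.D11`, `EE7.wl`,
the approximate identities `EE7.AI` are those of EE7.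
-/

open MeasureTheory

namespace UNI

noncomputable section

/-! ### arithmetic of `O` -/

/-- complex conjugation as a plain function -/
abbrev cj (z : ℂ) : ℂ := (starRingEnd ℂ) z

/-- `√|D|`, `D = t² - 4 n` -/
def sD (a : Par) : ℝ := Real.sqrt (4 * a.n - a.t ^ 2)

/-- `κ = π / Im α = 2 π / √|D|` -/
def kap (a : Par) : ℝ := 2 * Real.pi / sD a

/-- multiplication of `O` on coordinates -/
def mul (a : Par) (d m : ℤ × ℤ) : ℤ × ℤ :=
  (d.1 * m.1 - a.n * d.2 * m.2, d.1 * m.2 + d.2 * m.1 + a.t * d.2 * m.2)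

/-- `α` -/
def al : ℤ × ℤ := (0, 1)

/-- `β = 1 - α` -/
def be : ℤ × ℤ := (1, -1)

/-- the determinant `det (r, s)`; `r̄ s - r s̄ = (α - ᾱ) det (r, s)` -/
def dt (r s : ℤ × ℤ) : ℤ := r.1 * s.2 - r.2 * s.1

/-- `N(α) N(β)` -/
def nab (a : Par) : ℤ := a.n * (1 - a.t + a.n)

/-! ### Weierstrass functions of `O` -/

/-- Weierstrass `℘` of `O` -/
def P (a : Par) (u : ℂ) : ℂ := Pool.Agent.EllSch.wp 1 (om a) u

/-- its derivative -/
def P1 (a : Par) (u : ℂ) : ℂ := Pool.Agent.EllSch.wq 1 (om a) u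

/-- `u` is not in `O` -/
def Ofl (a : Par) (u : ℂ) : Prop := Pool.Agent.EllSch.Off 1 (om a) u

open Classical in
/-- the doubly periodic (non holomorphic) zeta function; it is `0` on the lattice -/
def Z (a : Par) (u : ℂ) : ℂ :=
  if Ofl a u then
    Pool.Agent.EllSch.wz 1 (om a) u - (Pool.Agent.EllSch.eta1 1 (om a) - kap a) * u - kap a * cj u
  else 0

/-- periodicity with respect to `O` -/
def Per (a : Par) {A : Type*} (F : ℂ → A) : Prop := ∀ (u : ℂ) (n : ℤ × ℤ), F (u + xx a n) = F u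

/-- the characters of `ℂ / O` -/
def ch (a : Par) (n : ℤ × ℤ) (u : ℂ) : ℂ := Complex.exp (kap a * (xx a n * u - cj (xx a n * u)))

/-! ### the torus -/

/-- the torus `ℂ / O` in the real coordinates `u = s + s' α` -/
abbrev E : Type := EE7.E

/-- the representative of a point of the torus in the fundamental cell -/
def cu (a : Par) (x : E) : ℂ := (EE7.rep x.1 : ℂ) + (EE7.rep x.2 : ℂ) * om a

/-- the projection `ℂ → E` -/
def pr (a : Par) (u : ℂ) : E :=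
  (((u.re - a.t * u.im / sD a : ℝ) : UnitAddCircle), ((2 * u.im / sD a : ℝ) : UnitAddCircle))

/-- Fourier coefficient -/
def fc (a : Par) (F : ℂ → ℂ) (n : ℤ × ℤ) : ℂ := ∫ x : E, F (cu a x) * ch a (-n) (cu a x)

/-- Fourier coefficients on `E × E` -/
def fcc (a : Par) (F : E × E → ℂ) (k : (ℤ × ℤ) × (ℤ × ℤ)) : ℂ :=
  ∫ q : E × E, F q * (ch a (-k.1) (cu a q.1) * ch a (-k.2) (cu a q.2))

/-! ### torsion points -/

/-- the group `(1/N) O / O` -/
abbrev G (N : ℕ) : Type := ZMod N × ZMod N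

/-- the torsion point with index `k` -/
def tp (a : Par) {N : ℕ} (k : G N) : ℂ := ((k.1.val : ℂ) + (k.2.val : ℂ) * om a) / N

/-- multiplication by `d ∈ O` on `(1/N) O / O` -/
def sm (a : Par) {N : ℕ} (d : ℤ × ℤ) (k : G N) : G N :=
  (d.1 * k.1 - a.n * d.2 * k.2, d.1 * k.2 + d.2 * k.1 + a.t * d.2 * k.2)

open Classical in
/-- the weight `H(k,l)`: `0` unless `c k = c l = 0`, and then
`1 - c [k, l dependent mod c] + (c³ - c²) [k = l = 0]` -/
def HH (c : ℕ) {N : ℕ} (k l : G N) : ℤ :=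
  if c • k = 0 ∧ c • l = 0 then
    1 - (if ∃ x y : ℤ, ¬ ((c : ℤ) ∣ x ∧ (c : ℤ) ∣ y) ∧ x • k + y • l = 0 then (c : ℤ) else 0)
      + (if k = 0 ∧ l = 0 then (c : ℤ) ^ 3 - (c : ℤ) ^ 2 else 0)
  else 0

/-- the first half of the weight `W` -/
def Wh (a : Par) (c : ℕ) {N : ℕ} (k l : G N) : ℤ :=
  HH c (sm a be k) (sm a al l) - HH c (sm a al (sm a be k)) (sm a al l)
    + HH c (sm a al (sm a be k)) (sm a be l)

/-- the weight `W(k,l)` -/
def Wt (a : Par) (c : ℕ) {N : ℕ} (k l : G N) : ℤ := Wh a c k l - Wh a c l k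

/-! ### the functions of the element -/

/-- `(℘(u+h) - ℘(h)) / (℘(v+h) - ℘(h))` -/
def Ff (a : Par) (h u v : ℂ) : ℂ := (P a (u + h) - P a h) / (P a (v + h) - P a h)

/-- `(℘(z) - ℘(y)) / (℘(x) - ℘(y))` -/
def Yf (a : Par) (x y z : ℂ) : ℂ := (P a z - P a y) / (P a x - P a y)

/-- `(℘(z) - ℘(k))^(N²) / ∏_s (℘(z+s) - ℘(k))` -/
def Af (a : Par) {N : ℕ} [NeZero N] (k : G N) (z : ℂ) : ℂ :=
  (P a z - P a (tp a k)) ^ (N ^ 2) / ∏ s : G N, (P a (z + tp a s) - P a (tp a k))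

/-- `∏_{e ≠ 0} (℘(z) - ℘(e))` -/
def Cf (a : Par) (N : ℕ) [NeZero N] (z : ℂ) : ℂ :=
  ∏ e ∈ (Finset.univ : Finset (G N)).erase 0, (P a z - P a (tp a e))

/-- the element `ξ = Σ {F}₂ ⊗ g ∧ h`, as the functional `T ↦ Σ T F g h` -/
def xi (a : Par) {N : ℕ} [NeZero N] (W : G N → G N → ℤ) {B : Type*} [AddCommGroup B]
    (T : (ℂ → ℂ → ℂ) → (ℂ → ℂ → ℂ) → (ℂ → ℂ → ℂ) → B) : B :=
  ∑ k ∈ (Finset.univ : Finset (G N)).erase 0, ∑ l ∈ (Finset.univ : Finset (G N)).erase 0,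
    W k l • ((4 : ℤ) • (∑ h ∈ (Finset.univ : Finset (G N)).erase 0,
        T (fun u v => Ff a (tp a h) u v) (fun u _ => Af a k u) (fun _ v => Af a l v))
      + (∑ j ∈ (((Finset.univ : Finset (G N)).erase 0).erase k).erase (-k),
        T (fun u _ => Yf a (tp a k) (tp a j) u) (fun u v => Cf a N (u - v)) (fun _ v => Af a l v))
      + (∑ j ∈ (((Finset.univ : Finset (G N)).erase 0).erase l).erase (-l),
        T (fun _ v => Yf a (tp a l) (tp a j) v) (fun u v => Cf a N (u - v)) (fun u _ => Af a k u)))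

/-- the coefficient of `du ∧ dv` in `dlog f ∧ dlog g` -/
def wedge (f g : ℂ → ℂ → ℂ) (u v : ℂ) : ℂ :=
  (deriv (fun w => f w v) u * deriv (fun w => g u w) v
    - deriv (fun w => f u w) v * deriv (fun w => g w v) u) / (f u v * g u v)

/-- the regulator form `Reg du ∧ dv` of `ξ` -/
def Reg (a : Par) {N : ℕ} [NeZero N] (W : G N → G N → ℤ) (u v : ℂ) : ℂ :=
  xi a W (fun F g h => (EE7.BW (F u v) : ℂ) * wedge g h u v)

/-! ### closedness -/

/-- generic points: none of `N u`, `N v`, `N (u + v)`, `N (u - v)` is in `O` -/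
def Gn (a : Par) (N : ℕ) : Type :=
  {q : ℂ × ℂ // Ofl a (N * q.1) ∧ Ofl a (N * q.2) ∧ Ofl a (N * (q.1 + q.2)) ∧
    Ofl a (N * (q.1 - q.2))}

open Classical in
/-- a function as an element of the group of nowhere vanishing functions on the generic points
(a value `0` is replaced by `1`) -/
def cl (a : Par) (N : ℕ) (f : ℂ → ℂ → ℂ) : Additive (Gn a N → ℂˣ) :=
  Additive.ofMul (fun q => if h : f q.1.1 q.1.2 ≠ 0 then Units.mk0 (f q.1.1 q.1.2) h else 1)

/-- translation by torsion points -/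
def tr (a : Par) {N : ℕ} (s t : G N) (f : ℂ → ℂ → ℂ) (u v : ℂ) : ℂ := f (u + tp a s) (v + tp a t)

/-- the boundary `Σ (1-F) ∧ F ∧ g ∧ h` of the sum of all translates of `ξ`, tested against `Φ` -/
def bdry (a : Par) {N : ℕ} [NeZero N] (W : G N → G N → ℤ)
    (Φ : (Additive (Gn a N → ℂˣ)) [⋀^Fin 4]→ₗ[ℤ] ℂ) : ℂ :=
  ∑ s : G N, ∑ t : G N, xi a W (fun F g h =>
    Φ ![cl a N (tr a s t (fun u v => 1 - F u v)), cl a N (tr a s t F), cl a N (tr a s t g),
      cl a N (tr a s t h)])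

/-! ### lattice sums -/

/-- the kernel
`(x ȳ - x̄ y)(x̄² + x̄ ȳ + ȳ²) / (|x|² |y|² |x-y|² x̄² ȳ²)` -/
def KK (x y : ℂ) : ℂ :=
  (x * cj y - cj x * y) * (cj x ^ 2 + cj x * cj y + cj y ^ 2) /
    (x * cj x * (y * cj y) * ((x - y) * cj (x - y)) * (cj x ^ 2 * cj y ^ 2))

/-- the double Fourier transform of the weight -/
def Wd (a : Par) {N : ℕ} [NeZero N] (W : G N → G N → ℤ) (x y : ℤ × ℤ) : ℂ :=
  ∑ k : G N, ∑ l : G N, (W k l : ℂ) * (ch a x (tp a k) * ch a y (tp a l))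

end

end UNI
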