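import Pool.Agent.UNI.Defs

/-!
# UNI part (B): the regulator integral as a lattice sum (architect helper29)
-/

open MeasureTheory

namespace UNI

/-- the regulator integral; `W` is even, antisymmetric, with row sums `0`, and supported on the
`N/2`-torsion -/
theorem reg_val (a : Par) (N : ℕ) [NeZero N] (hN : Even N) (W : G N → G N → ℤ)
    (hev : ∀ k l, W (-k) l = W k l) (hanti : ∀ k l, W l k = -W k l)
    (hrow : ∀ l, ∑ k, W k l = 0) (hsupp : ∀ k l, W k l ≠ 0 → (N / 2) • k = 0) :
    Integrable (fun q : E × E => Reg a W (cu a q.1) (cu a q.2)) ∧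
    ∫ q : E × E, Reg a W (cu a q.1) (cu a q.2) =
      -(4 * Complex.I * N ^ 6 / kap a ^ 2) *
        ∑' x : (ℤ × ℤ) × (ℤ × ℤ), Wd a W x.1 x.2 * KK (xx a x.1) (xx a x.2) := by
  sorry

end UNI
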