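import Pool.Agent.UNI.Defs

/-!
# UNI part (W): the weights
-/

namespace UNI

theorem Wt_even (a : Par) (c : ℕ) {N : ℕ} (k l : G N) : Wt a c (-k) l = Wt a c k l := by
  sorry

theorem Wt_anti (a : Par) (c : ℕ) {N : ℕ} (k l : G N) : Wt a c l k = -Wt a c k l := by
  sorry

theorem Wt_row (a : Par) (c : ℕ) (hc : c.Prime) (N : ℕ) [NeZero N]
    (hN : (2 * c * nab a : ℤ) ∣ N) (l : G N) : ∑ k : G N, Wt a c k l = 0 := by
  sorry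

theorem Wt_supp (a : Par) (c : ℕ) (N : ℕ) [NeZero N] (hN : (2 * c * nab a : ℤ) ∣ N)
    (k l : G N) (h : Wt a c k l ≠ 0) : (N / 2) • k = 0 := by
  sorry

/-- Fourier transform of `(k, l) ↦ H(d k, e l)`, first case -/
theorem HH_dft (a : Par) (c : ℕ) (hc : c.Prime) (N : ℕ) [NeZero N] (d e d' e' : ℤ × ℤ)
    (hd : mul a d d' = ((N : ℤ), 0)) (he : mul a e e' = ((N : ℤ), 0))
    (hcd : (c : ℤ) ∣ d'.1 ∧ (c : ℤ) ∣ d'.2) (hce : (c : ℤ) ∣ e'.1 ∧ (c : ℤ) ∣ e'.2)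
    (r s : ℤ × ℤ) :
    ∑ k : G N, ∑ l : G N, (HH c (sm a d k) (sm a e l) : ℂ) *
      (ch a (mul a d r) (tp a k) * ch a (mul a e s) (tp a l)) =
      nm a d * nm a e * (if (c : ℤ) ∣ dt r s then 0 else (c : ℂ) ^ 3) := by
  sorry

/-- Fourier transform of `(k, l) ↦ H(d k, e l)`, second case -/
theorem HH_dft0 (a : Par) (c : ℕ) (hc : c.Prime) (N : ℕ) [NeZero N] (d e d' e' : ℤ × ℤ)
    (hd : mul a d d' = ((N : ℤ), 0)) (he : mul a e e' = ((N : ℤ), 0))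
    (hcd : (c : ℤ) ∣ d'.1 ∧ (c : ℤ) ∣ d'.2) (hce : (c : ℤ) ∣ e'.1 ∧ (c : ℤ) ∣ e'.2)
    (x y : ℤ × ℤ) (h : ¬ ((∃ r, x = mul a d r) ∧ (∃ s, y = mul a e s))) :
    ∑ k : G N, ∑ l : G N, (HH c (sm a d k) (sm a e l) : ℂ) *
      (ch a x (tp a k) * ch a y (tp a l)) = 0 := by
  sorry

end UNI
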